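import Mathlib

/-!
Project EGT (MP_0b8466_co): elementary probability on finite types with the uniform distribution.
-/

open Finset

namespace Pool.Agent.EGT

open Classical in
/-- indicator of a proposition -/
noncomputable def ind (P : Prop) : ℝ := if P then 1 else 0

/-- average of `f` over a finite type -/
noncomputable def ex {Ω : Type*} [Fintype Ω] (f : Ω → ℝ) : ℝ := (∑ ω, f ω) / (Fintype.card Ω : ℝ)

/-- proportion of the `ω` with `P ω` -/
noncomputable def pr {Ω : Type*} [Fintype Ω] (P : Ω → Prop) : ℝ := ex (fun ω => ind (P ω))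

theorem ind_nonneg (P : Prop) : 0 ≤ ind P := by unfold ind; split_ifs <;> norm_num
theorem ind_le_one (P : Prop) : ind P ≤ 1 := by unfold ind; split_ifs <;> norm_num
theorem ind_pos {P : Prop} (h : P) : ind P = 1 := by simp [ind, h]
theorem ind_neg {P : Prop} (h : ¬ P) : ind P = 0 := by simp [ind, h]
theorem ind_mono {P Q : Prop} (h : P → Q) : ind P ≤ ind Q := by
  by_cases hP : P
  · rw [ind_pos hP, ind_pos (h hP)]
  · rw [ind_neg hP]; exact ind_nonneg Q
theorem ind_and (P Q : Prop) : ind (P ∧ Q) = ind P * ind Q := by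
  by_cases hP : P <;> by_cases hQ : Q <;> simp [ind, hP, hQ]
theorem ind_not (P : Prop) : ind (¬ P) = 1 - ind P := by
  by_cases hP : P <;> simp [ind, hP]

theorem ex_nonneg {Ω : Type*} [Fintype Ω] {f : Ω → ℝ} (h : ∀ ω, 0 ≤ f ω) : 0 ≤ ex f := by
  unfold ex
  exact div_nonneg (Finset.sum_nonneg fun ω _ => h ω) (Nat.cast_nonneg _)
theorem ex_mono {Ω : Type*} [Fintype Ω] {f g : Ω → ℝ} (h : ∀ ω, f ω ≤ g ω) : ex f ≤ ex g := by
  unfold ex
  exact div_le_div_of_nonneg_right (Finset.sum_le_sum fun ω _ => h ω) (Nat.cast_nonneg _)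
theorem ex_add {Ω : Type*} [Fintype Ω] (f g : Ω → ℝ) : ex (fun ω => f ω + g ω) = ex f + ex g := by
  unfold ex
  rw [Finset.sum_add_distrib, add_div]
theorem ex_sub {Ω : Type*} [Fintype Ω] (f g : Ω → ℝ) : ex (fun ω => f ω - g ω) = ex f - ex g := by
  unfold ex
  rw [Finset.sum_sub_distrib, sub_div]
theorem ex_const_mul {Ω : Type*} [Fintype Ω] (c : ℝ) (f : Ω → ℝ) :
    ex (fun ω => c * f ω) = c * ex f := by
  unfold ex
  rw [← Finset.mul_sum, mul_div_assoc]
theorem ex_const {Ω : Type*} [Fintype Ω] [Nonempty Ω] (c : ℝ) : ex (fun _ : Ω => c) = c := by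
  unfold ex
  have h : (Fintype.card Ω : ℝ) ≠ 0 := Nat.cast_ne_zero.mpr Fintype.card_ne_zero
  rw [Finset.sum_const, Finset.card_univ, nsmul_eq_mul, mul_div_assoc, mul_comm, div_mul_cancel₀ _ h]
theorem ex_le_of_le {Ω : Type*} [Fintype Ω] {f : Ω → ℝ} {c : ℝ} (hc : 0 ≤ c) (h : ∀ ω, f ω ≤ c) :
    ex f ≤ c := by
  rcases isEmpty_or_nonempty Ω with hΩ | hΩ
  · unfold ex
    simp [hc]
  · calc ex f ≤ ex (fun _ : Ω => c) := ex_mono h
      _ = c := ex_const c
theorem ex_sum {Ω ι : Type*} [Fintype Ω] (s : Finset ι) (f : ι → Ω → ℝ) :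
    ex (fun ω => ∑ i ∈ s, f i ω) = ∑ i ∈ s, ex (f i) := by
  unfold ex
  rw [Finset.sum_comm, Finset.sum_div]
theorem ex_comm {α β : Type*} [Fintype α] [Fintype β] (f : α → β → ℝ) :
    ex (fun a => ex (fun b => f a b)) = ex (fun b => ex (fun a => f a b)) := by
  unfold ex
  rw [← Finset.sum_div, ← Finset.sum_div, Finset.sum_comm, div_div, div_div, mul_comm]
theorem ex_equiv {α β : Type*} [Fintype α] [Fintype β] (e : α ≃ β) (f : β → ℝ) :
    ex (fun a => f (e a)) = ex f := by
  unfold ex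
  rw [Fintype.card_congr e, Equiv.sum_comp e f]
theorem ex_prod {α β : Type*} [Fintype α] [Fintype β] (f : α × β → ℝ) :
    ex f = ex (fun a => ex (fun b => f (a, b))) := by
  unfold ex
  rw [Fintype.sum_prod_type, Fintype.card_prod, ← Finset.sum_div, div_div, Nat.cast_mul, mul_comm (Fintype.card β : ℝ)]
/-- independence: product functions on a product space -/
theorem ex_pi_prod {ι : Type*} [Fintype ι] [DecidableEq ι] {Ω : ι → Type*} [∀ i, Fintype (Ω i)]
    (g : ∀ i, Ω i → ℝ) : ex (fun ω : ∀ i, Ω i => ∏ i, g i (ω i)) = ∏ i, ex (g i) := by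
  unfold ex
  rw [Finset.prod_div_distrib, Finset.prod_univ_sum, Fintype.card_pi, Nat.cast_prod,
    Fintype.piFinset_univ]
/-- a function of one coordinate -/
theorem ex_pi_one {ι : Type*} [Fintype ι] [DecidableEq ι] {Ω : ι → Type*} [∀ i, Fintype (Ω i)]
    [∀ i, Nonempty (Ω i)] (i : ι) (f : Ω i → ℝ) : ex (fun ω : ∀ i, Ω i => f (ω i)) = ex f := by
  have h1 : ∀ ω : (∀ i, Ω i), f (ω i) = ∏ j, (if h : j = i then f (h ▸ ω j) else 1) := by
    intro ω
    rw [Finset.prod_eq_single i]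
    · simp
    · intro b _ hb
      simp [hb]
    · intro h
      exact absurd (Finset.mem_univ i) h
  have h2 : ex (fun ω : ∀ i, Ω i => f (ω i))
      = ex (fun ω : ∀ i, Ω i => ∏ j, (fun (j : ι) (a : Ω j) => if h : j = i then f (h ▸ a) else 1) j (ω j)) := by
    congr 1
    funext ω
    exact h1 ω
  rw [h2, ex_pi_prod (fun (j : ι) (a : Ω j) => if h : j = i then f (h ▸ a) else 1),
    Finset.prod_eq_single i]
  · simp
  · intro b _ hb
    simp only [hb, dif_neg, not_false_eq_true]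
    exact ex_const 1
  · intro h
    exact absurd (Finset.mem_univ i) h
/-- resampling one coordinate -/
theorem ex_update {ι : Type*} [Fintype ι] [DecidableEq ι] {Ω : ι → Type*} [∀ i, Fintype (Ω i)]
    (i : ι) (f : (∀ i, Ω i) → ℝ) :
    ex f = ex (fun ω : ∀ i, Ω i => ex (fun a : Ω i => f (Function.update ω i a))) := by
  unfold ex
  rw [← Finset.sum_div, div_div]
  rcases isEmpty_or_nonempty (Ω i) with hi | hi
  · have : IsEmpty (∀ i, Ω i) := ⟨fun ω => hi.false (ω i)⟩
    simp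
  · have hc : (Fintype.card (Ω i) : ℝ) ≠ 0 := Nat.cast_ne_zero.mpr Fintype.card_ne_zero
    have key : ∑ ω : (∀ i, Ω i), ∑ a : Ω i, f (Function.update ω i a)
        = (Fintype.card (Ω i) : ℝ) * ∑ ω, f ω := by
      rw [← Fintype.sum_prod_type' (fun (ω : ∀ i, Ω i) (a : Ω i) => f (Function.update ω i a))]
      have h3 : ∑ p : (∀ i, Ω i) × Ω i, f (Function.update p.1 i p.2)
          = ∑ p : (∀ i, Ω i) × Ω i, f p.1 := by
        refine Finset.sum_bij' (fun p _ => (Function.update p.1 i p.2, p.1 i))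
          (fun p _ => (Function.update p.1 i p.2, p.1 i)) ?_ ?_ ?_ ?_ ?_
        · intro p _; exact Finset.mem_univ _
        · intro p _; exact Finset.mem_univ _
        · intro p _; simp
        · intro p _; simp
        · intro p _; rfl
      rw [h3, Fintype.sum_prod_type]
      simp [Finset.mul_sum, mul_comm]
    rw [key, mul_comm ((Fintype.card (Ω i) : ℝ)) ((Fintype.card (∀ i, Ω i) : ℝ)),
      mul_comm ((Fintype.card (Ω i) : ℝ)) (∑ ω, f ω), mul_div_mul_right _ _ hc]
theorem ex_jensen_exists {Ω : Type*} [Fintype Ω] [Nonempty Ω] (f : Ω → ℝ) : ∃ ω, f ω ≤ ex f := by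
  by_contra hcon
  push Not at hcon
  have hc : (0 : ℝ) < (Fintype.card Ω : ℝ) := Nat.cast_pos.mpr Fintype.card_pos
  have h1 : ∑ _ω : Ω, ex f < ∑ ω, f ω :=
    Finset.sum_lt_sum_of_nonempty Finset.univ_nonempty fun ω _ => hcon ω
  rw [Finset.sum_const, Finset.card_univ, nsmul_eq_mul] at h1
  unfold ex at h1
  rw [mul_div_cancel₀ _ hc.ne'] at h1
  exact lt_irrefl _ h1

theorem pr_nonneg {Ω : Type*} [Fintype Ω] (P : Ω → Prop) : 0 ≤ pr P := by
  exact ex_nonneg fun ω => ind_nonneg _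
theorem pr_le_one {Ω : Type*} [Fintype Ω] (P : Ω → Prop) : pr P ≤ 1 := by
  exact ex_le_of_le zero_le_one fun ω => ind_le_one _
theorem pr_mono {Ω : Type*} [Fintype Ω] {P Q : Ω → Prop} (h : ∀ ω, P ω → Q ω) : pr P ≤ pr Q := by
  exact ex_mono fun ω => ind_mono (h ω)
theorem pr_eq_card {Ω : Type*} [Fintype Ω] (P : Ω → Prop) [DecidablePred P] :
    pr P = ((univ.filter P).card : ℝ) / (Fintype.card Ω : ℝ) := by
  unfold pr ex
  congr 1
  rw [Finset.card_filter, Nat.cast_sum]
  refine Finset.sum_congr rfl fun ω _ => ?_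
  show ind (P ω) = _
  by_cases h : P ω
  · rw [ind_pos h, if_pos h, Nat.cast_one]
  · rw [ind_neg h, if_neg h, Nat.cast_zero]
theorem pr_not {Ω : Type*} [Fintype Ω] [Nonempty Ω] (P : Ω → Prop) :
    pr (fun ω => ¬ P ω) = 1 - pr P := by
  unfold pr
  simp only [ind_not]
  rw [ex_sub, ex_const]
theorem pr_or {Ω : Type*} [Fintype Ω] (P Q : Ω → Prop) :
    pr (fun ω => P ω ∨ Q ω) ≤ pr P + pr Q := by
  unfold pr
  rw [← ex_add]
  refine ex_mono fun ω => ?_
  by_cases hP : P ω
  · rw [ind_pos (Or.inl hP), ind_pos hP]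
    linarith [ind_nonneg (Q ω)]
  · by_cases hQ : Q ω
    · rw [ind_pos (Or.inr hQ), ind_pos hQ]
      linarith [ind_nonneg (P ω)]
    · rw [ind_neg (by tauto)]
      linarith [ind_nonneg (P ω), ind_nonneg (Q ω)]
theorem pr_exists {Ω ι : Type*} [Fintype Ω] (s : Finset ι) (P : ι → Ω → Prop) :
    pr (fun ω => ∃ i ∈ s, P i ω) ≤ ∑ i ∈ s, pr (P i) := by
  unfold pr
  rw [← ex_sum]
  refine ex_mono fun ω => ?_
  by_cases hP : ∃ i ∈ s, P i ω
  · rw [ind_pos hP]
    obtain ⟨i, hi, hPi⟩ := hP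
    calc (1 : ℝ) = ind (P i ω) := (ind_pos hPi).symm
      _ ≤ ∑ i ∈ s, ind (P i ω) :=
        Finset.single_le_sum (f := fun i => ind (P i ω)) (fun j _ => ind_nonneg _) hi
  · rw [ind_neg hP]
    exact Finset.sum_nonneg fun j _ => ind_nonneg _
/-- union bound with a uniform bound -/
theorem pr_exists_le {Ω ι : Type*} [Fintype Ω] (s : Finset ι) (P : ι → Ω → Prop) {b : ℝ}
    (h : ∀ i ∈ s, pr (P i) ≤ b) : pr (fun ω => ∃ i ∈ s, P i ω) ≤ (s.card : ℝ) * b := by
  refine (pr_exists s P).trans ?_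
  calc ∑ i ∈ s, pr (P i) ≤ ∑ _i ∈ s, b := Finset.sum_le_sum h
    _ = (s.card : ℝ) * b := by rw [Finset.sum_const, nsmul_eq_mul]
theorem exists_not_of_pr_lt {Ω : Type*} [Fintype Ω] [Nonempty Ω] {P : Ω → Prop} (h : pr P < 1) :
    ∃ ω, ¬ P ω := by
  by_contra hcon
  push Not at hcon
  have : pr P = 1 := by
    unfold pr
    calc ex (fun ω => ind (P ω)) = ex (fun _ : Ω => (1 : ℝ)) := by
          congr 1; funext ω; exact ind_pos (hcon ω)
      _ = 1 := ex_const 1
  linarith
theorem exists_of_pr_pos {Ω : Type*} [Fintype Ω] {P : Ω → Prop} (h : 0 < pr P) :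
    ∃ ω, P ω := by
  by_contra hcon
  push Not at hcon
  have : pr P ≤ 0 := ex_le_of_le le_rfl fun ω => (ind_neg (hcon ω)).le
  linarith
theorem pr_equiv {α β : Type*} [Fintype α] [Fintype β] (e : α ≃ β) (P : β → Prop) :
    pr (fun a => P (e a)) = pr P := by
  exact ex_equiv e (fun b => ind (P b))
theorem pr_prod {α β : Type*} [Fintype α] [Fintype β] (P : α × β → Prop) :
    pr P = ex (fun a => pr (fun b => P (a, b))) := by
  exact ex_prod (fun p => ind (P p))
/-- conditional bound: if for every `a` the `b`-probability is at most `c` -/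
theorem pr_prod_le {α β : Type*} [Fintype α] [Fintype β] (P : α × β → Prop) {c : ℝ} (hc : 0 ≤ c)
    (h : ∀ a, pr (fun b => P (a, b)) ≤ c) : pr P ≤ c := by
  rw [pr_prod]
  exact ex_le_of_le hc h
theorem pr_markov {Ω : Type*} [Fintype Ω] {f : Ω → ℝ} (h : ∀ ω, 0 ≤ f ω) {a : ℝ} (ha : 0 < a) :
    pr (fun ω => a ≤ f ω) ≤ ex f / a := by
  rw [le_div_iff₀ ha, mul_comm]
  unfold pr
  rw [← ex_const_mul]
  refine ex_mono fun ω => ?_
  by_cases hf : a ≤ f ω
  · rw [ind_pos hf]; linarith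
  · rw [ind_neg hf]; linarith [h ω]
theorem pr_pi_all {ι : Type*} [Fintype ι] [DecidableEq ι] {Ω : ι → Type*} [∀ i, Fintype (Ω i)]
    (P : ∀ i, Ω i → Prop) : pr (fun ω : ∀ i, Ω i => ∀ i, P i (ω i)) = ∏ i, pr (P i) := by
  unfold pr
  rw [← ex_pi_prod]
  congr 1
  funext ω
  by_cases hP : ∀ i, P i (ω i)
  · rw [ind_pos hP]
    symm
    exact Finset.prod_eq_one fun i _ => ind_pos (hP i)
  · rw [ind_neg hP]
    push Not at hP
    obtain ⟨i, hi⟩ := hP
    symm
    exact Finset.prod_eq_zero (Finset.mem_univ i) (ind_neg hi)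
theorem pr_pi_all_mem {ι : Type*} [Fintype ι] [DecidableEq ι] {Ω : ι → Type*} [∀ i, Fintype (Ω i)]
    [∀ i, Nonempty (Ω i)] (s : Finset ι) (P : ∀ i, Ω i → Prop) :
    pr (fun ω : ∀ i, Ω i => ∀ i ∈ s, P i (ω i)) = ∏ i ∈ s, pr (P i) := by
  have h1 := pr_pi_all (fun (i : ι) (a : Ω i) => i ∈ s → P i a)
  rw [h1]
  rw [← Finset.prod_subset (Finset.subset_univ s)]
  · refine Finset.prod_congr rfl fun i hi => ?_
    congr 1
    funext a
    simp [hi]
  · intro i _ hi
    calc pr (fun a : Ω i => i ∈ s → P i a) = ex (fun _ : Ω i => (1 : ℝ)) := by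
          unfold pr
          congr 1
          funext a
          exact ind_pos (fun h => absurd h hi)
      _ = 1 := ex_const 1
theorem pr_pi_one {ι : Type*} [Fintype ι] [DecidableEq ι] {Ω : ι → Type*} [∀ i, Fintype (Ω i)]
    [∀ i, Nonempty (Ω i)] (i : ι) (P : Ω i → Prop) :
    pr (fun ω : ∀ i, Ω i => P (ω i)) = pr P := by
  exact ex_pi_one i (fun a => ind (P a))
theorem pr_update {ι : Type*} [Fintype ι] [DecidableEq ι] {Ω : ι → Type*} [∀ i, Fintype (Ω i)]
    (i : ι) (P : (∀ i, Ω i) → Prop) :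
    pr P = ex (fun ω : ∀ i, Ω i => pr (fun a : Ω i => P (Function.update ω i a))) := by
  exact ex_update i (fun ω => ind (P ω))
/-- `{u < c}` in `Fin N` has probability `c / N` -/
theorem pr_fin_lt {N c : ℕ} (hc : c ≤ N) : pr (fun u : Fin N => (u : ℕ) < c) = (c : ℝ) / N := by
  rw [pr_eq_card, Fintype.card_fin]
  congr 2
  rw [Fin.card_filter_val_lt, min_eq_right hc]
/-- upper Chernoff bound, exponential moment form -/
theorem chernoff_upper {ι : Type*} [Fintype ι] [DecidableEq ι] {Ω : ι → Type*}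
    [∀ i, Fintype (Ω i)] [∀ i, Nonempty (Ω i)] (P : ∀ i, Ω i → Prop) {lam a mu : ℝ}
    (hl : 0 ≤ lam) (hmu : ∑ i, pr (P i) ≤ mu) :
    pr (fun ω : ∀ i, Ω i => a ≤ ∑ i, ind (P i (ω i)))
      ≤ Real.exp (-lam * a + (Real.exp lam - 1) * mu) := by
  have h1 : pr (fun ω : ∀ i, Ω i => a ≤ ∑ i, ind (P i (ω i)))
      ≤ pr (fun ω : ∀ i, Ω i => Real.exp (lam * a) ≤ Real.exp (lam * ∑ i, ind (P i (ω i)))) := by
    refine pr_mono fun ω h => ?_
    exact Real.exp_le_exp.mpr (mul_le_mul_of_nonneg_left h hl)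
  refine h1.trans ((pr_markov (fun ω => (Real.exp_pos _).le) (Real.exp_pos _)).trans ?_)
  rw [div_le_iff₀ (Real.exp_pos _), ← Real.exp_add]
  have h2 : (fun ω : ∀ i, Ω i => Real.exp (lam * ∑ i, ind (P i (ω i))))
      = fun ω : ∀ i, Ω i => ∏ i, (fun (i : ι) (b : Ω i) => Real.exp (lam * ind (P i b))) i (ω i) := by
    funext ω
    rw [Finset.mul_sum, Real.exp_sum]
  rw [h2, ex_pi_prod (fun (i : ι) (b : Ω i) => Real.exp (lam * ind (P i b)))]
  have h3 : ∀ i, ex (fun b : Ω i => Real.exp (lam * ind (P i b)))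
      ≤ Real.exp ((Real.exp lam - 1) * pr (P i)) := by
    intro i
    have h4 : ex (fun b : Ω i => Real.exp (lam * ind (P i b)))
        = 1 + (Real.exp lam - 1) * pr (P i) := by
      unfold pr
      rw [← ex_const_mul]
      have h5 : (1 : ℝ) = ex (fun _ : Ω i => (1 : ℝ)) := (ex_const 1).symm
      conv_rhs => rw [h5]
      rw [← ex_add]
      congr 1
      funext b
      by_cases hb : P i b
      · rw [ind_pos hb]; simp [← h5]
      · rw [ind_neg hb]; simp [← h5]
    rw [h4]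
    have := Real.add_one_le_exp ((Real.exp lam - 1) * pr (P i))
    linarith
  calc ∏ i, ex (fun b : Ω i => Real.exp (lam * ind (P i b)))
      ≤ ∏ i, Real.exp ((Real.exp lam - 1) * pr (P i)) :=
        Finset.prod_le_prod (fun i _ => ex_nonneg fun b => (Real.exp_pos _).le) fun i _ => h3 i
    _ = Real.exp ((Real.exp lam - 1) * ∑ i, pr (P i)) := by
        rw [Finset.mul_sum, Real.exp_sum]
    _ ≤ Real.exp (-lam * a + (Real.exp lam - 1) * mu + lam * a) := by
        apply Real.exp_le_exp.mpr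
        have h6 : 0 ≤ Real.exp lam - 1 := by
          have := Real.add_one_le_exp lam
          linarith
        have := mul_le_mul_of_nonneg_left hmu h6
        linarith
/-- lower Chernoff bound, exponential moment form -/
theorem chernoff_lower {ι : Type*} [Fintype ι] [DecidableEq ι] {Ω : ι → Type*}
    [∀ i, Fintype (Ω i)] [∀ i, Nonempty (Ω i)] (P : ∀ i, Ω i → Prop) {lam a mu : ℝ}
    (hl : 0 ≤ lam) (hmu : mu ≤ ∑ i, pr (P i)) :
    pr (fun ω : ∀ i, Ω i => ∑ i, ind (P i (ω i)) ≤ a)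
      ≤ Real.exp (lam * a - (1 - Real.exp (-lam)) * mu) := by
  have h1 : pr (fun ω : ∀ i, Ω i => ∑ i, ind (P i (ω i)) ≤ a)
      ≤ pr (fun ω : ∀ i, Ω i => Real.exp (-lam * a) ≤ Real.exp (-lam * ∑ i, ind (P i (ω i)))) := by
    refine pr_mono fun ω h => ?_
    apply Real.exp_le_exp.mpr
    have := mul_le_mul_of_nonneg_left h hl
    linarith
  refine h1.trans ((pr_markov (fun ω => (Real.exp_pos _).le) (Real.exp_pos _)).trans ?_)
  rw [div_le_iff₀ (Real.exp_pos _), ← Real.exp_add]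
  have h2 : (fun ω : ∀ i, Ω i => Real.exp (-lam * ∑ i, ind (P i (ω i))))
      = fun ω : ∀ i, Ω i => ∏ i, (fun (i : ι) (b : Ω i) => Real.exp (-lam * ind (P i b))) i (ω i) := by
    funext ω
    rw [Finset.mul_sum, Real.exp_sum]
  rw [h2, ex_pi_prod (fun (i : ι) (b : Ω i) => Real.exp (-lam * ind (P i b)))]
  have h3 : ∀ i, ex (fun b : Ω i => Real.exp (-lam * ind (P i b)))
      ≤ Real.exp (-(1 - Real.exp (-lam)) * pr (P i)) := by
    intro i
    have h4 : ex (fun b : Ω i => Real.exp (-lam * ind (P i b)))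
        = 1 + (-(1 - Real.exp (-lam))) * pr (P i) := by
      unfold pr
      rw [← ex_const_mul]
      have h5 : (1 : ℝ) = ex (fun _ : Ω i => (1 : ℝ)) := (ex_const 1).symm
      conv_rhs => rw [h5]
      rw [← ex_add]
      congr 1
      funext b
      by_cases hb : P i b
      · rw [ind_pos hb]; simp [← h5]
      · rw [ind_neg hb]; simp [← h5]
    rw [h4]
    have := Real.add_one_le_exp (-(1 - Real.exp (-lam)) * pr (P i))
    linarith
  calc ∏ i, ex (fun b : Ω i => Real.exp (-lam * ind (P i b)))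
      ≤ ∏ i, Real.exp (-(1 - Real.exp (-lam)) * pr (P i)) :=
        Finset.prod_le_prod (fun i _ => ex_nonneg fun b => (Real.exp_pos _).le) fun i _ => h3 i
    _ = Real.exp (-(1 - Real.exp (-lam)) * ∑ i, pr (P i)) := by
        rw [Finset.mul_sum, Real.exp_sum]
    _ ≤ Real.exp (lam * a - (1 - Real.exp (-lam)) * mu + -lam * a) := by
        apply Real.exp_le_exp.mpr
        have h6 : 0 ≤ 1 - Real.exp (-lam) := by
          have : Real.exp (-lam) ≤ 1 := Real.exp_le_one_iff.mpr (by linarith)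
          linarith
        have := mul_le_mul_of_nonneg_left hmu h6
        linarith
/-- number of subsets of size at most `t` of a set of size at most `n` -/
theorem card_small_subsets {α : Type*} [Fintype α] {t : ℕ} {x : ℝ} (hx : 0 < x) (hx1 : x ≤ 1) :
    ((univ.filter (fun S : Finset α => S.card ≤ t)).card : ℝ)
      ≤ Real.exp (x * Fintype.card α + t * Real.log (1 / x)) := by
  have h1 : ∑ S : Finset α, x ^ S.card = (1 + x) ^ Fintype.card α := by
    have := Finset.sum_pow_mul_eq_add_pow x 1 (Finset.univ : Finset α)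
    rw [Finset.powerset_univ] at this
    simp only [one_pow, mul_one, Finset.card_univ] at this
    rw [this, add_comm]
  have h2 : ((univ.filter (fun S : Finset α => S.card ≤ t)).card : ℝ) * x ^ t
      ≤ ∑ S : Finset α, x ^ S.card := by
    rw [← nsmul_eq_mul, ← Finset.sum_const]
    calc ∑ _S ∈ univ.filter (fun S : Finset α => S.card ≤ t), x ^ t
        ≤ ∑ S ∈ univ.filter (fun S : Finset α => S.card ≤ t), x ^ S.card := by
          refine Finset.sum_le_sum fun S hS => ?_
          exact pow_le_pow_of_le_one hx.le hx1 (Finset.mem_filter.mp hS).2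
      _ ≤ ∑ S : Finset α, x ^ S.card :=
          Finset.sum_le_sum_of_subset_of_nonneg (Finset.filter_subset _ _)
            fun S _ _ => pow_nonneg hx.le _
  have h3 : (1 + x) ^ Fintype.card α ≤ Real.exp (x * Fintype.card α) := by
    rw [mul_comm, Real.exp_nat_mul]
    refine pow_le_pow_left₀ (by linarith) ?_ _
    have := Real.add_one_le_exp x
    linarith
  have h4 : Real.exp (t * Real.log (1 / x)) = (x ^ t)⁻¹ := by
    rw [Real.exp_nat_mul, Real.exp_log (by positivity), one_div, inv_pow]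
  rw [Real.exp_add, h4]
  have hxt : 0 < x ^ t := pow_pos hx t
  rw [← div_eq_mul_inv, le_div_iff₀ hxt]
  linarith
/-- number of subsets of size at most `k ≤ n`: `(e n / k)^k` form -/
theorem card_small_subsets' {α : Type*} [Fintype α] {k : ℕ} (hk : 1 ≤ k)
    (hkn : k ≤ Fintype.card α) :
    ((univ.filter (fun S : Finset α => S.card ≤ k)).card : ℝ)
      ≤ Real.exp (k * (1 + Real.log (Fintype.card α / k))) := by
  have hk0 : (0 : ℝ) < k := by exact_mod_cast hk
  have hn0 : (0 : ℝ) < (Fintype.card α : ℝ) := by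
    have : 0 < Fintype.card α := lt_of_lt_of_le hk hkn
    exact_mod_cast this
  have hx : (0 : ℝ) < (k : ℝ) / Fintype.card α := by positivity
  have hx1 : (k : ℝ) / Fintype.card α ≤ 1 := by
    rw [div_le_one hn0]
    exact_mod_cast hkn
  refine (card_small_subsets (α := α) (t := k) hx hx1).trans (Real.exp_le_exp.mpr ?_)
  rw [div_mul_cancel₀ _ hn0.ne', one_div_div]
  linarith

end Pool.Agent.EGT
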