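import Mathlib
import Pool.Agent.EGT.Prob

/-!
Project EGT (MP_0b8466_co, disproof S07112): definitions and interfaces.
Paper proof: /team-store/0b8466_disproof.md.
Everything is stated for the COMPLEMENT graph: independent sets instead of cliques.
-/

open Finset

namespace Pool.Agent.EGT

/-! ## graphs -/

/-- `K` is a maximal independent subset of the set `S` in the graph `H` -/
def MISin {V : Type} (H : SimpleGraph V) (S : V → Prop) (K : Finset V) : Prop :=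
  (∀ v ∈ K, S v) ∧ (∀ u ∈ K, ∀ v ∈ K, ¬ H.Adj u v) ∧ (∀ v, S v → v ∉ K → ∃ u ∈ K, H.Adj v u)

/-- there is an independent subset `J` of `S \ T` which dominates `T ∩ S` -/
def Good {V : Type} (H : SimpleGraph V) (S : V → Prop) (T : Finset V) : Prop :=
  ∃ J : Finset V, (∀ v ∈ J, S v ∧ v ∉ T) ∧ (∀ u ∈ J, ∀ v ∈ J, ¬ H.Adj u v) ∧
    (∀ v ∈ T, S v → ∃ u ∈ J, H.Adj v u)

/-! ## level 1: the core statement (module FA: `CoreMain → S07112`) -/

def CoreMain : Prop :=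
  ∃ c : ℝ, 0 < c ∧ ∃ ε : ℝ, 0 < ε ∧ ∀ n0 : ℕ, ∃ (V : Type) (_ : Fintype V) (H : SimpleGraph V),
    n0 ≤ Fintype.card V ∧
    (∀ K : Finset V, MISin H (fun _ => True) K → c * (Fintype.card V : ℝ) ≤ (K.card : ℝ)) ∧
    (∀ T : Finset V, (T.card : ℝ) ≤ ε * (Fintype.card V : ℝ) →
      ∃ K : Finset V, MISin H (fun _ => True) K ∧ Disjoint K T)

/-! ## level 2: contexts as abstract data (module AS: `UMain → CoreMain`) -/

def UMain : Prop :=
  ∃ c : ℝ, 0 < c ∧ ∃ ε : ℝ, 0 < ε ∧ ∀ m0 : ℕ, ∃ (m : ℕ) (U Om : Type) (_ : Fintype U)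
    (_ : Fintype Om) (_ : Nonempty Om) (H : SimpleGraph U) (alive : Om → U → Prop),
    m0 ≤ m ∧ Fintype.card U ≤ 2 * m ∧
    (∀ o : Om, ∀ K : Finset U, MISin H (alive o) K → c * (m : ℝ) ≤ (K.card : ℝ)) ∧
    (∀ T : Finset U, (T.card : ℝ) ≤ ε * (m : ℝ) →
      3 / 8 ≤ pr (fun o : Om => Good H (alive o) T))

/-! ## level 3: the two blocks W and B (module CO: `WMain → BMain → UMain`) -/

/-- types -/
abbrev Ty (M : ℕ) : Type := Fin 28 → Fin M → Bool
/-- coarse contexts -/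
abbrev Ctx (M : ℕ) : Type := Fin 28 → Fin M
/-- number of pairs at a coarse context is `2 ^ rr M` -/
def rr (M : ℕ) : ℕ := 28 * (M - 1) - 1

def WMain : Prop :=
  ∃ M0 : ℕ, ∀ M : ℕ, M0 ≤ M → ∃ (N : ℕ) (Z : Type) (_ : Fintype Z) (_ : Nonempty Z)
    (H : SimpleGraph (Ty M × Fin N)) (pairOf : Ctx M → Ty M → Option (Fin (2 ^ rr M)))
    (alive : Ctx M → Z → Ty M × Fin N → Prop),
    2 ^ (2 * (28 * M) ^ 2) ≤ N ∧
    (∀ (c : Ctx M) (v v' : Ty M × Fin N) (x x' : Fin (2 ^ rr M)),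
      pairOf c v.1 = some x → pairOf c v'.1 = some x' → H.Adj v v' → x = x') ∧
    (∀ (c : Ctx M) (x : Fin (2 ^ rr M)) (z : Z) (K : Finset (Ty M × Fin N)),
      MISin H (fun v => pairOf c v.1 = some x ∧ alive c z v) K → N ≤ 20 * K.card) ∧
    (∀ T : Finset (Ty M × Fin N), (T.card : ℝ) * 2 ^ 120 ≤ 2 ^ (28 * M) * (N : ℝ) →
      pr (fun p : Ctx M × Z × Fin (2 ^ rr M) =>
        ¬ Good H (fun v => pairOf p.1 v.1 = some p.2.2 ∧ alive p.1 p.2.1 v) T) ≤ 1 / 1024)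

/-- size of the killer set of one coarse context, one copy -/
def gB (r : ℕ) : ℕ := (2 ^ r * (2 ^ r - 1)) ^ (r - 4) * 2 ^ (r - 4)

def BMain : Prop :=
  ∃ r0 : ℕ, ∀ r : ℕ, r0 ≤ r → ∀ I : ℕ, 1 ≤ I → ∃ (G Om : Type) (_ : Fintype G)
    (_ : Fintype Om) (_ : Nonempty Om) (H : SimpleGraph G) (En : Om → G → Prop)
    (Kill : Om → Finset (Fin (2 ^ r))) (Nb : G → Finset (Fin (2 ^ r))),
    Fintype.card G = gB r * I ∧
    (∀ (o : Om) (K : Finset G), (∀ g ∈ K, En o g) → (∀ g ∈ K, ∀ g' ∈ K, ¬ H.Adj g g') →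
      3 * 2 ^ r ≤ 4 * (univ.filter (fun x : Fin (2 ^ r) => x ∉ Kill o ∧ ∀ g ∈ K, x ∉ Nb g)).card) ∧
    (∀ T : Finset G, T.card * 2 ^ 19 ≤ Fintype.card G →
      5 / 8 ≤ pr (fun o : Om => ∀ D : Finset (Fin (2 ^ r)), D.card * 2 ^ 7 ≤ 2 ^ r →
        ∃ J : Finset G, (∀ g ∈ J, En o g ∧ g ∉ T) ∧ (∀ g ∈ J, ∀ g' ∈ J, ¬ H.Adj g g') ∧
          (∀ x ∈ D, x ∉ Kill o → ∃ g ∈ J, x ∈ Nb g) ∧
          (∀ g ∈ T, En o g → ∃ g' ∈ J, H.Adj g g')))

/-! ## level 4: block W from pair systems and types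
(module TY: `TyMain`; module WC: `PSMain → TyMain → WMain`) -/

/-- combinatorics of the types: at every coarse context `c` there are `2 ^ rr M` disjoint pairs
`{mem c x false, mem c x true}`, and the two members of a pair are both alive at `c` only -/
def TyMain : Prop :=
  ∀ M : ℕ, 2 ≤ M → ∃ mem : Ctx M → Fin (2 ^ rr M) → Bool → Ty M,
    (∀ c x b x' b', mem c x b = mem c x' b' → x = x' ∧ b = b') ∧
    (∀ c x c' y b y' b', mem c x false = mem c' y b → mem c x true = mem c' y' b' → c = c')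

/-- a pair system: side `false` is X, side `true` is Y; adjacency between X and Y; alive vertices
for every colour vector `z : Z` -/
structure PSys (N : ℕ) (Z : Type) where
  adj : Fin N → Fin N → Prop
  alive : Z → Bool → Fin N → Prop

/-- every maximal independent set of the alive graph has at least `N / 20` vertices -/
def PSys.CapGood {N : ℕ} {Z : Type} (P : PSys N Z) : Prop :=
  ∀ (z : Z) (K : Bool → Finset (Fin N)),
    (∀ b, ∀ i ∈ K b, P.alive z b i) → (∀ i ∈ K false, ∀ j ∈ K true, ¬ P.adj i j) →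
    (∀ i, P.alive z false i → i ∉ K false → ∃ j ∈ K true, P.adj i j) →
    (∀ j, P.alive z true j → j ∉ K true → ∃ i ∈ K false, P.adj i j) →
    N ≤ 20 * ((K false).card + (K true).card)

/-- there is an independent set of alive vertices outside `T` dominating the alive part of `T` -/
def PSys.PGood {N : ℕ} {Z : Type} (P : PSys N Z) (T : Bool → Finset (Fin N)) (z : Z) : Prop :=
  ∃ J : Bool → Finset (Fin N), (∀ b, ∀ i ∈ J b, P.alive z b i ∧ i ∉ T b) ∧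
    (∀ i ∈ J false, ∀ j ∈ J true, ¬ P.adj i j) ∧
    (∀ i ∈ T false, P.alive z false i → ∃ j ∈ J true, P.adj i j) ∧
    (∀ j ∈ T true, P.alive z true j → ∃ i ∈ J false, P.adj i j)

/-! ### parameters of the pair systems -/

/-- degrees -/
def DD (j : ℕ) : ℕ := 2 ^ 24 * 4 ^ j
def ss (j : ℕ) : ℕ := 2 ^ 14 * (j + 1)
def kap (j : ℕ) : ℕ := 2 ^ 20 * (j + 1) ^ 2 * (j + 2)
/-- class size -/
def NN (L : ℕ) : ℕ := 2 ^ 47 * (L + 1) ^ 3 * 4 ^ L
/-- number of colours of level `j` -/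
def RR (L j : ℕ) : ℕ := max 1 (DD j / (8 * (L + 1) * ss j))
/-- `KK L j` bounds the number of `T`-vertices handed over to level `j` -/
def KK (L j : ℕ) : ℕ := NN L / (2 ^ 40 * DD j * (j + 1) ^ 6)

def PSMain : Prop :=
  ∃ L0 : ℕ, ∀ L : ℕ, L0 ≤ L → ∃ (Om Z : Type) (_ : Fintype Om) (_ : Nonempty Om) (_ : Fintype Z)
    (_ : Nonempty Z) (P : Om → PSys (NN L) Z),
    pr (fun ω : Om => ¬ (P ω).CapGood) ≤ Real.exp (-(L : ℝ) ^ 3) ∧
    ∀ T : Bool → Finset (Fin (NN L)), (∀ b, (T b).card ≤ KK L 1) →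
      pr (fun ω : Om => 1 / 3072 < pr (fun z : Z => ¬ (P ω).PGood T z))
        ≤ Real.exp (-(NN L : ℝ) / ((L : ℝ) + 3) ^ 9)

end Pool.Agent.EGT
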