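import Mathlib
import Pool.Agent.EGT.Defs

/-!
Project EGT (MP_0b8466_co): the random pair system and the interfaces of its modules.
Sides: `false` = X, `true` = Y.  Hubs of level `j` live on side `par j` (even levels in X) and
serve the other side `!par j`.
-/

open Finset

namespace Pool.Agent.EGT

/-- side of the hubs of level `j` -/
def par (j : ℕ) : Bool := decide (j % 2 = 1)

/-- label seeds `Sd` with label function `lab : Sd → Option (level × colour)` -/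
structure LabSpec (L : ℕ) {Sd : Type} [Fintype Sd] (lab : Sd → Option (ℕ × ℕ)) : Prop where
  range : ∀ r j χ, lab r = some (j, χ) → j ≤ L ∧ χ < RR L j
  prob : ∀ j χ, j ≤ L → χ < RR L j → pr (fun r => lab r = some (j, χ)) = (ss j : ℝ) / DD j

/-- the label read on side `b` (labels of the wrong parity are ignored) -/
def lvl {Sd : Type} (lab : Sd → Option (ℕ × ℕ)) (b : Bool) (r : Sd) : Option (ℕ × ℕ) :=
  (lab r).filter (fun p => par p.1 = b)

/-- adjacency threshold of two labels -/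
def thr : Option (ℕ × ℕ) → Option (ℕ × ℕ) → ℕ
  | none, none => 0
  | some p, none => DD p.1
  | none, some q => DD q.1
  | some p, some q => kap (min p.1 q.1) * DD (max p.1 q.1)

/-- outcomes of the random pair system: label seeds of both sides and the numbers `u x y` -/
abbrev POm (N : ℕ) (Sd : Type) : Type := (Bool → Fin N → Sd) × (Fin N → Fin N → Fin N)

/-- the number `u` of the pair: vertex `h` of side `b`, vertex `v` of side `!b` -/
def uu {N : ℕ} {Sd : Type} (ω : POm N Sd) (b : Bool) (h v : Fin N) : ℕ :=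
  if b then (ω.2 v h : ℕ) else (ω.2 h v : ℕ)

/-- label of vertex `i` of side `b` -/
def lb {N : ℕ} {Sd : Type} (lab : Sd → Option (ℕ × ℕ)) (ω : POm N Sd) (b : Bool) (i : Fin N) :
    Option (ℕ × ℕ) := lvl lab b (ω.1 b i)

/-- adjacency seen from side `b`: `h` on side `b`, `v` on side `!b` -/
def adjb {N : ℕ} {Sd : Type} (lab : Sd → Option (ℕ × ℕ)) (ω : POm N Sd) (b : Bool)
    (h v : Fin N) : Prop := uu ω b h v < thr (lb lab ω b h) (lb lab ω (!b) v)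

/-- colour vectors -/
abbrev ZZ (L : ℕ) : Type := (j : Fin (L + 1)) → Fin (RR L j)

/-- colour vector as a function on `ℕ` -/
def zv {L : ℕ} (z : ZZ L) (j : ℕ) : ℕ := if h : j < L + 1 then (z ⟨j, h⟩ : ℕ) else 0

/-- alive: no label or label with the right colour -/
def alv {N : ℕ} {Sd : Type} (lab : Sd → Option (ℕ × ℕ)) (ω : POm N Sd) (z : ℕ → ℕ) (b : Bool)
    (i : Fin N) : Prop := ∀ p : ℕ × ℕ, lb lab ω b i = some p → p.2 = z p.1

/-- the pair system of an outcome -/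
def PS {L : ℕ} {Sd : Type} (lab : Sd → Option (ℕ × ℕ)) (ω : POm (NN L) Sd) :
    PSys (NN L) (ZZ L) where
  adj := fun i j => adjb lab ω false i j
  alive := fun z b i => alv lab ω (zv z) b i

open Classical in
/-- hubs of side `par j` with label `(j, χ)` -/
noncomputable def hub {N : ℕ} {Sd : Type} (lab : Sd → Option (ℕ × ℕ)) (ω : POm N Sd) (j χ : ℕ) :
    Finset (Fin N) := univ.filter (fun i => lb lab ω (par j) i = some (j, χ))

/-! ## the label function exists (module LAB) -/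
def LabMain : Prop := ∀ L : ℕ, ∃ (Sd : Type) (_ : Fintype Sd) (_ : Nonempty Sd)
  (lab : Sd → Option (ℕ × ℕ)), LabSpec L lab

/-! ## cap (modules C01, C2, C3, L2, CAP) -/

/-- mass `D_j / N` of a vertex with its label -/
noncomputable def wt {N : ℕ} {Sd : Type} (lab : Sd → Option (ℕ × ℕ)) (ω : POm N Sd) (b : Bool)
    (i : Fin N) : ℝ :=
  match lb lab ω b i with
  | none => 0
  | some p => (DD p.1 : ℝ) / N

open Classical in
/-- (C0): at least `7/10 N` vertices of each side have no label -/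
def C0 {N : ℕ} {Sd : Type} (lab : Sd → Option (ℕ × ℕ)) (ω : POm N Sd) : Prop :=
  ∀ b, 7 / 10 * (N : ℝ) ≤ ((univ.filter (fun i => lb lab ω b i = none)).card : ℝ)

/-- (C1): the number of hubs of label `(j, χ)` is at most twice its mean -/
def C1 (L : ℕ) {Sd : Type} (lab : Sd → Option (ℕ × ℕ)) (ω : POm (NN L) Sd) : Prop :=
  ∀ j χ, j ≤ L → χ < RR L j → ((hub lab ω j χ).card : ℝ) ≤ 2 * ss j * (NN L : ℝ) / DD j

open Classical in
/-- (C2): every set of alive hubs on side `b` of mass at most 2 leaves `N / 20` label-free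
vertices of side `!b` uncovered -/
def C2 (L : ℕ) {Sd : Type} (lab : Sd → Option (ℕ × ℕ)) (ω : POm (NN L) Sd) : Prop :=
  ∀ (z : ZZ L) (b : Bool) (J : Finset (Fin (NN L))),
    (∀ h ∈ J, lb lab ω b h ≠ none ∧ alv lab ω (zv z) b h) →
    ∑ h ∈ J, wt lab ω b h ≤ 2 →
    (NN L : ℝ) / 20 ≤ ((univ.filter (fun v => lb lab ω (!b) v = none ∧
      ∀ h ∈ J, ¬ adjb lab ω b h v)).card : ℝ)

open Classical in
/-- (C3): if a set `J` of alive hubs of levels `> l` on the side opposite to the hubs of level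
`l` has mass at least 1, then few alive hubs of level `l` have no neighbour in `J` -/
def C3 (L : ℕ) {Sd : Type} (lab : Sd → Option (ℕ × ℕ)) (ω : POm (NN L) Sd) : Prop :=
  ∀ (z : ZZ L) (l : ℕ) (J : Finset (Fin (NN L))), l ≤ L →
    (∀ h ∈ J, ∃ p : ℕ × ℕ, lb lab ω (!par l) h = some p ∧ p.2 = zv z p.1 ∧ l < p.1) →
    1 ≤ ∑ h ∈ J, wt lab ω (!par l) h →
    (((hub lab ω l (zv z l)).filter (fun v => ∀ h ∈ J, ¬ adjb lab ω (!par l) h v)).card : ℝ)
      ≤ (NN L : ℝ) / (8 * ((l : ℝ) + 1) ^ 2 * DD l)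

/-- module C01 -/
def C01Main : Prop := ∃ L0 : ℕ, ∀ L : ℕ, L0 ≤ L → ∀ (Sd : Type) (_ : Fintype Sd) (_ : Nonempty Sd)
  (lab : Sd → Option (ℕ × ℕ)), LabSpec L lab →
  pr (fun ω : POm (NN L) Sd => ¬ (C0 lab ω ∧ C1 L lab ω)) ≤ Real.exp (-(L : ℝ) ^ 3) / 3

/-- module C2 -/
def C2Main : Prop := ∃ L0 : ℕ, ∀ L : ℕ, L0 ≤ L → ∀ (Sd : Type) (_ : Fintype Sd) (_ : Nonempty Sd)
  (lab : Sd → Option (ℕ × ℕ)), LabSpec L lab →
  pr (fun ω : POm (NN L) Sd => C0 lab ω ∧ C1 L lab ω ∧ ¬ C2 L lab ω) ≤ Real.exp (-(L : ℝ) ^ 3) / 3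

/-- module C3 -/
def C3Main : Prop := ∃ L0 : ℕ, ∀ L : ℕ, L0 ≤ L → ∀ (Sd : Type) (_ : Fintype Sd) (_ : Nonempty Sd)
  (lab : Sd → Option (ℕ × ℕ)), LabSpec L lab →
  pr (fun ω : POm (NN L) Sd => C1 L lab ω ∧ ¬ C3 L lab ω) ≤ Real.exp (-(L : ℝ) ^ 3) / 3

/-- module L2 (deterministic) -/
def L2Main : Prop := ∀ (L : ℕ) (Sd : Type) (_ : Fintype Sd) (lab : Sd → Option (ℕ × ℕ)),
  LabSpec L lab → ∀ ω : POm (NN L) Sd, C2 L lab ω → C3 L lab ω → (PS (L := L) lab ω).CapGood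

/-! ## T-resistance (modules DET, EP, VP, PF) -/

open Classical in
/-- potential picks: hubs `h ∉ T` of label `(l, χ)` serving some member of `G` -/
noncomputable def SG {N : ℕ} {Sd : Type} (lab : Sd → Option (ℕ × ℕ)) (ω : POm N Sd)
    (T : Bool → Finset (Fin N)) (l χ : ℕ) (G : Finset (Fin N)) : Finset (Fin N) :=
  univ.filter (fun h => h ∉ T (par l) ∧ lb lab ω (par l) h = some (l, χ) ∧
    ∃ v ∈ G, uu ω (par l) h v < DD l)

/-- size control at level `l`, colour `χ` -/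
def Ev (L : ℕ) {Sd : Type} (lab : Sd → Option (ℕ × ℕ)) (ω : POm (NN L) Sd)
    (T : Bool → Finset (Fin (NN L))) (l χ : ℕ) : Prop :=
  ∀ G ⊆ T (!par l), G.card ≤ KK L l → (SG lab ω T l χ G).card ≤ 4 * ss l * KK L l

/-- the event `V_j` for colour `χ` at level `j` and colours `z` at the levels above -/
def Vv (L : ℕ) {Sd : Type} (lab : Sd → Option (ℕ × ℕ)) (ω : POm (NN L) Sd)
    (T : Bool → Finset (Fin (NN L))) (j χ : ℕ) (z : ℕ → ℕ) : Prop :=
  ∃ (F : Finset (Fin (NN L))) (G : ℕ → Finset (Fin (NN L))),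
    F ⊆ T (!par j) ∧ F.card = KK L (j + 2) + 1 ∧
    (∀ l, G l ⊆ T (!par l) ∧ (G l).card ≤ KK L l) ∧
    ∀ h ∈ SG lab ω T j χ F, ∃ l, j < l ∧ l ≤ L ∧ par l = !par j ∧
      ∃ g ∈ SG lab ω T l (z l) (G l), adjb lab ω (par j) h g

/-- module DET (deterministic; Lemmas 4 and 5) -/
def DetMain : Prop := ∀ (L : ℕ) (Sd : Type) (_ : Fintype Sd) (lab : Sd → Option (ℕ × ℕ)),
  LabSpec L lab → ∀ (ω : POm (NN L) Sd) (T : Bool → Finset (Fin (NN L))) (z : ZZ L),
  (∀ b, (T b).card ≤ KK L 1) → (∀ j, j ≤ L → ¬ Vv L lab ω T j (zv z j) (zv z)) →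
  (PS (L := L) lab ω).PGood T z

open Classical in
/-- module EP -/
def EPMain : Prop := ∃ L0 : ℕ, ∀ L : ℕ, L0 ≤ L → ∀ (Sd : Type) (_ : Fintype Sd) (_ : Nonempty Sd)
  (lab : Sd → Option (ℕ × ℕ)), LabSpec L lab → ∀ T : Bool → Finset (Fin (NN L)),
  (∀ b, (T b).card ≤ KK L 1) → ∀ l, 1 ≤ l → l ≤ L →
  pr (fun ω : POm (NN L) Sd => (RR L l : ℝ) / (9216 * ((L : ℝ) + 1)) ≤
    (((range (RR L l)).filter (fun χ => ¬ Ev L lab ω T l χ)).card : ℝ))
    ≤ Real.exp (-(NN L : ℝ) / (2 ^ 64 * ((L : ℝ) + 3) ^ 8))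

open Classical in
/-- module VP -/
def VPMain : Prop := ∃ L0 : ℕ, ∀ L : ℕ, L0 ≤ L → ∀ (Sd : Type) (_ : Fintype Sd) (_ : Nonempty Sd)
  (lab : Sd → Option (ℕ × ℕ)), LabSpec L lab → ∀ T : Bool → Finset (Fin (NN L)),
  (∀ b, (T b).card ≤ KK L 1) → ∀ j, j ≤ L → ∀ z : ℕ → ℕ,
  pr (fun ω : POm (NN L) Sd => (RR L j : ℝ) / (9216 * ((L : ℝ) + 1)) ≤
    (((range (RR L j)).filter (fun χ => (∀ l, j < l → l ≤ L → par l = !par j →
      Ev L lab ω T l (z l)) ∧ Vv L lab ω T j χ z)).card : ℝ))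
    ≤ Real.exp (-(NN L : ℝ) / (2 ^ 64 * ((L : ℝ) + 3) ^ 8))

/-- module PF: `DetMain → EPMain → VPMain → PFMain` -/
def PFMain : Prop := ∃ L0 : ℕ, ∀ L : ℕ, L0 ≤ L → ∀ (Sd : Type) (_ : Fintype Sd) (_ : Nonempty Sd)
  (lab : Sd → Option (ℕ × ℕ)), LabSpec L lab → ∀ T : Bool → Finset (Fin (NN L)),
  (∀ b, (T b).card ≤ KK L 1) →
  pr (fun ω : POm (NN L) Sd => 1 / 3072 < pr (fun z : ZZ L => ¬ (PS (L := L) lab ω).PGood T z))
    ≤ Real.exp (-(NN L : ℝ) / ((L : ℝ) + 3) ^ 9)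

end Pool.Agent.EGT
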