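import Mathlib
import Pool.Agent.EGT.PDefs

/-!
Project EGT (MP_0b8466_co): interfaces of the small modules.
-/

open Finset

namespace Pool.Agent.EGT

/-! ## rows -/

/-- rows of one side (label seed and all numbers of the vertices of side `b`) and the label seeds
of the other side -/
abbrev RowSp (N : ℕ) (Sd : Type) : Type := (Fin N → Sd × (Fin N → Fin N)) × (Fin N → Sd)

/-- the outcome seen from side `b` -/
def rowOf {N : ℕ} {Sd : Type} (b : Bool) (ω : POm N Sd) : RowSp N Sd :=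
  (fun h => (ω.1 b h, fun v => if b then ω.2 v h else ω.2 h v), fun v => ω.1 (!b) v)

/-- module ROW -/
def RowMain : Prop := ∀ (N : ℕ) (Sd : Type) (_ : Fintype Sd) (b : Bool) (Q : RowSp N Sd → Prop),
  pr (fun ω : POm N Sd => Q (rowOf b ω)) = pr Q

/-- module VP2: fixed sets; the rows outside `Tb` are random -/
def VP2Main : Prop := ∀ (L : ℕ) (Sd : Type) (_ : Fintype Sd) (_ : Nonempty Sd)
  (lab : Sd → Option (ℕ × ℕ)), LabSpec L lab → ∀ (j m : ℕ) (Tb : Finset (Fin (NN L)))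
  (Zs : Finset ℕ) (F Sg : ℕ → Finset (Fin (NN L))) (c : ℕ → Fin (NN L) → ℕ),
  j ≤ L → Tb.card * 100 ≤ NN L → Zs ⊆ range (RR L j) →
  (∀ χ ∈ Zs, (F χ).card = m ∧ Disjoint (F χ) (Sg χ)) → 1000 * m * DD j ≤ NN L →
  (∀ χ ∈ Zs, (∀ y ∈ Sg χ, c χ y ≤ NN L) ∧ 32 * ∑ y ∈ Sg χ, c χ y ≤ NN L) →
  pr (fun rows : Fin (NN L) → Sd × (Fin (NN L) → Fin (NN L)) =>
    ∀ χ ∈ Zs, ∀ h, h ∉ Tb → lvl lab (par j) (rows h).1 = some (j, χ) →
      (∃ v ∈ F χ, ((rows h).2 v : ℕ) < DD j) → ∃ y ∈ Sg χ, ((rows h).2 y : ℕ) < c χ y)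
    ≤ Real.exp (-(9 / 10 * (Zs.card : ℝ) * ss j * m))

/-- module EP1: fixed sets `G χ`; all rows random -/
def EP1Main : Prop := ∀ (L : ℕ) (Sd : Type) (_ : Fintype Sd) (_ : Nonempty Sd)
  (lab : Sd → Option (ℕ × ℕ)), LabSpec L lab → ∀ (l k : ℕ) (Tb : Finset (Fin (NN L)))
  (Zs : Finset ℕ) (G : ℕ → Finset (Fin (NN L))),
  l ≤ L → Zs ⊆ range (RR L l) → (∀ χ ∈ Zs, (G χ).card ≤ k) →
  pr (fun rows : Fin (NN L) → Sd × (Fin (NN L) → Fin (NN L)) =>
    ∀ χ ∈ Zs, (4 * ss l * k : ℝ) < ∑ h, ind (h ∉ Tb ∧ lvl lab (par l) (rows h).1 = some (l, χ) ∧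
      ∃ v ∈ G χ, ((rows h).2 v : ℕ) < DD l))
    ≤ Real.exp (-(5 / 2 * (Zs.card : ℝ) * ss l * k))

/-! ## random selection of the contexts (module ZS) -/

open Classical in
def ZSMain : Prop := ∀ (m t : ℕ) (U Om : Type) (_ : Fintype U) (_ : Fintype Om) (_ : Nonempty Om)
  (Gd : Finset U → Om → Prop), 1000 ≤ m → Fintype.card U ≤ 2 * m → 64 * t ≤ m →
  (∀ T : Finset U, T.card ≤ t → 3 / 8 ≤ pr (Gd T)) →
  ∃ zf : Fin m → Om, ∀ T : Finset U, T.card ≤ t →
    t < (univ.filter (fun i => Gd T (zf i))).card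

/-! ## combination of the blocks W and B (modules COA, COB, COC) -/

/-- the graph on `W ⊕ (C × G)`: `HW` on `W`, a copy of `HG` for every `c`, and `(c, g)` is adjacent
to `v` iff the pair of `v` at `c` is in `Nb g` -/
def coGraph {W C G F : Type} (HW : SimpleGraph W) (pairOf : C → W → Option F)
    (HG : SimpleGraph G) (Nb : G → Finset F) : SimpleGraph (W ⊕ (C × G)) where
  Adj a b := match a, b with
    | .inl v, .inl v' => HW.Adj v v'
    | .inl v, .inr p => ∃ x ∈ Nb p.2, pairOf p.1 v = some x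
    | .inr p, .inl v => ∃ x ∈ Nb p.2, pairOf p.1 v = some x
    | .inr p, .inr p' => p.1 = p'.1 ∧ HG.Adj p.2 p'.2
  symm := ⟨by
    rintro (v | p) (v' | p') h
    · exact HW.adj_symm h
    · exact h
    · exact h
    · exact ⟨h.1.symm, HG.adj_symm h.2⟩⟩
  loopless := ⟨by
    rintro (v | p) h
    · exact HW.loopless.irrefl v h
    · exact HG.loopless.irrefl p.2 h.2⟩

/-- alive vertices of the combined graph at `(c, z, o)` -/
def coAlive {W C G F Z OB : Type} (pairOf : C → W → Option F) (alive : C → Z → W → Prop)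
    (En : OB → G → Prop) (Kill : OB → Finset F) (c : C) (z : Z) (o : OB) : W ⊕ (C × G) → Prop
  | .inl v => ∃ x, pairOf c v = some x ∧ x ∉ Kill o ∧ alive c z v
  | .inr p => p.1 = c ∧ En o p.2

open Classical in
/-- module COA (deterministic): lower bound for maximal independent sets -/
def COAMain : Prop := ∀ (W C G Z OB : Type) (q N : ℕ) (HW : SimpleGraph W)
  (pairOf : C → W → Option (Fin q)) (alive : C → Z → W → Prop) (HG : SimpleGraph G)
  (En : OB → G → Prop) (Kill : OB → Finset (Fin q)) (Nb : G → Finset (Fin q))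
  (c : C) (z : Z) (o : OB),
  (∀ (v v' : W) (x x' : Fin q), pairOf c v = some x → pairOf c v' = some x' → HW.Adj v v' →
    x = x') →
  (∀ (x : Fin q) (K : Finset W), MISin HW (fun v => pairOf c v = some x ∧ alive c z v) K →
    N ≤ 20 * K.card) →
  (∀ (K : Finset G), (∀ g ∈ K, En o g) → (∀ g ∈ K, ∀ g' ∈ K, ¬ HG.Adj g g') →
    3 * q ≤ 4 * (univ.filter (fun x : Fin q => x ∉ Kill o ∧ ∀ g ∈ K, x ∉ Nb g)).card) →
  ∀ K : Finset (W ⊕ (C × G)), MISin (coGraph HW pairOf HG Nb)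
    (coAlive pairOf alive En Kill c z o) K → 3 * q * N ≤ 80 * K.card

open Classical in
/-- module COB (deterministic): domination of `T` -/
def COBMain : Prop := ∀ (W C G Z OB : Type) (_ : Fintype W) (_ : Fintype G) (q : ℕ)
  (HW : SimpleGraph W) (pairOf : C → W → Option (Fin q)) (alive : C → Z → W → Prop)
  (HG : SimpleGraph G) (En : OB → G → Prop) (Kill : OB → Finset (Fin q))
  (Nb : G → Finset (Fin q)) (c : C) (z : Z) (o : OB),
  (∀ (v v' : W) (x x' : Fin q), pairOf c v = some x → pairOf c v' = some x' → HW.Adj v v' →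
    x = x') →
  ∀ (T : Finset (W ⊕ (C × G))) (D : Finset (Fin q)),
  (∀ x, x ∉ D → Good HW (fun v => pairOf c v = some x ∧ alive c z v)
    (univ.filter (fun v : W => Sum.inl v ∈ T))) →
  (∃ J : Finset G, (∀ g ∈ J, En o g ∧ g ∉ univ.filter (fun g : G => Sum.inr (c, g) ∈ T)) ∧
    (∀ g ∈ J, ∀ g' ∈ J, ¬ HG.Adj g g') ∧ (∀ x ∈ D, x ∉ Kill o → ∃ g ∈ J, x ∈ Nb g) ∧
    (∀ g ∈ univ.filter (fun g : G => Sum.inr (c, g) ∈ T), En o g → ∃ g' ∈ J, HG.Adj g g')) →
  Good (coGraph HW pairOf HG Nb) (coAlive pairOf alive En Kill c z o) T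

/-! ## selection of the pair systems (module WS) -/

open Classical in
def WSMain : Prop := ∀ (I Om Tt : Type) (_ : Fintype I) (_ : Fintype Om) (_ : Nonempty Om)
  (_ : Fintype Tt) (capbad : I → Om → Prop) (bad : Tt → I → Om → Prop) (δ E : ℝ),
  0 ≤ E → (∀ i, pr (capbad i) ≤ δ) → (∀ T i, pr (bad T i) ≤ Real.exp (-E)) →
  (Fintype.card I : ℝ) * δ < 1 / 2 →
  (Fintype.card Tt : ℝ) * 2 ^ (Fintype.card I) * Real.exp (-(E * (Fintype.card I : ℝ) / 3072))
    < 1 / 2 →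
  ∃ ω : I → Om, (∀ i, ¬ capbad i (ω i)) ∧
    ∀ T, ((univ.filter (fun i => bad T i (ω i))).card : ℝ) ≤ (Fintype.card I : ℝ) / 3072

/-! ## block W: probabilistic part (module WP) and deterministic part (module WD)
`PSMain → WSMain → WPMain`, `WPMain → TyMain → WMain` -/

open Classical in
/-- the part of `T` in the class `a` -/
noncomputable def cls {A : Type} {N : ℕ} (T : Finset (A × Fin N)) (a : A) : Finset (Fin N) :=
  univ.filter (fun i => (a, i) ∈ T)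

def WPMain : Prop :=
  ∃ M0 : ℕ, ∀ M : ℕ, M0 ≤ M → ∀ mem : Ctx M → Fin (2 ^ rr M) → Bool → Ty M,
    (∀ c x b x' b', mem c x b = mem c x' b' → x = x' ∧ b = b') →
    ∃ (N : ℕ) (Z : Type) (_ : Fintype Z) (_ : Nonempty Z)
      (P : Ctx M → Fin (2 ^ rr M) → PSys N Z),
      2 ^ (2 * (28 * M) ^ 2) ≤ N ∧
      (∀ c x, (P c x).CapGood) ∧
      (∀ T : Finset (Ty M × Fin N), (T.card : ℝ) * 2 ^ 120 ≤ 2 ^ (28 * M) * (N : ℝ) →
        pr (fun p : Ctx M × Z × Fin (2 ^ rr M) =>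
          ¬ (P p.1 p.2.2).PGood (fun b => cls T (mem p.1 p.2.2 b)) p.2.1) ≤ 1 / 1024)

end Pool.Agent.EGT
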