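import Mathlib
import Pool.Agent.EGT.IDefs

/-!
Project EGT (MP_0b8466_co), module AS: from contexts as abstract data to the core statement.
-/

open Finset

namespace Pool.Agent.EGT

/-- an independent set extends to a maximal independent set -/
theorem as_extend {V : Type} [Fintype V] (H : SimpleGraph V) (J : Finset V)
    (hJ : ∀ u ∈ J, ∀ v ∈ J, ¬ H.Adj u v) :
    ∃ K : Finset V, J ⊆ K ∧ MISin H (fun _ => True) K := by
  classical
  obtain ⟨K, hK, hmax⟩ := Finset.exists_max_image
    ((univ : Finset (Finset V)).filter fun K => J ⊆ K ∧ ∀ u ∈ K, ∀ v ∈ K, ¬ H.Adj u v)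
    Finset.card ⟨J, by simpa using hJ⟩
  rw [mem_filter] at hK
  refine ⟨K, hK.2.1, fun _ _ => trivial, hK.2.2, fun v _ hv => ?_⟩
  by_contra hcon
  push Not at hcon
  have hmem : insert v K ∈ (univ : Finset (Finset V)).filter
      fun K => J ⊆ K ∧ ∀ u ∈ K, ∀ v ∈ K, ¬ H.Adj u v := by
    rw [mem_filter]
    refine ⟨mem_univ _, hK.2.1.trans (subset_insert _ _), ?_⟩
    intro a ha b hb
    rw [mem_insert] at ha hb
    rcases ha with rfl | ha <;> rcases hb with rfl | hb
    · exact H.irrefl
    · exact hcon b hb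
    · exact fun h => hcon a ha h.symm
    · exact hK.2.2 a ha b hb
  have h1 := hmax _ hmem
  rw [card_insert_of_notMem hv] at h1
  omega

/-- the graph with contexts `Fin m` (first copy) and guards `Fin m` (second copy) -/
def asGraph {U Om : Type} {m : ℕ} (H : SimpleGraph U) (alive : Om → U → Prop) (zf : Fin m → Om) :
    SimpleGraph (U ⊕ (Fin m ⊕ Fin m)) where
  Adj a b := match a, b with
    | .inl u, .inl v => H.Adj u v
    | .inl u, .inr (.inl i) => ¬ alive (zf i) u
    | .inr (.inl i), .inl u => ¬ alive (zf i) u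
    | .inl _, .inr (.inr _) => False
    | .inr (.inr _), .inl _ => False
    | .inr (.inl i), .inr (.inl j) => i ≠ j
    | .inr (.inl _), .inr (.inr _) => True
    | .inr (.inr _), .inr (.inl _) => True
    | .inr (.inr _), .inr (.inr _) => False
  symm := ⟨by
    rintro (u | i | i) (v | j | j) h
    · exact H.adj_symm h
    · exact h
    · exact h
    · exact h
    · exact Ne.symm h
    · trivial
    · exact h
    · trivial
    · exact h⟩
  loopless := ⟨by
    rintro (u | i | i) h
    · exact H.loopless.irrefl u h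
    · exact h rfl
    · exact h⟩

theorem as_lower {U Om : Type} [Fintype U] {m : ℕ} (H : SimpleGraph U) (alive : Om → U → Prop)
    (zf : Fin m → Om) (K : Finset (U ⊕ (Fin m ⊕ Fin m)))
    (hK : MISin (asGraph H alive zf) (fun _ => True) K) :
    m ≤ K.card ∨ ∃ (o : Om) (K' : Finset U), MISin H (alive o) K' ∧ K'.card ≤ K.card := by
  classical
  by_cases hc : ∃ i : Fin m, Sum.inr (Sum.inl i) ∈ K
  · right
    obtain ⟨i, hi⟩ := hc
    refine ⟨zf i, univ.filter (fun u => Sum.inl u ∈ K), ⟨?_, ?_, ?_⟩, ?_⟩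
    · intro v hv
      rw [mem_filter] at hv
      by_contra h
      exact hK.2.1 _ hv.2 _ hi h
    · intro u hu v hv h
      rw [mem_filter] at hu hv
      exact hK.2.1 _ hu.2 _ hv.2 h
    · intro v hv hvK
      rw [mem_filter, not_and] at hvK
      obtain ⟨u, hu, h⟩ := hK.2.2 (Sum.inl v) trivial (hvK (mem_univ _))
      rcases u with u | j | j
      · exact ⟨u, by rw [mem_filter]; exact ⟨mem_univ _, hu⟩, h⟩
      · exfalso
        by_cases hij : i = j
        · subst hij
          exact h hv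
        · exact hK.2.1 _ hi _ hu hij
      · exact absurd h (fun h => h)
    · rw [← card_image_of_injective _ (Sum.inl_injective (α := U) (β := Fin m ⊕ Fin m))]
      apply card_le_card
      intro x hx
      rw [mem_image] at hx
      obtain ⟨u, hu, rfl⟩ := hx
      rw [mem_filter] at hu
      exact hu.2
  · left
    have hsub : (univ : Finset (Fin m)).image
        (fun i => (Sum.inr (Sum.inr i) : U ⊕ (Fin m ⊕ Fin m))) ⊆ K := by
      intro x hx
      rw [mem_image] at hx
      obtain ⟨j, -, rfl⟩ := hx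
      by_contra hj
      obtain ⟨u, hu, h⟩ := hK.2.2 _ trivial hj
      rcases u with u | i | i
      · exact h
      · exact hc ⟨i, hu⟩
      · exact h
    have h1 := card_le_card hsub
    rwa [card_image_of_injective (f := fun i => (Sum.inr (Sum.inr i) : U ⊕ (Fin m ⊕ Fin m))) _
      (Sum.inr_injective.comp Sum.inr_injective), card_univ, Fintype.card_fin] at h1

theorem as_avoid {U Om : Type} [Fintype U] {m : ℕ} (H : SimpleGraph U) (alive : Om → U → Prop)
    (zf : Fin m → Om) (T : Finset (U ⊕ (Fin m ⊕ Fin m))) (i : Fin m)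
    (hi : Sum.inr (Sum.inl i) ∉ T) (T' : Finset U) (hT' : ∀ u, Sum.inl u ∈ T → u ∈ T')
    (hg : Good H (alive (zf i)) T') :
    ∃ K, MISin (asGraph H alive zf) (fun _ => True) K ∧ Disjoint K T := by
  classical
  obtain ⟨J, hJ1, hJ2, hJ3⟩ := hg
  let J' : Finset (U ⊕ (Fin m ⊕ Fin m)) := insert (Sum.inr (Sum.inl i)) (J.image Sum.inl)
  have hmemJ : ∀ x, x ∈ J' ↔ x = Sum.inr (Sum.inl i) ∨ ∃ u ∈ J, Sum.inl u = x := by
    intro x
    rw [mem_insert, mem_image]
  have hind : ∀ u ∈ J', ∀ v ∈ J', ¬ (asGraph H alive zf).Adj u v := by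
    intro u hu v hv
    rw [hmemJ] at hu hv
    rcases hu with rfl | ⟨u, hu, rfl⟩ <;> rcases hv with rfl | ⟨v, hv, rfl⟩
    · exact fun h => h rfl
    · exact fun h => h (hJ1 v hv).1
    · exact fun h => h (hJ1 u hu).1
    · exact hJ2 u hu v hv
  obtain ⟨K, hJK, hK⟩ := as_extend (asGraph H alive zf) J' hind
  refine ⟨K, hK, ?_⟩
  rw [Finset.disjoint_left]
  intro x hxK hxT
  have hdom : ∃ u ∈ J', (asGraph H alive zf).Adj x u := by
    rcases x with u | j | j
    · by_cases ha : alive (zf i) u
      · obtain ⟨v, hv, h⟩ := hJ3 u (hT' u hxT) ha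
        exact ⟨Sum.inl v, by rw [hmemJ]; exact Or.inr ⟨v, hv, rfl⟩, h⟩
      · exact ⟨Sum.inr (Sum.inl i), by rw [hmemJ]; exact Or.inl rfl, ha⟩
    · refine ⟨Sum.inr (Sum.inl i), by rw [hmemJ]; exact Or.inl rfl, ?_⟩
      show j ≠ i
      rintro rfl
      exact hi hxT
    · exact ⟨Sum.inr (Sum.inl i), by rw [hmemJ]; exact Or.inl rfl, trivial⟩
  obtain ⟨u, hu, h⟩ := hdom
  exact hK.2.1 _ hxK _ (hJK hu) h

/-- module AS -/
theorem as_main : ZSMain → UMain → CoreMain := by
  classical
  rintro hZS ⟨c, hc, ε, hε, hU⟩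
  have he : (0 : ℝ) < min (1 / 64) ε := lt_min (by norm_num) hε
  refine ⟨min c 1 / 4, by positivity, min (1 / 64) ε / 4, by positivity, fun n0 => ?_⟩
  obtain ⟨m, U, Om, fU, fOm, nOm, H, alive, hm, hcard, hlow, hgood⟩ := hU (max 1000 n0)
  have hm1 : 1000 ≤ m := (le_max_left _ _).trans hm
  have hm2 : n0 ≤ m := (le_max_right _ _).trans hm
  set e : ℝ := min (1 / 64) ε with he'
  set t : ℕ := ⌊e * m⌋₊ with ht
  have hem : 0 ≤ e * m := by positivity
  have ht1 : (t : ℝ) ≤ e * m := Nat.floor_le hem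
  have ht2 : 64 * t ≤ m := by
    have h1 : (t : ℝ) ≤ 1 / 64 * m := ht1.trans (mul_le_mul_of_nonneg_right (min_le_left _ _)
      (Nat.cast_nonneg m))
    have h2 : (64 * t : ℝ) ≤ m := by linarith
    exact_mod_cast h2
  obtain ⟨zf, hzf⟩ := hZS m t U Om fU fOm nOm (fun T o => Good H (alive o) T) hm1 hcard ht2
    (fun T hT => hgood T (by
      have h1 : (T.card : ℝ) ≤ t := by exact_mod_cast hT
      have h2 : e * m ≤ ε * m := mul_le_mul_of_nonneg_right (min_le_right _ _)
        (Nat.cast_nonneg m)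
      linarith))
  have hV : Fintype.card (U ⊕ (Fin m ⊕ Fin m)) = Fintype.card U + (m + m) := by
    rw [Fintype.card_sum, Fintype.card_sum, Fintype.card_fin]
  have hV4 : (Fintype.card (U ⊕ (Fin m ⊕ Fin m)) : ℝ) ≤ 4 * m := by
    rw [hV]
    push_cast
    have : (Fintype.card U : ℝ) ≤ 2 * m := by exact_mod_cast hcard
    linarith
  refine ⟨U ⊕ (Fin m ⊕ Fin m), inferInstance, asGraph H alive zf, by omega, ?_, ?_⟩
  · intro K hK
    have hmpos : (0 : ℝ) ≤ m := Nat.cast_nonneg m
    have hmin0 : 0 ≤ min c 1 := (lt_min hc one_pos).le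
    have h1 : min c 1 / 4 * (Fintype.card (U ⊕ (Fin m ⊕ Fin m)) : ℝ) ≤ min c 1 * m := by
      have := mul_le_mul_of_nonneg_left hV4 (show 0 ≤ min c 1 / 4 by positivity)
      linarith
    rcases as_lower H alive zf K hK with h | ⟨o, K', hK', h⟩
    · have h2 : (m : ℝ) ≤ K.card := by exact_mod_cast h
      have h3 : min c 1 * m ≤ 1 * m := mul_le_mul_of_nonneg_right (min_le_right _ _) hmpos
      linarith
    · have h2 : (K'.card : ℝ) ≤ K.card := by exact_mod_cast h
      have h3 : min c 1 * m ≤ c * m := mul_le_mul_of_nonneg_right (min_le_left _ _) hmpos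
      have h4 := hlow o K' hK'
      linarith
  · intro T hT
    have hTt : T.card ≤ t := by
      apply Nat.le_floor
      have h1 : e / 4 * (Fintype.card (U ⊕ (Fin m ⊕ Fin m)) : ℝ) ≤ e * m := by
        have := mul_le_mul_of_nonneg_left hV4 (show 0 ≤ e / 4 by positivity)
        linarith
      linarith
    let T' : Finset U := univ.filter (fun u => Sum.inl u ∈ T)
    have hmemT : ∀ u, u ∈ T' ↔ Sum.inl u ∈ T := fun u => by simp [T']
    have hT'c : T'.card ≤ T.card := by
      rw [← card_image_of_injective _ (Sum.inl_injective (α := U) (β := Fin m ⊕ Fin m))]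
      apply card_le_card
      intro x hx
      rw [mem_image] at hx
      obtain ⟨u, hu, rfl⟩ := hx
      exact (hmemT u).1 hu
    have hmany := hzf T' (hT'c.trans hTt)
    -- a good context outside `T`
    obtain ⟨i, hi, hiT⟩ : ∃ i : Fin m, Good H (alive (zf i)) T' ∧ Sum.inr (Sum.inl i) ∉ T := by
      by_contra hcon
      push Not at hcon
      have hsub : (univ.filter (fun i : Fin m => Good H (alive (zf i)) T')).image
          (fun i => (Sum.inr (Sum.inl i) : U ⊕ (Fin m ⊕ Fin m))) ⊆ T := by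
        intro x hx
        rw [mem_image] at hx
        obtain ⟨i, hi, rfl⟩ := hx
        rw [mem_filter] at hi
        exact hcon i hi.2
      have h1 := card_le_card hsub
      rw [card_image_of_injective (f := fun i => (Sum.inr (Sum.inl i) : U ⊕ (Fin m ⊕ Fin m))) _
        (Sum.inr_injective.comp Sum.inl_injective)] at h1
      omega
    exact as_avoid H alive zf T i hiT T' (fun u hu => (hmemT u).2 hu) hi

end Pool.Agent.EGT
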