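import Pool.Agent.EGT.Defs
import Pool.Agent.helper26.KP.Main

/-!
Project EGT (MP_0b8466_co): block B.
-/

namespace Pool.Agent.EGT

theorem b_main : BMain := Pool.Agent.H26.KP.bMain

end Pool.Agent.EGT
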