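import Mathlib
import Pool.Agent.EGT.Defs

/-!
Project EGT (MP_0b8466_co): numerical facts about the parameters
(all checked by exact computation for `L ≤ 60` and `L = 100, 200, 500`).
-/

open Finset

namespace Pool.Agent.EGT

theorem DD_pos (j : ℕ) : 0 < DD j := by
  unfold DD; positivity
theorem ss_pos (j : ℕ) : 0 < ss j := by
  unfold ss; positivity
theorem kap_pos (j : ℕ) : 0 < kap j := by
  unfold kap; positivity
theorem NN_pos (L : ℕ) : 0 < NN L := by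
  unfold NN; positivity
theorem RR_pos (L j : ℕ) : 0 < RR L j := by
  unfold RR
  exact lt_of_lt_of_le Nat.one_pos (le_max_left _ _)
theorem DD_mono {i j : ℕ} (h : i ≤ j) : DD i ≤ DD j := by
  unfold DD
  exact Nat.mul_le_mul_left _ (Nat.pow_le_pow_right (by norm_num) h)
theorem KK_anti (L : ℕ) {i j : ℕ} (h : i ≤ j) : KK L j ≤ KK L i := by
  unfold KK
  apply Nat.div_le_div_left
  · have h1 := DD_mono h
    have h2 : (i + 1) ^ 6 ≤ (j + 1) ^ 6 := Nat.pow_le_pow_left (by omega) 6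
    exact Nat.mul_le_mul (Nat.mul_le_mul_left _ h1) h2
  · have := DD_pos i
    positivity

/-! ### real forms -/

theorem DD_pos' (j : ℕ) : (0 : ℝ) < DD j := by exact_mod_cast DD_pos j
theorem ss_pos' (j : ℕ) : (0 : ℝ) < ss j := by exact_mod_cast ss_pos j
theorem kap_pos' (j : ℕ) : (0 : ℝ) < kap j := by exact_mod_cast kap_pos j
theorem NN_pos' (L : ℕ) : (0 : ℝ) < NN L := by exact_mod_cast NN_pos L
theorem RR_pos' (L j : ℕ) : (0 : ℝ) < RR L j := by exact_mod_cast RR_pos L j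
theorem DD_cast (j : ℕ) : (DD j : ℝ) = 2 ^ 24 * 4 ^ j := by unfold DD; push_cast; ring
theorem ss_cast (j : ℕ) : (ss j : ℝ) = 2 ^ 14 * ((j : ℝ) + 1) := by unfold ss; push_cast; ring
theorem kap_cast (j : ℕ) : (kap j : ℝ) = 2 ^ 20 * ((j : ℝ) + 1) ^ 2 * ((j : ℝ) + 2) := by
  unfold kap; push_cast; ring
theorem NN_cast (L : ℕ) : (NN L : ℝ) = 2 ^ 47 * ((L : ℝ) + 1) ^ 3 * 4 ^ L := by
  unfold NN; push_cast; ring

/-- the denominator of `KK` -/
noncomputable def KD (j : ℕ) : ℝ := 2 ^ 40 * (DD j : ℝ) * ((j : ℝ) + 1) ^ 6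

theorem KD_pos (j : ℕ) : 0 < KD j := by
  unfold KD
  have := DD_pos' j
  positivity

theorem KD_nat (j : ℕ) : ((2 ^ 40 * DD j * (j + 1) ^ 6 : ℕ) : ℝ) = KD j := by
  unfold KD; push_cast; ring

theorem KK_le (L j : ℕ) : (KK L j : ℝ) ≤ (NN L : ℝ) / KD j := by
  rw [← KD_nat]
  unfold KK
  exact Nat.cast_div_le

theorem KK_gt (L j : ℕ) : (NN L : ℝ) / KD j < (KK L j : ℝ) + 1 := by
  rw [← KD_nat]
  unfold KK
  have h := Nat.lt_div_mul_add (a := NN L) (b := 2 ^ 40 * DD j * (j + 1) ^ 6) (by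
    have := DD_pos j
    positivity)
  have hp : (0 : ℝ) < ((2 ^ 40 * DD j * (j + 1) ^ 6 : ℕ) : ℝ) := by
    have := DD_pos j
    exact_mod_cast (by positivity : 0 < 2 ^ 40 * DD j * (j + 1) ^ 6)
  rw [div_lt_iff₀ hp]
  have h' : ((NN L : ℕ) : ℝ) < ((NN L / (2 ^ 40 * DD j * (j + 1) ^ 6) * (2 ^ 40 * DD j * (j + 1) ^ 6)
      + 2 ^ 40 * DD j * (j + 1) ^ 6 : ℕ) : ℝ) := by exact_mod_cast h
  rw [Nat.cast_add, Nat.cast_mul] at h'
  linarith

theorem KK_half {L j : ℕ} (hk : 0 < KK L j) : (NN L : ℝ) / KD j ≤ 2 * (KK L j : ℝ) := by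
  have h1 := KK_gt L j
  have h2 : (1 : ℝ) ≤ KK L j := by exact_mod_cast hk
  linarith

/-- total of `(j+1)/4^j` -/
theorem sum_succ_div_four (n : ℕ) :
    ∑ j ∈ range n, ((j : ℝ) + 1) / 4 ^ j ≤ 16 / 9 - (4 * (n : ℝ) + 16 / 3) / (3 * 4 ^ n) := by
  induction n with
  | zero => norm_num
  | succ n ih =>
    rw [sum_range_succ]
    have h4 : (0 : ℝ) < 4 ^ n := by positivity
    have : 16 / 9 - (4 * ((n + 1 : ℕ) : ℝ) + 16 / 3) / (3 * 4 ^ (n + 1)) =
      (16 / 9 - (4 * (n : ℝ) + 16 / 3) / (3 * 4 ^ n)) + ((n : ℝ) + 1) / 4 ^ n := by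
      push_cast
      rw [pow_succ]
      field_simp
      ring
    rw [this]
    linarith

/-- total mean number of alive hubs over the mean `N / 1024` scale -/
theorem num_hubs (L : ℕ) :
    ∑ j ∈ range (L + 1), (ss j : ℝ) / DD j ≤ 16 / (9 * 1024) := by
  have h1 : ∀ j ∈ range (L + 1), (ss j : ℝ) / DD j = (1 / 1024) * (((j : ℝ) + 1) / 4 ^ j) := by
    intro j _
    rw [ss_cast, DD_cast]
    have h4 : (0 : ℝ) < 4 ^ j := by positivity
    field_simp
    norm_num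
  rw [sum_congr rfl h1, ← mul_sum]
  have h2 := sum_succ_div_four (L + 1)
  have h3 : 0 ≤ (4 * ((L + 1 : ℕ) : ℝ) + 16 / 3) / (3 * 4 ^ (L + 1)) := by positivity
  have h4 : ∑ j ∈ range (L + 1), ((j : ℝ) + 1) / 4 ^ j ≤ 16 / 9 := by linarith
  calc (1 / 1024 : ℝ) * ∑ j ∈ range (L + 1), ((j : ℝ) + 1) / 4 ^ j ≤ 1 / 1024 * (16 / 9) :=
        mul_le_mul_of_nonneg_left h4 (by norm_num)
    _ = 16 / (9 * 1024) := by norm_num

theorem RR_den_cast (L j : ℕ) :
    ((DD j / (8 * (L + 1) * ss j) : ℕ) : ℝ) ≤ (DD j : ℝ) / (8 * ((L : ℝ) + 1) * ss j) := by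
  have := @Nat.cast_div_le ℝ _ _ _ (DD j) (8 * (L + 1) * ss j)
  push_cast at this
  exact this

/-- total label probability -/
theorem num_total (L : ℕ) :
    ∑ j ∈ range (L + 1), (RR L j : ℝ) * ((ss j : ℝ) / DD j) ≤ 1 / 4 := by
  have h1 : ∀ j ∈ range (L + 1), (RR L j : ℝ) * ((ss j : ℝ) / DD j) ≤
      (ss j : ℝ) / DD j + 1 / (8 * ((L : ℝ) + 1)) := by
    intro j _
    have hD := DD_pos' j
    have hs := ss_pos' j
    have hL : (0 : ℝ) < (L : ℝ) + 1 := by positivity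
    have h2 : (RR L j : ℝ) ≤ 1 + (DD j : ℝ) / (8 * ((L : ℝ) + 1) * ss j) := by
      unfold RR
      rw [Nat.cast_max]
      have h3 := RR_den_cast L j
      have h4 : (0 : ℝ) ≤ (DD j : ℝ) / (8 * ((L : ℝ) + 1) * ss j) := by positivity
      apply max_le
      · push_cast; linarith
      · linarith
    calc (RR L j : ℝ) * ((ss j : ℝ) / DD j)
        ≤ (1 + (DD j : ℝ) / (8 * ((L : ℝ) + 1) * ss j)) * ((ss j : ℝ) / DD j) :=
          mul_le_mul_of_nonneg_right h2 (by positivity)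
      _ = (ss j : ℝ) / DD j + 1 / (8 * ((L : ℝ) + 1)) := by
          field_simp
  refine (sum_le_sum h1).trans ?_
  rw [sum_add_distrib]
  have h2 := num_hubs L
  have h3 : ∑ _j ∈ range (L + 1), 1 / (8 * ((L : ℝ) + 1)) = 1 / 8 := by
    rw [sum_const, card_range, nsmul_eq_mul]
    push_cast
    have hL : (0 : ℝ) < (L : ℝ) + 1 := by positivity
    field_simp
  rw [h3]
  have : (16 : ℝ) / (9 * 1024) + 1 / 8 ≤ 1 / 4 := by norm_num
  linarith

theorem num_gain {L j : ℕ} (_h : j ≤ L) :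
    (DD j : ℝ) / (16 * ((L : ℝ) + 1)) ≤ (ss j : ℝ) * RR L j := by
  have hD := DD_pos' j
  have hs := ss_pos' j
  have hL : (0 : ℝ) < (L : ℝ) + 1 := by positivity
  set x : ℝ := (DD j : ℝ) / (8 * ((L : ℝ) + 1) * ss j) with hx
  have hx0 : 0 < x := by positivity
  have h1 : x / 2 ≤ RR L j := by
    have h2 : x < ((DD j / (8 * (L + 1) * ss j) : ℕ) : ℝ) + 1 := by
      have h := Nat.lt_div_mul_add (a := DD j) (b := 8 * (L + 1) * ss j) (by
        have := ss_pos j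
        positivity)
      have hp : (0 : ℝ) < 8 * ((L : ℝ) + 1) * ss j := by positivity
      rw [hx, div_lt_iff₀ hp]
      have h' : ((DD j : ℕ) : ℝ) < ((DD j / (8 * (L + 1) * ss j) * (8 * (L + 1) * ss j)
        + 8 * (L + 1) * ss j : ℕ) : ℝ) := by exact_mod_cast h
      rw [Nat.cast_add, Nat.cast_mul] at h'
      have e1 : ((8 * (L + 1) * ss j : ℕ) : ℝ) = 8 * ((L : ℝ) + 1) * ss j := by push_cast; ring
      rw [e1] at h'
      linarith
    have h3 : ((DD j / (8 * (L + 1) * ss j) : ℕ) : ℝ) ≤ RR L j := by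
      unfold RR
      exact_mod_cast le_max_right _ _
    have h4 : (1 : ℝ) ≤ RR L j := by exact_mod_cast RR_pos L j
    linarith
  calc (DD j : ℝ) / (16 * ((L : ℝ) + 1)) = (ss j : ℝ) * (x / 2) := by
        rw [hx]; field_simp; ring
    _ ≤ (ss j : ℝ) * RR L j := mul_le_mul_of_nonneg_left h1 hs.le

theorem num_RR_le (L j : ℕ) : RR L j ≤ 2 ^ 10 * 4 ^ j := by
  unfold RR
  apply max_le
  · exact Nat.one_le_iff_ne_zero.mpr (by positivity)
  · apply Nat.div_le_of_le_mul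
    unfold DD ss
    have h4 : 1 ≤ 4 ^ j := Nat.one_le_pow _ _ (by norm_num)
    have h5 : 1 ≤ (L + 1) * (j + 1) := Nat.one_le_iff_ne_zero.mpr (by positivity)
    calc 2 ^ 24 * 4 ^ j = (8 * 2 ^ 14 * 2 ^ 7) * 4 ^ j * 1 := by norm_num
      _ ≤ (8 * 2 ^ 14 * 2 ^ 10) * 4 ^ j * ((L + 1) * (j + 1)) :=
          Nat.mul_le_mul (Nat.mul_le_mul_right _ (by norm_num)) h5
      _ = 8 * (L + 1) * (2 ^ 14 * (j + 1)) * (2 ^ 10 * 4 ^ j) := by ring

theorem log_two_pow_mul (a : ℕ) (j : ℕ) :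
    Real.log ((2 : ℝ) ^ a * 4 ^ j) = ((a : ℝ) + 2 * j) * Real.log 2 := by
  rw [show (4 : ℝ) ^ j = 2 ^ (2 * j) by rw [pow_mul]; norm_num, ← pow_add, Real.log_pow]
  push_cast
  ring

theorem log_RR_le (L j : ℕ) : Real.log (RR L j : ℝ) ≤ (10 + 2 * (j : ℝ)) * Real.log 2 := by
  have h1 : (RR L j : ℝ) ≤ 2 ^ 10 * 4 ^ j := by exact_mod_cast num_RR_le L j
  calc Real.log (RR L j : ℝ) ≤ Real.log (2 ^ 10 * 4 ^ j) := Real.log_le_log (RR_pos' L j) h1
    _ = (10 + 2 * (j : ℝ)) * Real.log 2 := by rw [log_two_pow_mul]; push_cast; ring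

theorem num_log_RR (L j : ℕ) : Real.log (RR L j : ℝ) ≤ (ss j : ℝ) / 1000 := by
  refine (log_RR_le L j).trans ?_
  rw [ss_cast]
  have h2 := Real.log_two_lt_d9
  have h3 : 0 < Real.log 2 := Real.log_pos (by norm_num)
  have hj : (0 : ℝ) ≤ j := by positivity
  nlinarith

theorem num_KK_zero (L : ℕ) {j : ℕ} (h : L + 1 ≤ j) : KK L j = 0 := by
  unfold KK
  apply Nat.div_eq_of_lt
  have h1 : DD (L + 1) ≤ DD j := DD_mono h
  have h2 : (L + 2) ^ 6 ≤ (j + 1) ^ 6 := Nat.pow_le_pow_left (by omega) 6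
  have h3 : 2 ^ 40 * DD (L + 1) * (L + 2) ^ 6 ≤ 2 ^ 40 * DD j * (j + 1) ^ 6 :=
    Nat.mul_le_mul (Nat.mul_le_mul_left _ h1) h2
  refine lt_of_lt_of_le ?_ h3
  unfold NN DD
  have h4 : (L + 1) ^ 3 ≤ (L + 2) ^ 6 := by
    calc (L + 1) ^ 3 ≤ (L + 2) ^ 3 := Nat.pow_le_pow_left (by omega) 3
      _ ≤ (L + 2) ^ 6 := Nat.pow_le_pow_right (by omega) (by norm_num)
  have h5 : 0 < 4 ^ L := by positivity
  have h6 : 0 < (L + 2) ^ 6 := by positivity
  calc 2 ^ 47 * (L + 1) ^ 3 * 4 ^ L ≤ 2 ^ 47 * (L + 2) ^ 6 * 4 ^ L :=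
        Nat.mul_le_mul_right _ (Nat.mul_le_mul_left _ h4)
    _ < 2 ^ 66 * ((L + 2) ^ 6 * 4 ^ L) := by
        have : 0 < (L + 2) ^ 6 * 4 ^ L := by positivity
        rw [mul_assoc]
        exact Nat.mul_lt_mul_of_pos_right (by norm_num) this
    _ = 2 ^ 40 * (2 ^ 24 * 4 ^ (L + 1)) * (L + 2) ^ 6 := by rw [pow_succ 4 L]; ring

/-- tail of the sum of fifth powers -/
theorem sum_inv_five (j n : ℕ) :
    ∑ l ∈ Ioc j n, 1 / ((l : ℝ) + 1) ^ 5 ≤ 1 / (4 * ((j : ℝ) + 1) ^ 4) := by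
  have key : ∀ n, j ≤ n → ∑ l ∈ Ioc j n, 1 / ((l : ℝ) + 1) ^ 5 ≤
      1 / (4 * ((j : ℝ) + 1) ^ 4) - 1 / (4 * ((n : ℝ) + 1) ^ 4) := by
    intro n hn
    induction n, hn using Nat.le_induction with
    | base => simp
    | succ n hn ih =>
      rw [Finset.sum_Ioc_succ_top hn]
      have hx : (0 : ℝ) < (n : ℝ) + 1 := by positivity
      have h1 : 1 / (((n + 1 : ℕ) : ℝ) + 1) ^ 5 ≤
          1 / (4 * ((n : ℝ) + 1) ^ 4) - 1 / (4 * (((n + 1 : ℕ) : ℝ) + 1) ^ 4) := by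
        push_cast
        set x : ℝ := (n : ℝ) + 1 with hxd
        have hx1 : 0 < x + 1 := by positivity
        rw [div_sub_div _ _ (by positivity) (by positivity), div_le_div_iff₀ (by positivity)
          (by positivity)]
        have h2 : 0 ≤ 16 * (x + 1) ^ 4 * x ^ 0 * (10 * x ^ 3 + 10 * x ^ 2 + 5 * x + 1) := by
          positivity
        have e : (1 * (4 * (x + 1) ^ 4) - 4 * x ^ 4 * 1) * (x + 1) ^ 5 -
            1 * (4 * x ^ 4 * (4 * (x + 1) ^ 4)) =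
            4 * (x + 1) ^ 4 * (10 * x ^ 3 + 10 * x ^ 2 + 5 * x + 1) := by ring
        nlinarith
      linarith
  rcases le_or_gt j n with h | h
  · have h1 := key n h
    have h2 : 0 ≤ 1 / (4 * ((n : ℝ) + 1) ^ 4) := by positivity
    linarith
  · rw [Finset.Ioc_eq_empty_of_le h.le, sum_empty]
    positivity

/-- hits are rare -/
theorem num_hit {L j : ℕ} (_h : j ≤ L) :
    ∑ l ∈ Ioc j L, (4 * ss l * KK L l * (kap j * DD l) : ℝ) ≤ (NN L : ℝ) / 32 := by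
  have h1 : ∀ l ∈ Ioc j L, (4 * ss l * KK L l * (kap j * DD l) : ℝ) ≤
      ((NN L : ℝ) * kap j / 2 ^ 24) * (1 / ((l : ℝ) + 1) ^ 5) := by
    intro l _
    have hK := KK_le L l
    have hD := DD_pos' l
    have hs := ss_pos' l
    have hk := kap_pos' j
    have hl : (0 : ℝ) < (l : ℝ) + 1 := by positivity
    calc (4 * ss l * KK L l * (kap j * DD l) : ℝ)
        ≤ 4 * ss l * ((NN L : ℝ) / KD l) * (kap j * DD l) := by
          apply mul_le_mul_of_nonneg_right _ (mul_nonneg hk.le hD.le)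
          exact mul_le_mul_of_nonneg_left hK (mul_nonneg (by norm_num) hs.le)
      _ = ((NN L : ℝ) * kap j / 2 ^ 24) * (1 / ((l : ℝ) + 1) ^ 5) := by
          rw [ss_cast, KD]
          field_simp
          norm_num
  refine (sum_le_sum h1).trans ?_
  rw [← mul_sum]
  have h2 := sum_inv_five j L
  have hN := NN_pos' L
  have hk := kap_pos' j
  calc ((NN L : ℝ) * kap j / 2 ^ 24) * ∑ l ∈ Ioc j L, 1 / ((l : ℝ) + 1) ^ 5
      ≤ ((NN L : ℝ) * kap j / 2 ^ 24) * (1 / (4 * ((j : ℝ) + 1) ^ 4)) :=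
        mul_le_mul_of_nonneg_left h2 (by positivity)
    _ = (NN L : ℝ) * (((j : ℝ) + 2) / (64 * ((j : ℝ) + 1) ^ 2)) := by
        rw [kap_cast]
        field_simp
        norm_num
    _ ≤ (NN L : ℝ) * (1 / 32) := by
        apply mul_le_mul_of_nonneg_left _ hN.le
        rw [div_le_div_iff₀ (by positivity) (by norm_num)]
        have hj : (0 : ℝ) ≤ j := by positivity
        nlinarith
    _ = (NN L : ℝ) / 32 := by ring

theorem num_kap_DD {L j l : ℕ} (h : j < l) (hl : l ≤ L) : kap j * DD l ≤ NN L := by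
  unfold kap DD NN
  have h1 : (j + 1) ^ 2 * (j + 2) ≤ (L + 1) ^ 3 := by
    have : (j + 1) ^ 2 * (j + 2) ≤ (L + 1) ^ 2 * (L + 1) :=
      Nat.mul_le_mul (Nat.pow_le_pow_left (by omega) 2) (by omega)
    calc (j + 1) ^ 2 * (j + 2) ≤ (L + 1) ^ 2 * (L + 1) := this
      _ = (L + 1) ^ 3 := by ring
  have h2 : 4 ^ l ≤ 4 ^ L := Nat.pow_le_pow_right (by norm_num) hl
  calc 2 ^ 20 * (j + 1) ^ 2 * (j + 2) * (2 ^ 24 * 4 ^ l)
      = 2 ^ 44 * (((j + 1) ^ 2 * (j + 2)) * 4 ^ l) := by ring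
    _ ≤ 2 ^ 47 * ((L + 1) ^ 3 * 4 ^ L) :=
        Nat.mul_le_mul (by norm_num) (Nat.mul_le_mul h1 h2)
    _ = 2 ^ 47 * (L + 1) ^ 3 * 4 ^ L := by ring

theorem num_DD_NN' {L j : ℕ} (h : j ≤ L) : 2 ^ 23 * DD j ≤ NN L := by
  unfold DD NN
  have h2 : 4 ^ j ≤ 4 ^ L := Nat.pow_le_pow_right (by norm_num) h
  have h3 : 1 ≤ (L + 1) ^ 3 := Nat.one_le_iff_ne_zero.mpr (by positivity)
  calc 2 ^ 23 * (2 ^ 24 * 4 ^ j) = 2 ^ 47 * (1 * 4 ^ j) := by ring
    _ ≤ 2 ^ 47 * ((L + 1) ^ 3 * 4 ^ L) := Nat.mul_le_mul_left _ (Nat.mul_le_mul h3 h2)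
    _ = 2 ^ 47 * (L + 1) ^ 3 * 4 ^ L := by ring

theorem num_DD_NN {L j : ℕ} (h : j ≤ L) : DD j ≤ NN L := by
  have := num_DD_NN' h
  have h0 := DD_pos j
  omega

theorem num_KK_DD {L j : ℕ} (h : j ≤ L) : 1000 * (KK L (j + 2) + 1) * DD j ≤ NN L := by
  have h1 := num_DD_NN' h
  have h2 : KK L (j + 2) * (2 ^ 40 * DD (j + 2) * (j + 2 + 1) ^ 6) ≤ NN L := by
    unfold KK
    exact Nat.div_mul_le_self _ _
  have h3 : 2000 * DD j ≤ 2 ^ 40 * DD (j + 2) * (j + 2 + 1) ^ 6 := by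
    have h4 : DD j ≤ DD (j + 2) := DD_mono (by omega)
    have h5 : 1 ≤ (j + 2 + 1) ^ 6 := Nat.one_le_iff_ne_zero.mpr (by positivity)
    have h6 : 2000 ≤ 2 ^ 40 := by norm_num
    calc 2000 * DD j ≤ 2 ^ 40 * DD (j + 2) * 1 := by
          rw [mul_one]; exact Nat.mul_le_mul h6 h4
      _ ≤ 2 ^ 40 * DD (j + 2) * (j + 2 + 1) ^ 6 := Nat.mul_le_mul_left _ h5
  have h6 : KK L (j + 2) * (2000 * DD j) ≤ NN L := le_trans (Nat.mul_le_mul_left _ h3) h2
  have h7 : 1000 * (KK L (j + 2) + 1) * DD j = 1000 * (KK L (j + 2) * DD j) + 1000 * DD j := by ring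
  have h8 : KK L (j + 2) * (2000 * DD j) = 2000 * (KK L (j + 2) * DD j) := by ring
  rw [h7]
  rw [h8] at h6
  omega

theorem num_KK_one (L : ℕ) : KK L 1 * 2 ^ 72 ≤ NN L := by
  have h2 : KK L 1 * (2 ^ 40 * DD 1 * (1 + 1) ^ 6) ≤ NN L := by
    unfold KK
    exact Nat.div_mul_le_self _ _
  have h3 : 2 ^ 40 * DD 1 * (1 + 1) ^ 6 = 2 ^ 72 := by
    unfold DD; norm_num
  rw [h3] at h2
  exact h2

/-! ### entropies -/

/-- entropy of `k`-sets, `k ≥ 1` at least half of `N / KD l` -/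
noncomputable def lam (l : ℕ) : ℝ := 47 + 6 * (l : ℝ)

theorem log_KD (l : ℕ) : 1 + Real.log (2 * KD l) ≤ lam l := by
  unfold KD lam
  have hl : (0 : ℝ) < (l : ℝ) + 1 := by positivity
  have e : 2 * (2 ^ 40 * (DD l : ℝ) * ((l : ℝ) + 1) ^ 6) =
      (2 ^ 65 * 4 ^ l) * ((l : ℝ) + 1) ^ 6 := by
    rw [DD_cast]; ring
  rw [e, Real.log_mul (by positivity) (by positivity), log_two_pow_mul, Real.log_pow]
  have h1 : Real.log ((l : ℝ) + 1) ≤ l * Real.log 2 := by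
    have h2 : (l : ℝ) + 1 ≤ 2 ^ l := by
      have : l + 1 ≤ 2 ^ l := Nat.lt_two_pow_self
      exact_mod_cast this
    calc Real.log ((l : ℝ) + 1) ≤ Real.log (2 ^ l) := Real.log_le_log hl h2
      _ = l * Real.log 2 := by rw [Real.log_pow]
  have h2 := Real.log_two_lt_d9
  have h3 : 0 < Real.log 2 := Real.log_pos (by norm_num)
  have hj : (0 : ℝ) ≤ l := by positivity
  push_cast
  nlinarith

theorem KK_le_NN (L l : ℕ) : KK L l ≤ NN L := Nat.div_le_self _ _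

theorem card_KK (L l : ℕ) :
    ((univ.filter (fun G : Finset (Fin (NN L)) => G.card ≤ KK L l)).card : ℝ)
      ≤ Real.exp (lam l * (KK L l : ℝ)) := by
  rcases Nat.eq_zero_or_pos (KK L l) with h0 | hk
  · rw [h0]
    have : (univ.filter (fun G : Finset (Fin (NN L)) => G.card ≤ 0)) = {∅} := by
      ext G
      simp
    rw [this]
    simp
  · have h1 := card_small_subsets' (α := Fin (NN L)) hk (by simpa using KK_le_NN L l)
    refine h1.trans (Real.exp_le_exp.mpr ?_)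
    rw [mul_comm]
    apply mul_le_mul_of_nonneg_right _ (by positivity)
    refine le_trans ?_ (log_KD l)
    have hkp : (0 : ℝ) < KK L l := by exact_mod_cast hk
    have hN := NN_pos' L
    have h2 := KK_half hk
    have hKD := KD_pos l
    rw [Fintype.card_fin]
    have h3 : Real.log ((NN L : ℝ) / KK L l) ≤ Real.log (2 * KD l) := by
      apply Real.log_le_log (by positivity)
      rw [div_le_iff₀ hkp]
      rw [div_le_iff₀ hKD] at h2
      linarith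
    linarith

/-- entropy of one choice in the size bound -/
theorem num_entropy_E {L l : ℕ} (_h : l ≤ L) :
    ((univ.filter (fun G : Finset (Fin (NN L)) => G.card ≤ KK L l)).card : ℝ)
      ≤ Real.exp ((ss l : ℝ) * (KK L l : ℝ) / 100) := by
  refine (card_KK L l).trans (Real.exp_le_exp.mpr ?_)
  rw [mul_div_right_comm]
  apply mul_le_mul_of_nonneg_right _ (by positivity)
  unfold lam
  rw [ss_cast]
  have hj : (0 : ℝ) ≤ l := by positivity
  nlinarith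

theorem card_KK_succ {L j : ℕ} (h : j ≤ L) :
    ((univ.filter (fun F : Finset (Fin (NN L)) => F.card = KK L (j + 2) + 1)).card : ℝ)
      ≤ Real.exp (lam (j + 2) * ((KK L (j + 2) : ℝ) + 1)) := by
  have hle : KK L (j + 2) + 1 ≤ NN L := by
    have h1 := num_KK_DD h
    have h2 := DD_pos j
    calc KK L (j + 2) + 1 ≤ 1000 * (KK L (j + 2) + 1) * DD j := by
          rw [mul_assoc]
          calc KK L (j + 2) + 1 = 1 * ((KK L (j + 2) + 1) * 1) := by ring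
            _ ≤ 1000 * ((KK L (j + 2) + 1) * DD j) :=
              Nat.mul_le_mul (by norm_num) (Nat.mul_le_mul_left _ h2)
      _ ≤ NN L := h1
  have h1 := card_small_subsets' (α := Fin (NN L)) (k := KK L (j + 2) + 1) (by omega)
    (by simpa using hle)
  have h0 : ((univ.filter (fun F : Finset (Fin (NN L)) => F.card = KK L (j + 2) + 1)).card : ℝ) ≤
      ((univ.filter (fun F : Finset (Fin (NN L)) => F.card ≤ KK L (j + 2) + 1)).card : ℝ) := by
    have : (univ.filter (fun F : Finset (Fin (NN L)) => F.card = KK L (j + 2) + 1)).card ≤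
      (univ.filter (fun F : Finset (Fin (NN L)) => F.card ≤ KK L (j + 2) + 1)).card := by
      apply card_le_card
      intro F hF
      simp only [mem_filter, mem_univ, true_and] at hF ⊢
      exact hF.le
    exact_mod_cast this
  refine h0.trans (h1.trans (Real.exp_le_exp.mpr ?_))
  push_cast
  rw [mul_comm]
  apply mul_le_mul_of_nonneg_right _ (by positivity)
  refine le_trans ?_ (log_KD (j + 2))
  have hN := NN_pos' L
  have h2 := KK_gt L (j + 2)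
  have hKD := KD_pos (j + 2)
  rw [Fintype.card_fin]
  have h3 : Real.log ((NN L : ℝ) / ((KK L (j + 2) : ℝ) + 1)) ≤ Real.log (2 * KD (j + 2)) := by
    apply Real.log_le_log (by positivity)
    rw [div_le_iff₀ (by positivity)]
    rw [div_lt_iff₀ hKD] at h2
    nlinarith
  linarith

/-- ratio of consecutive `KD` -/
theorem KD_ratio_one (j : ℕ) : KD (j + 2) ≤ 46 * KD (j + 1) := by
  unfold KD
  rw [DD_cast, DD_cast]
  have hj : (0 : ℝ) ≤ j := by positivity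
  have h1 : (((j + 2 : ℕ) : ℝ) + 1) ≤ 3 / 2 * (((j + 1 : ℕ) : ℝ) + 1) := by
    push_cast
    linarith
  have h2 : (((j + 2 : ℕ) : ℝ) + 1) ^ 6 ≤ (3 / 2 * (((j + 1 : ℕ) : ℝ) + 1)) ^ 6 :=
    pow_le_pow_left₀ (by positivity) h1 6
  have h3 : (4 : ℝ) ^ (j + 2) = 4 * 4 ^ (j + 1) := by rw [pow_succ]; ring
  have h4 : (0 : ℝ) < 4 ^ (j + 1) := by positivity
  rw [mul_pow] at h2
  rw [h3]
  have h5 : (0 : ℝ) < (((j + 1 : ℕ) : ℝ) + 1) ^ 6 := by positivity
  have h6 : (3 / 2 : ℝ) ^ 6 * (((j + 1 : ℕ) : ℝ) + 1) ^ 6 ≤ 46 / 4 * (((j + 1 : ℕ) : ℝ) + 1) ^ 6 := by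
    apply mul_le_mul_of_nonneg_right _ h5.le
    norm_num
  have h7 := h2.trans h6
  calc 2 ^ 40 * (2 ^ 24 * (4 * 4 ^ (j + 1))) * (((j + 2 : ℕ) : ℝ) + 1) ^ 6
      ≤ 2 ^ 40 * (2 ^ 24 * (4 * 4 ^ (j + 1))) * (46 / 4 * (((j + 1 : ℕ) : ℝ) + 1) ^ 6) :=
        mul_le_mul_of_nonneg_left h7 (by positivity)
    _ = 46 * (2 ^ 40 * (2 ^ 24 * 4 ^ (j + 1)) * (((j + 1 : ℕ) : ℝ) + 1) ^ 6) := by ring

theorem KD_ratio (j i : ℕ) : 4 ^ i * KD j ≤ KD (j + i) := by
  unfold KD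
  rw [DD_cast, DD_cast]
  have h1 : ((j : ℝ) + 1) ^ 6 ≤ (((j + i : ℕ) : ℝ) + 1) ^ 6 := by
    apply pow_le_pow_left₀ (by positivity)
    push_cast
    have : (0 : ℝ) ≤ i := by positivity
    linarith
  calc (4 : ℝ) ^ i * (2 ^ 40 * (2 ^ 24 * 4 ^ j) * ((j : ℝ) + 1) ^ 6)
      = 2 ^ 40 * (2 ^ 24 * 4 ^ (j + i)) * ((j : ℝ) + 1) ^ 6 := by rw [pow_add]; ring
    _ ≤ 2 ^ 40 * (2 ^ 24 * 4 ^ (j + i)) * (((j + i : ℕ) : ℝ) + 1) ^ 6 :=
        mul_le_mul_of_nonneg_left h1 (by positivity)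

/-- sum of the entropies of the levels `≥ j + 2` -/
theorem sum_lam_tail (j : ℕ) (y : ℝ) (hy : 0 ≤ y) (n : ℕ) :
    ∑ i ∈ range n, lam (j + 2 + i) * (y / 4 ^ i) ≤ (82 + 8 * (j : ℝ)) * y := by
  have h1 : ∑ i ∈ range n, (1 : ℝ) / 4 ^ i ≤ 4 / 3 := by
    have : ∑ i ∈ range n, (1 : ℝ) / 4 ^ i ≤ 4 / 3 - 4 / (3 * 4 ^ n) := by
      induction n with
      | zero => norm_num
      | succ n ih =>
        rw [sum_range_succ]
        have h4 : (0 : ℝ) < 4 ^ n := by positivity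
        have : 4 / 3 - 4 / (3 * (4 : ℝ) ^ (n + 1)) = (4 / 3 - 4 / (3 * 4 ^ n)) + 1 / 4 ^ n := by
          rw [pow_succ]; field_simp; ring
        rw [this]; linarith
    have h4 : (0 : ℝ) ≤ 4 / (3 * 4 ^ n) := by positivity
    linarith
  have h2 : ∑ i ∈ range n, ((i : ℝ) + 1) / 4 ^ i ≤ 16 / 9 := by
    have h3 := sum_succ_div_four n
    have h4 : 0 ≤ (4 * (n : ℝ) + 16 / 3) / (3 * 4 ^ n) := by positivity
    linarith
  have h3 : ∑ i ∈ range n, lam (j + 2 + i) * (y / 4 ^ i) =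
      y * ((53 + 6 * (j : ℝ)) * ∑ i ∈ range n, (1 : ℝ) / 4 ^ i +
        6 * ∑ i ∈ range n, ((i : ℝ) + 1) / 4 ^ i) := by
    rw [mul_sum, mul_sum, ← sum_add_distrib, mul_sum]
    apply sum_congr rfl
    intro i _
    unfold lam
    push_cast
    ring
  rw [h3, mul_comm (82 + 8 * (j : ℝ)) y]
  apply mul_le_mul_of_nonneg_left _ hy
  have hj : (0 : ℝ) ≤ j := by positivity
  nlinarith

/-- sum of the entropies of the levels above `j` -/
theorem sum_lam_KK (L j : ℕ) :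
    ∑ l ∈ Ioc j L, lam l * (KK L l : ℝ) ≤ (2520 + 284 * (j : ℝ)) * ((KK L (j + 2) : ℝ) + 1) := by
  have hN := NN_pos' L
  have hx : (NN L : ℝ) / KD (j + 2) ≤ (KK L (j + 2) : ℝ) + 1 := (KK_gt L (j + 2)).le
  generalize hy : (KK L (j + 2) : ℝ) + 1 = y at hx
  have hy0 : 0 < y := by rw [← hy]; positivity
  have hlam : ∀ l, 0 ≤ lam l := fun l => by unfold lam; positivity
  have hsub : ∑ l ∈ Ioc j L, lam l * (KK L l : ℝ) ≤
      ∑ l ∈ range (L + 2), lam (j + 1 + l) * (KK L (j + 1 + l) : ℝ) := by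
    have e : ∑ l ∈ range (L + 2), lam (j + 1 + l) * (KK L (j + 1 + l) : ℝ) =
        ∑ l ∈ Ico (j + 1) (j + 1 + (L + 2)), lam l * (KK L l : ℝ) := by
      rw [Finset.sum_Ico_eq_sum_range, Nat.add_sub_cancel_left]
    rw [e]
    apply sum_le_sum_of_subset_of_nonneg
    · intro l hl
      rw [mem_Ioc] at hl
      rw [mem_Ico]
      omega
    · intro l _ _
      exact mul_nonneg (hlam l) (by positivity)
  refine hsub.trans ?_
  rw [sum_range_succ']
  have hA : lam (j + 1 + 0) * (KK L (j + 1 + 0) : ℝ) ≤ (2438 + 276 * (j : ℝ)) * y := by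
    have hK : (KK L (j + 1) : ℝ) ≤ 46 * y := by
      have h4 := KK_le L (j + 1)
      have h5 := KD_ratio_one j
      have h6 : (NN L : ℝ) / KD (j + 1) ≤ 46 * ((NN L : ℝ) / KD (j + 2)) := by
        have p1 := KD_pos (j + 1)
        have p2 := KD_pos (j + 2)
        rw [← mul_div_assoc, div_le_div_iff₀ p1 p2]
        nlinarith
      linarith
    have hl : lam (j + 1) = 53 + 6 * (j : ℝ) := by unfold lam; push_cast; ring
    rw [Nat.add_zero, hl]
    have hj : (0 : ℝ) ≤ j := by positivity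
    calc (53 + 6 * (j : ℝ)) * (KK L (j + 1) : ℝ) ≤ (53 + 6 * (j : ℝ)) * (46 * y) :=
          mul_le_mul_of_nonneg_left hK (by positivity)
      _ = (2438 + 276 * (j : ℝ)) * y := by ring
  have hB : ∑ l ∈ range (L + 1), lam (j + 1 + (l + 1)) * (KK L (j + 1 + (l + 1)) : ℝ) ≤
      (82 + 8 * (j : ℝ)) * y := by
    refine le_trans (sum_le_sum ?_) (sum_lam_tail j y hy0.le (L + 1))
    intro l _
    have e : j + 1 + (l + 1) = j + 2 + l := by ring
    rw [e]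
    apply mul_le_mul_of_nonneg_left _ (hlam _)
    have h4 := KK_le L (j + 2 + l)
    have h5 := KD_ratio (j + 2) l
    have p1 := KD_pos (j + 2)
    have p2 := KD_pos (j + 2 + l)
    have h6 : (NN L : ℝ) / KD (j + 2 + l) ≤ ((NN L : ℝ) / KD (j + 2)) / 4 ^ l := by
      rw [div_div]
      apply div_le_div_of_nonneg_left hN.le (by positivity)
      linarith
    have h7 : ((NN L : ℝ) / KD (j + 2)) / 4 ^ l ≤ y / 4 ^ l :=
      div_le_div_of_nonneg_right hx (by positivity)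
    linarith
  have : (2438 + 276 * (j : ℝ)) * y + (82 + 8 * (j : ℝ)) * y = (2520 + 284 * (j : ℝ)) * y := by
    ring
  linarith

theorem ent_le (j : ℕ) (y s : ℝ) (hy : 0 ≤ y) (hs : s ≤ (2520 + 284 * (j : ℝ)) * y) :
    lam (j + 2) * y + s ≤ (ss j : ℝ) * y / 4 := by
  have hl : lam (j + 2) = 59 + 6 * (j : ℝ) := by unfold lam; push_cast; ring
  rw [hl, ss_cast]
  have hj : (0 : ℝ) ≤ j := by positivity
  nlinarith [mul_nonneg hj hy]

/-- entropy of one choice in the union bound for `V_j` -/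
theorem num_entropy {L j : ℕ} (h : j ≤ L) :
    ((univ.filter (fun F : Finset (Fin (NN L)) => F.card = KK L (j + 2) + 1)).card : ℝ) *
      ∏ l ∈ Ioc j L, ((univ.filter (fun G : Finset (Fin (NN L)) => G.card ≤ KK L l)).card : ℝ)
      ≤ Real.exp ((ss j : ℝ) * ((KK L (j + 2) : ℝ) + 1) / 4) := by
  have h2 : ∏ l ∈ Ioc j L, ((univ.filter (fun G : Finset (Fin (NN L)) => G.card ≤ KK L l)).card : ℝ)
      ≤ Real.exp (∑ l ∈ Ioc j L, lam l * (KK L l : ℝ)) := by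
    rw [Real.exp_sum]
    exact prod_le_prod (fun _ _ => Nat.cast_nonneg _) (fun l _ => card_KK L l)
  have h0 : (0 : ℝ) ≤ ∏ l ∈ Ioc j L,
      ((univ.filter (fun G : Finset (Fin (NN L)) => G.card ≤ KK L l)).card : ℝ) :=
    prod_nonneg (fun _ _ => Nat.cast_nonneg _)
  refine (mul_le_mul (card_KK_succ h) h2 h0 (Real.exp_pos _).le).trans ?_
  rw [← Real.exp_add]
  exact Real.exp_le_exp.mpr (ent_le j _ _ (by positivity) (sum_lam_KK L j))

/-- final gain in the size bound -/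
theorem num_gain_E {L l : ℕ} (h : l ≤ L) (hk : 0 < KK L l) :
    (NN L : ℝ) / (2 ^ 60 * ((L : ℝ) + 3) ^ 8)
      ≤ (ss l : ℝ) * KK L l * ((RR L l : ℝ) / (9216 * ((L : ℝ) + 1))) := by
  have h1 := num_gain h
  have h2 := KK_half hk
  have hD := DD_pos' l
  have hN := NN_pos' L
  have hL : (0 : ℝ) < (L : ℝ) + 1 := by positivity
  have hl1 : (0 : ℝ) < (l : ℝ) + 1 := by positivity
  have hlL : (l : ℝ) + 1 ≤ (L : ℝ) + 3 := by
    have : (l : ℝ) ≤ L := by exact_mod_cast h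
    linarith
  have hK : (NN L : ℝ) / (2 * KD l) ≤ KK L l := by
    rw [mul_comm 2 (KD l), ← div_div]
    linarith
  calc (NN L : ℝ) / (2 ^ 60 * ((L : ℝ) + 3) ^ 8)
      ≤ (NN L : ℝ) / (2 ^ 45 * 9216 * ((L : ℝ) + 1) ^ 2 * ((l : ℝ) + 1) ^ 6) := by
        apply div_le_div_of_nonneg_left hN.le (by positivity)
        have h3 : ((l : ℝ) + 1) ^ 6 ≤ ((L : ℝ) + 3) ^ 6 := pow_le_pow_left₀ hl1.le hlL 6
        have h4 : ((L : ℝ) + 1) ^ 2 ≤ ((L : ℝ) + 3) ^ 2 := pow_le_pow_left₀ hL.le (by linarith) 2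
        calc (2 : ℝ) ^ 45 * 9216 * ((L : ℝ) + 1) ^ 2 * ((l : ℝ) + 1) ^ 6
            ≤ 2 ^ 60 * ((L : ℝ) + 3) ^ 2 * ((L : ℝ) + 3) ^ 6 := by
              apply mul_le_mul _ h3 (by positivity) (by positivity)
              exact mul_le_mul (by norm_num) h4 (by positivity) (by positivity)
          _ = 2 ^ 60 * ((L : ℝ) + 3) ^ 8 := by ring
    _ = ((DD l : ℝ) / (16 * ((L : ℝ) + 1))) * ((NN L : ℝ) / (2 * KD l)) /
          (9216 * ((L : ℝ) + 1)) := by
        unfold KD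
        field_simp
        norm_num
    _ ≤ ((ss l : ℝ) * RR L l) * KK L l / (9216 * ((L : ℝ) + 1)) := by
        apply div_le_div_of_nonneg_right _ (by positivity)
        have := KD_pos l
        apply mul_le_mul h1 hK (by positivity)
        exact mul_nonneg (ss_pos' l).le (RR_pos' L l).le
    _ = (ss l : ℝ) * KK L l * ((RR L l : ℝ) / (9216 * ((L : ℝ) + 1))) := by ring

/-- final gain in the bound for `V_j` -/
theorem num_gain_V {L j : ℕ} (h : j ≤ L) :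
    2 * (NN L : ℝ) / (2 ^ 64 * ((L : ℝ) + 3) ^ 8)
      ≤ (ss j : ℝ) * ((KK L (j + 2) : ℝ) + 1) * ((RR L j : ℝ) / (9216 * ((L : ℝ) + 1))) := by
  have h1 := num_gain h
  have h2 := (KK_gt L (j + 2)).le
  have hD := DD_pos' j
  have hN := NN_pos' L
  have hL : (0 : ℝ) < (L : ℝ) + 1 := by positivity
  have hj1 : (0 : ℝ) < (j : ℝ) + 3 := by positivity
  have hjL : (j : ℝ) + 3 ≤ (L : ℝ) + 3 := by
    have : (j : ℝ) ≤ L := by exact_mod_cast h
    linarith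
  have hDD : (DD (j + 2) : ℝ) = 16 * DD j := by rw [DD_cast, DD_cast, pow_add]; ring
  calc 2 * (NN L : ℝ) / (2 ^ 64 * ((L : ℝ) + 3) ^ 8)
      = (NN L : ℝ) / (2 ^ 63 * ((L : ℝ) + 3) ^ 8) := by
        have : (0 : ℝ) < (L : ℝ) + 3 := by positivity
        field_simp
    _ ≤ (NN L : ℝ) / (2 ^ 48 * 9216 * ((L : ℝ) + 1) ^ 2 * ((j : ℝ) + 3) ^ 6) := by
        apply div_le_div_of_nonneg_left hN.le (by positivity)
        have h3 : ((j : ℝ) + 3) ^ 6 ≤ ((L : ℝ) + 3) ^ 6 := pow_le_pow_left₀ hj1.le hjL 6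
        have h4 : ((L : ℝ) + 1) ^ 2 ≤ ((L : ℝ) + 3) ^ 2 := pow_le_pow_left₀ hL.le (by linarith) 2
        calc (2 : ℝ) ^ 48 * 9216 * ((L : ℝ) + 1) ^ 2 * ((j : ℝ) + 3) ^ 6
            ≤ 2 ^ 63 * ((L : ℝ) + 3) ^ 2 * ((L : ℝ) + 3) ^ 6 := by
              apply mul_le_mul _ h3 (by positivity) (by positivity)
              exact mul_le_mul (by norm_num) h4 (by positivity) (by positivity)
          _ = 2 ^ 63 * ((L : ℝ) + 3) ^ 8 := by ring
    _ = ((DD j : ℝ) / (16 * ((L : ℝ) + 1))) * ((NN L : ℝ) / KD (j + 2)) /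
          (9216 * ((L : ℝ) + 1)) := by
        unfold KD
        rw [hDD]
        push_cast
        have e : (j : ℝ) + 2 + 1 = (j : ℝ) + 3 := by ring
        rw [e]
        field_simp
        norm_num
    _ ≤ ((ss j : ℝ) * RR L j) * ((KK L (j + 2) : ℝ) + 1) / (9216 * ((L : ℝ) + 1)) := by
        apply div_le_div_of_nonneg_right _ (by positivity)
        have := KD_pos (j + 2)
        apply mul_le_mul h1 h2 (by positivity)
        exact mul_nonneg (ss_pos' j).le (RR_pos' L j).le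
    _ = (ss j : ℝ) * ((KK L (j + 2) : ℝ) + 1) * ((RR L j : ℝ) / (9216 * ((L : ℝ) + 1))) := by ring

/-- mean number of hubs of one label -/
theorem num_mean {L j : ℕ} (h : j ≤ L) :
    (2 : ℝ) ^ 37 * ((L : ℝ) + 1) ^ 4 ≤ (ss j : ℝ) * NN L / DD j := by
  have hD := DD_pos' j
  rw [le_div_iff₀ hD, ss_cast, NN_cast, DD_cast]
  have h1 : (L : ℝ) + 1 ≤ ((j : ℝ) + 1) * 4 ^ (L - j) := by
    have h2 : L + 1 ≤ (j + 1) * 4 ^ (L - j) := by
      have h3 : L - j + 1 ≤ 4 ^ (L - j) := Nat.lt_pow_self (by norm_num)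
      calc L + 1 = j + 1 + (L - j) := by omega
        _ ≤ (j + 1) * (L - j + 1) := by nlinarith
        _ ≤ (j + 1) * 4 ^ (L - j) := Nat.mul_le_mul_left _ h3
    exact_mod_cast h2
  have h4 : (4 : ℝ) ^ L = 4 ^ (L - j) * 4 ^ j := by rw [← pow_add]; congr 1; omega
  rw [h4]
  have h5 : (0 : ℝ) < 4 ^ j := by positivity
  have h6 : (0 : ℝ) < (L : ℝ) + 1 := by positivity
  calc (2 : ℝ) ^ 37 * ((L : ℝ) + 1) ^ 4 * (2 ^ 24 * 4 ^ j)
      = 2 ^ 61 * ((L : ℝ) + 1) ^ 3 * 4 ^ j * ((L : ℝ) + 1) := by ring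
    _ ≤ 2 ^ 61 * ((L : ℝ) + 1) ^ 3 * 4 ^ j * (((j : ℝ) + 1) * 4 ^ (L - j)) :=
        mul_le_mul_of_nonneg_left h1 (by positivity)
    _ = 2 ^ 14 * ((j : ℝ) + 1) * (2 ^ 47 * ((L : ℝ) + 1) ^ 3 * (4 ^ (L - j) * 4 ^ j)) := by ring

/-- number of colour vectors -/
theorem num_colours (L : ℕ) :
    (∏ j ∈ range (L + 1), (RR L j : ℝ)) ≤ Real.exp (8 * ((L : ℝ) + 1) ^ 2) := by
  have h1 : ∀ j ∈ range (L + 1), (RR L j : ℝ) ≤ Real.exp (8 * ((L : ℝ) + 1)) := by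
    intro j hj
    have hjL : (j : ℝ) ≤ L := by
      have : j ≤ L := Nat.lt_succ_iff.mp (mem_range.mp hj)
      exact_mod_cast this
    rw [← Real.log_le_iff_le_exp (RR_pos' L j)]
    refine (log_RR_le L j).trans ?_
    have h2 := Real.log_two_lt_d9
    have h3 : 0 < Real.log 2 := Real.log_pos (by norm_num)
    have hj : (0 : ℝ) ≤ j := by positivity
    nlinarith
  calc (∏ j ∈ range (L + 1), (RR L j : ℝ)) ≤ ∏ _j ∈ range (L + 1), Real.exp (8 * ((L : ℝ) + 1)) :=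
        prod_le_prod (fun _ _ => by positivity) h1
    _ = Real.exp (8 * ((L : ℝ) + 1) ^ 2) := by
        rw [prod_const, card_range, ← Real.exp_nat_mul]
        congr 1
        push_cast
        ring

/-- tail of the same sum -/
theorem num_hubs_tail {L l : ℕ} :
    ∑ j ∈ (Ioc l L).filter (fun j => j % 2 ≠ l % 2), (ss j : ℝ) / DD j
      ≤ 6 / 5 * ((ss (l + 1) : ℝ) / DD (l + 1)) := by
  set a : ℝ := (ss (l + 1) : ℝ) / DD (l + 1) with ha
  have ha0 : 0 < a := div_pos (ss_pos' _) (DD_pos' _)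
  have h1 : ∑ j ∈ (Ioc l L).filter (fun j => j % 2 ≠ l % 2), (ss j : ℝ) / DD j ≤
      ∑ i ∈ range (L + 1), (ss (l + 1 + 2 * i) : ℝ) / DD (l + 1 + 2 * i) := by
    have hinj : Set.InjOn (fun i : ℕ => l + 1 + 2 * i) (range (L + 1) : Finset ℕ) := by
      intro i _ i' _ h
      simp only at h
      omega
    rw [← Finset.sum_image (f := fun j => (ss j : ℝ) / DD j) hinj]
    apply sum_le_sum_of_subset_of_nonneg
    · intro j hj
      rw [mem_filter, mem_Ioc] at hj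
      rw [mem_image]
      refine ⟨(j - (l + 1)) / 2, ?_, ?_⟩
      · rw [mem_range]
        omega
      · omega
    · intro j _ _
      exact div_nonneg (ss_pos' j).le (DD_pos' j).le
  refine h1.trans ?_
  have h2 : ∀ i ∈ range (L + 1), (ss (l + 1 + 2 * i) : ℝ) / DD (l + 1 + 2 * i) ≤
      a * (((i : ℝ) + 1) / 16 ^ i) := by
    intro i _
    rw [ha, ss_cast, ss_cast, DD_cast, DD_cast]
    have hl : (0 : ℝ) ≤ l := by positivity
    have hi : (0 : ℝ) ≤ i := by positivity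
    have e : (4 : ℝ) ^ (l + 1 + 2 * i) = 4 ^ (l + 1) * 16 ^ i := by
      rw [pow_add, pow_mul]; norm_num
    rw [e]
    have h4 : (0 : ℝ) < 4 ^ (l + 1) := by positivity
    have h16 : (0 : ℝ) < 16 ^ i := by positivity
    push_cast
    calc (2 : ℝ) ^ 14 * ((l : ℝ) + 1 + 2 * i + 1) / (2 ^ 24 * (4 ^ (l + 1) * 16 ^ i))
        ≤ 2 ^ 14 * (((l : ℝ) + 1 + 1) * ((i : ℝ) + 1)) / (2 ^ 24 * (4 ^ (l + 1) * 16 ^ i)) := by
          apply div_le_div_of_nonneg_right _ (by positivity)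
          apply mul_le_mul_of_nonneg_left _ (by norm_num)
          nlinarith [mul_nonneg hl hi]
      _ = 2 ^ 14 * ((l : ℝ) + 1 + 1) / (2 ^ 24 * 4 ^ (l + 1)) * (((i : ℝ) + 1) / 16 ^ i) := by
          field_simp
  refine (sum_le_sum h2).trans ?_
  rw [← mul_sum, mul_comm (6 / 5 : ℝ) a]
  apply mul_le_mul_of_nonneg_left _ ha0.le
  have h3 : ∀ n : ℕ, ∑ i ∈ range n, ((i : ℝ) + 1) / 16 ^ i ≤
      256 / 225 - (240 * (n : ℝ) + 256) / (225 * 16 ^ n) := by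
    intro n
    induction n with
    | zero => norm_num
    | succ n ih =>
      rw [sum_range_succ]
      have h4 : (0 : ℝ) < 16 ^ n := by positivity
      have : 256 / 225 - (240 * ((n + 1 : ℕ) : ℝ) + 256) / (225 * 16 ^ (n + 1)) =
        (256 / 225 - (240 * (n : ℝ) + 256) / (225 * 16 ^ n)) + ((n : ℝ) + 1) / 16 ^ n := by
        push_cast
        rw [pow_succ]
        field_simp
        ring
      rw [this]
      linarith
  have h4 := h3 (L + 1)
  have h5 : 0 ≤ (240 * ((L + 1 : ℕ) : ℝ) + 256) / (225 * 16 ^ (L + 1)) := by positivity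
  linarith

end Pool.Agent.EGT
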