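import Mathlib
import Pool.Agent.EGT.PDefs
import Pool.Agent.EGT.Num

/-!
Project EGT (MP_0b8466_co), module C01: few labelled vertices (C0) and few hubs of every label (C1),
with probability at least `1 - exp(-L^3)/3`.
-/

open Finset

namespace Pool.Agent.EGT

/-- an event which depends on the label seeds of one side only -/
theorem c01_side {N : ℕ} {Sd : Type} [Fintype Sd] [Nonempty Sd] (hN : 0 < N) (b : Bool)
    (Q : (Fin N → Sd) → Prop) : pr (fun ω : POm N Sd => Q (ω.1 b)) = pr Q := by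
  have : Nonempty (Fin N) := ⟨⟨0, hN⟩⟩
  rw [pr_prod]
  have h1 : (fun a : Bool → Fin N → Sd => pr (fun _ : Fin N → Fin N → Fin N => Q (a b)))
      = fun a => ind (Q (a b)) := by
    funext a
    exact ex_const (ind (Q (a b)))
  show ex (fun a : Bool → Fin N → Sd => pr (fun _ : Fin N → Fin N → Fin N => Q (a b))) = pr Q
  rw [h1]
  exact pr_pi_one (Ω := fun _ : Bool => Fin N → Sd) b Q

theorem c01_card {N : ℕ} (Q : Fin N → Prop) [DecidablePred Q] :
    ((univ.filter Q).card : ℝ) = ∑ i, ind (Q i) := by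
  rw [Finset.card_filter, Nat.cast_sum]
  refine Finset.sum_congr rfl fun i _ => ?_
  by_cases h : Q i
  · rw [ind_pos h, if_pos h, Nat.cast_one]
  · rw [ind_neg h, if_neg h, Nat.cast_zero]

/-- probability that a seed gives a label -/
theorem c01_label {L : ℕ} {Sd : Type} [Fintype Sd] {lab : Sd → Option (ℕ × ℕ)}
    (hs : LabSpec L lab) (b : Bool) : pr (fun s => lvl lab b s ≠ none) ≤ 1 / 4 := by
  have h1 : pr (fun s => lvl lab b s ≠ none)
      ≤ pr (fun s => ∃ j ∈ range (L + 1), ∃ χ ∈ range (RR L j), lab s = some (j, χ)) := by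
    refine pr_mono fun s h => ?_
    rcases hl : lab s with _ | ⟨j, χ⟩
    · exfalso
      apply h
      simp [lvl, hl]
    · obtain ⟨h2, h3⟩ := hs.range s j χ hl
      exact ⟨j, mem_range.mpr (by omega), χ, mem_range.mpr h3, rfl⟩
  refine h1.trans ((pr_exists _ _).trans ?_)
  refine le_trans (Finset.sum_le_sum fun j hj => ?_) (num_total L)
  refine (pr_exists_le (range (RR L j)) (fun χ s => lab s = some (j, χ))
    (b := (ss j : ℝ) / DD j) ?_).trans (le_of_eq ?_)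
  · intro χ hχ
    exact (hs.prob j χ (by have := mem_range.mp hj; omega) (mem_range.mp hχ)).le
  · rw [card_range]

theorem c01_exp : Real.exp (18 / 100) ≤ 12076 / 10000 := by
  have h1 : Real.exp (9 / 100) ≤ 1 / (1 - 9 / 100) :=
    Real.exp_bound_div_one_sub_of_interval (by norm_num) (by norm_num)
  have h2 : Real.exp (18 / 100) = Real.exp (9 / 100) ^ 2 := by
    rw [← Real.exp_nat_mul]; norm_num
  rw [h2]
  have h3 : Real.exp (9 / 100) ^ 2 ≤ (1 / (1 - 9 / 100)) ^ 2 :=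
    pow_le_pow_left₀ (Real.exp_pos _).le h1 2
  refine h3.trans ?_
  norm_num

/-- (C0) fails on side `b` -/
theorem c01_C0 {L : ℕ} {Sd : Type} [Fintype Sd] [Nonempty Sd] {lab : Sd → Option (ℕ × ℕ)}
    (hs : LabSpec L lab) (b : Bool) :
    pr (fun ω : POm (NN L) Sd => 3 / 10 * (NN L : ℝ) ≤ ∑ i, ind (lb lab ω b i ≠ none))
      ≤ Real.exp (-(NN L : ℝ) / 500) := by
  have h1 := c01_side (Sd := Sd) (NN_pos L) b
    (fun r => 3 / 10 * (NN L : ℝ) ≤ ∑ i, ind (lvl lab b (r i) ≠ none))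
  have h2 : pr (fun ω : POm (NN L) Sd => 3 / 10 * (NN L : ℝ) ≤ ∑ i, ind (lb lab ω b i ≠ none))
      = pr (fun r : Fin (NN L) → Sd => 3 / 10 * (NN L : ℝ) ≤ ∑ i, ind (lvl lab b (r i) ≠ none)) := h1
  rw [h2]
  have h3 := chernoff_upper (Ω := fun _ : Fin (NN L) => Sd) (fun _ s => lvl lab b s ≠ none)
    (lam := 18 / 100) (a := 3 / 10 * (NN L : ℝ)) (mu := (NN L : ℝ) / 4) (by norm_num) (by
      calc ∑ _i : Fin (NN L), pr (fun s => lvl lab b s ≠ none)
          ≤ ∑ _i : Fin (NN L), (1 / 4 : ℝ) := Finset.sum_le_sum fun i _ => c01_label hs b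
        _ = (NN L : ℝ) / 4 := by
          rw [Finset.sum_const, Finset.card_univ, Fintype.card_fin, nsmul_eq_mul]; ring)
  refine h3.trans (Real.exp_le_exp.mpr ?_)
  have h4 := c01_exp
  have hN := NN_pos' L
  nlinarith

theorem c01_hub {j χ : ℕ} {Sd : Type} {lab : Sd → Option (ℕ × ℕ)} (s : Sd) :
    lvl lab (par j) s = some (j, χ) ↔ lab s = some (j, χ) := by
  unfold lvl
  rw [Option.filter_eq_some_iff]
  constructor
  · exact fun h => h.1
  · intro h
    exact ⟨h, by simp⟩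

/-- (C1) fails for the label `(j, χ)` -/
theorem c01_C1 {L j χ : ℕ} {Sd : Type} [Fintype Sd] [Nonempty Sd] {lab : Sd → Option (ℕ × ℕ)}
    (hs : LabSpec L lab) (hj : j ≤ L) (hχ : χ < RR L j) :
    pr (fun ω : POm (NN L) Sd => 2 * ss j * (NN L : ℝ) / DD j ≤
      ∑ i, ind (lb lab ω (par j) i = some (j, χ)))
      ≤ Real.exp (-(38 / 100) * (ss j * (NN L : ℝ) / DD j)) := by
  have h2 : pr (fun ω : POm (NN L) Sd => 2 * ss j * (NN L : ℝ) / DD j ≤
      ∑ i, ind (lb lab ω (par j) i = some (j, χ)))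
      = pr (fun r : Fin (NN L) → Sd => 2 * ss j * (NN L : ℝ) / DD j ≤
      ∑ i, ind (lvl lab (par j) (r i) = some (j, χ))) :=
    c01_side (Sd := Sd) (NN_pos L) (par j) (fun r => 2 * ss j * (NN L : ℝ) / DD j ≤
      ∑ i, ind (lvl lab (par j) (r i) = some (j, χ)))
  rw [h2]
  have h5 : pr (fun s => lvl lab (par j) s = some (j, χ)) = (ss j : ℝ) / DD j := by
    rw [← hs.prob j χ hj hχ]
    congr 1
    funext s
    exact propext (c01_hub s)
  have h3 := chernoff_upper (Ω := fun _ : Fin (NN L) => Sd)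
    (fun _ s => lvl lab (par j) s = some (j, χ))
    (lam := Real.log 2) (a := 2 * ss j * (NN L : ℝ) / DD j) (mu := ss j * (NN L : ℝ) / DD j)
    (Real.log_nonneg (by norm_num)) (by
      calc ∑ _i : Fin (NN L), pr (fun s => lvl lab (par j) s = some (j, χ))
          = ∑ _i : Fin (NN L), ((ss j : ℝ) / DD j) := Finset.sum_congr rfl fun i _ => h5
        _ ≤ ss j * (NN L : ℝ) / DD j := by
          rw [Finset.sum_const, Finset.card_univ, Fintype.card_fin, nsmul_eq_mul]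
          exact le_of_eq (by ring))
  refine h3.trans (Real.exp_le_exp.mpr ?_)
  rw [Real.exp_log (by norm_num : (0 : ℝ) < 2)]
  have h6 : (69 : ℝ) / 100 ≤ Real.log 2 := by
    have := Real.log_two_gt_d9
    linarith
  have h7 : 0 ≤ ss j * (NN L : ℝ) / DD j := by positivity
  have h8 : 2 * ss j * (NN L : ℝ) / DD j = 2 * (ss j * (NN L : ℝ) / DD j) := by ring
  rw [h8]
  nlinarith

/-- the mean number of hubs of a label is large -/
theorem c01_mean {L j : ℕ} (hj : j ≤ L) :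
    300 * ((L : ℝ) + 1) ^ 3 ≤ ss j * (NN L : ℝ) / DD j := by
  have hD := DD_pos' j
  rw [le_div_iff₀ hD, ss_cast, NN_cast, DD_cast]
  have h1 : (4 : ℝ) ^ j ≤ 4 ^ L := pow_le_pow_right₀ (by norm_num) hj
  have h2 : (0 : ℝ) ≤ ((L : ℝ) + 1) ^ 3 := by positivity
  have h3 : (1 : ℝ) ≤ (j : ℝ) + 1 := by
    have : (0 : ℝ) ≤ j := Nat.cast_nonneg j
    linarith
  have h4 : ((L : ℝ) + 1) ^ 3 * 4 ^ j ≤ ((L : ℝ) + 1) ^ 3 * 4 ^ L := mul_le_mul_of_nonneg_left h1 h2
  have h5 : (0 : ℝ) ≤ ((L : ℝ) + 1) ^ 3 * 4 ^ L := by positivity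
  have h6 : ((L : ℝ) + 1) ^ 3 * 4 ^ L ≤ ((j : ℝ) + 1) * (((L : ℝ) + 1) ^ 3 * 4 ^ L) := by
    nlinarith
  calc 300 * ((L : ℝ) + 1) ^ 3 * (2 ^ 24 * 4 ^ j)
      = (300 * 2 ^ 24) * (((L : ℝ) + 1) ^ 3 * 4 ^ j) := by ring
    _ ≤ (2 ^ 61) * (((j : ℝ) + 1) * (((L : ℝ) + 1) ^ 3 * 4 ^ L)) := by
        apply mul_le_mul (by norm_num) (h4.trans h6) (by positivity) (by norm_num)
    _ = 2 ^ 14 * ((j : ℝ) + 1) * (2 ^ 47 * ((L : ℝ) + 1) ^ 3 * 4 ^ L) := by ring

theorem c01_small {L : ℕ} {x : ℝ} (hx : x ≤ -(L : ℝ) ^ 3 - 11) :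
    Real.exp x ≤ Real.exp (-(L : ℝ) ^ 3) / 12 := by
  have h1 : Real.exp x ≤ Real.exp (-(L : ℝ) ^ 3 - 11) := Real.exp_le_exp.mpr hx
  refine h1.trans ?_
  rw [Real.exp_sub]
  apply div_le_div_of_nonneg_left (Real.exp_pos _).le (by norm_num)
  have := Real.add_one_le_exp (11 : ℝ)
  linarith

theorem c01_main : C01Main := by
  refine ⟨0, fun L _ Sd _ _ lab hs => ?_⟩
  classical
  set Ev0 : Bool → POm (NN L) Sd → Prop := fun b ω =>
    3 / 10 * (NN L : ℝ) ≤ ∑ i, ind (lb lab ω b i ≠ none) with hEv0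
  set Ev1 : ℕ → ℕ → POm (NN L) Sd → Prop := fun j χ ω =>
    2 * ss j * (NN L : ℝ) / DD j ≤ ∑ i, ind (lb lab ω (par j) i = some (j, χ)) with hEv1
  have hmain : ∀ ω : POm (NN L) Sd, ¬ (C0 lab ω ∧ C1 L lab ω) →
      (∃ b ∈ (univ : Finset Bool), Ev0 b ω) ∨
      (∃ j ∈ range (L + 1), ∃ χ ∈ range (RR L j), Ev1 j χ ω) := by
    intro ω h
    by_cases h0 : C0 lab ω
    · right
      have h1 : ¬ C1 L lab ω := fun h1 => h ⟨h0, h1⟩
      unfold C1 at h1
      push Not at h1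
      obtain ⟨j, χ, hj, hχ, hlt⟩ := h1
      refine ⟨j, mem_range.mpr (by omega), χ, mem_range.mpr hχ, ?_⟩
      show 2 * ss j * (NN L : ℝ) / DD j ≤ ∑ i, ind (lb lab ω (par j) i = some (j, χ))
      have h2 : ((hub lab ω j χ).card : ℝ) = ∑ i, ind (lb lab ω (par j) i = some (j, χ)) := by
        unfold hub
        exact c01_card _
      rw [← h2]
      exact hlt.le
    · left
      unfold C0 at h0
      push Not at h0
      obtain ⟨b, hb⟩ := h0
      refine ⟨b, mem_univ _, ?_⟩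
      show 3 / 10 * (NN L : ℝ) ≤ ∑ i, ind (lb lab ω b i ≠ none)
      have h2 : ∑ i, ind (lb lab ω b i ≠ none) = (NN L : ℝ) - ∑ i, ind (lb lab ω b i = none) := by
        have h3 : ∀ i, ind (lb lab ω b i ≠ none) = 1 - ind (lb lab ω b i = none) :=
          fun i => ind_not _
        rw [Finset.sum_congr rfl fun i _ => h3 i, Finset.sum_sub_distrib]
        simp
      rw [c01_card] at hb
      rw [h2]
      linarith
  have hL0 : (0 : ℝ) ≤ (L : ℝ) := Nat.cast_nonneg L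
  have hL3 : (L : ℝ) ^ 3 + 1 ≤ ((L : ℝ) + 1) ^ 3 := by nlinarith [mul_nonneg hL0 hL0]
  have hL3' : (L : ℝ) + 1 ≤ ((L : ℝ) + 1) ^ 3 := by
    nlinarith [mul_nonneg hL0 hL0, mul_nonneg (mul_nonneg hL0 hL0) hL0]
  have hA : pr (fun ω : POm (NN L) Sd => ∃ b ∈ (univ : Finset Bool), Ev0 b ω)
      ≤ Real.exp (-(L : ℝ) ^ 3) / 6 := by
    refine (pr_exists_le _ _ (b := Real.exp (-(NN L : ℝ) / 500)) fun b _ => c01_C0 hs b).trans ?_
    have h1 : Real.exp (-(NN L : ℝ) / 500) ≤ Real.exp (-(L : ℝ) ^ 3) / 12 := by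
      apply c01_small
      have h2 : 500 * 12 * ((L : ℝ) + 1) ^ 3 ≤ NN L := by
        rw [NN_cast]
        have h3 : (1 : ℝ) ≤ 4 ^ L := one_le_pow₀ (by norm_num)
        have h4 : (0 : ℝ) ≤ ((L : ℝ) + 1) ^ 3 := by positivity
        calc 500 * 12 * ((L : ℝ) + 1) ^ 3 ≤ 2 ^ 47 * ((L : ℝ) + 1) ^ 3 * 1 := by nlinarith
          _ ≤ 2 ^ 47 * ((L : ℝ) + 1) ^ 3 * 4 ^ L :=
            mul_le_mul_of_nonneg_left h3 (by positivity)
      have h5 : (1 : ℝ) ≤ ((L : ℝ) + 1) ^ 3 := by linarith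
      rw [neg_div]
      have h6 : 12 * ((L : ℝ) + 1) ^ 3 ≤ (NN L : ℝ) / 500 := by
        rw [le_div_iff₀ (by norm_num)]
        linarith
      linarith
    have h7 : ((univ : Finset Bool).card : ℝ) = 2 := by simp
    rw [h7]
    linarith
  have hB : pr (fun ω : POm (NN L) Sd => ∃ j ∈ range (L + 1), ∃ χ ∈ range (RR L j), Ev1 j χ ω)
      ≤ Real.exp (-(L : ℝ) ^ 3) / 6 := by
    have h1 : ∀ j ∈ range (L + 1), pr (fun ω : POm (NN L) Sd => ∃ χ ∈ range (RR L j), Ev1 j χ ω)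
        ≤ Real.exp (10 + 2 * (L : ℝ) - 114 * ((L : ℝ) + 1) ^ 3) := by
      intro j hj
      have hjL : j ≤ L := by have := mem_range.mp hj; omega
      refine (pr_exists_le (range (RR L j)) (fun χ => Ev1 j χ)
        (b := Real.exp (-114 * ((L : ℝ) + 1) ^ 3)) ?_).trans ?_
      · intro χ hχ
        refine (c01_C1 hs hjL (mem_range.mp hχ)).trans (Real.exp_le_exp.mpr ?_)
        have := c01_mean hjL
        linarith
      · rw [card_range]
        have h2 : (RR L j : ℝ) ≤ Real.exp (10 + 2 * (L : ℝ)) := by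
          have h3 : (RR L j : ℝ) ≤ 2 ^ 10 * 4 ^ j := by exact_mod_cast num_RR_le L j
          have h4 : (4 : ℝ) ^ j ≤ 4 ^ L := pow_le_pow_right₀ (by norm_num) hjL
          have h5 : (2 : ℝ) ≤ Real.exp 1 := by
            have := Real.add_one_le_exp (1 : ℝ)
            linarith
          have h6 : (2 : ℝ) ^ 10 ≤ Real.exp 10 := by
            have : Real.exp 10 = Real.exp 1 ^ 10 := by rw [← Real.exp_nat_mul]; norm_num
            rw [this]
            exact pow_le_pow_left₀ (by norm_num) h5 10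
          have h7 : (4 : ℝ) ^ L ≤ Real.exp (2 * (L : ℝ)) := by
            have : Real.exp (2 * (L : ℝ)) = (Real.exp 1 ^ 2) ^ L := by
              rw [← pow_mul, ← Real.exp_nat_mul]; push_cast; ring_nf
            rw [this]
            apply pow_le_pow_left₀ (by norm_num)
            nlinarith
          rw [Real.exp_add]
          calc (RR L j : ℝ) ≤ 2 ^ 10 * 4 ^ j := h3
            _ ≤ 2 ^ 10 * 4 ^ L := mul_le_mul_of_nonneg_left h4 (by norm_num)
            _ ≤ Real.exp 10 * Real.exp (2 * (L : ℝ)) :=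
              mul_le_mul h6 h7 (by positivity) (Real.exp_pos _).le
        calc (RR L j : ℝ) * Real.exp (-114 * ((L : ℝ) + 1) ^ 3)
            ≤ Real.exp (10 + 2 * (L : ℝ)) * Real.exp (-114 * ((L : ℝ) + 1) ^ 3) :=
              mul_le_mul_of_nonneg_right h2 (Real.exp_pos _).le
          _ = Real.exp (10 + 2 * (L : ℝ) - 114 * ((L : ℝ) + 1) ^ 3) := by
              rw [← Real.exp_add]; ring_nf
    refine (pr_exists_le (range (L + 1)) (fun j ω => ∃ χ ∈ range (RR L j), Ev1 j χ ω) h1).trans ?_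
    rw [card_range]
    have h8 : ((L + 1 : ℕ) : ℝ) ≤ Real.exp (L : ℝ) := by
      have := Real.add_one_le_exp (L : ℝ)
      push_cast
      linarith
    calc ((L + 1 : ℕ) : ℝ) * Real.exp (10 + 2 * (L : ℝ) - 114 * ((L : ℝ) + 1) ^ 3)
        ≤ Real.exp (L : ℝ) * Real.exp (10 + 2 * (L : ℝ) - 114 * ((L : ℝ) + 1) ^ 3) :=
          mul_le_mul_of_nonneg_right h8 (Real.exp_pos _).le
      _ = Real.exp (10 + 3 * (L : ℝ) - 114 * ((L : ℝ) + 1) ^ 3) := by
          rw [← Real.exp_add]; ring_nf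
      _ ≤ Real.exp (-(L : ℝ) ^ 3) / 12 := by
          apply c01_small
          nlinarith
      _ ≤ Real.exp (-(L : ℝ) ^ 3) / 6 := by
          have := Real.exp_pos (-(L : ℝ) ^ 3)
          linarith
  refine (pr_mono hmain).trans ((pr_or _ _).trans ?_)
  linarith

end Pool.Agent.EGT
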