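import Pool.Agent.EGT.Prob

/-! Project EGT: generic probability lemmas for the cap (Lemma 3), labels already fixed. -/

open Finset

namespace Pool.Agent.EGT

theorem pr_fin_not_lt {N c : ℕ} (hN : 1 ≤ N) (hc : c ≤ N) :
    pr (fun u : Fin N => ¬ (u : ℕ) < c) = 1 - (c : ℝ) / N := by
  haveI : Nonempty (Fin N) := ⟨⟨0, hN⟩⟩
  rw [pr_not, pr_fin_lt hc]

theorem pr_row_avoid {N n : ℕ} (hN : 1 ≤ N) (J : Finset (Fin n)) (d : Fin n → ℕ)
    (hd : ∀ x ∈ J, d x ≤ N) :
    pr (fun row : Fin n → Fin N => ∀ x ∈ J, ¬ (row x : ℕ) < d x) =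
      ∏ x ∈ J, (1 - (d x : ℝ) / N) := by
  haveI : Nonempty (Fin N) := ⟨⟨0, hN⟩⟩
  rw [pr_pi_all_mem (Ω := fun _ : Fin n => Fin N) J (fun x (v : Fin N) => ¬ (v : ℕ) < d x)]
  exact prod_congr rfl fun x hx => pr_fin_not_lt hN (hd x hx)

theorem pr_row_avoid_le {N n : ℕ} (hN : 1 ≤ N) (J : Finset (Fin n)) (d : Fin n → ℕ)
    (hd : ∀ x ∈ J, d x ≤ N) {κ : ℝ} (hκ : κ * N ≤ ∑ x ∈ J, (d x : ℝ)) :
    pr (fun row : Fin n → Fin N => ∀ x ∈ J, ¬ (row x : ℕ) < d x) ≤ Real.exp (-κ) := by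
  have hNp : (0 : ℝ) < N := by exact_mod_cast hN
  rw [pr_row_avoid hN J d hd]
  calc ∏ x ∈ J, (1 - (d x : ℝ) / N) ≤ ∏ x ∈ J, Real.exp (-((d x : ℝ) / N)) := by
        apply prod_le_prod
        · intro x hx
          have : (d x : ℝ) ≤ N := by exact_mod_cast hd x hx
          have : (d x : ℝ) / N ≤ 1 := by rw [div_le_one hNp]; exact this
          linarith
        · intro x hx
          have := Real.add_one_le_exp (-((d x : ℝ) / N))
          linarith
    _ = Real.exp (-((∑ x ∈ J, (d x : ℝ)) / N)) := by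
        rw [← Real.exp_sum, sum_neg_distrib, sum_div]
    _ ≤ Real.exp (-κ) := by
        apply Real.exp_le_exp.mpr
        have : κ ≤ (∑ x ∈ J, (d x : ℝ)) / N := by rw [le_div_iff₀ hNp]; exact hκ
        linarith

theorem one_sub_ge_exp {x : ℝ} (h0 : 0 ≤ x) (h1 : x ≤ 1 / 100) :
    Real.exp (-(101 / 100 * x)) ≤ 1 - x := by
  have h2 : 0 < 1 - x := by linarith
  have h3 : Real.exp (-(101 / 100 * x)) * Real.exp (101 / 100 * x) = 1 := by
    rw [← Real.exp_add]; simp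
  have h4 : 1 + 101 / 100 * x + (101 / 100 * x) ^ 2 / 2 ≤ Real.exp (101 / 100 * x) := by
    have := Real.quadratic_le_exp_of_nonneg (x := 101 / 100 * x) (by positivity)
    linarith
  have h5 : 1 ≤ (1 - x) * Real.exp (101 / 100 * x) := by
    have : 1 ≤ (1 - x) * (1 + 101 / 100 * x + (101 / 100 * x) ^ 2 / 2) := by
      nlinarith [mul_nonneg h0 h0, mul_nonneg (mul_nonneg h0 h0) h0, mul_nonneg h0 (sub_nonneg.mpr h1)]
    exact this.trans (mul_le_mul_of_nonneg_left h4 h2.le)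
  have h6 := Real.exp_pos (101 / 100 * x)
  have h7 : Real.exp (-(101 / 100 * x)) * Real.exp (101 / 100 * x) ≤
      (1 - x) * Real.exp (101 / 100 * x) := by rw [h3]; exact h5
  exact le_of_mul_le_mul_right h7 h6

theorem pr_row_avoid_ge {N n : ℕ} (hN : 1 ≤ N) (J : Finset (Fin n)) (d : Fin n → ℕ)
    (hd : ∀ x ∈ J, 100 * d x ≤ N) (hm : ∑ x ∈ J, (d x : ℝ) ≤ 2 * N) :
    13 / 100 ≤ pr (fun row : Fin n → Fin N => ∀ x ∈ J, ¬ (row x : ℕ) < d x) := by
  have hNp : (0 : ℝ) < N := by exact_mod_cast hN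
  rw [pr_row_avoid hN J d (fun x hx => by have := hd x hx; omega)]
  have h1 : Real.exp (-(101 / 100 * ((∑ x ∈ J, (d x : ℝ)) / N))) ≤ ∏ x ∈ J, (1 - (d x : ℝ) / N) := by
    calc Real.exp (-(101 / 100 * ((∑ x ∈ J, (d x : ℝ)) / N)))
        = ∏ x ∈ J, Real.exp (-(101 / 100 * ((d x : ℝ) / N))) := by
          rw [← Real.exp_sum, sum_neg_distrib, sum_div, mul_sum]
      _ ≤ ∏ x ∈ J, (1 - (d x : ℝ) / N) := by
          apply prod_le_prod
          · intro x hx; exact (Real.exp_pos _).le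
          · intro x hx
            apply one_sub_ge_exp (by positivity)
            rw [div_le_div_iff₀ hNp (by norm_num)]
            have : (100 : ℝ) * d x ≤ N := by exact_mod_cast hd x hx
            linarith
  refine le_trans ?_ h1
  have h2 : (∑ x ∈ J, (d x : ℝ)) / N ≤ 2 := by rw [div_le_iff₀ hNp]; exact hm
  have h3 : Real.exp (-(202 / 100)) ≤ Real.exp (-(101 / 100 * ((∑ x ∈ J, (d x : ℝ)) / N))) := by
    apply Real.exp_le_exp.mpr; linarith
  refine le_trans ?_ h3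
  -- exp(-2.02) ≥ 0.13
  have h4 : Real.exp (202 / 100) ≤ 100 / 13 := by
    have e1 := Real.exp_one_lt_d9
    have h5 : Real.exp (202 / 100) = Real.exp 1 * Real.exp 1 * Real.exp (2 / 100) := by
      rw [← Real.exp_add, ← Real.exp_add]; norm_num
    have h6 : Real.exp (2 / 100) ≤ 1021 / 1000 := by
      have := Real.exp_bound_div_one_sub_of_interval (x := 2 / 100) (by norm_num) (by norm_num)
      refine this.trans (by norm_num)
    rw [h5]
    have h7 : 0 < Real.exp 1 := Real.exp_pos 1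
    nlinarith [Real.exp_pos (2/100 : ℝ), mul_pos h7 h7]
  rw [Real.exp_neg, div_eq_mul_inv, ← one_div, ← one_div]
  rw [← div_eq_mul_one_div]
  rw [div_le_div_iff₀ (by norm_num) (Real.exp_pos _)]
  linarith

theorem card_eq_sum_ind {n : ℕ} (S : Finset (Fin n)) (Q : Fin n → Prop) [DecidablePred Q] :
    (((S.filter Q).card : ℕ) : ℝ) = ∑ y : Fin n, ind (y ∈ S ∧ Q y) := by
  classical
  have h1 : (S.filter Q) = univ.filter (fun y => y ∈ S ∧ Q y) := by ext; simp
  rw [h1, card_filter]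
  push_cast
  apply sum_congr rfl
  intro y _
  unfold ind
  congr

theorem sum_ind_mem {n : ℕ} (S : Finset (Fin n)) : ∑ y : Fin n, ind (y ∈ S) = (S.card : ℝ) := by
  have h := card_eq_sum_ind S (fun _ => True)
  simpa using h.symm

/-- (C2), labels fixed: hubs `J` of total mass `≤ 2` leave many elements of `Y0` unserved -/
theorem c2_gen {N : ℕ} (hN : 1 ≤ N) (J : Finset (Fin N)) (d : Fin N → ℕ)
    (hd : ∀ x ∈ J, 100 * d x ≤ N) (hm : ∑ x ∈ J, (d x : ℝ) ≤ 2 * N) (Y0 : Finset (Fin N))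
    (hY : 7 / 10 * (N : ℝ) ≤ Y0.card) :
    pr (fun u : Fin N → Fin N → Fin N =>
      ((Y0.filter (fun y => ∀ x ∈ J, ¬ (u y x : ℕ) < d x)).card : ℝ) ≤ 5 / 100 * N)
      ≤ Real.exp (-(1 / 100 * N)) := by
  classical
  haveI : Nonempty (Fin N) := ⟨⟨0, hN⟩⟩
  have hNp : (0 : ℝ) < N := by exact_mod_cast hN
  have h1 := chernoff_lower (ι := Fin N) (Ω := fun _ => Fin N → Fin N)
    (fun y (row : Fin N → Fin N) => y ∈ Y0 ∧ ∀ x ∈ J, ¬ (row x : ℕ) < d x)
    (lam := 6 / 10) (a := 5 / 100 * N) (mu := 91 / 1000 * N) (by norm_num) (by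
      have h2 : ∀ y : Fin N, pr (fun row : Fin N → Fin N => y ∈ Y0 ∧ ∀ x ∈ J, ¬ (row x : ℕ) < d x)
          = ind (y ∈ Y0) * pr (fun row : Fin N → Fin N => ∀ x ∈ J, ¬ (row x : ℕ) < d x) := by
        intro y
        unfold pr
        rw [← ex_const_mul]
        congr 1
        funext row
        rw [ind_and]
      rw [sum_congr rfl fun y _ => h2 y, ← sum_mul]
      have h3 : ∑ y : Fin N, ind (y ∈ Y0) = (Y0.card : ℝ) := sum_ind_mem Y0
      rw [h3]
      have h4 := pr_row_avoid_ge hN J d hd hm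
      have h5 : (7 / 10 * (N : ℝ)) * (13 / 100) ≤ (Y0.card : ℝ) *
          pr (fun row : Fin N → Fin N => ∀ x ∈ J, ¬ (row x : ℕ) < d x) :=
        mul_le_mul hY h4 (by norm_num) (by positivity)
      linarith)
  have h6 : pr (fun u : Fin N → Fin N → Fin N =>
      ((Y0.filter (fun y => ∀ x ∈ J, ¬ (u y x : ℕ) < d x)).card : ℝ) ≤ 5 / 100 * N)
      = pr (fun u : Fin N → Fin N → Fin N =>
      ∑ y : Fin N, ind (y ∈ Y0 ∧ ∀ x ∈ J, ¬ (u y x : ℕ) < d x) ≤ 5 / 100 * N) := by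
    congr 1
    funext u
    rw [card_eq_sum_ind]
  rw [h6]
  refine h1.trans (Real.exp_le_exp.mpr ?_)
  have h7 : Real.exp (-(6 / 10)) ≤ 555 / 1000 := by
    have e1 := Real.exp_bound_div_one_sub_of_interval (x := 6/10) (by norm_num) (by norm_num)
    have e2 : 1000 / 555 ≤ Real.exp (6 / 10) := by
      have := Real.quadratic_le_exp_of_nonneg (x := 6 / 10) (by norm_num)
      have e3 : Real.exp (6/10) = Real.exp (3/10) * Real.exp (3/10) := by
        rw [← Real.exp_add]; norm_num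
      have e4 := Real.quadratic_le_exp_of_nonneg (x := 3 / 10) (by norm_num)
      rw [e3]
      nlinarith
    rw [Real.exp_neg, ← one_div, div_le_div_iff₀ (Real.exp_pos _) (by norm_num)]
    linarith
  nlinarith

/-- (C3), labels fixed: few members of `B` avoid a set `J` of large mass -/
theorem c3_gen {N : ℕ} (hN : 1 ≤ N) (J : Finset (Fin N)) (d : Fin N → ℕ)
    (hd : ∀ x ∈ J, d x ≤ N) {κ : ℝ} (hκ : κ * N ≤ ∑ x ∈ J, (d x : ℝ)) (B : Finset (Fin N))
    {a b : ℝ} (hB : (B.card : ℝ) ≤ b) (hκ0 : 0 ≤ κ) :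
    pr (fun u : Fin N → Fin N → Fin N =>
      a ≤ ((B.filter (fun y => ∀ x ∈ J, ¬ (u y x : ℕ) < d x)).card : ℝ))
      ≤ Real.exp (-(κ / 2) * a + b * Real.exp (-(κ / 2))) := by
  classical
  haveI : Nonempty (Fin N) := ⟨⟨0, hN⟩⟩
  have hNp : (0 : ℝ) < N := by exact_mod_cast hN
  have h1 := chernoff_upper (ι := Fin N) (Ω := fun _ => Fin N → Fin N)
    (fun y (row : Fin N → Fin N) => y ∈ B ∧ ∀ x ∈ J, ¬ (row x : ℕ) < d x)
    (lam := κ / 2) (a := a) (mu := b * Real.exp (-κ)) (by positivity) (by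
      have h2 : ∀ y : Fin N, pr (fun row : Fin N → Fin N => y ∈ B ∧ ∀ x ∈ J, ¬ (row x : ℕ) < d x)
          = ind (y ∈ B) * pr (fun row : Fin N → Fin N => ∀ x ∈ J, ¬ (row x : ℕ) < d x) := by
        intro y
        unfold pr
        rw [← ex_const_mul]
        congr 1
        funext row
        rw [ind_and]
      rw [sum_congr rfl fun y _ => h2 y, ← sum_mul]
      have h3 : ∑ y : Fin N, ind (y ∈ B) = (B.card : ℝ) := sum_ind_mem B
      rw [h3]
      exact mul_le_mul hB (pr_row_avoid_le hN J d hd hκ) (pr_nonneg _) ((Nat.cast_nonneg _).trans hB))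
  have h6 : pr (fun u : Fin N → Fin N → Fin N =>
      a ≤ ((B.filter (fun y => ∀ x ∈ J, ¬ (u y x : ℕ) < d x)).card : ℝ))
      = pr (fun u : Fin N → Fin N → Fin N =>
      a ≤ ∑ y : Fin N, ind (y ∈ B ∧ ∀ x ∈ J, ¬ (u y x : ℕ) < d x)) := by
    congr 1
    funext u
    rw [card_eq_sum_ind]
  rw [h6]
  refine h1.trans (Real.exp_le_exp.mpr ?_)
  have hb : 0 ≤ b := (Nat.cast_nonneg _).trans hB
  have h8 : (Real.exp (κ / 2) - 1) * (b * Real.exp (-κ)) ≤ b * Real.exp (-(κ / 2)) := by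
    have h9 : Real.exp (κ / 2) * Real.exp (-κ) = Real.exp (-(κ / 2)) := by
      rw [← Real.exp_add]; ring_nf
    have h10 := Real.exp_pos (-κ)
    calc (Real.exp (κ / 2) - 1) * (b * Real.exp (-κ))
        = b * (Real.exp (κ / 2) * Real.exp (-κ)) - b * Real.exp (-κ) := by ring
      _ ≤ b * Real.exp (-(κ / 2)) := by rw [h9]; nlinarith
  linarith

end Pool.Agent.EGT
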