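import Mathlib
import Pool.Agent.EGT.PDefs
import Pool.Agent.EGT.Num
import Pool.Agent.EGT.CapGen

/-!
Project EGT (MP_0b8466_co), module C2: the coverage bound (C2).
-/

open Finset

namespace Pool.Agent.EGT

/-- the numbers of the pairs as seen from side `b` (rows indexed by the vertices of side `!b`) -/
def c2_swap (N : ℕ) (b : Bool) : (Fin N → Fin N → Fin N) ≃ (Fin N → Fin N → Fin N) :=
  if b then Equiv.refl _ else ⟨fun u v h => u h v, fun u v h => u h v, fun _ => rfl, fun _ => rfl⟩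

theorem c2_swap_apply {N : ℕ} {Sd : Type} (b : Bool) (a : Bool → Fin N → Sd)
    (u : Fin N → Fin N → Fin N) (h v : Fin N) :
    uu ((a, u) : POm N Sd) b h v = (c2_swap N b u v h : ℕ) := by
  cases b <;> rfl

open Classical in
/-- alive hubs on side `b` -/
noncomputable def c2_H {L : ℕ} {Sd : Type} (lab : Sd → Option (ℕ × ℕ))
    (a : Bool → Fin (NN L) → Sd) (z : ZZ L) (b : Bool) : Finset (Fin (NN L)) :=
  univ.filter (fun h => ∃ p : ℕ × ℕ, lvl lab b (a b h) = some p ∧ p.2 = zv z p.1)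

theorem c2_card_H {L : ℕ} {Sd : Type} [Fintype Sd] {lab : Sd → Option (ℕ × ℕ)}
    (hl : LabSpec L lab) (a : Bool → Fin (NN L) → Sd) (u : Fin (NN L) → Fin (NN L) → Fin (NN L))
    (h1 : C1 L lab (a, u)) (z : ZZ L) (b : Bool) :
    ((c2_H lab a z b).card : ℝ) ≤ 32 / 9216 * (NN L : ℝ) := by
  classical
  have hsub : c2_H lab a z b ⊆ (range (L + 1)).biUnion
      (fun j => hub lab ((a, u) : POm (NN L) Sd) j (zv z j)) := by
    intro h hh
    rw [c2_H, mem_filter] at hh
    obtain ⟨-, p, hp, hpz⟩ := hh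
    have hp' : lab (a b h) = some p ∧ par p.1 = b := by
      unfold lvl at hp
      rw [Option.filter_eq_some_iff] at hp
      simpa using hp
    have hr := hl.range _ p.1 p.2 hp'.1
    rw [mem_biUnion]
    refine ⟨p.1, mem_range.2 (by omega), ?_⟩
    rw [hub, mem_filter]
    refine ⟨mem_univ _, ?_⟩
    show lvl lab (par p.1) (a (par p.1) h) = some (p.1, zv z p.1)
    rw [hp'.2, hp, ← hpz]
  have h2 : ((c2_H lab a z b).card : ℝ) ≤
      ∑ j ∈ range (L + 1), 2 * (NN L : ℝ) * ((ss j : ℝ) / DD j) := by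
    have h3 := (card_le_card hsub).trans card_biUnion_le
    have h4 : ((c2_H lab a z b).card : ℝ) ≤
        ∑ j ∈ range (L + 1), ((hub lab ((a, u) : POm (NN L) Sd) j (zv z j)).card : ℝ) := by
      exact_mod_cast h3
    refine h4.trans (sum_le_sum fun j hj => ?_)
    have hj' : j < L + 1 := mem_range.1 hj
    have h5 := h1 j (zv z j) (by omega) (by
      unfold zv
      rw [dif_pos hj']
      exact (z ⟨j, hj'⟩).2)
    refine h5.trans (le_of_eq ?_)
    ring
  rw [← mul_sum] at h2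
  have h6 := num_hubs L
  have h7 : (0 : ℝ) ≤ NN L := Nat.cast_nonneg _
  calc ((c2_H lab a z b).card : ℝ) ≤ 2 * (NN L : ℝ) * ∑ j ∈ range (L + 1), (ss j : ℝ) / DD j := h2
    _ ≤ 2 * (NN L : ℝ) * (16 / (9 * 1024)) := mul_le_mul_of_nonneg_left h6 (by positivity)
    _ = 32 / 9216 * (NN L : ℝ) := by ring

/-- `100 D_j ≤ N` -/
theorem c2_DD (L j : ℕ) (h : j ≤ L) : 100 * DD j ≤ NN L := by
  have h1 : 4 ^ j ≤ 4 ^ L := Nat.pow_le_pow_right (by norm_num) h
  have h2 : 1 ≤ (L + 1) ^ 3 := Nat.one_le_pow _ _ (by omega)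
  unfold DD NN
  calc 100 * (2 ^ 24 * 4 ^ j) ≤ 2 ^ 47 * (1 * 4 ^ j) := by
        have : 0 < 4 ^ j := by positivity
        omega
    _ ≤ 2 ^ 47 * ((L + 1) ^ 3 * 4 ^ L) := by gcongr
    _ = 2 ^ 47 * (L + 1) ^ 3 * 4 ^ L := by ring

/-- one choice of `z`, `b`, `J` -/
theorem c2_one {L : ℕ} {Sd : Type} [Fintype Sd] {lab : Sd → Option (ℕ × ℕ)}
    (hl : LabSpec L lab) (a : Bool → Fin (NN L) → Sd) (b : Bool) (z : ZZ L)
    (h0 : 7 / 10 * (NN L : ℝ) ≤
      ((univ.filter (fun i => lvl lab (!b) (a (!b) i) = none)).card : ℝ))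
    (J : Finset (Fin (NN L))) (hJ : J ⊆ c2_H lab a z b) :
    pr (fun u : Fin (NN L) → Fin (NN L) → Fin (NN L) =>
      ∑ h ∈ J, wt lab ((a, u) : POm (NN L) Sd) b h ≤ 2 ∧
      ∃ Y : Finset (Fin (NN L)), (∀ v, v ∈ Y ↔ (lb lab ((a, u) : POm (NN L) Sd) (!b) v = none ∧
        ∀ h ∈ J, ¬ adjb lab ((a, u) : POm (NN L) Sd) b h v)) ∧
        (Y.card : ℝ) < (NN L : ℝ) / 20) ≤ Real.exp (-(1 / 100 * (NN L : ℝ))) := by
  classical
  have hN := NN_pos L
  have hNp : (0 : ℝ) < NN L := by exact_mod_cast hN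
  -- levels of the hubs
  let d : Fin (NN L) → ℕ := fun h => match lvl lab b (a b h) with
    | none => 0
    | some p => DD p.1
  have hd : ∀ h ∈ J, ∃ p : ℕ × ℕ, lvl lab b (a b h) = some p ∧ d h = DD p.1 ∧ p.1 ≤ L := by
    intro h hh
    have hh' := hJ hh
    rw [c2_H, mem_filter] at hh'
    obtain ⟨-, p, hp, -⟩ := hh'
    refine ⟨p, hp, ?_, ?_⟩
    · show (match lvl lab b (a b h) with
        | none => 0
        | some p => DD p.1) = _
      rw [hp]
    · have hp' : lab (a b h) = some p ∧ par p.1 = b := by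
        unfold lvl at hp
        rw [Option.filter_eq_some_iff] at hp
        simpa using hp
      exact (hl.range _ p.1 p.2 hp'.1).1
  have hwt : ∀ (u : Fin (NN L) → Fin (NN L) → Fin (NN L)) (h : Fin (NN L)),
      wt lab ((a, u) : POm (NN L) Sd) b h = (d h : ℝ) / NN L := by
    intro u h
    show (match lvl lab b (a b h) with
      | none => (0 : ℝ)
      | some p => (DD p.1 : ℝ) / (NN L : ℝ)) = ((match lvl lab b (a b h) with
      | none => 0
      | some p => DD p.1 : ℕ) : ℝ) / NN L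
    rcases lvl lab b (a b h) with _ | p
    · simp
    · rfl
  by_cases hm : ∑ h ∈ J, (d h : ℝ) ≤ 2 * (NN L : ℝ)
  · have key := c2_gen hN J d (fun h hh => by
      obtain ⟨p, -, h2, h3⟩ := hd h hh
      rw [h2]
      exact c2_DD L p.1 h3) hm (univ.filter (fun i => lvl lab (!b) (a (!b) i) = none)) h0
    have e := pr_equiv (c2_swap (NN L) b) (fun u : Fin (NN L) → Fin (NN L) → Fin (NN L) =>
      (((univ.filter (fun i => lvl lab (!b) (a (!b) i) = none)).filter
        (fun y => ∀ x ∈ J, ¬ (u y x : ℕ) < d x)).card : ℝ) ≤ 5 / 100 * (NN L : ℝ))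
    rw [← e] at key
    refine le_trans (pr_mono ?_) key
    rintro u ⟨-, Y, hY, hYc⟩
    have hYeq : (univ.filter (fun i => lvl lab (!b) (a (!b) i) = none)).filter
        (fun y => ∀ x ∈ J, ¬ (c2_swap (NN L) b u y x : ℕ) < d x) = Y := by
      ext v
      rw [mem_filter, mem_filter, hY]
      refine ⟨fun ⟨⟨_, h2⟩, h3⟩ => ⟨h2, fun h hh hadj => ?_⟩, fun ⟨h2, h3⟩ =>
        ⟨⟨mem_univ _, h2⟩, fun h hh hlt => ?_⟩⟩
      · obtain ⟨p, hp, h4, -⟩ := hd h hh
        apply h3 h hh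
        rw [← c2_swap_apply b a u h v]
        have h5 : uu ((a, u) : POm (NN L) Sd) b h v <
          thr (lvl lab b (a b h)) (lvl lab (!b) (a (!b) v)) := hadj
        rw [hp, h2] at h5
        rw [h4]
        exact h5
      · obtain ⟨p, hp, h4, -⟩ := hd h hh
        apply h3 h hh
        rw [← c2_swap_apply b a u h v, h4] at hlt
        show uu ((a, u) : POm (NN L) Sd) b h v <
          thr (lvl lab b (a b h)) (lvl lab (!b) (a (!b) v))
        have h2' : lvl lab (!b) (a (!b) v) = none := h2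
        rw [hp, h2']
        exact hlt
    rw [hYeq]
    linarith
  · have : ∀ u : Fin (NN L) → Fin (NN L) → Fin (NN L),
        ¬ ∑ h ∈ J, wt lab ((a, u) : POm (NN L) Sd) b h ≤ 2 := by
      intro u hu
      apply hm
      rw [sum_congr rfl fun h _ => hwt u h, ← sum_div, div_le_iff₀ hNp] at hu
      exact hu
    refine le_trans (pr_mono (Q := fun _ => False) ?_) ?_
    · rintro u ⟨h2, -⟩
      exact this u h2
    · have : pr (fun _ : Fin (NN L) → Fin (NN L) → Fin (NN L) => False) = 0 := by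
        unfold pr ex ind
        simp
      rw [this]
      exact (Real.exp_pos _).le

theorem c2_num (L : ℕ) :
    Real.exp (8 * ((L : ℝ) + 1) ^ 2) * (2 * (Real.exp (25 / 10000 * (NN L : ℝ)) *
      Real.exp (-(1 / 100 * (NN L : ℝ))))) ≤ Real.exp (-(L : ℝ) ^ 3) / 3 := by
  have h1 : (2 : ℝ) ^ 47 * ((L : ℝ) + 1) ^ 3 ≤ NN L := by
    have : 2 ^ 47 * (L + 1) ^ 3 ≤ NN L := by
      unfold NN
      exact Nat.le_mul_of_pos_right _ (by positivity)
    exact_mod_cast this
  have hL : (0 : ℝ) ≤ L := Nat.cast_nonneg _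
  have h6 : (6 : ℝ) ≤ Real.exp 2 := by
    have e : Real.exp 2 = Real.exp 1 * Real.exp 1 := by rw [← Real.exp_add]; norm_num
    have := Real.exp_one_gt_d9
    rw [e]
    nlinarith
  rw [le_div_iff₀ (by norm_num)]
  calc Real.exp (8 * ((L : ℝ) + 1) ^ 2) * (2 * (Real.exp (25 / 10000 * (NN L : ℝ)) *
      Real.exp (-(1 / 100 * (NN L : ℝ))))) * 3
      = 6 * (Real.exp (8 * ((L : ℝ) + 1) ^ 2) * (Real.exp (25 / 10000 * (NN L : ℝ)) *
      Real.exp (-(1 / 100 * (NN L : ℝ))))) := by ring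
    _ ≤ Real.exp 2 * (Real.exp (8 * ((L : ℝ) + 1) ^ 2) * (Real.exp (25 / 10000 * (NN L : ℝ)) *
      Real.exp (-(1 / 100 * (NN L : ℝ))))) := by gcongr
    _ = Real.exp (2 + (8 * ((L : ℝ) + 1) ^ 2 + (25 / 10000 * (NN L : ℝ) +
      -(1 / 100 * (NN L : ℝ))))) := by rw [Real.exp_add, Real.exp_add, Real.exp_add]
    _ ≤ Real.exp (-(L : ℝ) ^ 3) := by
      apply Real.exp_le_exp.2
      have h2 : (1 : ℝ) ≤ ((L : ℝ) + 1) ^ 3 := one_le_pow₀ (by linarith)
      have h3 : ((L : ℝ) + 1) ^ 2 ≤ ((L : ℝ) + 1) ^ 3 :=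
        pow_le_pow_right₀ (by linarith) (by norm_num)
      have h4 : (L : ℝ) ^ 3 ≤ ((L : ℝ) + 1) ^ 3 := by gcongr; linarith
      nlinarith

open Classical in
theorem c2_main : C2Main := by
  refine ⟨0, fun L _ Sd _ _ lab hl => ?_⟩
  have hc : (0 : ℝ) ≤ Real.exp (-(L : ℝ) ^ 3) / 3 := by positivity
  refine pr_prod_le _ hc fun a => ?_
  -- labels fixed
  by_cases hC : ∃ u : Fin (NN L) → Fin (NN L) → Fin (NN L),
      C0 lab ((a, u) : POm (NN L) Sd) ∧ C1 L lab ((a, u) : POm (NN L) Sd)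
  · obtain ⟨u0, h0, h1⟩ := hC
    have hH : ∀ z b, ((c2_H lab a z b).card : ℝ) ≤ 32 / 9216 * (NN L : ℝ) :=
      fun z b => c2_card_H hl a u0 h1 z b
    have h0' : ∀ b, 7 / 10 * (NN L : ℝ) ≤
        ((univ.filter (fun i => lvl lab (!b) (a (!b) i) = none)).card : ℝ) := fun b => h0 (!b)
    let P : ZZ L → Bool → Finset (Fin (NN L)) → (Fin (NN L) → Fin (NN L) → Fin (NN L)) → Prop :=
      fun z b J u => ∑ h ∈ J, wt lab ((a, u) : POm (NN L) Sd) b h ≤ 2 ∧
        ∃ Y : Finset (Fin (NN L)), (∀ v, v ∈ Y ↔ (lb lab ((a, u) : POm (NN L) Sd) (!b) v = none ∧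
          ∀ h ∈ J, ¬ adjb lab ((a, u) : POm (NN L) Sd) b h v)) ∧
          (Y.card : ℝ) < (NN L : ℝ) / 20
    have hmain : pr (fun u => ∃ z ∈ (univ : Finset (ZZ L)), ∃ b ∈ (univ : Finset Bool),
        ∃ J ∈ (c2_H lab a z b).powerset, P z b J u) ≤ Real.exp (-(L : ℝ) ^ 3) / 3 := by
      have hJ : ∀ z b, pr (fun u => ∃ J ∈ (c2_H lab a z b).powerset, P z b J u) ≤
          Real.exp (25 / 10000 * (NN L : ℝ)) * Real.exp (-(1 / 100 * (NN L : ℝ))) := by
        intro z b
        refine (pr_exists_le (c2_H lab a z b).powerset (P z b) (b := Real.exp (-(1 / 100 * (NN L : ℝ))))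
          (fun J hJ => c2_one hl a b z (h0' b) J (mem_powerset.1 hJ))).trans ?_
        refine mul_le_mul_of_nonneg_right ?_ (Real.exp_pos _).le
        rw [card_powerset]
        push_cast
        have e : (2 : ℝ) ^ (c2_H lab a z b).card = Real.exp ((c2_H lab a z b).card * Real.log 2) := by
          rw [mul_comm, Real.exp_mul, Real.exp_log (by norm_num), Real.rpow_natCast]
        rw [e]
        apply Real.exp_le_exp.2
        have h2 := Real.log_two_lt_d9
        have h3 := hH z b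
        have h4 : (0 : ℝ) ≤ (c2_H lab a z b).card := Nat.cast_nonneg _
        have h5 : (0 : ℝ) ≤ NN L := Nat.cast_nonneg _
        have h6 : Real.log 2 ≤ 7 / 10 := by linarith
        calc ((c2_H lab a z b).card : ℝ) * Real.log 2 ≤ (32 / 9216 * (NN L : ℝ)) * (7 / 10) :=
              mul_le_mul h3 h6 (Real.log_nonneg (by norm_num)) (by positivity)
          _ ≤ 25 / 10000 * (NN L : ℝ) := by nlinarith
      have hb : ∀ z, pr (fun u => ∃ b ∈ (univ : Finset Bool),
          ∃ J ∈ (c2_H lab a z b).powerset, P z b J u) ≤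
          2 * (Real.exp (25 / 10000 * (NN L : ℝ)) * Real.exp (-(1 / 100 * (NN L : ℝ)))) := by
        intro z
        have := pr_exists_le (univ : Finset Bool)
          (fun b u => ∃ J ∈ (c2_H lab a z b).powerset, P z b J u) (fun b _ => hJ z b)
        simpa using this
      have hz := pr_exists_le (univ : Finset (ZZ L))
        (fun z u => ∃ b ∈ (univ : Finset Bool), ∃ J ∈ (c2_H lab a z b).powerset, P z b J u)
        (fun z _ => hb z)
      refine hz.trans (le_trans ?_ (c2_num L))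
      refine mul_le_mul_of_nonneg_right ?_ (by positivity)
      have e : ((univ : Finset (ZZ L)).card : ℝ) = ∏ j ∈ range (L + 1), (RR L j : ℝ) := by
        rw [card_univ, Fintype.card_pi]
        push_cast
        rw [← Fin.prod_univ_eq_prod_range (fun j => (RR L j : ℝ))]
        exact Finset.prod_congr rfl fun j _ => by rw [Fintype.card_fin]
      rw [e]
      exact num_colours L
    refine le_trans (pr_mono ?_) hmain
    rintro u ⟨-, -, h2⟩
    unfold C2 at h2
    push Not at h2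
    obtain ⟨z, b, J, hJ1, hJ2, hJ3⟩ := h2
    refine ⟨z, mem_univ _, b, mem_univ _, J, ?_, hJ2, _, ?_, hJ3⟩
    · rw [mem_powerset]
      intro h hh
      obtain ⟨h3, h4⟩ := hJ1 h hh
      obtain ⟨p, hp⟩ := Option.ne_none_iff_exists'.1 h3
      rw [c2_H, mem_filter]
      exact ⟨mem_univ _, p, hp, h4 p hp⟩
    · intro v
      rw [mem_filter]
      exact ⟨fun h => h.2, fun h => ⟨mem_univ _, h⟩⟩
  · push Not at hC
    refine le_trans (pr_mono (Q := fun _ => False) ?_) ?_
    · rintro u ⟨h2, h3, -⟩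
      exact hC u h2 h3
    · have : pr (fun _ : Fin (NN L) → Fin (NN L) → Fin (NN L) => False) = 0 := by
        unfold pr ex ind
        simp
      rw [this]
      exact hc

end Pool.Agent.EGT
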