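import Pool.Agent.EGT.PDefs
import Pool.Agent.EGT.CapGen

/-! Project EGT: module L2 (deterministic): `C2 → C3 → CapGood`. -/

open Finset

namespace Pool.Agent.EGT

theorem thr_comm (a b : Option (ℕ × ℕ)) : thr a b = thr b a := by
  rcases a with _ | p <;> rcases b with _ | q <;> simp [thr, min_comm, max_comm]

theorem adjb_comm {N : ℕ} {Sd : Type} (lab : Sd → Option (ℕ × ℕ)) (ω : POm N Sd) (b : Bool)
    (h v : Fin N) : adjb lab ω b h v ↔ adjb lab ω (!b) v h := by
  unfold adjb
  rw [thr_comm]
  cases b <;> simp [uu]

theorem lb_par {N : ℕ} {Sd : Type} {lab : Sd → Option (ℕ × ℕ)} {ω : POm N Sd} {b : Bool}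
    {i : Fin N} {p : ℕ × ℕ} (h : lb lab ω b i = some p) : par p.1 = b := by
  unfold lb lvl at h
  rw [Option.filter_eq_some_iff] at h
  simpa using h.2

theorem lb_lab {N : ℕ} {Sd : Type} {lab : Sd → Option (ℕ × ℕ)} {ω : POm N Sd} {b : Bool}
    {i : Fin N} {p : ℕ × ℕ} (h : lb lab ω b i = some p) : lab (ω.1 b i) = some p := by
  unfold lb lvl at h
  rw [Option.filter_eq_some_iff] at h
  exact h.1

theorem par_succ (i : ℕ) : par (i + 1) = !par i := by
  unfold par
  rcases Nat.mod_two_eq_zero_or_one i with h | h
  · have : (i + 1) % 2 = 1 := by omega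
    simp [h, this]
  · have : (i + 1) % 2 = 0 := by omega
    simp [h, this]

theorem sum_inv_sq_le (n : ℕ) : ∑ l ∈ range n, 1 / ((l : ℝ) + 1) ^ 2 ≤ 2 := by
  have h : ∀ n : ℕ, ∑ l ∈ range n, 1 / ((l : ℝ) + 1) ^ 2 ≤ 2 * (1 - 1 / ((n : ℝ) + 1)) := by
    intro n
    induction n with
    | zero => simp
    | succ n ih =>
      rw [sum_range_succ]
      have h1 : 1 / ((n : ℝ) + 1) ^ 2 ≤ 2 * (1 / ((n : ℝ) + 1) - 1 / ((n : ℝ) + 1 + 1)) := by
        have hn : (0 : ℝ) ≤ n := Nat.cast_nonneg n
        rw [div_sub_div _ _ (by positivity) (by positivity), ← mul_div_assoc,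
          div_le_div_iff₀ (by positivity) (by positivity)]
        nlinarith
      push_cast
      linarith
  refine (h n).trans ?_
  have : 0 ≤ 1 / ((n : ℝ) + 1) := by positivity
  linarith

theorem wt_nonneg {N : ℕ} {Sd : Type} (lab : Sd → Option (ℕ × ℕ)) (ω : POm N Sd) (b : Bool)
    (i : Fin N) : 0 ≤ wt lab ω b i := by
  unfold wt
  split <;> positivity

theorem wt_some {N : ℕ} {Sd : Type} {lab : Sd → Option (ℕ × ℕ)} {ω : POm N Sd} {b : Bool}
    {i : Fin N} {p : ℕ × ℕ} (h : lb lab ω b i = some p) :
    wt lab ω b i = (DD p.1 : ℝ) / N := by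
  unfold wt
  rw [h]

theorem l2_NN_pos (L : ℕ) : 0 < NN L := by unfold NN; positivity
theorem l2_DD_pos (j : ℕ) : 0 < DD j := by unfold DD; positivity

theorem l2_main : L2Main := by
  classical
  intro L Sd _ lab hlab ω h2 h3 z K hal hind hmf hmt
  have hN : (0 : ℝ) < NN L := by exact_mod_cast l2_NN_pos L
  have hal' : ∀ b, ∀ i ∈ K b, alv lab ω (zv z) b i := hal
  have hind' : ∀ b, ∀ h ∈ K b, ∀ v ∈ K (!b), ¬ adjb lab ω b h v := by
    intro b
    cases b with
    | false => exact hind
    | true =>
      intro h hh v hv had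
      exact hind v hv h hh ((adjb_comm lab ω true h v).mp had)
  have hmax : ∀ b, ∀ v, alv lab ω (zv z) (!b) v → v ∉ K (!b) → ∃ h ∈ K b, adjb lab ω b h v := by
    intro b
    cases b with
    | false => exact hmt
    | true =>
      intro v hv hv2
      obtain ⟨j, hj, hadj⟩ := hmf v hv hv2
      exact ⟨j, hj, (adjb_comm lab ω true j v).mpr hadj⟩
  -- it suffices to find a side of mass at most 2
  have hkey : ∀ b, ∑ h ∈ (K b).filter (fun h => lb lab ω b h ≠ none), wt lab ω b h ≤ 2 →
      NN L ≤ 20 * ((K false).card + (K true).card) := by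
    intro b hb
    have h4 := h2 z b ((K b).filter (fun h => lb lab ω b h ≠ none)) (by
      intro h hh
      rw [mem_filter] at hh
      exact ⟨hh.2, hal' b h hh.1⟩) hb
    have h5 : (univ.filter (fun v => lb lab ω (!b) v = none ∧
      ∀ h ∈ (K b).filter (fun h => lb lab ω b h ≠ none), ¬ adjb lab ω b h v)) ⊆ K (!b) := by
      intro v hv
      rw [mem_filter] at hv
      obtain ⟨_, hv1, hv2⟩ := hv
      by_contra hv3
      have hva : alv lab ω (zv z) (!b) v := by
        intro p hp
        rw [hv1] at hp
        exact absurd hp (by simp)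
      obtain ⟨h, hh, hadj⟩ := hmax b v hva hv3
      apply hv2 h _ hadj
      rw [mem_filter]
      refine ⟨hh, ?_⟩
      intro hn
      unfold adjb at hadj
      rw [hn, hv1] at hadj
      simp [thr] at hadj
    have h6 := card_le_card h5
    have h7 : (NN L : ℝ) / 20 ≤ ((K (!b)).card : ℝ) := h4.trans (by exact_mod_cast h6)
    have h8 : (K (!b)).card ≤ (K false).card + (K true).card := by cases b <;> simp
    have h9 : (NN L : ℝ) ≤ 20 * ((K (!b)).card : ℝ) := by linarith
    have h10 : NN L ≤ 20 * (K (!b)).card := by exact_mod_cast h9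
    omega
  -- mass of levels ≥ i on the side of level i
  set m : ℕ → ℝ := fun i => ∑ h ∈ (K (par i)).filter
    (fun h => ∃ p, lb lab ω (par i) h = some p ∧ i ≤ p.1), wt lab ω (par i) h with hm
  by_cases hex : ∃ i, i ≤ L ∧ 1 ≤ m i
  · -- largest such level
    obtain ⟨i0, hi0L, hi0⟩ := hex
    set i := Nat.findGreatest (fun i => 1 ≤ m i) L with hi
    have hi1 : 1 ≤ m i := Nat.findGreatest_spec (P := fun i => 1 ≤ m i) hi0L hi0
    have hiL : i ≤ L := Nat.findGreatest_le L
    have hi2 : m (i + 1) < 1 := by
      rcases Nat.lt_or_ge L (i + 1) with h | h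
      · have : (K (par (i + 1))).filter
            (fun h => ∃ p, lb lab ω (par (i + 1)) h = some p ∧ i + 1 ≤ p.1) = ∅ := by
          rw [filter_eq_empty_iff]
          rintro x _ ⟨p, hp, hp1⟩
          have := (hlab.range _ p.1 p.2 (lb_lab hp)).1
          omega
        show ∑ h ∈ _, _ < _
        rw [this]
        simp
      · exact not_le.mp (Nat.findGreatest_is_greatest (P := fun i => 1 ≤ m i)
          (Nat.lt_succ_self i) h)
    apply hkey (!par i)
    set c := !par i with hc
    have hc1 : par (i + 1) = c := par_succ i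
    -- split
    have hsplit : ∑ h ∈ (K c).filter (fun h => lb lab ω c h ≠ none), wt lab ω c h ≤
        ∑ h ∈ (K c).filter (fun h => ∃ p, lb lab ω c h = some p ∧ i + 1 ≤ p.1), wt lab ω c h +
        ∑ l ∈ (range i).filter (fun l => par l = c),
          ∑ h ∈ (K c).filter (fun h => lb lab ω c h = some (l, zv z l)), wt lab ω c h := by
      have hsub : (K c).filter (fun h => lb lab ω c h ≠ none) ⊆
          (K c).filter (fun h => ∃ p, lb lab ω c h = some p ∧ i + 1 ≤ p.1) ∪
          ((range i).filter (fun l => par l = c)).biUnion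
            (fun l => (K c).filter (fun h => lb lab ω c h = some (l, zv z l))) := by
        intro x hx
        rw [mem_filter] at hx
        obtain ⟨hx1, hx2⟩ := hx
        obtain ⟨p, hp⟩ := Option.ne_none_iff_exists'.mp hx2
        rw [mem_union]
        by_cases h4 : i + 1 ≤ p.1
        · left
          rw [mem_filter]
          exact ⟨hx1, p, hp, h4⟩
        · right
          rw [mem_biUnion]
          have h5 : par p.1 = c := lb_par hp
          have h6 : p.1 ≠ i := by
            intro h6
            rw [h6] at h5
            rw [hc] at h5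
            cases hpi : par i <;> rw [hpi] at h5 <;> simp at h5
          refine ⟨p.1, ?_, ?_⟩
          · rw [mem_filter, mem_range]
            exact ⟨by omega, h5⟩
          · rw [mem_filter]
            refine ⟨hx1, ?_⟩
            rw [hp, ← hal' c x hx1 p hp]
      refine (sum_le_sum_of_subset_of_nonneg hsub (fun x _ _ => wt_nonneg lab ω c x)).trans ?_
      have hun := sum_union_inter (s₁ := (K c).filter
          (fun h => ∃ p, lb lab ω c h = some p ∧ i + 1 ≤ p.1))
        (s₂ := ((range i).filter (fun l => par l = c)).biUnion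
            (fun l => (K c).filter (fun h => lb lab ω c h = some (l, zv z l))))
        (f := fun h => wt lab ω c h)
      have hbi : ∑ h ∈ ((range i).filter (fun l => par l = c)).biUnion
            (fun l => (K c).filter (fun h => lb lab ω c h = some (l, zv z l))), wt lab ω c h =
          ∑ l ∈ (range i).filter (fun l => par l = c),
          ∑ h ∈ (K c).filter (fun h => lb lab ω c h = some (l, zv z l)), wt lab ω c h := by
        apply sum_biUnion
        intro l _ l' _ hll
        rw [Function.onFun, disjoint_left]
        intro x hx hx'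
        rw [mem_filter] at hx hx'
        rw [hx.2] at hx'
        have := hx'.2
        simp only [Option.some.injEq, Prod.mk.injEq] at this
        exact hll this.1
      rw [← hbi]
      have hnn : 0 ≤ ∑ h ∈ (K c).filter (fun h => ∃ p, lb lab ω c h = some p ∧ i + 1 ≤ p.1) ∩
          ((range i).filter (fun l => par l = c)).biUnion
            (fun l => (K c).filter (fun h => lb lab ω c h = some (l, zv z l))), wt lab ω c h :=
        sum_nonneg fun x _ => wt_nonneg lab ω c x
      linarith
    have hfirst : ∑ h ∈ (K c).filter (fun h => ∃ p, lb lab ω c h = some p ∧ i + 1 ≤ p.1),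
        wt lab ω c h < 1 := by
      have h4 : m (i + 1) = ∑ h ∈ (K c).filter
          (fun h => ∃ p, lb lab ω c h = some p ∧ i + 1 ≤ p.1), wt lab ω c h := by
        simp only [hm, hc1]
      rw [← h4]
      exact hi2
    have hlev : ∀ l ∈ (range i).filter (fun l => par l = c),
        ∑ h ∈ (K c).filter (fun h => lb lab ω c h = some (l, zv z l)), wt lab ω c h
          ≤ 1 / 8 * (1 / ((l : ℝ) + 1) ^ 2) := by
      intro l hl
      rw [mem_filter, mem_range] at hl
      obtain ⟨hli, hlc⟩ := hl
      have hc2 : (!par l) = par i := by rw [hlc, hc, Bool.not_not]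
      have hDl : (0 : ℝ) < DD l := by exact_mod_cast l2_DD_pos l
      have h4 := h3 z l ((K (par i)).filter
        (fun h => ∃ p, lb lab ω (par i) h = some p ∧ i ≤ p.1)) (by omega) (by
          intro h hh
          rw [mem_filter] at hh
          obtain ⟨hh1, p, hp, hp1⟩ := hh
          refine ⟨p, ?_, hal' (par i) h hh1 p hp, by omega⟩
          rw [hc2]
          exact hp) (by
          rw [hc2]
          exact hi1)
      have h5 : (K c).filter (fun h => lb lab ω c h = some (l, zv z l)) ⊆
          (hub lab ω l (zv z l)).filter (fun v => ∀ h ∈ (K (par i)).filter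
            (fun h => ∃ p, lb lab ω (par i) h = some p ∧ i ≤ p.1),
            ¬ adjb lab ω (!par l) h v) := by
        intro x hx
        rw [mem_filter] at hx ⊢
        constructor
        · unfold hub
          rw [mem_filter]
          refine ⟨mem_univ _, ?_⟩
          rw [hlc]
          exact hx.2
        · intro h hh
          rw [mem_filter] at hh
          rw [hc2]
          exact hind' (par i) h hh.1 x hx.1
      have h6 : (((K c).filter (fun h => lb lab ω c h = some (l, zv z l))).card : ℝ) ≤
          (NN L : ℝ) / (8 * ((l : ℝ) + 1) ^ 2 * DD l) :=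
        le_trans (by exact_mod_cast card_le_card h5) h4
      have h7 : ∑ h ∈ (K c).filter (fun h => lb lab ω c h = some (l, zv z l)), wt lab ω c h =
          (((K c).filter (fun h => lb lab ω c h = some (l, zv z l))).card : ℝ) *
            ((DD l : ℝ) / NN L) := by
        rw [← nsmul_eq_mul, ← sum_const]
        apply sum_congr rfl
        intro x hx
        rw [mem_filter] at hx
        exact wt_some hx.2
      rw [h7]
      calc (((K c).filter (fun h => lb lab ω c h = some (l, zv z l))).card : ℝ) *
            ((DD l : ℝ) / NN L)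
          ≤ (NN L : ℝ) / (8 * ((l : ℝ) + 1) ^ 2 * DD l) * ((DD l : ℝ) / NN L) :=
            mul_le_mul_of_nonneg_right h6 (by positivity)
        _ = 1 / 8 * (1 / ((l : ℝ) + 1) ^ 2) := by
            field_simp
    have hsum : ∑ l ∈ (range i).filter (fun l => par l = c),
        ∑ h ∈ (K c).filter (fun h => lb lab ω c h = some (l, zv z l)), wt lab ω c h ≤ 1 / 4 := by
      refine (sum_le_sum hlev).trans ?_
      rw [← mul_sum]
      have h4 : ∑ l ∈ (range i).filter (fun l => par l = c), 1 / ((l : ℝ) + 1) ^ 2 ≤
          ∑ l ∈ range i, 1 / ((l : ℝ) + 1) ^ 2 :=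
        sum_le_sum_of_subset_of_nonneg (filter_subset _ _) (fun l _ _ => by positivity)
      have h5 := sum_inv_sq_le i
      linarith
    linarith
  · apply hkey false
    have h4 : ¬ 1 ≤ m 0 := fun h => hex ⟨0, Nat.zero_le L, h⟩
    have h5 : ∑ h ∈ (K false).filter (fun h => lb lab ω false h ≠ none), wt lab ω false h = m 0 := by
      rw [hm]
      have : par 0 = false := by decide
      simp only [this]
      apply sum_congr _ fun _ _ => rfl
      ext x
      simp only [mem_filter, Nat.zero_le, and_true]
      rw [Option.ne_none_iff_exists']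
    rw [h5]
    linarith [not_le.mp h4]

end Pool.Agent.EGT
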