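import Pool.Agent.EGT.Num
import Pool.Agent.EGT.L2

/-! Project EGT: module C3: `c3_main : C3Main`. -/

open Finset

namespace Pool.Agent.EGT

theorem c3_swap {N : ℕ} (b : Bool) (P : (Fin N → Fin N → Fin N) → Prop) :
    pr (fun u : Fin N → Fin N → Fin N => P (fun v h => if b then u v h else u h v)) = pr P := by
  cases b
  · simp only [Bool.false_eq_true, if_false]
    exact pr_equiv (Equiv.piComm (fun _ _ => Fin N)) P
  · simp

theorem c3_par {a b : ℕ} : par a = par b ↔ a % 2 = b % 2 := by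
  unfold par
  rw [decide_eq_decide]
  omega

theorem c3_par_not {a b : ℕ} : par a = (!par b) ↔ a % 2 ≠ b % 2 := by
  have := @c3_par a b
  cases hb : par b <;> cases ha : par a <;> simp_all

open Classical in
/-- the hubs that may occur in `J` -/
noncomputable def c3V (L : ℕ) {Sd : Type} (lab : Sd → Option (ℕ × ℕ)) (a : Bool → Fin (NN L) → Sd)
    (z : ZZ L) (l : ℕ) : Finset (Fin (NN L)) :=
  univ.filter (fun h => ∃ p : ℕ × ℕ, lvl lab (!par l) (a (!par l) h) = some p ∧ p.2 = zv z p.1 ∧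
    l < p.1)

open Classical in
theorem c3_one (L : ℕ) {Sd : Type} [Fintype Sd] (lab : Sd → Option (ℕ × ℕ)) (hlab : LabSpec L lab)
    (a : Bool → Fin (NN L) → Sd)
    (z : ZZ L) (l : ℕ) (hl : l ≤ L) (B : Finset (Fin (NN L)))
    (hB : ∀ v ∈ B, lvl lab (par l) (a (par l) v) = some (l, zv z l))
    (hBc : (B.card : ℝ) ≤ 2 * ss l * (NN L : ℝ) / DD l)
    (J : Finset (Fin (NN L))) (hJ : J ⊆ c3V L lab a z l) :
    pr (fun u : Fin (NN L) → Fin (NN L) → Fin (NN L) =>
      1 ≤ ∑ h ∈ J, wt lab ((a, u) : POm (NN L) Sd) (!par l) h ∧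
      (NN L : ℝ) / (8 * ((l : ℝ) + 1) ^ 2 * DD l) ≤
        ((B.filter (fun v => ∀ h ∈ J, ¬ adjb lab ((a, u) : POm (NN L) Sd) (!par l) h v)).card : ℝ))
      ≤ Real.exp (-(39 / 10 * (ss (l + 1) * (NN L : ℝ) / DD l))) := by
  classical
  have hN : (0 : ℝ) < NN L := by exact_mod_cast l2_NN_pos L
  have hDl : (0 : ℝ) < DD l := by exact_mod_cast l2_DD_pos l
  -- degrees
  set dg : Fin (NN L) → ℕ := fun h => match lvl lab (!par l) (a (!par l) h) with
    | none => 0
    | some p => DD p.1 with hdg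
  have hdgJ : ∀ h ∈ J, ∃ p : ℕ × ℕ, lvl lab (!par l) (a (!par l) h) = some p ∧ l < p.1 ∧
      p.1 ≤ L ∧ dg h = DD p.1 := by
    intro h hh
    have := hJ hh
    unfold c3V at this
    rw [mem_filter] at this
    obtain ⟨_, p, hp, _, hp2⟩ := this
    refine ⟨p, hp, hp2, ?_, ?_⟩
    · exact (hlab.range _ p.1 p.2 (lb_lab (ω := ((a, fun _ _ => ⟨0, l2_NN_pos L⟩) : POm (NN L) Sd))
        (b := !par l) (i := h) hp)).1
    · simp only [hdg, hp]
  have hwt : ∀ u : Fin (NN L) → Fin (NN L) → Fin (NN L), ∀ h ∈ J,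
      wt lab ((a, u) : POm (NN L) Sd) (!par l) h = (dg h : ℝ) / NN L := by
    intro u h hh
    obtain ⟨p, hp, _, _, hd⟩ := hdgJ h hh
    rw [hd]
    exact wt_some hp
  by_cases hmass : (1 : ℝ) * NN L ≤ ∑ h ∈ J, (dg h : ℝ)
  swap
  · -- mass < 1 : the event is empty
    have h0 : pr (fun u : Fin (NN L) → Fin (NN L) → Fin (NN L) =>
      1 ≤ ∑ h ∈ J, wt lab ((a, u) : POm (NN L) Sd) (!par l) h ∧
      (NN L : ℝ) / (8 * ((l : ℝ) + 1) ^ 2 * DD l) ≤
        ((B.filter (fun v => ∀ h ∈ J, ¬ adjb lab ((a, u) : POm (NN L) Sd) (!par l) h v)).card : ℝ))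
        ≤ 0 := by
      have h1 : pr (fun u : Fin (NN L) → Fin (NN L) → Fin (NN L) =>
        1 ≤ ∑ h ∈ J, wt lab ((a, u) : POm (NN L) Sd) (!par l) h ∧
        (NN L : ℝ) / (8 * ((l : ℝ) + 1) ^ 2 * DD l) ≤
        ((B.filter (fun v => ∀ h ∈ J, ¬ adjb lab ((a, u) : POm (NN L) Sd) (!par l) h v)).card : ℝ))
          ≤ pr (fun _ : Fin (NN L) → Fin (NN L) → Fin (NN L) => False) := by
        apply pr_mono
        rintro u ⟨hu, _⟩
        apply hmass
        rw [sum_congr rfl fun h hh => hwt u h hh, ← sum_div, le_div_iff₀ hN] at hu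
        exact hu
      refine h1.trans ?_
      unfold pr
      apply ex_le_of_le le_rfl
      intro u
      rw [ind_neg not_false]
    exact h0.trans (Real.exp_pos _).le
  · -- main case
    have hkap : ∀ h ∈ J, kap l * dg h ≤ NN L := by
      intro h hh
      obtain ⟨p, _, hp2, hp3, hd⟩ := hdgJ h hh
      rw [hd]
      exact num_kap_DD hp2 hp3
    have hsum : (kap l : ℝ) * NN L ≤ ∑ h ∈ J, ((kap l * dg h : ℕ) : ℝ) := by
      push_cast
      rw [← mul_sum]
      have : (0 : ℝ) ≤ kap l := Nat.cast_nonneg _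
      nlinarith
    have h1 := c3_gen (N := NN L) (l2_NN_pos L) J (fun h => kap l * dg h) hkap hsum B
      (a := (NN L : ℝ) / (8 * ((l : ℝ) + 1) ^ 2 * DD l)) hBc (Nat.cast_nonneg _)
    have h2 := c3_swap (!par l) (fun u : Fin (NN L) → Fin (NN L) → Fin (NN L) =>
      (NN L : ℝ) / (8 * ((l : ℝ) + 1) ^ 2 * DD l) ≤
      ((B.filter (fun y => ∀ x ∈ J, ¬ (u y x : ℕ) < kap l * dg x)).card : ℝ))
    have h3 : pr (fun u : Fin (NN L) → Fin (NN L) → Fin (NN L) =>
      1 ≤ ∑ h ∈ J, wt lab ((a, u) : POm (NN L) Sd) (!par l) h ∧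
      (NN L : ℝ) / (8 * ((l : ℝ) + 1) ^ 2 * DD l) ≤
        ((B.filter (fun v => ∀ h ∈ J, ¬ adjb lab ((a, u) : POm (NN L) Sd) (!par l) h v)).card : ℝ))
        ≤ pr (fun u : Fin (NN L) → Fin (NN L) → Fin (NN L) =>
      (NN L : ℝ) / (8 * ((l : ℝ) + 1) ^ 2 * DD l) ≤
      ((B.filter (fun y => ∀ x ∈ J, ¬ ((if (!par l) then u y x else u x y : Fin (NN L)) : ℕ) <
        kap l * dg x)).card : ℝ)) := by
      apply pr_mono
      rintro u ⟨_, hu⟩
      refine hu.trans ?_
      have : B.filter (fun v => ∀ h ∈ J, ¬ adjb lab ((a, u) : POm (NN L) Sd) (!par l) h v) ⊆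
          B.filter (fun y => ∀ x ∈ J, ¬ ((if (!par l) then u y x else u x y : Fin (NN L)) : ℕ) <
            kap l * dg x) := by
        intro v hv
        rw [mem_filter] at hv ⊢
        refine ⟨hv.1, ?_⟩
        intro x hx hlt
        apply hv.2 x hx
        obtain ⟨p, hp, hp2, _, hd⟩ := hdgJ x hx
        have hv1 := hB v hv.1
        unfold adjb
        have e1 : lb lab ((a, u) : POm (NN L) Sd) (!par l) x = some p := hp
        have e2 : lb lab ((a, u) : POm (NN L) Sd) (!!par l) v = some (l, zv z l) := by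
          rw [Bool.not_not]; exact hv1
        rw [e1, e2]
        have e3 : thr (some p) (some (l, zv z l)) = kap l * DD p.1 := by
          simp only [thr]
          rw [min_eq_right hp2.le, max_eq_left hp2.le]
        rw [e3, ← hd]
        unfold uu
        cases hb : (!par l)
        · rw [hb] at hlt
          exact hlt
        · rw [hb] at hlt
          exact hlt
      exact_mod_cast card_le_card this
    refine h3.trans (le_trans (le_of_eq ?_) (h1.trans (Real.exp_le_exp.mpr ?_)))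
    · rw [← h2]
    · -- numbers
      have hkc := kap_cast l
      have hs1 : (ss (l + 1) : ℝ) = 2 ^ 14 * ((l : ℝ) + 2) := by
        rw [ss_cast]; push_cast; ring
      have hs0 := ss_cast l
      have hl0 : (0 : ℝ) ≤ l := Nat.cast_nonneg l
      set X : ℝ := (NN L : ℝ) / DD l with hX
      have hXpos : 0 < X := by positivity
      have e1 : (NN L : ℝ) / (8 * ((l : ℝ) + 1) ^ 2 * DD l) = X / (8 * ((l : ℝ) + 1) ^ 2) := by
        rw [hX, div_div, mul_comm (DD l : ℝ)]
      have e2 : 2 * (ss l : ℝ) * (NN L : ℝ) / DD l = 2 * ss l * X := by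
        rw [hX]; ring
      have e3 : (ss (l + 1) : ℝ) * (NN L : ℝ) / DD l = ss (l + 1) * X := by
        rw [hX]; ring
      rw [e1, e2, e3]
      have e4 : -((kap l : ℝ) / 2) * (X / (8 * ((l : ℝ) + 1) ^ 2)) = -(4 * (ss (l + 1) * X)) := by
        rw [hkc, hs1]
        field_simp
        ring
      have e5 : Real.exp (-((kap l : ℝ) / 2)) ≤ 2 / kap l := by
        have hkp := kap_pos' l
        rw [Real.exp_neg, ← one_div, div_le_div_iff₀ (Real.exp_pos _) hkp]
        have := Real.add_one_le_exp ((kap l : ℝ) / 2)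
        linarith
      have e6 : 2 * (ss l : ℝ) * X * Real.exp (-((kap l : ℝ) / 2)) ≤ 1 / 16 * X := by
        have h5 : 2 * (ss l : ℝ) * Real.exp (-((kap l : ℝ) / 2)) ≤ 1 / 16 := by
          have hss : (0 : ℝ) ≤ 2 * (ss l : ℝ) := by have := ss_pos' l; linarith
          have h6 : 2 * (ss l : ℝ) * Real.exp (-((kap l : ℝ) / 2)) ≤ 2 * (ss l : ℝ) * (2 / kap l) :=
            mul_le_mul_of_nonneg_left e5 hss
          refine h6.trans ?_
          rw [hkc, hs0, ← mul_div_assoc, div_le_div_iff₀ (by positivity) (by norm_num)]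
          nlinarith [mul_nonneg hl0 hl0, mul_nonneg (mul_nonneg hl0 hl0) hl0]
        nlinarith
      have e7 : 1 / 16 * X ≤ 1 / 10 * (ss (l + 1) * X) := by
        have : (1 : ℝ) ≤ ss (l + 1) := by rw [hs1]; nlinarith
        nlinarith
      rw [e4]
      linarith

theorem c3_zv_lt {L : ℕ} (z : ZZ L) {j : ℕ} (hj : j ≤ L) : zv z j < RR L j := by
  unfold zv
  rw [dif_pos (by omega : j < L + 1)]
  exact (z ⟨j, by omega⟩).2

theorem c3_card_ZZ (L : ℕ) : (Fintype.card (ZZ L) : ℝ) ≤ Real.exp (8 * ((L : ℝ) + 1) ^ 2) := by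
  have h1 : (Fintype.card (ZZ L) : ℝ) = ∏ j ∈ range (L + 1), (RR L j : ℝ) := by
    rw [Fintype.card_pi, Nat.cast_prod, ← Fin.prod_univ_eq_prod_range (fun j => (RR L j : ℝ))]
    apply prod_congr rfl
    intro j _
    rw [Fintype.card_fin]
  rw [h1]
  exact num_colours L

theorem c3_card_V (L : ℕ) {Sd : Type} [Fintype Sd] (lab : Sd → Option (ℕ × ℕ))
    (hlab : LabSpec L lab) (ω : POm (NN L) Sd) (hC1 : C1 L lab ω) (z : ZZ L) (l : ℕ) :
    ((c3V L lab ω.1 z l).card : ℝ) ≤ 3 / 5 * (ss (l + 1) * (NN L : ℝ) / DD l) := by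
  classical
  have hN : (0 : ℝ) < NN L := by exact_mod_cast l2_NN_pos L
  have hsub : c3V L lab ω.1 z l ⊆ ((Ioc l L).filter (fun j => j % 2 ≠ l % 2)).biUnion
      (fun j => hub lab ω j (zv z j)) := by
    intro h hh
    unfold c3V at hh
    rw [mem_filter] at hh
    obtain ⟨_, p, hp, hp1, hp2⟩ := hh
    have hp' : lb lab ω (!par l) h = some p := hp
    have h1 := lb_par hp'
    have h2 := (hlab.range _ p.1 p.2 (lb_lab hp')).1
    rw [mem_biUnion]
    refine ⟨p.1, ?_, ?_⟩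
    · rw [mem_filter, mem_Ioc]
      exact ⟨⟨hp2, h2⟩, c3_par_not.mp h1⟩
    · unfold hub
      rw [mem_filter, h1]
      exact ⟨mem_univ _, by rw [hp', ← hp1]⟩
  have h1 : ((c3V L lab ω.1 z l).card : ℝ) ≤
      ∑ j ∈ (Ioc l L).filter (fun j => j % 2 ≠ l % 2), ((hub lab ω j (zv z j)).card : ℝ) := by
    have := (card_le_card hsub).trans card_biUnion_le
    exact_mod_cast this
  have h2 : ∑ j ∈ (Ioc l L).filter (fun j => j % 2 ≠ l % 2), ((hub lab ω j (zv z j)).card : ℝ) ≤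
      ∑ j ∈ (Ioc l L).filter (fun j => j % 2 ≠ l % 2), 2 * (NN L : ℝ) * ((ss j : ℝ) / DD j) := by
    apply sum_le_sum
    intro j hj
    rw [mem_filter, mem_Ioc] at hj
    have := hC1 j (zv z j) hj.1.2 (c3_zv_lt z hj.1.2)
    refine this.trans (le_of_eq ?_)
    ring
  rw [← mul_sum] at h2
  have h3 := num_hubs_tail (L := L) (l := l)
  have h4 : (DD (l + 1) : ℝ) = 4 * DD l := by
    rw [DD_cast, DD_cast]; ring
  have hDl := DD_pos' l
  have h5 : 2 * (NN L : ℝ) * (6 / 5 * ((ss (l + 1) : ℝ) / DD (l + 1))) =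
      3 / 5 * (ss (l + 1) * (NN L : ℝ) / DD l) := by
    rw [h4]
    field_simp
    ring
  rw [← h5]
  exact (h1.trans h2).trans (mul_le_mul_of_nonneg_left h3 (by positivity))

theorem c3_main : C3Main := by
  classical
  refine ⟨0, ?_⟩
  intro L _ Sd _ _ lab hlab
  have hN : (0 : ℝ) < NN L := by exact_mod_cast l2_NN_pos L
  haveI : Nonempty (Fin (NN L)) := ⟨⟨0, l2_NN_pos L⟩⟩
  apply pr_prod_le _ (by positivity)
  intro a
  obtain ⟨u0⟩ : Nonempty (Fin (NN L) → Fin (NN L) → Fin (NN L)) := inferInstance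
  by_cases hC1 : C1 L lab ((a, u0) : POm (NN L) Sd)
  swap
  · have h1 : pr (fun u : Fin (NN L) → Fin (NN L) → Fin (NN L) =>
        C1 L lab ((a, u) : POm (NN L) Sd) ∧ ¬ C3 L lab ((a, u) : POm (NN L) Sd)) ≤ 0 := by
      unfold pr
      apply ex_le_of_le le_rfl
      intro u
      rw [ind_neg]
      rintro ⟨h1, _⟩
      exact hC1 h1
    exact h1.trans (by positivity)
  -- one level, one colour vector, one set
  have hone : ∀ l ∈ range (L + 1), ∀ z ∈ (univ : Finset (ZZ L)),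
      ∀ J ∈ (c3V L lab a z l).powerset,
      pr (fun u : Fin (NN L) → Fin (NN L) → Fin (NN L) =>
      1 ≤ ∑ h ∈ J, wt lab ((a, u) : POm (NN L) Sd) (!par l) h ∧
      (NN L : ℝ) / (8 * ((l : ℝ) + 1) ^ 2 * DD l) ≤
        (((hub lab ((a, u0) : POm (NN L) Sd) l (zv z l)).filter
          (fun v => ∀ h ∈ J, ¬ adjb lab ((a, u) : POm (NN L) Sd) (!par l) h v)).card : ℝ))
      ≤ Real.exp (-(39 / 10 * (ss (l + 1) * (NN L : ℝ) / DD l))) := by
    intro l hl z _ J hJ
    have hl' : l ≤ L := by rw [mem_range] at hl; omega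
    apply c3_one L lab hlab a z l hl' _ _ _ J (mem_powerset.mp hJ)
    · intro v hv
      unfold hub at hv
      rw [mem_filter] at hv
      exact hv.2
    · exact hC1 l (zv z l) hl' (c3_zv_lt z hl')
  have hX : ∀ l, l ≤ L → (2 : ℝ) ^ 37 * ((L : ℝ) + 1) ^ 4 ≤ ss (l + 1) * (NN L : ℝ) / DD l := by
    intro l hl
    refine (num_mean hl).trans ?_
    have h1 : (ss l : ℝ) ≤ ss (l + 1) := by rw [ss_cast, ss_cast]; push_cast; linarith
    have hDl := DD_pos' l
    gcongr
  -- union over J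
  have htwo : ∀ l ∈ range (L + 1), ∀ z ∈ (univ : Finset (ZZ L)),
      pr (fun u : Fin (NN L) → Fin (NN L) → Fin (NN L) => ∃ J ∈ (c3V L lab a z l).powerset,
      1 ≤ ∑ h ∈ J, wt lab ((a, u) : POm (NN L) Sd) (!par l) h ∧
      (NN L : ℝ) / (8 * ((l : ℝ) + 1) ^ 2 * DD l) ≤
        (((hub lab ((a, u0) : POm (NN L) Sd) l (zv z l)).filter
          (fun v => ∀ h ∈ J, ¬ adjb lab ((a, u) : POm (NN L) Sd) (!par l) h v)).card : ℝ))
      ≤ Real.exp (-((2 : ℝ) ^ 37 * ((L : ℝ) + 1) ^ 4)) := by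
    intro l hl z hz
    refine (pr_exists_le _ _ (hone l hl z hz)).trans ?_
    have hl' : l ≤ L := by rw [mem_range] at hl; omega
    have hV := c3_card_V L lab hlab ((a, u0) : POm (NN L) Sd) hC1 z l
    have hXl := hX l hl'
    set X : ℝ := ss (l + 1) * (NN L : ℝ) / DD l with hXdef
    have h1 : (((c3V L lab a z l).powerset.card : ℕ) : ℝ) ≤ Real.exp (3 / 5 * X) := by
      rw [card_powerset, Nat.cast_pow]
      have h2 : ((2 : ℕ) : ℝ) ≤ Real.exp 1 := by
        have := Real.add_one_le_exp (1 : ℝ)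
        push_cast; linarith
      calc ((2 : ℕ) : ℝ) ^ (c3V L lab a z l).card ≤ (Real.exp 1) ^ (c3V L lab a z l).card :=
            pow_le_pow_left₀ (by positivity) h2 _
        _ = Real.exp ((c3V L lab a z l).card) := by rw [← Real.exp_nat_mul, mul_one]
        _ ≤ Real.exp (3 / 5 * X) := Real.exp_le_exp.mpr hV
    have hXp : 0 ≤ X := le_trans (by positivity) hXl
    calc (((c3V L lab a z l).powerset.card : ℕ) : ℝ) * Real.exp (-(39 / 10 * X))
        ≤ Real.exp (3 / 5 * X) * Real.exp (-(39 / 10 * X)) :=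
          mul_le_mul_of_nonneg_right h1 (Real.exp_pos _).le
      _ = Real.exp (3 / 5 * X + -(39 / 10 * X)) := (Real.exp_add _ _).symm
      _ ≤ Real.exp (-((2 : ℝ) ^ 37 * ((L : ℝ) + 1) ^ 4)) := by
          apply Real.exp_le_exp.mpr
          linarith
  -- union over z and l
  have hthree : ∀ l ∈ range (L + 1), pr (fun u : Fin (NN L) → Fin (NN L) → Fin (NN L) =>
      ∃ z ∈ (univ : Finset (ZZ L)), ∃ J ∈ (c3V L lab a z l).powerset,
      1 ≤ ∑ h ∈ J, wt lab ((a, u) : POm (NN L) Sd) (!par l) h ∧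
      (NN L : ℝ) / (8 * ((l : ℝ) + 1) ^ 2 * DD l) ≤
        (((hub lab ((a, u0) : POm (NN L) Sd) l (zv z l)).filter
          (fun v => ∀ h ∈ J, ¬ adjb lab ((a, u) : POm (NN L) Sd) (!par l) h v)).card : ℝ))
      ≤ Real.exp (8 * ((L : ℝ) + 1) ^ 2) * Real.exp (-((2 : ℝ) ^ 37 * ((L : ℝ) + 1) ^ 4)) := by
    intro l hl
    refine (pr_exists_le _ _ (htwo l hl)).trans ?_
    apply mul_le_mul_of_nonneg_right _ (Real.exp_pos _).le
    rw [card_univ]
    exact c3_card_ZZ L
  have hfour := pr_exists_le (Ω := Fin (NN L) → Fin (NN L) → Fin (NN L)) _ _ hthree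
  refine le_trans (pr_mono ?_) (hfour.trans ?_)
  · rintro u ⟨_, hu⟩
    unfold C3 at hu
    push Not at hu
    obtain ⟨z, l, J, hl, hJ, hmass, hcard⟩ := hu
    refine ⟨l, by rw [mem_range]; omega, z, mem_univ _, J, ?_, hmass, hcard.le⟩
    rw [mem_powerset]
    intro h hh
    unfold c3V
    rw [mem_filter]
    exact ⟨mem_univ _, hJ h hh⟩
  · rw [card_range, ← Real.exp_add]
    set y : ℝ := (L : ℝ) + 1 with hy
    have hL0 : (0 : ℝ) ≤ L := Nat.cast_nonneg L
    have hy1 : 1 ≤ y := by linarith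
    have h1 : ((L + 1 : ℕ) : ℝ) ≤ Real.exp y := by
      push_cast
      have := Real.add_one_le_exp y
      linarith
    have h3 : (3 : ℝ) ≤ Real.exp 2 := by
      have := Real.add_one_le_exp (2 : ℝ)
      linarith
    rw [le_div_iff₀ (by norm_num)]
    calc ((L + 1 : ℕ) : ℝ) * Real.exp (8 * y ^ 2 + -(2 ^ 37 * y ^ 4)) * 3
        ≤ Real.exp y * Real.exp (8 * y ^ 2 + -(2 ^ 37 * y ^ 4)) * Real.exp 2 := by
          gcongr
      _ = Real.exp (y + (8 * y ^ 2 + -(2 ^ 37 * y ^ 4)) + 2) := by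
          rw [← Real.exp_add, ← Real.exp_add]
      _ ≤ Real.exp (-(L : ℝ) ^ 3) := by
          apply Real.exp_le_exp.mpr
          have hLy : (L : ℝ) = y - 1 := by rw [hy]; ring
          have h4 : (L : ℝ) ^ 3 ≤ y ^ 3 := by
            apply pow_le_pow_left₀ hL0
            linarith
          have h5 : y ^ 3 ≤ y ^ 4 := pow_le_pow_right₀ hy1 (by norm_num)
          have h6 : y ^ 2 ≤ y ^ 4 := pow_le_pow_right₀ hy1 (by norm_num)
          have h7 : y ≤ y ^ 4 := by
            calc y = y ^ 1 := (pow_one y).symm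
              _ ≤ y ^ 4 := pow_le_pow_right₀ hy1 (by norm_num)
          have h8 : 1 ≤ y ^ 4 := one_le_pow₀ hy1
          have h9 : (0 : ℝ) ≤ y ^ 4 := by linarith
          have h10 : (100 : ℝ) * y ^ 4 ≤ 2 ^ 37 * y ^ 4 := by
            apply mul_le_mul_of_nonneg_right _ h9
            norm_num
          linarith

end Pool.Agent.EGT
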