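import Mathlib
import Pool.Agent.EGT.IDefs

/-!
Project EGT (MP_0b8466_co), module COA: lower bound for maximal independent sets of the combined
graph.
-/

open Finset

namespace Pool.Agent.EGT

open Classical in
theorem coa_main : COAMain := by
  intro W C G Z OB q N HW pairOf alive HG En Kill Nb c z o hadj hcap hB K hK
  obtain ⟨hKS, hKind, hKmax⟩ := hK
  -- the killers of `K`
  set KB : Finset G := (K.toRight.filter (fun p => p.1 = c)).image Prod.snd with hKB
  have memKB : ∀ g, g ∈ KB ↔ (Sum.inr (c, g) : W ⊕ (C × G)) ∈ K := by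
    intro g
    simp only [hKB, mem_image, mem_filter, mem_toRight]
    constructor
    · rintro ⟨⟨c', g'⟩, ⟨h1, h2⟩, h3⟩
      dsimp only at h2 h3
      rw [h2, h3] at h1
      exact h1
    · intro h
      exact ⟨(c, g), ⟨h, rfl⟩, rfl⟩
  have hKBen : ∀ g ∈ KB, En o g := by
    intro g hg
    have := hKS _ ((memKB g).1 hg)
    exact this.2
  have hKBind : ∀ g ∈ KB, ∀ g' ∈ KB, ¬ HG.Adj g g' := by
    intro g hg g' hg' hgg
    exact hKind _ ((memKB g).1 hg) _ ((memKB g').1 hg') ⟨rfl, hgg⟩
  have hcount := hB KB hKBen hKBind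
  set R : Finset (Fin q) := univ.filter (fun x : Fin q => x ∉ Kill o ∧ ∀ g ∈ KB, x ∉ Nb g)
    with hR
  -- the part of `K` in the pair `x`
  let Kx : Fin q → Finset W := fun x => K.toLeft.filter (fun v => pairOf c v = some x)
  have memKx : ∀ x v, v ∈ Kx x ↔ (Sum.inl v : W ⊕ (C × G)) ∈ K ∧ pairOf c v = some x := by
    intro x v
    simp only [Kx, mem_filter, mem_toLeft]
  have hmis : ∀ x ∈ R, MISin HW (fun v => pairOf c v = some x ∧ alive c z v) (Kx x) := by
    intro x hx
    have hx' : x ∉ Kill o ∧ ∀ g ∈ KB, x ∉ Nb g := by simpa [hR] using hx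
    refine ⟨?_, ?_, ?_⟩
    · intro v hv
      obtain ⟨h1, h2⟩ := (memKx x v).1 hv
      obtain ⟨y, hy1, hy2, hy3⟩ := hKS _ h1
      exact ⟨h2, hy3⟩
    · intro u hu v hv huv
      exact hKind _ ((memKx x u).1 hu).1 _ ((memKx x v).1 hv).1 huv
    · rintro v ⟨hv1, hv2⟩ hvn
      have hvK : (Sum.inl v : W ⊕ (C × G)) ∉ K := fun h => hvn ((memKx x v).2 ⟨h, hv1⟩)
      have hal : coAlive pairOf alive En Kill c z o (Sum.inl v) := ⟨x, hv1, hx'.1, hv2⟩
      obtain ⟨u, huK, huadj⟩ := hKmax _ hal hvK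
      rcases u with u | ⟨c', g⟩
      · refine ⟨u, ?_, huadj⟩
        obtain ⟨y, hy1, hy2, hy3⟩ := hKS _ huK
        have hxy : x = y := hadj v u x y hv1 hy1 huadj
        subst hxy
        exact (memKx x u).2 ⟨huK, hy1⟩
      · exfalso
        obtain ⟨y, hy1, hy2⟩ := huadj
        have hcc : c' = c := (hKS _ huK).1
        subst hcc
        have hxy : x = y := by
          have := hv1.symm.trans hy2
          simpa using this
        subst hxy
        exact hx'.2 g ((memKB g).2 huK) hy1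
  -- count
  have hsum : ∑ x ∈ R, (Kx x).card ≤ K.card := by
    have h1 : ∑ x ∈ R, (Kx x).card = (R.biUnion Kx).card := by
      rw [card_biUnion]
      intro x _ y _ hxy
      rw [Function.onFun, Finset.disjoint_left]
      intro v hv hv'
      apply hxy
      have h1 := ((memKx x v).1 hv).2
      have h2 := ((memKx y v).1 hv').2
      simpa using h1.symm.trans h2
    rw [h1]
    refine le_trans (card_le_card (t := K.toLeft) ?_) card_toLeft_le
    intro v hv
    simp only [mem_biUnion] at hv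
    obtain ⟨x, _, hv⟩ := hv
    exact mem_toLeft.2 ((memKx x v).1 hv).1
  have hlow : R.card * N ≤ 20 * ∑ x ∈ R, (Kx x).card := by
    rw [mul_sum, ← smul_eq_mul]
    exact card_nsmul_le_sum _ _ _ fun x hx => hcap x (Kx x) (hmis x hx)
  calc 3 * q * N ≤ (4 * R.card) * N := Nat.mul_le_mul_right _ hcount
    _ = 4 * (R.card * N) := by ring
    _ ≤ 4 * (20 * ∑ x ∈ R, (Kx x).card) := Nat.mul_le_mul_left _ hlow
    _ ≤ 4 * (20 * K.card) := Nat.mul_le_mul_left _ (Nat.mul_le_mul_left _ hsum)
    _ = 80 * K.card := by ring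

end Pool.Agent.EGT
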