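import Mathlib
import Pool.Agent.EGT.IDefs

/-!
Project EGT (MP_0b8466_co), module COB: domination in the combined graph.
-/

open Finset

namespace Pool.Agent.EGT

open Classical in
theorem cob_main : COBMain := by
  intro W C G Z OB _ _ q HW pairOf alive HG En Kill Nb c z o huniq T D hgood hB
  obtain ⟨JB, hB1, hB2, hB3, hB4⟩ := hB
  choose! Jx hJ1 hJ2 hJ3 using hgood
  let JW : Finset W := univ.filter (fun v : W => ∃ x : Fin q, x ∉ D ∧ x ∉ Kill o ∧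
    (∀ g ∈ JB, x ∉ Nb g) ∧ v ∈ Jx x)
  have hmemW : ∀ v, v ∈ JW ↔ ∃ x : Fin q, x ∉ D ∧ x ∉ Kill o ∧
      (∀ g ∈ JB, x ∉ Nb g) ∧ v ∈ Jx x := by
    intro v
    simp [JW]
  let J : Finset (W ⊕ (C × G)) :=
    JW.image Sum.inl ∪ JB.image (fun g => Sum.inr (c, g))
  have hinl : ∀ v, Sum.inl v ∈ J ↔ v ∈ JW := by
    intro v
    simp [J]
  have hinr : ∀ p : C × G, Sum.inr p ∈ J ↔ p.1 = c ∧ p.2 ∈ JB := by
    rintro ⟨a, g⟩
    simp only [J, mem_union, mem_image, reduceCtorEq, and_false, exists_false, false_or,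
      Sum.inr.injEq, Prod.mk.injEq]
    constructor
    · rintro ⟨g', hg', rfl, rfl⟩
      exact ⟨rfl, hg'⟩
    · rintro ⟨rfl, hg⟩
      exact ⟨g, hg, rfl, rfl⟩
  have hmix : ∀ v p, Sum.inl v ∈ J → Sum.inr p ∈ J →
      ¬ ∃ x ∈ Nb p.2, pairOf p.1 v = some x := by
    intro v p hv hp
    rw [hinl, hmemW] at hv
    rw [hinr] at hp
    obtain ⟨x, hxD, hxK, hxN, hvx⟩ := hv
    rintro ⟨y, hy, hpy⟩
    have h1 := (hJ1 x hxD v hvx).1.1
    rw [hp.1, h1] at hpy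
    have hxy : x = y := by simpa using hpy
    rw [← hxy] at hy
    exact hxN p.2 hp.2 hy
  refine ⟨J, ?_, ?_, ?_⟩
  · rintro (v | p) hv
    · rw [hinl, hmemW] at hv
      obtain ⟨x, hxD, hxK, hxN, hvx⟩ := hv
      obtain ⟨⟨h1, h2⟩, h3⟩ := hJ1 x hxD v hvx
      refine ⟨⟨x, h1, hxK, h2⟩, ?_⟩
      intro hT
      exact h3 (by simpa using hT)
    · rw [hinr] at hv
      obtain ⟨h1, h2⟩ := hv
      obtain ⟨h3, h4⟩ := hB1 p.2 h2
      refine ⟨⟨h1, h3⟩, ?_⟩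
      intro hT
      apply h4
      rw [mem_filter]
      refine ⟨mem_univ _, ?_⟩
      rw [← h1]
      exact hT
  · rintro (v | p) hv (v' | p') hv' hadj
    · rw [hinl, hmemW] at hv hv'
      obtain ⟨x, hxD, hxK, hxN, hvx⟩ := hv
      obtain ⟨x', hxD', hxK', hxN', hvx'⟩ := hv'
      have h1 := (hJ1 x hxD v hvx).1.1
      have h1' := (hJ1 x' hxD' v' hvx').1.1
      have hadj' : HW.Adj v v' := hadj
      have hxx : x = x' := huniq v v' x x' h1 h1' hadj'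
      subst hxx
      exact hJ2 x hxD v hvx v' hvx' hadj'
    · exact hmix v p' hv hv' hadj
    · exact hmix v' p hv' hv hadj
    · rw [hinr] at hv hv'
      exact hB2 p.2 hv.2 p'.2 hv'.2 hadj.2
  · rintro (v | p) hT hal
    · obtain ⟨x, hpx, hxK, hal'⟩ := hal
      by_cases hN : ∃ g ∈ JB, x ∈ Nb g
      · obtain ⟨g, hg, hxg⟩ := hN
        refine ⟨Sum.inr (c, g), (hinr (c, g)).2 ⟨rfl, hg⟩, ?_⟩
        exact ⟨x, hxg, hpx⟩
      · have hxD : x ∉ D := fun hx => hN (hB3 x hx hxK)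
        obtain ⟨u, hu, hadj⟩ := hJ3 x hxD v (by simpa using hT) ⟨hpx, hal'⟩
        refine ⟨Sum.inl u, ?_, hadj⟩
        rw [hinl, hmemW]
        refine ⟨x, hxD, hxK, ?_, hu⟩
        intro g hg hxg
        exact hN ⟨g, hg, hxg⟩
    · obtain ⟨h1, h2⟩ := hal
      have hmem : p.2 ∈ univ.filter (fun g : G => Sum.inr (c, g) ∈ T) := by
        rw [mem_filter]
        refine ⟨mem_univ _, ?_⟩
        rw [← h1]
        exact hT
      obtain ⟨g', hg', hadj⟩ := hB4 p.2 hmem h2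
      refine ⟨Sum.inr (c, g'), (hinr (c, g')).2 ⟨rfl, hg'⟩, ?_⟩
      exact ⟨h1, hadj⟩

end Pool.Agent.EGT
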