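import Mathlib
import Pool.Agent.EGT.IDefs

/-!
Project EGT (MP_0b8466_co), module COC: combination of the blocks W and B.
-/

open Finset

namespace Pool.Agent.EGT

theorem coc_pr_zero {Ω : Type*} [Fintype Ω] {P : Ω → Prop} (h : ∀ ω, ¬ P ω) : pr P = 0 := by
  unfold pr
  have h1 : (fun ω => ind (P ω)) = fun _ : Ω => (0 : ℝ) := by
    funext ω
    exact ind_neg (h ω)
  rw [h1]
  unfold ex
  simp

theorem coc_pr_fst {α β : Type*} [Fintype α] [Fintype β] [Nonempty β] (P : α → Prop) :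
    pr (fun p : α × β => P p.1) = pr P := by
  rw [pr_prod]
  unfold pr
  simp only [ex_const]

/-- arithmetic of the number of copies -/
theorem coc_div {A b : ℕ} (hb : 0 < b) (hbA : b ≤ A) :
    1 ≤ A / b ∧ b * (A / b) ≤ A ∧ A ≤ 2 * (b * (A / b)) := by
  have h1 : 1 ≤ A / b := Nat.div_pos hbA hb
  refine ⟨h1, Nat.mul_div_le A b, ?_⟩
  have h2 : A < b * (A / b) + b := by
    have := Nat.lt_mul_div_succ A hb
    rw [Nat.mul_succ] at this
    exact this
  have h3 : b ≤ b * (A / b) := Nat.le_mul_of_pos_right b h1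
  omega

theorem coc_gB (r : ℕ) : gB r ≤ 2 ^ (2 * r ^ 2) := by
  unfold gB
  have h1 : 2 ^ r * (2 ^ r - 1) ≤ 2 ^ (2 * r) := by
    calc 2 ^ r * (2 ^ r - 1) ≤ 2 ^ r * 2 ^ r := Nat.mul_le_mul_left _ (Nat.sub_le _ _)
      _ = 2 ^ (2 * r) := by rw [← pow_add, two_mul]
  rcases Nat.lt_or_ge r 4 with h | h
  · have : r - 4 = 0 := by omega
    rw [this]
    simpa using Nat.one_le_two_pow
  · calc (2 ^ r * (2 ^ r - 1)) ^ (r - 4) * 2 ^ (r - 4)
        ≤ (2 ^ (2 * r)) ^ (r - 4) * 2 ^ (r - 4) :=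
          Nat.mul_le_mul_right _ (Nat.pow_le_pow_left h1 _)
      _ = 2 ^ (2 * r * (r - 4) + (r - 4)) := by rw [← pow_mul, ← pow_add]
      _ ≤ 2 ^ (2 * r ^ 2) := by
          apply Nat.pow_le_pow_right (by norm_num)
          obtain ⟨s, rfl⟩ : ∃ s, r = s + 4 := ⟨r - 4, by omega⟩
          simp only [Nat.add_sub_cancel]
          nlinarith

theorem coc_gB_pos {r : ℕ} (hr : 1 ≤ r) : 0 < gB r := by
  unfold gB
  have h1 : 2 ≤ 2 ^ r := by
    calc 2 = 2 ^ 1 := rfl
      _ ≤ 2 ^ r := Nat.pow_le_pow_right (by norm_num) hr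
  have h2 : 0 < 2 ^ r * (2 ^ r - 1) := Nat.mul_pos (by positivity) (by omega)
  positivity

/-- the number of killers of one coarse context, one copy, times the number of coarse contexts is
at most the number of vertices of `W` -/
theorem coc_fit {M N : ℕ} (hM : 4 ≤ M) (hN : 2 ^ (2 * (28 * M) ^ 2) ≤ N) :
    M ^ 28 * gB (rr M) ≤ 2 ^ (28 * M) * N := by
  have h1 : M ^ 28 ≤ 2 ^ (28 * M) := by
    calc M ^ 28 ≤ (2 ^ M) ^ 28 := Nat.pow_le_pow_left (Nat.lt_two_pow_self).le _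
      _ = 2 ^ (28 * M) := by rw [← pow_mul, mul_comm]
  have h2 : gB (rr M) ≤ N := by
    refine (coc_gB _).trans (le_trans ?_ hN)
    apply Nat.pow_le_pow_right (by norm_num)
    have h3 : rr M ≤ 28 * M := by unfold rr; omega
    exact Nat.mul_le_mul_left _ (Nat.pow_le_pow_left h3 _)
  exact Nat.mul_le_mul h1 h2

/-- Markov bound for the number of bad pairs -/
theorem coc_E1 {C Z : Type} [Fintype C] [Fintype Z] {q : ℕ} (hq : 0 < q)
    (B : C → Z → Fin q → Prop) (D : C → Z → Finset (Fin q)) (hD : ∀ c z x, x ∈ D c z ↔ B c z x)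
    (h : pr (fun p : C × Z × Fin q => B p.1 p.2.1 p.2.2) ≤ 1 / 1024) :
    pr (fun p : C × Z => q < (D p.1 p.2).card * 2 ^ 7) ≤ 1 / 8 := by
  classical
  have h1 : pr (fun p : C × Z × Fin q => B p.1 p.2.1 p.2.2) =
      ex (fun p : C × Z => pr (fun x => B p.1 p.2 x)) := by
    rw [pr_prod, ex_prod]
    congr 1
    funext c
    rw [pr_prod]
  have h2 := pr_markov (f := fun p : C × Z => pr (fun x => B p.1 p.2 x))
    (fun p => pr_nonneg _) (a := 1 / 128) (by norm_num)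
  have h3 : pr (fun p : C × Z => q < (D p.1 p.2).card * 2 ^ 7) ≤
      pr (fun p : C × Z => (1 / 128 : ℝ) ≤ pr (fun x => B p.1 p.2 x)) := by
    apply pr_mono
    intro p hp
    have h4 : univ.filter (fun x => B p.1 p.2 x) = D p.1 p.2 := by
      ext x
      rw [hD, mem_filter]
      exact ⟨fun h => h.2, fun h => ⟨mem_univ _, h⟩⟩
    rw [pr_eq_card, h4, Fintype.card_fin, le_div_iff₀ (by exact_mod_cast hq)]
    have : (q : ℝ) < ((D p.1 p.2).card : ℝ) * 2 ^ 7 := by
      exact_mod_cast hp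
    linarith
  rw [h1] at h
  calc _ ≤ _ := h3
    _ ≤ _ := h2
    _ ≤ 1 / 1024 / (1 / 128) := by
        apply div_le_div_of_nonneg_right h (by norm_num)
    _ = 1 / 8 := by norm_num

/-- Markov bound for the parts of `T` in the killer sets -/
theorem coc_E2 {C W G : Type} [Fintype C] [Nonempty C] [Fintype W] [Fintype G]
    (T : Finset (W ⊕ (C × G)))
    (hT : (T.card : ℝ) * 2 ^ 22 ≤ (Fintype.card C : ℝ) * (Fintype.card G : ℝ))
    (hG : 0 < Fintype.card G) (Tc : C → Finset G)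
    (hTc : ∀ c g, g ∈ Tc c ↔ Sum.inr (c, g) ∈ T) :
    pr (fun c : C => Fintype.card G < (Tc c).card * 2 ^ 19) ≤ 1 / 8 := by
  classical
  have hG' : (0 : ℝ) < Fintype.card G := by exact_mod_cast hG
  have hC' : (0 : ℝ) < Fintype.card C := by exact_mod_cast Fintype.card_pos
  have h2 := pr_markov (f := fun c : C => ((Tc c).card : ℝ))
    (fun p => Nat.cast_nonneg _) (a := (Fintype.card G : ℝ) / 2 ^ 19) (by positivity)
  have h3 : pr (fun c : C => Fintype.card G < (Tc c).card * 2 ^ 19) ≤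
      pr (fun c : C => (Fintype.card G : ℝ) / 2 ^ 19 ≤ ((Tc c).card : ℝ)) := by
    apply pr_mono
    intro c hc
    rw [div_le_iff₀ (by positivity)]
    exact_mod_cast hc.le
  have h4 : (∑ c : C, ((Tc c).card : ℝ)) ≤ (T.card : ℝ) := by
    have h5 : (∑ c : C, (Tc c).card) ≤ T.card := by
      calc (∑ c : C, (Tc c).card)
          = ∑ c : C, (T.toRight.filter (fun p => p.1 = c)).card := by
            refine Finset.sum_congr rfl fun c _ => ?_
            refine Finset.card_bij (fun g _ => (c, g)) ?_ ?_ ?_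
            · intro g hg
              rw [mem_filter, mem_toRight]
              exact ⟨(hTc c g).1 hg, rfl⟩
            · intro g _ g' _ h
              exact (Prod.mk.inj h).2
            · rintro ⟨c', g⟩ hp
              rw [mem_filter, mem_toRight] at hp
              obtain ⟨hp1, hp2⟩ := hp
              dsimp only at hp2
              subst hp2
              exact ⟨g, (hTc _ g).2 hp1, rfl⟩
        _ = T.toRight.card := by
            rw [Finset.card_eq_sum_card_fiberwise (f := Prod.fst) (t := univ)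
              (fun _ _ => Finset.mem_coe.2 (mem_univ _))]
        _ ≤ T.card := card_toRight_le
    exact_mod_cast h5
  refine h3.trans (h2.trans ?_)
  unfold ex
  rw [div_div, div_le_div_iff₀ (by positivity) (by norm_num)]
  have h6 : (∑ c : C, ((Tc c).card : ℝ)) * 8 ≤ (T.card : ℝ) * 8 := by linarith
  refine h6.trans ?_
  rw [one_mul, ← mul_div_assoc, le_div_iff₀ (by positivity)]
  linarith

open Classical in
/-- the block COB without decidability instances -/
theorem coc_cob (hBb : COBMain) {W C G Z OB : Type} [iW : Fintype W] [iG : Fintype G] {q : ℕ}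
    (HW : SimpleGraph W) (pairOf : C → W → Option (Fin q)) (alive : C → Z → W → Prop)
    (HG : SimpleGraph G) (En : OB → G → Prop) (Kill : OB → Finset (Fin q))
    (Nb : G → Finset (Fin q)) (c : C) (z : Z) (o : OB)
    (hadj : ∀ (v v' : W) (x x' : Fin q), pairOf c v = some x → pairOf c v' = some x' →
      HW.Adj v v' → x = x')
    (T : Finset (W ⊕ (C × G))) (D : Finset (Fin q)) (TW : Finset W)
    (hTW : ∀ v, v ∈ TW ↔ Sum.inl v ∈ T) (Tc : Finset G) (hTc : ∀ g, g ∈ Tc ↔ Sum.inr (c, g) ∈ T)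
    (h1 : ∀ x, x ∉ D → Good HW (fun v => pairOf c v = some x ∧ alive c z v) TW)
    (h2 : ∃ J : Finset G, (∀ g ∈ J, En o g ∧ g ∉ Tc) ∧
      (∀ g ∈ J, ∀ g' ∈ J, ¬ HG.Adj g g') ∧ (∀ x ∈ D, x ∉ Kill o → ∃ g ∈ J, x ∈ Nb g) ∧
      (∀ g ∈ Tc, En o g → ∃ g' ∈ J, HG.Adj g g')) :
    Good (coGraph HW pairOf HG Nb) (coAlive pairOf alive En Kill c z o) T := by
  have e1 : TW = univ.filter (fun v : W => Sum.inl v ∈ T) := by
    ext v
    rw [hTW, mem_filter]
    exact ⟨fun h => ⟨mem_univ _, h⟩, fun h => h.2⟩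
  have e2 : Tc = univ.filter (fun g : G => Sum.inr (c, g) ∈ T) := by
    ext g
    rw [hTc, mem_filter]
    exact ⟨fun h => ⟨mem_univ _, h⟩, fun h => h.2⟩
  rw [e1] at h1
  rw [e2] at h2
  exact hBb W C G Z OB iW iG q HW pairOf alive HG En Kill Nb c z o hadj T D h1 h2

/-- `T` is dominated with probability at least `3/8` -/
theorem coc_resist (hBb : COBMain) {W C G Z OB : Type} [Fintype W] [Fintype C] [Nonempty C]
    [Fintype G] [Fintype Z] [Nonempty Z] [Fintype OB] [Nonempty OB] {q : ℕ} (hq : 0 < q)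
    (HW : SimpleGraph W) (pairOf : C → W → Option (Fin q)) (alive : C → Z → W → Prop)
    (HG : SimpleGraph G) (En : OB → G → Prop) (Kill : OB → Finset (Fin q))
    (Nb : G → Finset (Fin q))
    (hadj : ∀ (c : C) (v v' : W) (x x' : Fin q), pairOf c v = some x → pairOf c v' = some x' →
      HW.Adj v v' → x = x')
    (T : Finset (W ⊕ (C × G))) (hGpos : 0 < Fintype.card G)
    (hT : (T.card : ℝ) * 2 ^ 22 ≤ (Fintype.card C : ℝ) * (Fintype.card G : ℝ))
    (hW : ∀ TW : Finset W, TW.card ≤ T.card →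
      pr (fun p : C × Z × Fin q =>
        ¬ Good HW (fun v => pairOf p.1 v = some p.2.2 ∧ alive p.1 p.2.1 v) TW) ≤ 1 / 1024)
    (hB : ∀ Tc : Finset G, Tc.card * 2 ^ 19 ≤ Fintype.card G →
      5 / 8 ≤ pr (fun o : OB => ∀ D : Finset (Fin q), D.card * 2 ^ 7 ≤ q →
        ∃ J : Finset G, (∀ g ∈ J, En o g ∧ g ∉ Tc) ∧ (∀ g ∈ J, ∀ g' ∈ J, ¬ HG.Adj g g') ∧
          (∀ x ∈ D, x ∉ Kill o → ∃ g ∈ J, x ∈ Nb g) ∧
          (∀ g ∈ Tc, En o g → ∃ g' ∈ J, HG.Adj g g'))) :
    3 / 8 ≤ pr (fun o : C × Z × OB => Good (coGraph HW pairOf HG Nb)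
      (coAlive pairOf alive En Kill o.1 o.2.1 o.2.2) T) := by
  classical
  obtain ⟨TW, hTW⟩ : ∃ TW : Finset W, ∀ v, v ∈ TW ↔ Sum.inl v ∈ T :=
    ⟨T.toLeft, fun v => mem_toLeft⟩
  have hTWT : TW.card ≤ T.card := by
    have h1 : TW = T.toLeft := by
      ext v
      rw [hTW, mem_toLeft]
    rw [h1]
    exact card_toLeft_le
  have hTc : ∀ c : C, ∃ Tc : Finset G, (∀ g, g ∈ Tc ↔ Sum.inr (c, g) ∈ T) := fun c =>
    ⟨univ.filter (fun g : G => Sum.inr (c, g) ∈ T), fun g => by simp⟩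
  choose Tc hTc using hTc
  have hBd : ∀ (c : C) (z : Z), ∃ D : Finset (Fin q), ∀ x, x ∈ D ↔
      ¬ Good HW (fun v => pairOf c v = some x ∧ alive c z v) TW := fun c z =>
    ⟨univ.filter (fun x => ¬ Good HW (fun v => pairOf c v = some x ∧ alive c z v) TW),
      fun x => by simp⟩
  choose D hD using hBd
  -- bad events
  obtain ⟨Q, hQ⟩ : ∃ Q : C → OB → Prop, ∀ c o, Q c o ↔ ∀ D : Finset (Fin q),
      D.card * 2 ^ 7 ≤ q →
        ∃ J : Finset G, (∀ g ∈ J, En o g ∧ g ∉ Tc c) ∧ (∀ g ∈ J, ∀ g' ∈ J, ¬ HG.Adj g g') ∧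
          (∀ x ∈ D, x ∉ Kill o → ∃ g ∈ J, x ∈ Nb g) ∧
          (∀ g ∈ Tc c, En o g → ∃ g' ∈ J, HG.Adj g g') := ⟨_, fun c o => Iff.rfl⟩
  have hE1 : pr (fun p : C × Z => q < (D p.1 p.2).card * 2 ^ 7) ≤ 1 / 8 := by
    exact coc_E1 hq (fun c z x => ¬ Good HW (fun v => pairOf c v = some x ∧ alive c z v) TW)
      D hD (hW TW hTWT)
  have hE2 : pr (fun c : C => Fintype.card G < (Tc c).card * 2 ^ 19) ≤ 1 / 8 := by
    exact coc_E2 T hT hGpos Tc hTc
  have hE3 : pr (fun p : C × Z × OB =>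
      ¬ (Fintype.card G < (Tc p.1).card * 2 ^ 19) ∧ ¬ Q p.1 p.2.2) ≤ 3 / 8 := by
    apply pr_prod_le _ (by norm_num)
    intro c
    apply pr_prod_le _ (by norm_num)
    intro z
    by_cases hc : Fintype.card G < (Tc c).card * 2 ^ 19
    · rw [coc_pr_zero]
      · norm_num
      · rintro o ⟨h, _⟩
        exact h hc
    · have h1 := hB (Tc c) (not_lt.1 hc)
      have h2 : pr (fun o : OB => ¬ Q c o) = 1 - pr (fun o : OB => Q c o) := pr_not _
      have h3 : pr (fun o : OB => ¬ (Fintype.card G < (Tc c).card * 2 ^ 19) ∧ ¬ Q c o) ≤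
          pr (fun o : OB => ¬ Q c o) := pr_mono fun o h => h.2
      have h4 : 5 / 8 ≤ pr (fun o : OB => Q c o) :=
        le_trans h1 (pr_mono fun o h => (hQ c o).2 h)
      exact le_trans h3 (by rw [h2]; linarith)
  have hE1' : pr (fun p : C × Z × OB => q < (D p.1 p.2.1).card * 2 ^ 7) ≤ 1 / 8 := by
    have h1 : pr (fun p : C × Z × OB => q < (D p.1 p.2.1).card * 2 ^ 7) =
        pr (fun p : C × Z => q < (D p.1 p.2).card * 2 ^ 7) := by
      rw [pr_prod, pr_prod]
      congr 1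
      funext c
      exact coc_pr_fst (fun z => q < (D c z).card * 2 ^ 7)
    rw [h1]
    exact hE1
  have hE2' : pr (fun p : C × Z × OB => Fintype.card G < (Tc p.1).card * 2 ^ 19) ≤ 1 / 8 := by
    rw [coc_pr_fst (fun c => Fintype.card G < (Tc c).card * 2 ^ 19)]
    exact hE2
  -- outside the bad events `T` is dominated
  have hgood : ∀ p : C × Z × OB,
      ¬ Good (coGraph HW pairOf HG Nb) (coAlive pairOf alive En Kill p.1 p.2.1 p.2.2) T →
      (q < (D p.1 p.2.1).card * 2 ^ 7) ∨ ((Fintype.card G < (Tc p.1).card * 2 ^ 19) ∨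
        (¬ (Fintype.card G < (Tc p.1).card * 2 ^ 19) ∧ ¬ Q p.1 p.2.2)) := by
    rintro ⟨c, z, o⟩ hng
    by_contra hcon
    rw [not_or, not_or, not_and, not_not] at hcon
    obtain ⟨h1, h2, h3⟩ := hcon
    apply hng
    refine coc_cob hBb HW pairOf alive HG En Kill Nb c z o (hadj c) T (D c z) TW hTW (Tc c)
      (hTc c) ?_ ((hQ c o).1 (h3 h2) (D c z) (not_lt.1 h1))
    intro x hx
    by_contra hcon
    exact hx ((hD c z x).2 hcon)
  have htot : pr (fun p : C × Z × OB =>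
      ¬ Good (coGraph HW pairOf HG Nb) (coAlive pairOf alive En Kill p.1 p.2.1 p.2.2) T)
        ≤ 5 / 8 := by
    refine (pr_mono hgood).trans ((pr_or _ _).trans ((add_le_add hE1'
      ((pr_or _ _).trans (add_le_add hE2' hE3))).trans ?_))
    norm_num
  rw [pr_not] at htot
  linarith

theorem coc_main : COAMain → COBMain → WMain → BMain → UMain := by
  intro hA hBb hW hB
  classical
  obtain ⟨M0, hW⟩ := hW
  obtain ⟨r0, hB⟩ := hB
  refine ⟨3 / 80 / 2 ^ 29, by positivity, 1 / 2 ^ 120, by positivity, fun m0 => ?_⟩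
  obtain ⟨M, hM⟩ : ∃ M : ℕ, M = M0 + r0 + m0 + 4 := ⟨_, rfl⟩
  obtain ⟨N, Z, iZ, nZ, H, pairOf, alive, hN, hadj, hcap, hT⟩ := hW M (by omega)
  have hr : rr M + 29 = 28 * M := by unfold rr; omega
  have hrpos : 1 ≤ rr M := by unfold rr; omega
  have hNpos : 0 < N := lt_of_lt_of_le (by positivity) hN
  have hbpos : 0 < M ^ 28 * gB (rr M) :=
    Nat.mul_pos (pow_pos (by omega) _) (coc_gB_pos hrpos)
  obtain ⟨hI1, hI2, hI3⟩ := coc_div hbpos (coc_fit (by omega) hN)
  obtain ⟨I, hI⟩ : ∃ I : ℕ, I = 2 ^ (28 * M) * N / (M ^ 28 * gB (rr M)) := ⟨_, rfl⟩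
  rw [← hI] at hI1 hI2 hI3
  obtain ⟨G, OB, iG, iOB, nOB, HG, En, Kill, Nb, hG, hcapB, hTB⟩ :=
    hB (rr M) (by unfold rr; omega) I hI1
  have hCne : Nonempty (Ctx M) := ⟨fun _ => ⟨0, by omega⟩⟩
  have hcardC : Fintype.card (Ctx M) = M ^ 28 := by
    simp [Ctx]
  have hcardW : Fintype.card (Ty M × Fin N) = 2 ^ (28 * M) * N := by
    simp only [Ty, Fintype.card_prod, Fintype.card_fun, Fintype.card_bool, Fintype.card_fin]
    rw [← pow_mul, mul_comm M 28]
  have hCG : Fintype.card (Ctx M) * Fintype.card G = M ^ 28 * gB (rr M) * I := by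
    rw [hcardC, hG, mul_assoc]
  have hGpos : 0 < Fintype.card G := by
    rw [hG]
    exact Nat.mul_pos (coc_gB_pos hrpos) hI1
  refine ⟨2 ^ (28 * M) * N, (Ty M × Fin N) ⊕ (Ctx M × G), Ctx M × Z × OB, inferInstance,
    inferInstance, inferInstance, coGraph H (fun c v => pairOf c v.1) HG Nb,
    fun o => coAlive (fun c v => pairOf c v.1) alive En Kill o.1 o.2.1 o.2.2, ?_, ?_, ?_, ?_⟩
  · -- `m0 ≤ m`
    have h1 : M < 2 ^ M := Nat.lt_two_pow_self
    have h2 : 2 ^ M ≤ 2 ^ (28 * M) := Nat.pow_le_pow_right (by norm_num) (by omega)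
    have h3 : 2 ^ (28 * M) * 1 ≤ 2 ^ (28 * M) * N := Nat.mul_le_mul_left _ hNpos
    omega
  · rw [Fintype.card_sum, hcardW, Fintype.card_prod, hCG]
    omega
  · -- lower bound for the maximal independent sets
    rintro ⟨c, z, o⟩ K hK
    have h1 := hA (Ty M × Fin N) (Ctx M) G Z OB (2 ^ rr M) N H (fun c v => pairOf c v.1) alive HG
      En Kill Nb c z o (fun v v' x x' h1 h2 h3 => hadj c v v' x x' h1 h2 h3)
      (fun x K hK => hcap c x z K hK) (fun K h1 h2 => hcapB o K h1 h2) K hK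
    have h2 : (3 * 2 ^ rr M * N : ℝ) ≤ 80 * (K.card : ℝ) := by exact_mod_cast h1
    have h3 : (2 : ℝ) ^ (28 * M) = 2 ^ rr M * 2 ^ 29 := by rw [← pow_add, hr]
    push_cast
    rw [h3]
    have h4 : (3 / 80 / 2 ^ 29 : ℝ) * (2 ^ rr M * 2 ^ 29 * (N : ℝ)) =
        3 * 2 ^ rr M * N / 80 := by
      field_simp
    rw [h4, div_le_iff₀ (by norm_num)]
    linarith
  · -- resistance
    intro T hTc
    have hTR : (T.card : ℝ) * 2 ^ 120 ≤ 2 ^ (28 * M) * (N : ℝ) := by
      push_cast at hTc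
      rw [one_div, inv_mul_eq_div, le_div_iff₀ (by positivity)] at hTc
      exact hTc
    have h3 : (0 : ℝ) ≤ (T.card : ℝ) := Nat.cast_nonneg _
    have hT22 : (T.card : ℝ) * 2 ^ 22 ≤
        (Fintype.card (Ctx M) : ℝ) * (Fintype.card G : ℝ) := by
      have h1 : (2 : ℝ) ^ (28 * M) * (N : ℝ) ≤
          2 * ((Fintype.card (Ctx M) : ℝ) * (Fintype.card G : ℝ)) := by
        have h2 := hI3
        rw [← hCG] at h2
        exact_mod_cast h2
      have h4 : (T.card : ℝ) * 2 ^ 23 ≤ (T.card : ℝ) * 2 ^ 120 :=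
        mul_le_mul_of_nonneg_left (by norm_num) h3
      have h5 : (T.card : ℝ) * 2 ^ 23 = 2 * ((T.card : ℝ) * 2 ^ 22) := by ring
      linarith
    refine coc_resist hBb (pow_pos (by norm_num) _) H (fun c v => pairOf c v.1) alive HG En Kill Nb
      (fun c v v' x x' h1 h2 h3 => hadj c v v' x x' h1 h2 h3) T hGpos hT22 ?_ hTB
    intro TW hTW
    apply hT TW
    have : (TW.card : ℝ) ≤ (T.card : ℝ) := by exact_mod_cast hTW
    refine le_trans ?_ hTR
    exact mul_le_mul_of_nonneg_right this (by positivity)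

end Pool.Agent.EGT
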