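import Pool.Agent.EGT.Prob

/-!
Project EGT (MP_0b8466_co): abstract tools for section 4 (resampling, row lemma, colour union
bound, averaging).
-/

open Finset

namespace Pool.Agent.EGT

/-- resampling all coordinates outside `T` -/
theorem ex_merge {ι : Type*} [Fintype ι] [DecidableEq ι] {Ω : ι → Type*} [∀ i, Fintype (Ω i)]
    (T : Finset ι) (f : (∀ i, Ω i) → ℝ) :
    ex f = ex (fun ω : ∀ i, Ω i => ex (fun ω' : ∀ i, Ω i =>
      f (fun i => if i ∈ T then ω i else ω' i))) := by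
  unfold ex
  rw [← Finset.sum_div, div_div]
  rcases isEmpty_or_nonempty (∀ i, Ω i) with hi | hi
  · simp
  · have hc : (Fintype.card (∀ i, Ω i) : ℝ) ≠ 0 := Nat.cast_ne_zero.mpr Fintype.card_ne_zero
    have key : ∑ ω : (∀ i, Ω i), ∑ ω' : (∀ i, Ω i), f (fun i => if i ∈ T then ω i else ω' i)
        = (Fintype.card (∀ i, Ω i) : ℝ) * ∑ ω, f ω := by
      rw [← Fintype.sum_prod_type'
        (fun (ω ω' : ∀ i, Ω i) => f (fun i => if i ∈ T then ω i else ω' i))]
      have h3 : ∑ p : (∀ i, Ω i) × (∀ i, Ω i), f (fun i => if i ∈ T then p.1 i else p.2 i)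
          = ∑ p : (∀ i, Ω i) × (∀ i, Ω i), f p.1 := by
        refine Finset.sum_bij'
          (fun p _ => ((fun i => if i ∈ T then p.1 i else p.2 i),
            (fun i => if i ∈ T then p.2 i else p.1 i)))
          (fun p _ => ((fun i => if i ∈ T then p.1 i else p.2 i),
            (fun i => if i ∈ T then p.2 i else p.1 i))) ?_ ?_ ?_ ?_ ?_
        · intro p _; exact Finset.mem_univ _
        · intro p _; exact Finset.mem_univ _
        · intro p _
          ext i <;> by_cases h : i ∈ T <;> simp [h]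
        · intro p _
          ext i <;> by_cases h : i ∈ T <;> simp [h]
        · intro p _; rfl
      rw [h3, Fintype.sum_prod_type]
      simp [Finset.mul_sum, mul_comm]
    rw [key, mul_comm ((Fintype.card (∀ i, Ω i) : ℝ)) (∑ ω, f ω), mul_div_mul_right _ _ hc]

theorem pr_merge {ι : Type*} [Fintype ι] [DecidableEq ι] {Ω : ι → Type*} [∀ i, Fintype (Ω i)]
    (T : Finset ι) (P : (∀ i, Ω i) → Prop) :
    pr P = ex (fun ω : ∀ i, Ω i => pr (fun ω' : ∀ i, Ω i =>
      P (fun i => if i ∈ T then ω i else ω' i))) :=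
  ex_merge T (fun ω => ind (P ω))

/-- `∏ (1 - x_i) ≥ 1 - ∑ x_i` -/
theorem one_sub_sum_le_prod {ι : Type*} (s : Finset ι) (x : ι → ℝ)
    (h0 : ∀ i ∈ s, 0 ≤ x i) (h1 : ∀ i ∈ s, x i ≤ 1) :
    1 - ∑ i ∈ s, x i ≤ ∏ i ∈ s, (1 - x i) := by
  classical
  induction s using Finset.induction_on with
  | empty => simp
  | insert a s ha ih =>
    rw [Finset.sum_insert ha, Finset.prod_insert ha]
    have h2 := ih (fun i hi => h0 i (Finset.mem_insert_of_mem hi))
      (fun i hi => h1 i (Finset.mem_insert_of_mem hi))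
    have ha0 := h0 a (Finset.mem_insert_self a s)
    have ha1 := h1 a (Finset.mem_insert_self a s)
    have h3 : 0 ≤ ∑ i ∈ s, x i := Finset.sum_nonneg fun i hi => h0 i (Finset.mem_insert_of_mem hi)
    nlinarith

/-- `(1 - x)^n ≤ 1 - n x + (n x)^2 / 2` for `0 ≤ x ≤ 1` -/
theorem one_sub_pow_le (n : ℕ) {x : ℝ} (h0 : 0 ≤ x) (h1 : x ≤ 1) :
    (1 - x) ^ n ≤ 1 - n * x + (n * x) ^ 2 / 2 := by
  induction n with
  | zero => simp
  | succ n ih =>
    rw [pow_succ]
    have h2 : (1 - x) ^ n * (1 - x) ≤ (1 - n * x + (n * x) ^ 2 / 2) * (1 - x) :=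
      mul_le_mul_of_nonneg_right ih (by linarith)
    refine h2.trans ?_
    push_cast
    nlinarith [mul_nonneg h0 h0, mul_nonneg (mul_nonneg h0 h0) h0, sq_nonneg ((n : ℝ) * x),
      mul_nonneg (mul_nonneg (Nat.cast_nonneg (α := ℝ) n) (Nat.cast_nonneg (α := ℝ) n))
        (mul_nonneg (mul_nonneg h0 h0) h0)]

/-- independence of two disjoint blocks of coordinates, in product form -/
theorem pr_row {V U : Type*} [Fintype V] [DecidableEq V] [Fintype U] [Nonempty U]
    (F S : Finset V) (hFS : Disjoint F S) (srv : U → Prop) (adj : V → U → Prop) :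
    pr (fun u : V → U => (∃ v ∈ F, srv (u v)) ∧ ∀ y ∈ S, ¬ adj y (u y))
      = (1 - (1 - pr srv) ^ F.card) * ∏ y ∈ S, (1 - pr (adj y)) := by
  have h1 : (fun u : V → U => ind ((∃ v ∈ F, srv (u v)) ∧ ∀ y ∈ S, ¬ adj y (u y)))
      = fun u : V → U => ind (∀ y ∈ S, ¬ adj y (u y))
        - ind (∀ y ∈ F ∪ S, (fun (y : V) (a : U) => if y ∈ F then ¬ srv a else ¬ adj y a) y (u y)) := by
    funext u
    by_cases hS : ∀ y ∈ S, ¬ adj y (u y)
    · by_cases hF : ∃ v ∈ F, srv (u v)
      · rw [ind_pos ⟨hF, hS⟩, ind_pos hS, ind_neg, sub_zero]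
        intro h
        obtain ⟨v, hv, hs⟩ := hF
        have := h v (Finset.mem_union_left _ hv)
        simp only [hv, if_true] at this
        exact this hs
      · rw [ind_neg (fun h => hF h.1), ind_pos hS, ind_pos, sub_self]
        intro y hy
        by_cases hyF : y ∈ F
        · simp only [hyF, if_true]
          exact fun h => hF ⟨y, hyF, h⟩
        · simp only [hyF, if_false]
          exact hS y ((Finset.mem_union.mp hy).resolve_left hyF)
    · rw [ind_neg (fun h => hS h.2), ind_neg hS, ind_neg, sub_self]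
      intro h
      apply hS
      intro y hy
      have h2 := h y (Finset.mem_union_right _ hy)
      have hyF : y ∉ F := fun hyF => (Finset.disjoint_left.mp hFS) hyF hy
      simp only [hyF, if_false] at h2
      exact h2
  have h2 : pr (fun u : V → U => (∃ v ∈ F, srv (u v)) ∧ ∀ y ∈ S, ¬ adj y (u y))
      = pr (fun u : V → U => ∀ y ∈ S, (fun (y : V) (a : U) => ¬ adj y a) y (u y))
        - pr (fun u : V → U => ∀ y ∈ F ∪ S,
          (fun (y : V) (a : U) => if y ∈ F then ¬ srv a else ¬ adj y a) y (u y)) := by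
    unfold pr
    rw [h1, ex_sub]
  rw [h2, pr_pi_all_mem S (fun (y : V) (a : U) => ¬ adj y a),
    pr_pi_all_mem (F ∪ S) (fun (y : V) (a : U) => if y ∈ F then ¬ srv a else ¬ adj y a),
    Finset.prod_union hFS]
  have h3 : ∏ y ∈ F, pr (fun a : U => if y ∈ F then ¬ srv a else ¬ adj y a)
      = (1 - pr srv) ^ F.card := by
    rw [← Finset.prod_const]
    refine Finset.prod_congr rfl fun y hy => ?_
    simp only [hy, if_true]
    exact pr_not _
  have h4 : ∏ y ∈ S, pr (fun a : U => if y ∈ F then ¬ srv a else ¬ adj y a)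
      = ∏ y ∈ S, (1 - pr (adj y)) := by
    refine Finset.prod_congr rfl fun y hy => ?_
    have hyF : y ∉ F := fun hyF => (Finset.disjoint_left.mp hFS) hyF hy
    simp only [hyF, if_false]
    exact pr_not _
  have h5 : ∏ y ∈ S, pr (fun a : U => ¬ adj y a) = ∏ y ∈ S, (1 - pr (adj y)) :=
    Finset.prod_congr rfl fun y _ => pr_not _
  rw [h3, h4, h5]
  ring

/-- row lemma: lower bound -/
theorem pr_row_ge {V U : Type*} [Fintype V] [DecidableEq V] [Fintype U] [Nonempty U]
    (F S : Finset V) (hFS : Disjoint F S) (srv : U → Prop) (adj : V → U → Prop) {p a : ℝ}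
    (hp : p ≤ pr srv) (hp0 : 0 ≤ p) (hFp : (F.card : ℝ) * p ≤ 1 / 5)
    (ha : ∑ y ∈ S, pr (adj y) ≤ a) (ha1 : a ≤ 1) :
    (9 / 10) * (F.card * p) * (1 - a)
      ≤ pr (fun u : V → U => (∃ v ∈ F, srv (u v)) ∧ ∀ y ∈ S, ¬ adj y (u y)) := by
  rw [pr_row F S hFS]
  have h1 : 1 - a ≤ ∏ y ∈ S, (1 - pr (adj y)) := by
    refine le_trans ?_ (one_sub_sum_le_prod S (fun y => pr (adj y)) (fun i _ => pr_nonneg _)
      (fun i _ => pr_le_one _))
    linarith
  have h2 : (9 / 10) * (F.card * p) ≤ 1 - (1 - pr srv) ^ F.card := by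
    have h3 : (1 - pr srv) ^ F.card ≤ (1 - p) ^ F.card :=
      pow_le_pow_left₀ (by linarith [pr_le_one srv]) (by linarith) _
    have h4 := one_sub_pow_le F.card hp0 (hp.trans (pr_le_one _))
    have h5 : 0 ≤ (F.card : ℝ) * p := by positivity
    nlinarith
  have h6 : 0 ≤ (F.card : ℝ) * p := by positivity
  calc (9 / 10) * (F.card * p) * (1 - a)
      ≤ (1 - (1 - pr srv) ^ F.card) * (1 - a) :=
        mul_le_mul_of_nonneg_right h2 (by linarith)
    _ ≤ _ := mul_le_mul_of_nonneg_left h1 (by nlinarith)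

/-- colour union bound -/
theorem pr_colours {Ω C G : Type*} [Fintype Ω] [Fintype C] [DecidableEq C]
    (𝒢 : Finset G) (Bad : C → G → Ω → Prop) (t : ℕ) (ht : 1 ≤ t) {b : ℝ} (hb : 0 ≤ b)
    (h : ∀ Z : Finset C, Z.card = t → ∀ g : C → G, (∀ c ∈ Z, g c ∈ 𝒢) →
      pr (fun ω => ∀ c ∈ Z, Bad c (g c) ω) ≤ b) :
    pr (fun ω => ∃ Z : Finset C, Z.card = t ∧ ∀ c ∈ Z, ∃ g ∈ 𝒢, Bad c g ω)
      ≤ ((Fintype.card C).choose t : ℝ) * ((𝒢.card : ℝ) ^ t * b) := by
  classical
  have h1 : pr (fun ω => ∃ Z : Finset C, Z.card = t ∧ ∀ c ∈ Z, ∃ g ∈ 𝒢, Bad c g ω)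
      ≤ pr (fun ω => ∃ Z ∈ Finset.powersetCard t (Finset.univ : Finset C),
          ∀ c ∈ Z, ∃ g ∈ 𝒢, Bad c g ω) := by
    refine pr_mono fun ω h => ?_
    obtain ⟨Z, hZ, hZ2⟩ := h
    exact ⟨Z, Finset.mem_powersetCard.mpr ⟨Finset.subset_univ _, hZ⟩, hZ2⟩
  refine h1.trans ?_
  have h2 := pr_exists_le (Ω := Ω) (Finset.powersetCard t (Finset.univ : Finset C))
    (fun Z ω => ∀ c ∈ Z, ∃ g ∈ 𝒢, Bad c g ω) (b := (𝒢.card : ℝ) ^ t * b) ?_
  · rw [Finset.card_powersetCard, Finset.card_univ] at h2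
    exact h2
  · intro Z hZ
    have hZc : Z.card = t := (Finset.mem_powersetCard.mp hZ).2
    rcases 𝒢.eq_empty_or_nonempty with h𝒢 | ⟨g0, hg0⟩
    · have h6 : pr (fun ω => ∀ c ∈ Z, ∃ g ∈ 𝒢, Bad c g ω) ≤ 0 := by
        refine ex_le_of_le le_rfl fun ω => ?_
        have hZ0 : 0 < Z.card := by omega
        obtain ⟨c, hc⟩ := Finset.card_pos.mp hZ0
        rw [ind_neg]
        intro hcon
        obtain ⟨g, hg, _⟩ := hcon c hc
        rw [h𝒢] at hg
        exact absurd hg (Finset.notMem_empty g)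
      exact h6.trans (by positivity)
    · have h3 : pr (fun ω => ∀ c ∈ Z, ∃ g ∈ 𝒢, Bad c g ω)
          ≤ pr (fun ω => ∃ g ∈ Fintype.piFinset (fun _ : Z => 𝒢), ∀ c : Z, Bad c (g c) ω) := by
        refine pr_mono fun ω h => ?_
        choose g hg hB using h
        refine ⟨fun c => g c c.2, ?_, fun c => hB c c.2⟩
        rw [Fintype.mem_piFinset]
        exact fun c => hg c c.2
      refine h3.trans ?_
      have h4 := pr_exists_le (Ω := Ω) (Fintype.piFinset (fun _ : Z => 𝒢))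
        (fun g ω => ∀ c : Z, Bad c (g c) ω) (b := b) ?_
      · rw [Fintype.card_piFinset] at h4
        simp only [Finset.prod_const, Finset.card_univ, Fintype.card_coe, hZc, Nat.cast_pow] at h4
        exact h4
      · intro g hg
        have h5 := h Z hZc (fun c => if hc : c ∈ Z then g ⟨c, hc⟩ else g0) ?_
        · refine le_trans (pr_mono fun ω hω => ?_) h5
          intro c hc
          simp only [hc, dif_pos]
          exact hω ⟨c, hc⟩
        · intro c hc
          simp only [hc, dif_pos]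
          exact (Fintype.mem_piFinset.mp hg) ⟨c, hc⟩

end Pool.Agent.EGT
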