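import Mathlib

/-!
# T-resistance of one pair system, deterministic part (Lemmas 4 and 5)

Abstract form. `V` is the vertex set of one pair system (both sides), `TI j` is the part of the set
`T` on the side served by the hubs of level `j` (it depends only on the parity of `j`), `A j` is the
set of alive hubs of level `j` outside `T`.
A family `F` is indexed with a shift by `2`: `F (j + 2)` is the `F_j` of the paper, `F 0 = TI 0`,
`F 1 = TI 1`.
-/

set_option autoImplicit false

namespace Pool.Agent.EGT.Resist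

variable {V : Type*} [DecidableEq V]

omit [DecidableEq V] in
/-- `h` (of level `j`) is adjacent to some hub of a level `l > j`, `l ≤ L`, of the other parity,
which serves some member of `G l`. -/
def Hit (L : ℕ) (adj serves : V → V → Prop) (A : ℕ → Finset V) (G : ℕ → Finset V) (j : ℕ) (h : V) :
    Prop :=
  ∃ l, j < l ∧ l ≤ L ∧ (l + j) % 2 = 1 ∧ ∃ h' ∈ A l, (∃ v ∈ G l, serves h' v) ∧ adj h h'

omit [DecidableEq V] in
theorem Hit.mono {L : ℕ} {adj serves : V → V → Prop} {A : ℕ → Finset V} {G G' : ℕ → Finset V}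
    {j : ℕ} {h : V} (hG : ∀ l, j < l → l ≤ L → (l + j) % 2 = 1 → G l ⊆ G' l)
    (H : Hit L adj serves A G j h) : Hit L adj serves A G' j h := by
  obtain ⟨l, h1, h2, h3, h', h4, ⟨v, h7, h8⟩, h5⟩ := H
  exact ⟨l, h1, h2, h3, h', h4, ⟨v, hG l h1 h2 h3 h7, h8⟩, h5⟩

omit [DecidableEq V] in
/-- **Lemma 4** (abstract form). -/
theorem exists_indep_of_fixed {L : ℕ} (hL : 1 ≤ L) {adj serves : V → V → Prop}
    {A TI F : ℕ → Finset V} (hTI : ∀ j, TI (j + 2) = TI j)
    (hadj : ∀ j l h h', h ∈ A j → h' ∈ A l → adj h h' → (j + l) % 2 = 1)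
    (hsymm : ∀ h h', adj h h' → adj h' h)
    (hF0 : F 0 = TI 0) (hF1 : F 1 = TI 1)
    (hPhi : ∀ j ≤ L, ∀ v ∈ TI j, (∀ h ∈ A j, serves h v → Hit L adj serves A F j h) →
      v ∈ F (j + 2))
    (hFL : ∀ j, L < j + 2 → j ≤ L → F (j + 2) = ∅) :
    ∃ J : Finset V, (∀ h ∈ J, ∃ j ≤ L, h ∈ A j) ∧ (∀ h ∈ J, ∀ h' ∈ J, ¬ adj h h') ∧
      ∀ i, ∀ v ∈ TI i, ∃ h ∈ J, serves h v := by
  classical
  refine ⟨(Finset.range (L + 1)).biUnion fun j => (A j).filter fun h =>
    ¬ Hit L adj serves A F j h ∧ ∃ v ∈ F j, serves h v, ?_, ?_, ?_⟩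
  · intro h hh
    simp only [Finset.mem_biUnion, Finset.mem_range, Finset.mem_filter] at hh
    obtain ⟨j, hj, hA, -⟩ := hh
    exact ⟨j, by omega, hA⟩
  · intro h hh h' hh' had
    simp only [Finset.mem_biUnion, Finset.mem_range, Finset.mem_filter] at hh hh'
    obtain ⟨j, hj, hA, hn, hv⟩ := hh
    obtain ⟨l, hl, hA', hn', hv'⟩ := hh'
    have hpar := hadj j l h h' hA hA' had
    rcases lt_trichotomy j l with hjl | hjl | hjl
    · exact hn ⟨l, hjl, by omega, by omega, h', hA', hv', had⟩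
    · omega
    · exact hn' ⟨j, hjl, by omega, by omega, h, hA, hv, hsymm _ _ had⟩
  · intro i v hv
    have hTI2 : ∀ m, TI (i % 2 + 2 * m) = TI (i % 2) := fun m => by
      induction m with
      | zero => rfl
      | succ m ih => rw [← ih, ← hTI (i % 2 + 2 * m)]; rfl
    have hi : TI i = TI (i % 2) := by
      have := hTI2 (i / 2)
      rwa [Nat.mod_add_div] at this
    rw [hi] at hv
    have hF01 : F (i % 2) = TI (i % 2) := by
      rcases Nat.mod_two_eq_zero_or_one i with h | h <;> rw [h] <;> assumption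
    -- some level of the right parity with `v ∉ F`
    have hex : ∃ m, v ∉ F (i % 2 + 2 * m + 2) ∧ i % 2 + 2 * m ≤ L := by
      refine ⟨(L - i % 2) / 2, ?_, by omega⟩
      rw [hFL _ (by omega) (by omega)]
      exact Finset.notMem_empty v
    have hm := Nat.find_spec hex
    set m := Nat.find hex with hmdef
    obtain ⟨hm1, hm2⟩ := hm
    have hvF : v ∈ F (i % 2 + 2 * m) := by
      rcases Nat.eq_zero_or_pos m with h0 | h0
      · rw [h0, mul_zero, add_zero, hF01]
        exact hv
      · have := Nat.find_min hex (m := m - 1) (by omega)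
        by_contra hc
        apply this
        refine ⟨?_, by omega⟩
        have e : i % 2 + 2 * (m - 1) + 2 = i % 2 + 2 * m := by omega
        rwa [e]
    have hvT : v ∈ TI (i % 2 + 2 * m) := by rw [hTI2]; exact hv
    have h3 := mt (hPhi _ hm2 v hvT) hm1
    push Not at h3
    obtain ⟨h, hA, hs, hn⟩ := h3
    refine ⟨h, ?_, hs⟩
    simp only [Finset.mem_biUnion, Finset.mem_range, Finset.mem_filter]
    exact ⟨_, by omega, hA, hn, v, hvF, hs⟩

omit [DecidableEq V] in
/-- The bad event `V_j` of the paper (`G l` is `G_{l-2}`). -/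
def BadLevel (L : ℕ) (adj serves : V → V → Prop) (A TI : ℕ → Finset V) (k : ℕ → ℕ) (j : ℕ) :
    Prop :=
  ∃ F ⊆ TI j, F.card = k j + 1 ∧ ∃ G : ℕ → Finset V,
    (∀ l, j < l → l ≤ L → (l + j) % 2 = 1 → G l ⊆ TI l ∧ (2 ≤ l → (G l).card ≤ k (l - 2))) ∧
    ∀ h ∈ A j, (∃ v ∈ F, serves h v) → Hit L adj serves A G j h

/-- **Lemma 5** (abstract form). -/
theorem exists_family {L : ℕ} {adj serves : V → V → Prop} {A TI : ℕ → Finset V} {k : ℕ → ℕ}
    (hTI : ∀ j, TI (j + 2) = TI j)
    (hV : ∀ j ≤ L, ¬ BadLevel L adj serves A TI k j) :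
    ∃ F : ℕ → Finset V, F 0 = TI 0 ∧ F 1 = TI 1 ∧ (∀ j ≤ L, (F (j + 2)).card ≤ k j) ∧
      ∀ j ≤ L, ∀ v ∈ TI j, (∀ h ∈ A j, serves h v → Hit L adj serves A F j h) →
        v ∈ F (j + 2) := by
  classical
  -- valid families
  let P : (ℕ → Finset V) → Prop := fun F => F 0 = TI 0 ∧ F 1 = TI 1 ∧
    ∀ j ≤ L, F (j + 2) ⊆ TI j ∧ (F (j + 2)).card ≤ k j ∧
      ∀ v ∈ F (j + 2), ∀ h ∈ A j, serves h v → Hit L adj serves A F j h
  let sz : (ℕ → Finset V) → ℕ := fun F => ∑ j ∈ Finset.range (L + 1), (F (j + 2)).card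
  let B : ℕ := ∑ j ∈ Finset.range (L + 1), k j
  have hB : ∀ F, P F → sz F ≤ B := fun F hF =>
    Finset.sum_le_sum fun j hj => (hF.2.2 j (Nat.lt_succ_iff.mp (Finset.mem_range.mp hj))).2.1
  have hP0 : ∃ F, P F ∧ sz F = 0 := by
    refine ⟨fun j => if j = 0 then TI 0 else if j = 1 then TI 1 else ∅, ⟨rfl, rfl, ?_⟩, ?_⟩
    · intro j _
      simp
    · simp [sz]
  obtain ⟨F, hF, hmax⟩ : ∃ F, P F ∧ ∀ F', P F' → sz F' ≤ sz F := by
    have h1 : (fun n => ∃ F, P F ∧ sz F = n)
        (Nat.findGreatest (fun n => ∃ F, P F ∧ sz F = n) B) :=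
      Nat.findGreatest_spec (P := fun n => ∃ F, P F ∧ sz F = n) (m := 0) (Nat.zero_le _) hP0
    obtain ⟨F, hF, hs⟩ := h1
    refine ⟨F, hF, fun F' hF' => ?_⟩
    rw [hs]
    exact Nat.le_findGreatest (hB F' hF') ⟨F', hF', rfl⟩
  refine ⟨F, hF.1, hF.2.1, fun j hj => (hF.2.2 j hj).2.1, fun j hj v hv hh => ?_⟩
  by_contra hvF
  have hj' := hF.2.2 j hj
  rcases lt_or_eq_of_le hj'.2.1 with hlt | heq
  · -- add `v`
    let F' : ℕ → Finset V := Function.update F (j + 2) (insert v (F (j + 2)))
    have hsub : ∀ l, F l ⊆ F' l := fun l => by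
      rcases eq_or_ne l (j + 2) with rfl | hne
      · simp only [F', Function.update_self]
        exact Finset.subset_insert _ _
      · simp only [F', Function.update_of_ne hne]
        exact subset_rfl
    have hmono : ∀ i h, Hit L adj serves A F i h → Hit L adj serves A F' i h :=
      fun i h => Hit.mono fun l _ _ _ => hsub l
    have hP' : P F' := by
      refine ⟨?_, ?_, fun i hi => ?_⟩
      · simp only [F']
        rw [Function.update_of_ne (by omega)]
        exact hF.1
      · simp only [F']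
        rw [Function.update_of_ne (by omega)]
        exact hF.2.1
      · rcases eq_or_ne i j with rfl | hne
        · have e : F' (i + 2) = insert v (F (i + 2)) := by simp [F']
          rw [e]
          refine ⟨Finset.insert_subset hv hj'.1, ?_, ?_⟩
          · rw [Finset.card_insert_of_notMem hvF]
            omega
          · intro u hu h hA hs
            rcases Finset.mem_insert.mp hu with rfl | hu
            · exact hmono _ _ (hh h hA hs)
            · exact hmono _ _ (hj'.2.2 u hu h hA hs)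
        · have e : F' (i + 2) = F (i + 2) := by
            simp only [F']
            rw [Function.update_of_ne (by omega)]
          rw [e]
          obtain ⟨a, b, c⟩ := hF.2.2 i hi
          exact ⟨a, b, fun u hu h hA hs => hmono _ _ (c u hu h hA hs)⟩
    have hsz : sz F < sz F' := by
      refine Finset.sum_lt_sum (fun i _ => Finset.card_le_card (hsub _)) ⟨j, ?_, ?_⟩
      · exact Finset.mem_range.mpr (by omega)
      · have e : F' (j + 2) = insert v (F (j + 2)) := by simp [F']
        rw [e, Finset.card_insert_of_notMem hvF]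
        omega
    exact absurd (hmax F' hP') (by omega)
  · refine hV j hj ⟨insert v (F (j + 2)), Finset.insert_subset hv hj'.1, ?_, F, ?_, ?_⟩
    · rw [Finset.card_insert_of_notMem hvF, heq]
    · intro l hl hlL hpar
      rcases Nat.lt_or_ge l 2 with h2 | h2
      · have h1 : l = 1 := by omega
        subst h1
        exact ⟨hF.2.1.subset, by omega⟩
      · have hl2 := hF.2.2 (l - 2) (by omega)
        have e : l - 2 + 2 = l := by omega
        rw [e] at hl2
        refine ⟨?_, fun _ => hl2.2.1⟩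
        have := hTI (l - 2)
        rw [e] at this
        rw [this]
        exact hl2.1
    · rintro h hA ⟨u, hu, hs⟩
      rcases Finset.mem_insert.mp hu with rfl | hu
      · exact hh h hA hs
      · exact hj'.2.2 u hu h hA hs

/-- **Lemmas 4 and 5 together**: if no level is bad and the two top values of `k` are `0`, there is
an independent set of alive hubs outside `T` serving all of `T`. -/
theorem exists_indep {L : ℕ} (hL : 1 ≤ L) {adj serves : V → V → Prop} {A TI : ℕ → Finset V}
    {k : ℕ → ℕ} (hTI : ∀ j, TI (j + 2) = TI j)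
    (hadj : ∀ j l h h', h ∈ A j → h' ∈ A l → adj h h' → (j + l) % 2 = 1)
    (hsymm : ∀ h h', adj h h' → adj h' h)
    (hk : ∀ j, L < j + 2 → j ≤ L → k j = 0)
    (hV : ∀ j ≤ L, ¬ BadLevel L adj serves A TI k j) :
    ∃ J : Finset V, (∀ h ∈ J, ∃ j ≤ L, h ∈ A j) ∧ (∀ h ∈ J, ∀ h' ∈ J, ¬ adj h h') ∧
      ∀ i, ∀ v ∈ TI i, ∃ h ∈ J, serves h v := by
  obtain ⟨F, h0, h1, h2, h3⟩ := exists_family hTI hV
  refine exists_indep_of_fixed hL hTI hadj hsymm h0 h1 h3 fun j hj hjL => ?_
  have := h2 j hjL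
  rw [hk j hj hjL, Nat.le_zero, Finset.card_eq_zero] at this
  exact this

end Pool.Agent.EGT.Resist
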