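import Mathlib
import Pool.Agent.EGT.PDefs
import Pool.Agent.EGT.Resist

/-!
Project EGT (MP_0b8466_co): module DET (Lemmas 4 and 5 for the random pair system).
-/

open Finset

namespace Pool.Agent.EGT

theorem det_thr_comm (p q : Option (ℕ × ℕ)) : thr p q = thr q p := by
  rcases p with _ | p <;> rcases q with _ | q <;> simp [thr, min_comm, max_comm]

theorem det_DD_mono {i j : ℕ} (h : i ≤ j) : DD i ≤ DD j := by
  unfold DD
  exact Nat.mul_le_mul_left _ (Nat.pow_le_pow_right (by norm_num) h)

theorem det_DD_le_thr (p : ℕ × ℕ) (q : Option (ℕ × ℕ)) : DD p.1 ≤ thr (some p) q := by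
  rcases q with _ | q
  · exact le_rfl
  · show DD p.1 ≤ kap (min p.1 q.1) * DD (max p.1 q.1)
    have h1 : DD p.1 ≤ DD (max p.1 q.1) := det_DD_mono (le_max_left _ _)
    have h2 : 0 < kap (min p.1 q.1) := by
      unfold kap
      positivity
    calc DD p.1 ≤ DD (max p.1 q.1) := h1
      _ = 1 * DD (max p.1 q.1) := (one_mul _).symm
      _ ≤ _ := Nat.mul_le_mul_right _ h2

theorem det_uu_symm {N : ℕ} {Sd : Type} (ω : POm N Sd) (b : Bool) (h v : Fin N) :
    uu ω (!b) v h = uu ω b h v := by
  cases b <;> rfl

theorem det_adjb_symm {N : ℕ} {Sd : Type} (lab : Sd → Option (ℕ × ℕ)) (ω : POm N Sd) (b : Bool)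
    (h v : Fin N) : adjb lab ω (!b) v h ↔ adjb lab ω b h v := by
  unfold adjb
  rw [det_uu_symm, Bool.not_not, det_thr_comm]

theorem det_par_add_two (j : ℕ) : par (j + 2) = par j := by
  unfold par
  congr 1
  rw [Nat.add_mod_right]

theorem det_par_eq_not {j l : ℕ} : par l = !par j ↔ (l + j) % 2 = 1 := by
  unfold par
  rcases Nat.mod_two_eq_zero_or_one j with h | h <;>
    rcases Nat.mod_two_eq_zero_or_one l with h' | h' <;>
    simp [h, h', Nat.add_mod]

theorem det_KK_top {L j : ℕ} (h : L < j + 2) (hj : j ≤ L) : KK L (j + 2) = 0 := by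
  unfold KK
  apply Nat.div_eq_of_lt
  unfold NN DD
  have h1 : (L + 1) ^ 3 ≤ (j + 2 + 1) ^ 6 := by
    calc (L + 1) ^ 3 ≤ (j + 2 + 1) ^ 3 := Nat.pow_le_pow_left (by omega) 3
      _ ≤ (j + 2 + 1) ^ 6 := Nat.pow_le_pow_right (by omega) (by norm_num)
  have h2 : 4 ^ L ≤ 4 ^ (j + 2) := Nat.pow_le_pow_right (by norm_num) (by omega)
  calc 2 ^ 47 * (L + 1) ^ 3 * 4 ^ L ≤ 2 ^ 47 * (j + 2 + 1) ^ 6 * 4 ^ (j + 2) := by gcongr
    _ < 2 ^ 64 * (j + 2 + 1) ^ 6 * 4 ^ (j + 2) := by
      have : 0 < (j + 2 + 1) ^ 6 * 4 ^ (j + 2) := by positivity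
      nlinarith
    _ = 2 ^ 40 * (2 ^ 24 * 4 ^ (j + 2)) * (j + 2 + 1) ^ 6 := by ring

/-- module DET -/
theorem det_main : DetMain := by
  classical
  intro L Sd _ lab _ ω T z hT hV
  rcases Nat.eq_zero_or_pos L with h0 | hL
  · -- `T` is empty
    subst h0
    have hK : KK 0 1 = 0 := by
      unfold KK NN DD
      norm_num
    rw [hK] at hT
    have hT0 : ∀ b, T b = ∅ := fun b => by
      have := hT b
      rwa [Nat.le_zero, Finset.card_eq_zero] at this
    refine ⟨fun _ => ∅, ?_, ?_, ?_, ?_⟩
    · intro b i hi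
      simp at hi
    · intro i hi
      simp at hi
    · intro i hi
      rw [hT0] at hi
      simp at hi
    · intro i hi
      rw [hT0] at hi
      simp at hi
  · let V : Type := Bool × Fin (NN L)
    let adj : V → V → Prop := fun a c => c.1 = (!a.1) ∧ adjb lab ω a.1 a.2 c.2
    let serves : V → V → Prop := fun a c => c.1 = (!a.1) ∧ ∃ p : ℕ × ℕ,
      lb lab ω a.1 a.2 = some p ∧ uu ω a.1 a.2 c.2 < DD p.1
    let A : ℕ → Finset V := fun j => univ.filter fun a => a.1 = par j ∧ a.2 ∉ T (par j) ∧
      lb lab ω (par j) a.2 = some (j, zv z j)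
    let TI : ℕ → Finset V := fun j => univ.filter fun a => a.1 = (!par j) ∧ a.2 ∈ T (!par j)
    have key : ∃ J : Finset V, (∀ h ∈ J, ∃ j ≤ L, h ∈ A j) ∧ (∀ h ∈ J, ∀ h' ∈ J, ¬ adj h h') ∧
        ∀ i, ∀ v ∈ TI i, ∃ h ∈ J, serves h v := by
      refine Resist.exists_indep (L := L) hL (k := fun j => KK L (j + 2))
        (fun j => by simp only [TI, det_par_add_two]) ?_ ?_ (fun j hj hjL => det_KK_top hj hjL) ?_
      · -- adjacency changes the side
        intro j l h h' hj hl had
        simp only [A, mem_filter, mem_univ, true_and] at hj hl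
        have := had.1
        rw [hj.1, hl.1] at this
        rw [Nat.add_comm]
        exact det_par_eq_not.mp this
      · rintro ⟨b, h⟩ ⟨b', h'⟩ ⟨e, had⟩
        simp only at e had
        subst e
        exact ⟨by simp, (det_adjb_symm lab ω b h h').mpr had⟩
      · -- no bad level
        rintro j hj ⟨F, hF, hFc, G, hG, hh⟩
        refine hV j hj ⟨F.image Prod.snd, fun l => if j < l ∧ l ≤ L ∧ (l + j) % 2 = 1 then
          (G l).image Prod.snd else ∅, ?_, ?_, ?_, ?_⟩
        · intro v hv
          obtain ⟨a, ha, rfl⟩ := mem_image.mp hv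
          have := hF ha
          simp only [TI, mem_filter, mem_univ, true_and] at this
          exact this.2
        · rw [card_image_of_injOn, hFc]
          intro a ha c hc hac
          have h1 := hF ha
          have h2 := hF hc
          simp only [TI, mem_filter, mem_univ, true_and] at h1 h2
          exact Prod.ext (h1.1.trans h2.1.symm) hac
        · intro l
          dsimp only
          split_ifs with hl
          · obtain ⟨h1, h2⟩ := hG l hl.1 hl.2.1 hl.2.2
            have hsub : (G l).image Prod.snd ⊆ T (!par l) := by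
              intro v hv
              obtain ⟨a, ha, rfl⟩ := mem_image.mp hv
              have := h1 ha
              simp only [TI, mem_filter, mem_univ, true_and] at this
              exact this.2
            refine ⟨hsub, ?_⟩
            rcases Nat.lt_or_ge l 2 with h3 | h3
            · have h4 : l = 1 := by omega
              subst h4
              exact (card_le_card hsub).trans (hT _)
            · refine card_image_le.trans ((h2 h3).trans ?_)
              have : l - 2 + 2 = l := by omega
              show KK L (l - 2 + 2) ≤ KK L l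
              rw [this]
          · exact ⟨empty_subset _, Nat.zero_le _⟩
        · intro h hh'
          simp only [SG, mem_filter, mem_univ, true_and] at hh'
          obtain ⟨h1, h2, v, hv, h3⟩ := hh'
          obtain ⟨a, ha, rfl⟩ := mem_image.mp hv
          have ha' := hF ha
          simp only [TI, mem_filter, mem_univ, true_and] at ha'
          obtain ⟨l, l1, l2, l3, c, hc, ⟨w, hw, hsw⟩, had⟩ := hh (par j, h) (by
            simp only [A, mem_filter, mem_univ, true_and]
            exact ⟨h1, h2⟩) ⟨a, ha, ha'.1, (j, zv z j), h2, h3⟩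
          refine ⟨l, l1, l2, det_par_eq_not.mpr l3, c.2, ?_, had.2⟩
          simp only [A, mem_filter, mem_univ, true_and] at hc
          simp only [SG, mem_filter, mem_univ, true_and]
          refine ⟨hc.2.1, hc.2.2, w.2, ?_, ?_⟩
          · rw [if_pos ⟨l1, l2, l3⟩]
            exact mem_image_of_mem _ hw
          · obtain ⟨-, p, hp1, hp2⟩ := hsw
            rw [hc.1] at hp1 hp2
            rw [hc.2.2] at hp1
            rw [← Option.some.inj hp1] at hp2
            exact hp2
    obtain ⟨J, h1, h2, h3⟩ := key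
    refine ⟨fun b => univ.filter fun i => (b, i) ∈ J, ?_, ?_, ?_, ?_⟩
    · intro b i hi
      rw [mem_filter] at hi
      obtain ⟨j, -, hA⟩ := h1 _ hi.2
      simp only [A, mem_filter, mem_univ, true_and] at hA
      obtain ⟨rfl, hA1, hA2⟩ := hA
      refine ⟨fun p hp => ?_, hA1⟩
      rw [hA2] at hp
      rw [← Option.some.inj hp]
    · intro i hi j hj had
      rw [mem_filter] at hi hj
      exact h2 _ hi.2 _ hj.2 ⟨rfl, had⟩
    · intro i hi _
      obtain ⟨h, hJ, hs1, p, hs2, hs3⟩ := h3 1 (false, i) (by
        simp only [TI, mem_filter, mem_univ, true_and]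
        exact ⟨rfl, hi⟩)
      obtain ⟨hb, h⟩ := h
      simp only at hs1 hs2 hs3
      have hb' : hb = true := by
        cases hb
        · simp at hs1
        · rfl
      subst hb'
      refine ⟨h, mem_filter.mpr ⟨mem_univ _, hJ⟩, ?_⟩
      show adjb lab ω false i h
      rw [← det_adjb_symm]
      show uu ω true h i < thr (lb lab ω true h) _
      rw [hs2]
      exact lt_of_lt_of_le hs3 (det_DD_le_thr p _)
    · intro i hi _
      obtain ⟨h, hJ, hs1, p, hs2, hs3⟩ := h3 0 (true, i) (by
        simp only [TI, mem_filter, mem_univ, true_and]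
        exact ⟨rfl, hi⟩)
      obtain ⟨hb, h⟩ := h
      simp only at hs1 hs2 hs3
      have hb' : hb = false := by
        cases hb
        · rfl
        · simp at hs1
      subst hb'
      refine ⟨h, mem_filter.mpr ⟨mem_univ _, hJ⟩, ?_⟩
      show adjb lab ω false h i
      show uu ω false h i < thr (lb lab ω false h) _
      rw [hs2]
      exact lt_of_lt_of_le hs3 (det_DD_le_thr p _)

end Pool.Agent.EGT
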