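import Pool.Agent.EGT.Core

/-!
Project EGT (MP_0b8466_co): section (4.1), sizes of the sets of potential picks.
`H` = hub side, every hub `h` carries an independent row `(label, u_h : V → U)`.
-/

open Finset

namespace Pool.Agent.EGT

section Sizes

variable {H V Λ U C : Type*} [Fintype H] [DecidableEq H] [Fintype V] [DecidableEq V] [Fintype Λ]
  [Nonempty Λ] [Fintype U] [Nonempty U]

open Classical in
/-- the hubs of colour `c` outside `TH` which serve some member of `G` -/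
noncomputable def servers (TH : Finset H) (lab : C → Λ → Prop) (srv : U → Prop)
    (ω : H → Λ × (V → U)) (c : C) (G : Finset V) : Finset H :=
  univ.filter (fun h => h ∉ TH ∧ lab c (ω h).1 ∧ ∃ v ∈ G, srv ((ω h).2 v))

omit [Fintype V] [DecidableEq V] [Fintype Λ] [Nonempty Λ] [Fintype U] [Nonempty U] in
theorem servers_mono (TH : Finset H) (lab : C → Λ → Prop) (srv : U → Prop)
    (ω : H → Λ × (V → U)) (c : C) {G G' : Finset V} (h : G ⊆ G') :
    servers TH lab srv ω c G ⊆ servers TH lab srv ω c G' := by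
  intro x hx
  unfold servers at *
  simp only [Finset.mem_filter] at *
  obtain ⟨h1, h2, h3, v, hv, h4⟩ := hx
  exact ⟨h1, h2, h3, v, h hv, h4⟩

omit [Nonempty Λ] in
/-- probability that a row is a server for one of the colours of `Z` -/
theorem pr_row_server (lab : C → Λ → Prop) (srv : U → Prop) (Z : Finset C) (G : C → Finset V)
    {γ p : ℝ} {k : ℕ} (hγ : ∀ c ∈ Z, pr (lab c) ≤ γ) (hp : pr srv ≤ p)
    (hG : ∀ c ∈ Z, (G c).card ≤ k) :
    pr (fun x : Λ × (V → U) => ∃ c ∈ Z, lab c x.1 ∧ ∃ v ∈ G c, srv (x.2 v))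
      ≤ Z.card * (γ * (k * p)) := by
  have hp0 : 0 ≤ p := (pr_nonneg srv).trans hp
  refine pr_exists_le Z (fun c (x : Λ × (V → U)) => lab c x.1 ∧ ∃ v ∈ G c, srv (x.2 v)) ?_
  intro c hc
  have hγ0 : 0 ≤ γ := (pr_nonneg (lab c)).trans (hγ c hc)
  rw [pr_prod]
  have h1 : ∀ a : Λ, pr (fun b : V → U => lab c a ∧ ∃ v ∈ G c, srv (b v))
      ≤ (k * p) * ind (lab c a) := by
    intro a
    by_cases ha : lab c a
    · rw [ind_pos ha, mul_one]
      have h2 : pr (fun b : V → U => lab c a ∧ ∃ v ∈ G c, srv (b v))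
          ≤ pr (fun b : V → U => ∃ v ∈ G c, srv (b v)) := pr_mono fun b hb => hb.2
      refine h2.trans ((pr_exists_le (G c) (fun v (b : V → U) => srv (b v)) (b := p) ?_).trans ?_)
      · intro v _
        have h3 := pr_pi_one (Ω := fun _ : V => U) v srv
        rw [h3]
        exact hp
      · have : ((G c).card : ℝ) ≤ k := by exact_mod_cast hG c hc
        exact mul_le_mul_of_nonneg_right this hp0
    · rw [ind_neg ha, mul_zero]
      refine ex_le_of_le le_rfl fun b => ?_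
      rw [ind_neg (fun h => ha h.1)]
  calc ex (fun a : Λ => pr (fun b : V → U => lab c a ∧ ∃ v ∈ G c, srv (b v)))
      ≤ ex (fun a : Λ => (k * p) * ind (lab c a)) := ex_mono h1
    _ = (k * p) * pr (lab c) := ex_const_mul _ _
    _ ≤ (k * p) * γ := mul_le_mul_of_nonneg_left (hγ c hc) (by positivity)
    _ = γ * (k * p) := by ring

/-- (4.1) for fixed sets -/
theorem pr_sizes_fixed (TH : Finset H) (lab : C → Λ → Prop)
    (hlab : ∀ c c' : C, ∀ a : Λ, lab c a → lab c' a → c = c') (srv : U → Prop)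
    (Z : Finset C) (G : C → Finset V) {γ p m : ℝ} {k : ℕ} (hγ : ∀ c ∈ Z, pr (lab c) ≤ γ)
    (hp : pr srv ≤ p) (hG : ∀ c ∈ Z, (G c).card ≤ k) (hm : Fintype.card H * (γ * (k * p)) ≤ m)
    (hm0 : 0 ≤ m) :
    pr (fun ω : H → Λ × (V → U) => ∀ c ∈ Z, 4 * m < ((servers TH lab srv ω c (G c)).card : ℝ))
      ≤ Real.exp (-(5 / 2) * (Z.card * m)) := by
  have h1 : ∀ ω : H → Λ × (V → U), ∑ c ∈ Z, ((servers TH lab srv ω c (G c)).card : ℝ)
      ≤ ∑ h, ind (∃ c ∈ Z, lab c (ω h).1 ∧ ∃ v ∈ G c, srv ((ω h).2 v)) := by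
    intro ω
    have h2 : ∀ c ∈ Z, ((servers TH lab srv ω c (G c)).card : ℝ)
        ≤ ∑ h, ind (lab c (ω h).1 ∧ ∃ v ∈ G c, srv ((ω h).2 v)) := by
      intro c _
      unfold servers
      rw [Finset.card_filter, Nat.cast_sum]
      refine Finset.sum_le_sum fun h _ => ?_
      split_ifs with hc
      · rw [ind_pos hc.2]; norm_num
      · rw [Nat.cast_zero]; exact ind_nonneg _
    refine (Finset.sum_le_sum h2).trans ?_
    rw [Finset.sum_comm]
    refine Finset.sum_le_sum fun h _ => ?_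
    by_cases hex : ∃ c ∈ Z, lab c (ω h).1 ∧ ∃ v ∈ G c, srv ((ω h).2 v)
    · rw [ind_pos hex]
      obtain ⟨c, hc, hc2⟩ := hex
      rw [Finset.sum_eq_single c]
      · exact ind_le_one _
      · intro c' _ hcc'
        rw [ind_neg]
        exact fun h' => hcc' (hlab _ _ _ h'.1 hc2.1)
      · intro h'; exact absurd hc h'
    · rw [ind_neg hex]
      refine le_of_eq (Finset.sum_eq_zero fun c hc => ind_neg fun h' => hex ⟨c, hc, h'⟩)
  have h3 : pr (fun ω : H → Λ × (V → U) =>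
        ∀ c ∈ Z, 4 * m < ((servers TH lab srv ω c (G c)).card : ℝ))
      ≤ pr (fun ω : H → Λ × (V → U) => (Z.card : ℝ) * (4 * m)
        ≤ ∑ h, ind ((fun (_ : H) (x : Λ × (V → U)) =>
          ∃ c ∈ Z, lab c x.1 ∧ ∃ v ∈ G c, srv (x.2 v)) h (ω h))) := by
    refine pr_mono fun ω hω => ?_
    refine le_trans ?_ (h1 ω)
    rw [← nsmul_eq_mul, ← Finset.sum_const]
    exact Finset.sum_le_sum fun c hc => (hω c hc).le
  refine h3.trans ?_
  have h4 : ∑ _h : H, pr (fun x : Λ × (V → U) =>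
      ∃ c ∈ Z, lab c x.1 ∧ ∃ v ∈ G c, srv (x.2 v)) ≤ Z.card * m := by
    rw [Finset.sum_const, Finset.card_univ, nsmul_eq_mul]
    calc (Fintype.card H : ℝ) * pr (fun x : Λ × (V → U) =>
          ∃ c ∈ Z, lab c x.1 ∧ ∃ v ∈ G c, srv (x.2 v))
        ≤ (Fintype.card H : ℝ) * (Z.card * (γ * (k * p))) :=
          mul_le_mul_of_nonneg_left (pr_row_server lab srv Z G hγ hp hG) (Nat.cast_nonneg _)
      _ = Z.card * (Fintype.card H * (γ * (k * p))) := by ring
      _ ≤ Z.card * m := mul_le_mul_of_nonneg_left hm (Nat.cast_nonneg _)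
  refine (chernoff_upper (Ω := fun _ : H => Λ × (V → U))
    (fun (_ : H) (x : Λ × (V → U)) => ∃ c ∈ Z, lab c x.1 ∧ ∃ v ∈ G c, srv (x.2 v))
    (lam := Real.log 4) (a := (Z.card : ℝ) * (4 * m)) (mu := Z.card * m)
    (Real.log_nonneg (by norm_num)) h4).trans ?_
  apply Real.exp_le_exp.mpr
  rw [Real.exp_log (by norm_num)]
  have h5 : (1.386 : ℝ) ≤ Real.log 4 := by
    have : Real.log 4 = 2 * Real.log 2 := by
      rw [show (4 : ℝ) = 2 ^ 2 by norm_num, Real.log_pow]; norm_num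
    rw [this]
    have := Real.log_two_gt_d9
    linarith
  have h6 : 0 ≤ (Z.card : ℝ) * m := by positivity
  nlinarith

/-- (4.1): with a union bound over the colours and the sets -/
theorem pr_sizes [Fintype C] [DecidableEq C] (TH : Finset H) (lab : C → Λ → Prop)
    (hlab : ∀ c c' : C, ∀ a : Λ, lab c a → lab c' a → c = c') (srv : U → Prop)
    (𝒢 : Finset (Finset V)) {t : ℕ} (ht : 1 ≤ t) {γ p m : ℝ} {k : ℕ} (hγ : ∀ c, pr (lab c) ≤ γ)
    (hp : pr srv ≤ p) (hG : ∀ G ∈ 𝒢, G.card ≤ k) (hm : Fintype.card H * (γ * (k * p)) ≤ m)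
    (hm0 : 0 ≤ m) :
    pr (fun ω : H → Λ × (V → U) => ∃ Z : Finset C, Z.card = t ∧
        ∀ c ∈ Z, ∃ G ∈ 𝒢, 4 * m < ((servers TH lab srv ω c G).card : ℝ))
      ≤ ((Fintype.card C).choose t : ℝ) * ((𝒢.card : ℝ) ^ t * Real.exp (-(5 / 2) * (t * m))) := by
  refine pr_colours 𝒢 (fun c G ω => 4 * m < ((servers TH lab srv ω c G).card : ℝ)) t ht
    (Real.exp_pos _).le ?_
  intro Z hZ g hg
  have := pr_sizes_fixed TH lab hlab srv Z g (fun c _ => hγ c) hp (fun c hc => hG _ (hg c hc)) hm hm0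
  rw [hZ] at this
  exact this

end Sizes

/-- `C(n,t) ≤ (e n / t)^t` in the form `exp (t (1 + log (n/t)))` -/
theorem choose_le_exp {n t : ℕ} (ht : 1 ≤ t) (htn : t ≤ n) :
    (n.choose t : ℝ) ≤ Real.exp (t * (1 + Real.log (n / t))) := by
  have h1 := card_small_subsets' (α := Fin n) (k := t) ht (by simpa using htn)
  rw [Fintype.card_fin] at h1
  refine le_trans ?_ h1
  have h2 : n.choose t = (Finset.powersetCard t (univ : Finset (Fin n))).card := by
    rw [Finset.card_powersetCard, Finset.card_univ, Fintype.card_fin]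
  rw [h2]
  have h3 : Finset.powersetCard t (univ : Finset (Fin n))
      ⊆ univ.filter (fun S : Finset (Fin n) => S.card ≤ t) := by
    intro S hS
    rw [Finset.mem_filter]
    exact ⟨Finset.mem_univ _, (Finset.mem_powersetCard.mp hS).2.le⟩
  exact_mod_cast Finset.card_le_card h3

/-- `C(R,t) ≤ exp (t c)` when `ρ R ≤ t`, `1 + log (1/ρ) ≤ c` -/
theorem choose_le_exp_rho {R t : ℕ} (ht : 1 ≤ t) {ρ c : ℝ} (hρ : 0 < ρ) (hρ1 : ρ ≤ 1)
    (htR : ρ * R ≤ t) (hc : 1 + Real.log (1 / ρ) ≤ c) :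
    (R.choose t : ℝ) ≤ Real.exp (t * c) := by
  have hc0 : 0 ≤ c := by
    have : 0 ≤ Real.log (1 / ρ) := Real.log_nonneg (by rw [le_div_iff₀ hρ]; linarith)
    linarith
  rcases Nat.lt_or_ge R t with hRt | hRt
  · rw [Nat.choose_eq_zero_of_lt hRt, Nat.cast_zero]
    positivity
  · have ht0 : (0 : ℝ) < t := by exact_mod_cast ht
    have hR0 : (0 : ℝ) < R := lt_of_lt_of_le ht0 (by exact_mod_cast hRt)
    refine (choose_le_exp ht hRt).trans (Real.exp_le_exp.mpr ?_)
    refine mul_le_mul_of_nonneg_left (le_trans ?_ hc) ht0.le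
    have : Real.log (R / t) ≤ Real.log (1 / ρ) := by
      apply Real.log_le_log (by positivity)
      rw [div_le_div_iff₀ ht0 hρ]
      linarith
    linarith

/-- from a fraction `≥ ρ` of the colours to `⌈ρ R⌉` colours -/
theorem exists_subset_of_le_pr {C : Type*} [Fintype C] [DecidableEq C] [Nonempty C]
    (P : C → Prop) {ρ : ℝ} (h : ρ ≤ pr P) :
    ∃ Z : Finset C, Z.card = ⌈ρ * Fintype.card C⌉₊ ∧ ∀ c ∈ Z, P c := by
  classical
  rw [pr_eq_card] at h
  have hc : (0 : ℝ) < Fintype.card C := by exact_mod_cast Fintype.card_pos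
  rw [le_div_iff₀ hc] at h
  have h2 : ⌈ρ * Fintype.card C⌉₊ ≤ (univ.filter P).card := Nat.ceil_le.mpr h
  obtain ⟨Z, hZ, hZc⟩ := Finset.exists_subset_card_eq h2
  exact ⟨Z, hZc, fun c hc => (Finset.mem_filter.mp (hZ hc)).2⟩

/-- (4.1), final form: outside an event of probability `exp (-m ρ R)`, the proportion of colours
with an oversized set of potential picks is `< ρ`. -/
theorem pr_sizes_frac {H V Λ U C : Type*} [Fintype H] [DecidableEq H] [Fintype V] [DecidableEq V]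
    [Fintype Λ] [Nonempty Λ] [Fintype U] [Nonempty U] [Fintype C] [DecidableEq C] [Nonempty C]
    (TH : Finset H) (lab : C → Λ → Prop)
    (hlab : ∀ c c' : C, ∀ a : Λ, lab c a → lab c' a → c = c') (srv : U → Prop)
    (𝒢 : Finset (Finset V)) {γ p m ρ c₁ g : ℝ} {k : ℕ} (hγ : ∀ c, pr (lab c) ≤ γ)
    (hp : pr srv ≤ p) (hG : ∀ G ∈ 𝒢, G.card ≤ k) (hm : Fintype.card H * (γ * (k * p)) ≤ m)
    (hm0 : 0 ≤ m) (hρ : 0 < ρ) (hρ1 : ρ ≤ 1) (hc : 1 + Real.log (1 / ρ) ≤ c₁)
    (hg : (𝒢.card : ℝ) ≤ Real.exp g) (hcg : c₁ + g ≤ (3 / 2) * m) :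
    pr (fun ω : H → Λ × (V → U) => ρ ≤ pr (fun c : C =>
        ∃ G ∈ 𝒢, 4 * m < ((servers TH lab srv ω c G).card : ℝ)))
      ≤ Real.exp (-(m * (ρ * Fintype.card C))) := by
  have hC : (0 : ℝ) < Fintype.card C := by exact_mod_cast Fintype.card_pos
  set t : ℕ := ⌈ρ * Fintype.card C⌉₊ with ht
  have ht1 : 1 ≤ t := Nat.one_le_ceil_iff.mpr (by positivity)
  have htR : ρ * Fintype.card C ≤ t := Nat.le_ceil _
  have h1 : pr (fun ω : H → Λ × (V → U) => ρ ≤ pr (fun c : C =>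
        ∃ G ∈ 𝒢, 4 * m < ((servers TH lab srv ω c G).card : ℝ)))
      ≤ pr (fun ω : H → Λ × (V → U) => ∃ Z : Finset C, Z.card = t ∧
        ∀ c ∈ Z, ∃ G ∈ 𝒢, 4 * m < ((servers TH lab srv ω c G).card : ℝ)) := by
    refine pr_mono fun ω hω => ?_
    exact exists_subset_of_le_pr _ hω
  refine h1.trans ((pr_sizes TH lab hlab srv 𝒢 ht1 hγ hp hG hm hm0).trans ?_)
  have h2 := choose_le_exp_rho (R := Fintype.card C) ht1 hρ hρ1 htR hc
  have h3 : (𝒢.card : ℝ) ^ t ≤ Real.exp (t * g) := by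
    rw [Real.exp_nat_mul]
    exact pow_le_pow_left₀ (Nat.cast_nonneg _) hg _
  calc ((Fintype.card C).choose t : ℝ) * ((𝒢.card : ℝ) ^ t * Real.exp (-(5 / 2) * (t * m)))
      ≤ Real.exp (t * c₁) * (Real.exp (t * g) * Real.exp (-(5 / 2) * (t * m))) := by
        refine mul_le_mul h2 ?_ (by positivity) (Real.exp_pos _).le
        exact mul_le_mul_of_nonneg_right h3 (Real.exp_pos _).le
    _ = Real.exp (t * (c₁ + g) - (5 / 2) * (t * m)) := by
        rw [← Real.exp_add, ← Real.exp_add]; congr 1; ring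
    _ ≤ Real.exp (-(m * (ρ * Fintype.card C))) := by
        apply Real.exp_le_exp.mpr
        have ht0 : (0 : ℝ) ≤ t := Nat.cast_nonneg _
        nlinarith [mul_le_mul_of_nonneg_left hcg ht0, mul_le_mul_of_nonneg_left htR hm0]

end Pool.Agent.EGT
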