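import Pool.Agent.EGT.IDefs
import Pool.Agent.EGT.Num
import Pool.Agent.EGT.Sizes

/-! Project EGT: module EP2. -/

open Finset

namespace Pool.Agent.EGT

/-- an event which depends on the first factor only -/
theorem ep_pr_fst {A B : Type*} [Fintype A] [Fintype B] [Nonempty B] (P : A → Prop) :
    pr (fun r : A × B => P r.1) = pr P := by
  rw [pr_prod]
  unfold pr
  congr 1
  funext a
  exact ex_const (Ω := B) (ind (P a))

open Classical in
/-- the sum counting the potential picks in terms of the rows -/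
noncomputable def epCount {N : ℕ} {Sd : Type} (lab : Sd → Option (ℕ × ℕ)) (Tb : Finset (Fin N))
    (l χ : ℕ) (G : Finset (Fin N)) (rows : Fin N → Sd × (Fin N → Fin N)) : ℝ :=
  ∑ h, ind (h ∉ Tb ∧ lvl lab (par l) (rows h).1 = some (l, χ) ∧
      ∃ v ∈ G, ((rows h).2 v : ℕ) < DD l)

theorem ep_card_SG {N : ℕ} {Sd : Type} (lab : Sd → Option (ℕ × ℕ)) (ω : POm N Sd)
    (T : Bool → Finset (Fin N)) (l χ : ℕ) (G : Finset (Fin N)) :
    ((SG lab ω T l χ G).card : ℝ) = epCount lab (T (par l)) l χ G (rowOf (par l) ω).1 := by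
  unfold SG epCount
  rw [Finset.card_filter, Nat.cast_sum]
  refine Finset.sum_congr rfl fun h _ => ?_
  have h1 : (h ∉ T (par l) ∧ lb lab ω (par l) h = some (l, χ) ∧
      ∃ v ∈ G, uu ω (par l) h v < DD l) ↔
      (h ∉ T (par l) ∧ lvl lab (par l) ((rowOf (par l) ω).1 h).1 = some (l, χ) ∧
      ∃ v ∈ G, ((((rowOf (par l) ω).1 h).2 v : Fin N) : ℕ) < DD l) := by
    unfold lb uu rowOf
    cases par l <;> simp
  split_ifs with hc
  · rw [ind_pos (h1.mp hc), Nat.cast_one]
  · rw [ind_neg (fun h' => hc (h1.mpr h')), Nat.cast_zero]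

theorem ep_main : RowMain → EP1Main → EPMain := by
  intro hrow hep1
  refine ⟨0, ?_⟩
  intro L _ Sd _ _ lab hl T hT l hl1 hlL
  classical
  have hR0 : 0 < RR L l := RR_pos L l
  have hRr : (0 : ℝ) < RR L l := by exact_mod_cast hR0
  have hLr : (0 : ℝ) < 9216 * ((L : ℝ) + 1) := by positivity
  set ρR : ℝ := (RR L l : ℝ) / (9216 * ((L : ℝ) + 1)) with hρR
  have hρR0 : 0 < ρR := by positivity
  rcases Nat.eq_zero_or_pos (KK L l) with hk | hk
  · -- trivial case
    refine le_trans (le_of_eq ?_) (Real.exp_pos _).le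
    have h0 : ∀ ω : POm (NN L) Sd, ¬ (ρR ≤
        (((range (RR L l)).filter (fun χ => ¬ Ev L lab ω T l χ)).card : ℝ)) := by
      intro ω hω
      have h1 : (range (RR L l)).filter (fun χ => ¬ Ev L lab ω T l χ) = ∅ := by
        rw [Finset.filter_eq_empty_iff]
        intro χ _ hcon
        apply hcon
        intro G _ hGc
        rw [hk] at hGc
        have hG0 : G = ∅ := Finset.card_eq_zero.mp (Nat.le_zero.mp hGc)
        have h2 : SG lab ω T l χ G = ∅ := by
          unfold SG
          rw [Finset.filter_eq_empty_iff]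
          rintro h _ ⟨_, _, v, hv, _⟩
          rw [hG0] at hv
          exact absurd hv (Finset.notMem_empty v)
        rw [h2]
        simp
      rw [h1, Finset.card_empty, Nat.cast_zero] at hω
      linarith
    unfold pr
    have h3 : (fun ω : POm (NN L) Sd => ind (ρR ≤
        (((range (RR L l)).filter (fun χ => ¬ Ev L lab ω T l χ)).card : ℝ)))
        = fun _ => (0 : ℝ) := by
      funext ω
      exact ind_neg (h0 ω)
    rw [h3]
    unfold ex
    simp
  · -- main case
    set k := KK L l with hkdef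
    set Tb := T (par l) with hTb
    set 𝒢 : Finset (Finset (Fin (NN L))) := univ.filter (fun G => G.card ≤ k) with h𝒢
    set t : ℕ := ⌈ρR⌉₊ with ht
    have ht1 : 1 ≤ t := Nat.one_le_ceil_iff.mpr hρR0
    have htR : ρR ≤ t := Nat.le_ceil _
    -- transfer to rows
    have h1 : pr (fun ω : POm (NN L) Sd => ρR ≤
        (((range (RR L l)).filter (fun χ => ¬ Ev L lab ω T l χ)).card : ℝ))
        ≤ pr (fun ω : POm (NN L) Sd => (fun r : RowSp (NN L) Sd =>
          ∃ Z : Finset (Fin (RR L l)), Z.card = t ∧ ∀ c ∈ Z, ∃ G ∈ 𝒢,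
            (4 * ss l * k : ℝ) < epCount lab Tb l c G r.1) (rowOf (par l) ω)) := by
      refine pr_mono fun ω hω => ?_
      have h2 : t ≤ ((range (RR L l)).filter (fun χ => ¬ Ev L lab ω T l χ)).card :=
        Nat.ceil_le.mpr hω
      obtain ⟨Zs, hZs, hZc⟩ := Finset.exists_subset_card_eq h2
      have hlt : ∀ χ ∈ Zs, χ < RR L l := fun χ hχ =>
        mem_range.mp (Finset.mem_filter.mp (hZs hχ)).1
      refine ⟨Zs.attach.image (fun x => (⟨x.1, hlt x.1 x.2⟩ : Fin (RR L l))), ?_, ?_⟩
      · rw [Finset.card_image_of_injective, Finset.card_attach, hZc]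
        intro x y hxy
        simp only [Fin.mk.injEq] at hxy
        exact Subtype.ext hxy
      · intro c hc
        rw [Finset.mem_image] at hc
        obtain ⟨x, _, rfl⟩ := hc
        have h3 := (Finset.mem_filter.mp (hZs x.2)).2
        unfold Ev at h3
        push Not at h3
        obtain ⟨G, _, hGc, hG⟩ := h3
        refine ⟨G, ?_, ?_⟩
        · rw [h𝒢, Finset.mem_filter]
          exact ⟨Finset.mem_univ _, hGc⟩
        · have h4 := ep_card_SG lab ω T l x.1 G
          show (4 * ss l * k : ℝ) < epCount lab Tb l x.1 G (rowOf (par l) ω).1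
          rw [← h4]
          exact_mod_cast hG
    refine h1.trans ?_
    refine le_trans (le_of_eq (hrow (NN L) Sd _ (par l) (fun r : RowSp (NN L) Sd =>
          ∃ Z : Finset (Fin (RR L l)), Z.card = t ∧ ∀ c ∈ Z, ∃ G ∈ 𝒢,
            (4 * ss l * k : ℝ) < epCount lab Tb l c G r.1))) ?_
    rw [ep_pr_fst (A := Fin (NN L) → Sd × (Fin (NN L) → Fin (NN L))) (B := Fin (NN L) → Sd)
      (fun rows => ∃ Z : Finset (Fin (RR L l)), Z.card = t ∧ ∀ c ∈ Z, ∃ G ∈ 𝒢,
            (4 * ss l * k : ℝ) < epCount lab Tb l c G rows)]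
    have hfix : ∀ Z : Finset (Fin (RR L l)), Z.card = t →
        ∀ g : Fin (RR L l) → Finset (Fin (NN L)), (∀ c ∈ Z, g c ∈ 𝒢) →
        pr (fun rows : Fin (NN L) → Sd × (Fin (NN L) → Fin (NN L)) =>
          ∀ c ∈ Z, (4 * ss l * k : ℝ) < epCount lab Tb l c (g c) rows)
        ≤ Real.exp (-(5 / 2 * (t : ℝ) * ss l * k)) := by
      intro Z hZ g hg
      have h5 := hep1 L Sd inferInstance inferInstance lab hl l k Tb (Z.map Fin.valEmbedding)
        (fun χ => if h : χ < RR L l then g ⟨χ, h⟩ else ∅) hlL ?_ ?_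
      · rw [Finset.card_map, hZ] at h5
        refine le_trans (pr_mono fun rows hrows => ?_) h5
        intro χ hχ
        rw [Finset.mem_map] at hχ
        obtain ⟨c, hc, rfl⟩ := hχ
        have h6 := hrows c hc
        unfold epCount at h6
        simpa using h6
      · intro χ hχ
        rw [Finset.mem_map] at hχ
        obtain ⟨c, hc, rfl⟩ := hχ
        exact mem_range.mpr c.2
      · intro χ hχ
        rw [Finset.mem_map] at hχ
        obtain ⟨c, hc, rfl⟩ := hχ
        have h7 := hg c hc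
        rw [h𝒢, Finset.mem_filter] at h7
        simpa using h7.2
    refine (pr_colours 𝒢 (fun (c : Fin (RR L l)) G rows =>
      (4 * ss l * k : ℝ) < epCount lab Tb l c G rows) t ht1 (Real.exp_pos _).le hfix).trans ?_
    rw [Fintype.card_fin]
    have h8 : ((RR L l).choose t : ℝ) ≤ Real.exp (t * ((ss l : ℝ) / 1000)) := by
      rw [Real.exp_nat_mul]
      have h9 : ((RR L l).choose t : ℝ) ≤ (RR L l : ℝ) ^ t := by
        exact_mod_cast Nat.choose_le_pow (RR L l) t
      refine h9.trans (pow_le_pow_left₀ hRr.le ?_ _)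
      rw [← Real.log_le_iff_le_exp hRr]
      exact num_log_RR L l
    have h10 : (𝒢.card : ℝ) ^ t ≤ Real.exp (t * ((ss l : ℝ) * (k : ℝ) / 100)) := by
      rw [Real.exp_nat_mul]
      exact pow_le_pow_left₀ (Nat.cast_nonneg _) (num_entropy_E hlL) _
    have hk1 : (1 : ℝ) ≤ k := by exact_mod_cast hk
    have hs0 : (0 : ℝ) < ss l := by exact_mod_cast ss_pos l
    have ht0 : (0 : ℝ) < t := by exact_mod_cast ht1
    calc ((RR L l).choose t : ℝ) * ((𝒢.card : ℝ) ^ t * Real.exp (-(5 / 2 * (t : ℝ) * ss l * k)))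
        ≤ Real.exp (t * ((ss l : ℝ) / 1000)) * (Real.exp (t * ((ss l : ℝ) * (k : ℝ) / 100)) *
          Real.exp (-(5 / 2 * (t : ℝ) * ss l * k))) := by
          refine mul_le_mul h8 ?_ (by positivity) (Real.exp_pos _).le
          exact mul_le_mul_of_nonneg_right h10 (Real.exp_pos _).le
      _ = Real.exp (t * ((ss l : ℝ) / 1000) + (t * ((ss l : ℝ) * (k : ℝ) / 100) +
          -(5 / 2 * (t : ℝ) * ss l * k))) := by
          rw [← Real.exp_add, ← Real.exp_add]
      _ ≤ Real.exp (-(NN L : ℝ) / (2 ^ 64 * ((L : ℝ) + 3) ^ 8)) := by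
          apply Real.exp_le_exp.mpr
          have h11 := num_gain_E hlL hk
          have h12 : (NN L : ℝ) / (2 ^ 64 * ((L : ℝ) + 3) ^ 8)
              ≤ (NN L : ℝ) / (2 ^ 60 * ((L : ℝ) + 3) ^ 8) := by
            apply div_le_div_of_nonneg_left (Nat.cast_nonneg _) (by positivity)
            apply mul_le_mul_of_nonneg_right _ (by positivity)
            norm_num
          have h13 : (ss l : ℝ) * k * ρR ≤ (ss l : ℝ) * k * t :=
            mul_le_mul_of_nonneg_left htR (by positivity)
          have h14 : (t : ℝ) * ss l * 1 ≤ (t : ℝ) * ss l * k :=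
            mul_le_mul_of_nonneg_left hk1 (by positivity)
          rw [neg_div]
          have h15 : 0 < (t : ℝ) * ss l * k := by positivity
          have h16 : (ss l : ℝ) * k * ρR = (ss l : ℝ) * k * ((RR L l : ℝ) / (9216 * ((L : ℝ) + 1))) :=
            rfl
          nlinarith

end Pool.Agent.EGT
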