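import Pool.Agent.EGT.IDefs
import Pool.Agent.EGT.Sizes

/-! Project EGT: module EP1. -/

open Finset

namespace Pool.Agent.EGT

theorem lvl_par_eq_some {Sd : Type} (lab : Sd → Option (ℕ × ℕ)) (r : Sd) (j χ : ℕ) :
    lvl lab (par j) r = some (j, χ) ↔ lab r = some (j, χ) := by
  unfold lvl
  rw [Option.filter_eq_some_iff]
  simp

theorem pr_lvl {L : ℕ} {Sd : Type} [Fintype Sd] {lab : Sd → Option (ℕ × ℕ)} (hl : LabSpec L lab)
    {j χ : ℕ} (hj : j ≤ L) (hχ : χ < RR L j) :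
    pr (fun r => lvl lab (par j) r = some (j, χ)) = (ss j : ℝ) / DD j := by
  rw [← hl.prob j χ hj hχ]
  congr 1
  funext r
  exact propext (lvl_par_eq_some lab r j χ)

theorem nn_pos' (L : ℕ) : 0 < NN L := by
  unfold NN
  positivity

theorem dd_pos' (j : ℕ) : 0 < DD j := by
  unfold DD
  positivity

instance nn_nonempty (L : ℕ) : Nonempty (Fin (NN L)) := ⟨⟨0, nn_pos' L⟩⟩

theorem dd_le_nn' {L j : ℕ} (h : j ≤ L) : DD j ≤ NN L := by
  unfold DD NN
  have h1 : 4 ^ j ≤ 4 ^ L := Nat.pow_le_pow_right (by norm_num) h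
  have h2 : 1 ≤ (L + 1) ^ 3 := Nat.one_le_pow _ _ (by omega)
  calc 2 ^ 24 * 4 ^ j ≤ 2 ^ 47 * 4 ^ L := Nat.mul_le_mul (by norm_num) h1
    _ = 2 ^ 47 * 1 * 4 ^ L := by ring
    _ ≤ 2 ^ 47 * (L + 1) ^ 3 * 4 ^ L := by gcongr

theorem ep1_main : EP1Main := by
  intro L Sd _ _ lab hl l k Tb Zs G hlL hZ hG
  classical
  have key := pr_sizes_fixed (H := Fin (NN L)) (V := Fin (NN L)) (Λ := Sd) (U := Fin (NN L))
    (C := ℕ) Tb (fun χ r => lvl lab (par l) r = some (l, χ)) ?_ (fun u => (u : ℕ) < DD l) Zs G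
    (γ := (ss l : ℝ) / DD l) (p := (DD l : ℝ) / NN L) (m := (ss l : ℝ) * k) (k := k) ?_ ?_ hG ?_ ?_
  · refine le_trans (pr_mono fun rows hrows => ?_) (key.trans (le_of_eq ?_))
    · intro χ hχ
      refine lt_of_lt_of_le ?_ (le_of_eq ?_) (b := ∑ h, ind (h ∉ Tb ∧
        lvl lab (par l) (rows h).1 = some (l, χ) ∧ ∃ v ∈ G χ, ((rows h).2 v : ℕ) < DD l))
      · have := hrows χ hχ
        linarith
      · unfold servers
        rw [Finset.card_filter, Nat.cast_sum]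
        refine Finset.sum_congr rfl fun h _ => ?_
        split_ifs with hc
        · rw [ind_pos hc, Nat.cast_one]
        · rw [ind_neg hc, Nat.cast_zero]
    · congr 1
      ring
  · intro c c' a h1 h2
    rw [h1] at h2
    simpa using h2
  · intro χ hχ
    exact (pr_lvl hl hlL (mem_range.mp (hZ hχ))).le
  · rw [pr_fin_lt (dd_le_nn' hlL)]
  · rw [Fintype.card_fin]
    have h1 : (NN L : ℝ) ≠ 0 := by exact_mod_cast (nn_pos' L).ne'
    have h2 : (DD l : ℝ) ≠ 0 := by exact_mod_cast (dd_pos' l).ne'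
    refine le_of_eq ?_
    field_simp
  · positivity

end Pool.Agent.EGT
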