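import Mathlib
import Pool.Prelude.Def_F_1001536c
import Pool.Agent.EGT.Defs

/-!
Project EGT (MP_0b8466_co), module FA: the core statement implies the frozen statement.
-/

set_option autoImplicit false
open Ndcfe74d8
open Filter

namespace Pool.Agent.EGT

/-- the complement of `H` transported to `Fin n` -/
def faGraph {V : Type} {n : ℕ} (H : SimpleGraph V) (e : V ≃ Fin n) : SimpleGraph (Fin n) :=
  (Hᶜ).comap e.symm

theorem faGraph_adj {V : Type} {n : ℕ} (H : SimpleGraph V) (e : V ≃ Fin n) (a b : Fin n) :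
    (faGraph H e).Adj a b ↔ e.symm a ≠ e.symm b ∧ ¬ H.Adj (e.symm a) (e.symm b) := by
  simp [faGraph, SimpleGraph.comap_adj, SimpleGraph.compl_adj]

theorem fa_clique_iff {V : Type} {n : ℕ} (H : SimpleGraph V) (e : V ≃ Fin n)
    (S : Finset (Fin n)) :
    (faGraph H e).IsClique (S : Set (Fin n)) ↔
      ∀ a ∈ S, ∀ b ∈ S, ¬ H.Adj (e.symm a) (e.symm b) := by
  constructor
  · intro h a ha b hb hab
    have hne : a ≠ b := by
      rintro rfl
      exact H.loopless.irrefl _ hab
    exact ((faGraph_adj H e a b).1 (h ha hb hne)).2 hab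
  · intro h a ha b hb hne
    exact (faGraph_adj H e a b).2 ⟨fun h' => hne (e.symm.injective h'), h a ha b hb⟩

theorem fa_mis {V : Type} {n : ℕ} (H : SimpleGraph V) (e : V ≃ Fin n) (S : Finset (Fin n))
    (hS : Maximal (fun T : Finset (Fin n) => (faGraph H e).IsClique (T : Set (Fin n))) S) :
    MISin H (fun _ => True) (S.map e.symm.toEmbedding) := by
  classical
  refine ⟨fun _ _ => trivial, ?_, ?_⟩
  · intro u hu v hv
    obtain ⟨a, ha, rfl⟩ := Finset.mem_map.1 hu
    obtain ⟨b, hb, rfl⟩ := Finset.mem_map.1 hv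
    exact (fa_clique_iff H e S).1 hS.prop a ha b hb
  · intro v _ hv
    by_contra hcon
    push Not at hcon
    have hnot : e v ∉ S := by
      intro h
      exact hv (Finset.mem_map.2 ⟨e v, h, by simp⟩)
    have hno : ∀ a ∈ S, ¬ H.Adj v (e.symm a) := by
      intro a ha
      exact hcon (e.symm a) (Finset.mem_map.2 ⟨a, ha, rfl⟩)
    have hcl : (faGraph H e).IsClique ((insert (e v) S : Finset (Fin n)) : Set (Fin n)) := by
      rw [fa_clique_iff]
      intro a ha b hb
      rcases Finset.mem_insert.1 ha with rfl | ha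
      · rcases Finset.mem_insert.1 hb with rfl | hb
        · exact H.loopless.irrefl _
        · simpa using hno b hb
      · rcases Finset.mem_insert.1 hb with rfl | hb
        · intro h
          exact hno a ha (by simpa using h.symm)
        · exact (fa_clique_iff H e S).1 hS.prop a ha b hb
    have hle := hS.le_of_ge hcl (Finset.subset_insert _ _)
    exact hnot (hle (Finset.mem_insert_self _ _))

theorem fa_max {V : Type} {n : ℕ} (H : SimpleGraph V) (e : V ≃ Fin n) (K : Finset V)
    (hK : MISin H (fun _ => True) K) :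
    Maximal (fun T : Finset (Fin n) => (faGraph H e).IsClique (T : Set (Fin n)))
      (K.map e.toEmbedding) := by
  classical
  obtain ⟨-, hind, hdom⟩ := hK
  refine ⟨?_, ?_⟩
  · show (faGraph H e).IsClique _
    rw [fa_clique_iff]
    intro a ha b hb
    obtain ⟨u, hu, rfl⟩ := Finset.mem_map.1 ha
    obtain ⟨v, hv, rfl⟩ := Finset.mem_map.1 hb
    simpa using hind u hu v hv
  · intro S hS hle a ha
    have hcl := (fa_clique_iff H e S).1 hS
    by_contra hcon
    have hn : e.symm a ∉ K := by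
      intro h
      exact hcon (Finset.mem_map.2 ⟨e.symm a, h, by simp⟩)
    obtain ⟨u, hu, hadj⟩ := hdom (e.symm a) trivial hn
    have huS : e u ∈ S := hle (Finset.mem_map.2 ⟨u, hu, rfl⟩)
    have := hcl a ha (e u) huS
    simp only [Equiv.symm_apply_apply] at this
    exact this hadj

theorem fa_main : CoreMain →
    ¬ (∀ c > (0 : ℝ), ∀ ε > (0 : ℝ), ∀ᶠ n : ℕ in atTop, ∀ G : SimpleGraph (Fin n), AllMaximalCliquesAtLeast G (c * (n : ℝ)) → (G.cliqueTransversalNumber : ℝ) ≤ ε * (n : ℝ)) := by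
  rintro ⟨c, hc, ε, hε, hcore⟩ hall
  obtain ⟨N, hN⟩ := Filter.eventually_atTop.1 (hall c hc ε hε)
  obtain ⟨V, iV, H, hcard, hbig, hT⟩ := hcore (max N ⌈2 / c⌉₊)
  classical
  set n := Fintype.card V with hn
  have hNn : N ≤ n := (le_max_left _ _).trans hcard
  have h2 : (2 : ℝ) ≤ c * n := by
    have h3 : ⌈2 / c⌉₊ ≤ n := (le_max_right _ _).trans hcard
    have h4 : 2 / c ≤ (n : ℝ) := (Nat.le_ceil _).trans (by exact_mod_cast h3)
    rw [div_le_iff₀ hc] at h4
    linarith
  have e : V ≃ Fin n := Fintype.equivFin V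
  have hAll : AllMaximalCliquesAtLeast (faGraph H e) (c * (n : ℝ)) := by
    rintro s ⟨S, hS, rfl⟩
    have := hbig _ (fa_mis H e S hS)
    rwa [Finset.card_map] at this
  have hle := hN n hNn (faGraph H e) hAll
  have hne : {k | ∃ T : Finset (Fin n), (faGraph H e).IsCliqueTransversal T ∧ T.card = k}.Nonempty := by
    refine ⟨_, Finset.univ, ?_, rfl⟩
    intro s hs
    have hs2 : 0 < s.card := lt_of_lt_of_le (by norm_num) hs.2
    obtain ⟨v, hv⟩ := Finset.card_pos.1 hs2
    exact ⟨v, hv, Finset.mem_univ v⟩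
  obtain ⟨T, hTr, hTc⟩ := Nat.sInf_mem hne
  have hTcard : ((T.map e.symm.toEmbedding).card : ℝ) ≤ ε * (n : ℝ) := by
    rw [Finset.card_map, hTc]
    exact hle
  obtain ⟨K, hK, hdis⟩ := hT _ hTcard
  have hKc := hbig K hK
  have hbigK : (faGraph H e).IsBigMaximalClique (K.map e.toEmbedding) := by
    refine ⟨fa_max H e K hK, ?_⟩
    rw [Finset.card_map]
    have : (2 : ℝ) ≤ (K.card : ℝ) := h2.trans hKc
    exact_mod_cast this
  obtain ⟨v, hv, hvT⟩ := hTr _ hbigK
  obtain ⟨k, hk, rfl⟩ := Finset.mem_map.1 hv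
  refine Finset.disjoint_left.1 hdis hk (Finset.mem_map.2 ⟨e k, hvT, by simp⟩)

end Pool.Agent.EGT
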