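import Mathlib
import Pool.Agent.EGT.PDefs
import Pool.Agent.EGT.Num

/-!
Project EGT (MP_0b8466_co): module LAB, existence of the label function.
-/

open Finset

namespace Pool.Agent.EGT

namespace Lab

/-- number of seeds with a given label of level `j` -/
def wd (L j : ℕ) : ℕ := (j + 1) * 4 ^ (L - j)

/-- labelled seeds -/
abbrev Sg (L : ℕ) : Type := Σ j : Fin (L + 1), Fin (RR L j) × Fin (wd L j)

theorem card_Sg (L : ℕ) : Fintype.card (Sg L) = ∑ j ∈ range (L + 1), RR L j * wd L j := by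
  rw [Fintype.card_sigma, ← Fin.sum_univ_eq_sum_range (fun j => RR L j * wd L j)]
  exact Finset.sum_congr rfl fun j _ => by simp

theorem frac_eq {L j : ℕ} (h : j ≤ L) :
    (wd L j : ℝ) / (2 ^ 10 * 4 ^ L) = (ss j : ℝ) / DD j := by
  unfold wd ss DD
  push_cast
  have h4 : (4 : ℝ) ^ L = 4 ^ (L - j) * 4 ^ j := by rw [← pow_add]; congr 1; omega
  rw [h4, div_eq_div_iff (by positivity) (by positivity)]
  ring

theorem card_Sg_le (L : ℕ) : Fintype.card (Sg L) ≤ 2 ^ 10 * 4 ^ L := by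
  have h1 := num_total L
  have h2 : ((Fintype.card (Sg L) : ℕ) : ℝ) = (2 ^ 10 * 4 ^ L) *
      ∑ j ∈ range (L + 1), (RR L j : ℝ) * ((ss j : ℝ) / DD j) := by
    rw [card_Sg, Nat.cast_sum, Finset.mul_sum]
    refine Finset.sum_congr rfl fun j hj => ?_
    rw [← frac_eq (Nat.lt_succ_iff.mp (Finset.mem_range.mp hj))]
    push_cast
    field_simp
  have h3 : ((Fintype.card (Sg L) : ℕ) : ℝ) ≤ ((2 ^ 10 * 4 ^ L : ℕ) : ℝ) := by
    rw [h2]
    push_cast
    have h4 : (0 : ℝ) < 2 ^ 10 * 4 ^ L := by positivity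
    nlinarith
  exact_mod_cast h3

/-- all seeds -/
abbrev Sd (L : ℕ) : Type := Sg L ⊕ Fin (2 ^ 10 * 4 ^ L - Fintype.card (Sg L))

theorem card_Sd (L : ℕ) : Fintype.card (Sd L) = 2 ^ 10 * 4 ^ L := by
  rw [Fintype.card_sum, Fintype.card_fin]
  have := card_Sg_le L
  omega

/-- label function -/
def lab (L : ℕ) : Sd L → Option (ℕ × ℕ)
  | .inl s => some ((s.1 : ℕ), (s.2.1 : ℕ))
  | .inr _ => none

theorem card_lab {L j χ : ℕ} (hj : j ≤ L) (hχ : χ < RR L j) :
    (univ.filter (fun r : Sd L => lab L r = some (j, χ))).card = wd L j := by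
  rw [← Finset.card_fin (wd L j)]
  symm
  refine Finset.card_bij
    (fun (i : Fin (wd L j)) _ => (Sum.inl ⟨⟨j, Nat.lt_succ_of_le hj⟩, ⟨⟨χ, hχ⟩, i⟩⟩ : Sd L)) ?_ ?_ ?_
  · intro i _
    rw [Finset.mem_filter]
    exact ⟨Finset.mem_univ _, rfl⟩
  · intro i _ i' _ h
    simpa using h
  · intro r hr
    rw [Finset.mem_filter] at hr
    obtain ⟨-, hr⟩ := hr
    rcases r with ⟨j', χ', i⟩ | r
    · simp only [lab, Option.some.injEq, Prod.mk.injEq] at hr
      obtain ⟨h1, h2⟩ := hr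
      subst h1
      subst h2
      exact ⟨i, Finset.mem_univ _, rfl⟩
    · simp [lab] at hr

theorem main : LabMain := by
  intro L
  have hne : Nonempty (Sd L) := by
    rw [← Fintype.card_pos_iff, card_Sd]
    positivity
  refine ⟨Sd L, inferInstance, hne, lab L, ?_, ?_⟩
  · intro r j χ h
    rcases r with ⟨j', χ', i⟩ | r
    · simp only [lab, Option.some.injEq, Prod.mk.injEq] at h
      obtain ⟨h1, h2⟩ := h
      subst h1
      subst h2
      exact ⟨Nat.lt_succ_iff.mp j'.2, χ'.2⟩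
    · simp [lab] at h
  · intro j χ hj hχ
    rw [pr_eq_card, card_lab hj hχ, card_Sd, ← frac_eq hj, Nat.cast_mul, Nat.cast_pow,
      Nat.cast_pow, Nat.cast_ofNat, Nat.cast_ofNat]

end Lab

theorem lab_main : LabMain := Lab.main

end Pool.Agent.EGT
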