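import Pool.Agent.EGT.Prob

/-! Project EGT: generic lemmas for the T-resistance of one pair system (section 4). -/

open Finset

namespace Pool.Agent.EGT

/-- averaging over colour vectors: if for all `z` the proportion of bad colours of coordinate `i` is
rarely `≥ ρ`, then the proportion of bad colour vectors is rarely `≥ 2ρ` -/
theorem avg_coord {Ω : Type*} [Fintype Ω] {ι : Type*} [Fintype ι] [DecidableEq ι] {Z : ι → Type*}
    [∀ i, Fintype (Z i)] [∀ i, Nonempty (Z i)] (i : ι) (bad : Ω → (∀ i, Z i) → Prop)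
    {ρ p : ℝ} (hρ : 0 < ρ)
    (h : ∀ z : ∀ i, Z i,
      pr (fun ω : Ω => ρ ≤ pr (fun χ : Z i => bad ω (Function.update z i χ))) ≤ p) :
    pr (fun ω : Ω => 2 * ρ ≤ pr (fun z => bad ω z)) ≤ p / ρ := by
  have key : ∀ ω, pr (fun z => bad ω z) ≤ ρ +
      pr (fun z : ∀ i, Z i => ρ ≤ pr (fun χ : Z i => bad ω (Function.update z i χ))) := by
    intro ω
    rw [pr_update i]
    have h1 : ex (fun z : ∀ i, Z i => pr (fun χ : Z i => bad ω (Function.update z i χ)))
        ≤ ex (fun z : ∀ i, Z i => ρ + ind (ρ ≤ pr (fun χ : Z i => bad ω (Function.update z i χ)))) := by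
      apply ex_mono
      intro z
      by_cases hz : ρ ≤ pr (fun χ : Z i => bad ω (Function.update z i χ))
      · rw [ind_pos hz]
        linarith [pr_le_one (fun χ : Z i => bad ω (Function.update z i χ))]
      · rw [ind_neg hz]
        linarith [not_le.mp hz]
    refine h1.trans ?_
    have h0 : ex (fun z : ∀ i, Z i => ρ + ind (ρ ≤ pr (fun χ : Z i => bad ω (Function.update z i χ))))
        = ex (fun _ : ∀ i, Z i => ρ) + ex (fun z : ∀ i, Z i =>
          ind (ρ ≤ pr (fun χ : Z i => bad ω (Function.update z i χ)))) := ex_add _ _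
    rw [h0, ex_const]
    exact le_refl _
  have h2 : pr (fun ω : Ω => 2 * ρ ≤ pr (fun z => bad ω z)) ≤
      pr (fun ω : Ω => ρ ≤ pr (fun z : ∀ i, Z i =>
        ρ ≤ pr (fun χ : Z i => bad ω (Function.update z i χ)))) := by
    apply pr_mono
    intro ω hω
    linarith [key ω]
  refine h2.trans ((pr_markov (fun ω => pr_nonneg _) hρ).trans ?_)
  apply div_le_div_of_nonneg_right _ hρ.le
  have h3 : ex (fun ω : Ω => pr (fun z : ∀ i, Z i =>
        ρ ≤ pr (fun χ : Z i => bad ω (Function.update z i χ))))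
      = ex (fun z : ∀ i, Z i => pr (fun ω : Ω =>
        ρ ≤ pr (fun χ : Z i => bad ω (Function.update z i χ)))) := by
    unfold pr
    exact ex_comm (fun ω z => ind (ρ ≤ pr (fun χ : Z i => bad ω (Function.update z i χ))))
  rw [h3]
  obtain ⟨z0⟩ : Nonempty (∀ i, Z i) := inferInstance
  exact ex_le_of_le ((pr_nonneg _).trans (h z0)) h

/-- union bound over colour sets and choices -/
theorem union_colours {Ω : Type*} [Fintype Ω] {Rn : ℕ} {C : Type*} (𝒞 : Finset C)
    (Q : Ω → Fin Rn → C → Prop) {ρ a b c : ℝ} (hρ : 0 < ρ) (hρ1 : ρ ≤ 1) (hR : 1 ≤ Rn)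
    (hC : (𝒞.card : ℝ) ≤ Real.exp b)
    (hQ : ∀ Z' : Finset (Fin Rn), ∀ ch : Fin Rn → C, (∀ χ ∈ Z', ch χ ∈ 𝒞) →
      pr (fun ω => ∀ χ ∈ Z', Q ω χ (ch χ)) ≤ Real.exp (-(a * Z'.card)))
    (hc : 1 + Real.log (1 / ρ) ≤ c) (habc : b + c ≤ a) :
    pr (fun ω => ρ ≤ pr (fun χ => ∃ x ∈ 𝒞, Q ω χ x)) ≤ Real.exp (-((a - b - c) * (ρ * Rn))) := by
  classical
  set t : ℕ := ⌈ρ * Rn⌉₊ with ht
  have hRpos : (0 : ℝ) < Rn := by exact_mod_cast hR
  have ht1 : 1 ≤ t := Nat.one_le_ceil_iff.mpr (by positivity)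
  have htR : t ≤ Rn := by
    rw [ht, Nat.ceil_le]
    nlinarith
  have htρ : ρ * Rn ≤ t := Nat.le_ceil _
  -- the event
  have h1 : pr (fun ω => ρ ≤ pr (fun χ => ∃ x ∈ 𝒞, Q ω χ x)) ≤
      pr (fun ω => ∃ Z' ∈ powersetCard t (univ : Finset (Fin Rn)),
        ∃ ch ∈ Finset.pi Z' (fun _ => 𝒞), ∀ χ, ∀ h : χ ∈ Z', Q ω χ (ch χ h)) := by
    apply pr_mono
    intro ω hω
    rw [pr_eq_card, le_div_iff₀ (by simpa using hRpos)] at hω
    have h2 : t ≤ (univ.filter (fun χ => ∃ x ∈ 𝒞, Q ω χ x)).card := by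
      rw [ht, Nat.ceil_le]
      simpa using hω
    obtain ⟨Z', hZ', hZc⟩ := exists_subset_card_eq h2
    have h3 : ∀ χ, ∀ h : χ ∈ Z', ∃ x ∈ 𝒞, Q ω χ x := fun χ h => (mem_filter.mp (hZ' h)).2
    choose ch hch1 hch2 using h3
    exact ⟨Z', mem_powersetCard.mpr ⟨subset_univ _, hZc⟩, ch, Finset.mem_pi.mpr hch1, hch2⟩
  have h2 : ∀ Z' ∈ powersetCard t (univ : Finset (Fin Rn)),
      pr (fun ω => ∃ ch ∈ Finset.pi Z' (fun _ => 𝒞), ∀ χ, ∀ h : χ ∈ Z', Q ω χ (ch χ h))
        ≤ Real.exp (b * t) * Real.exp (-(a * t)) := by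
    intro Z' hZ'
    have hZc : Z'.card = t := (mem_powersetCard.mp hZ').2
    have h3 : ∀ ch ∈ Finset.pi Z' (fun _ => 𝒞),
        pr (fun ω => ∀ χ, ∀ h : χ ∈ Z', Q ω χ (ch χ h)) ≤ Real.exp (-(a * t)) := by
      intro ch hch
      have hne : Z'.Nonempty := card_pos.mp (by omega)
      obtain ⟨χ0, hχ0⟩ := hne
      have h4 := hQ Z' (fun χ => if h : χ ∈ Z' then ch χ h else ch χ0 hχ0)
        (by
          intro χ hχ
          simp only [hχ, dif_pos]
          exact Finset.mem_pi.mp hch χ hχ)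
      rw [hZc] at h4
      refine le_trans (pr_mono ?_) h4
      intro ω hω χ hχ
      simp only [hχ, dif_pos]
      exact hω χ hχ
    refine (pr_exists_le _ _ h3).trans ?_
    apply mul_le_mul_of_nonneg_right _ (Real.exp_pos _).le
    rw [Finset.card_pi, prod_const, hZc, Nat.cast_pow]
    calc ((𝒞.card : ℝ)) ^ t ≤ (Real.exp b) ^ t := pow_le_pow_left₀ (by positivity) hC t
      _ = Real.exp (b * t) := by rw [← Real.exp_nat_mul]; ring_nf
  have h3 := pr_exists_le (Ω := Ω) _ _ h2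
  have h4 : (((powersetCard t (univ : Finset (Fin Rn))).card : ℕ) : ℝ) ≤ Real.exp (c * t) := by
    have h5 : (powersetCard t (univ : Finset (Fin Rn))).card ≤
        (univ.filter (fun S : Finset (Fin Rn) => S.card ≤ t)).card := by
      apply card_le_card
      intro S hS
      simp only [mem_filter, mem_univ, true_and]
      exact (mem_powersetCard.mp hS).2.le
    have h6 := card_small_subsets' (α := Fin Rn) ht1 (by simpa using htR)
    have h7 : (((powersetCard t (univ : Finset (Fin Rn))).card : ℕ) : ℝ) ≤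
        Real.exp (t * (1 + Real.log (Fintype.card (Fin Rn) / t))) :=
      le_trans (by exact_mod_cast h5) h6
    refine h7.trans (Real.exp_le_exp.mpr ?_)
    have htpos : (0 : ℝ) < t := by exact_mod_cast ht1
    have h8 : Real.log ((Fintype.card (Fin Rn) : ℝ) / t) ≤ Real.log (1 / ρ) := by
      apply Real.log_le_log
      · have : (0 : ℝ) < (Fintype.card (Fin Rn) : ℝ) := by simpa using hRpos
        positivity
      · rw [div_le_div_iff₀ htpos hρ, Fintype.card_fin]
        linarith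
    nlinarith
  refine h1.trans (h3.trans ?_)
  have h5 : (((powersetCard t (univ : Finset (Fin Rn))).card : ℕ) : ℝ) *
      (Real.exp (b * t) * Real.exp (-(a * t))) ≤
      Real.exp (c * t) * (Real.exp (b * t) * Real.exp (-(a * t))) :=
    mul_le_mul_of_nonneg_right h4 (by positivity)
  refine h5.trans ?_
  rw [← Real.exp_add, ← Real.exp_add, Real.exp_le_exp]
  nlinarith

end Pool.Agent.EGT
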