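import Mathlib
import Pool.Agent.EGT.PDefs
import Pool.Agent.EGT.TGen

/-!
Project EGT (MP_0b8466_co), module PF: the resistance of one pair system.
-/

open Finset

namespace Pool.Agent.EGT

theorem pf_pr_fin {R : ℕ} (P : ℕ → Prop) [DecidablePred P] :
    pr (fun χ : Fin R => P (χ : ℕ)) = (((range R).filter P).card : ℝ) / R := by
  rw [pr_eq_card, Fintype.card_fin]
  congr 2
  rw [Finset.card_filter, Finset.card_filter,
    Fin.sum_univ_eq_sum_range (fun χ => if P χ then 1 else 0) R]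

theorem pf_zv_of_le {L : ℕ} (z : ZZ L) {j : ℕ} (h : j < L + 1) : zv z j = (z ⟨j, h⟩ : ℕ) := by
  unfold zv
  rw [dif_pos h]

theorem pf_zv_update_self {L : ℕ} (z : ZZ L) {j : ℕ} (h : j < L + 1) (χ : Fin (RR L j)) :
    zv (Function.update z ⟨j, h⟩ χ : ZZ L) j = (χ : ℕ) := by
  rw [pf_zv_of_le _ h, Function.update_self]

theorem pf_zv_update_ne {L : ℕ} (z : ZZ L) {j l : ℕ} (h : j < L + 1) (χ : Fin (RR L j))
    (hl : l ≠ j) : zv (Function.update z ⟨j, h⟩ χ : ZZ L) l = zv z l := by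
  unfold zv
  by_cases hl' : l < L + 1
  · rw [dif_pos hl', dif_pos hl', Function.update_of_ne]
    intro he
    exact hl (congrArg Fin.val he)
  · rw [dif_neg hl', dif_neg hl']

/-- the event `V_j` depends on the colours above `j` only -/
theorem pf_Vv_congr {L : ℕ} {Sd : Type} {lab : Sd → Option (ℕ × ℕ)} {ω : POm (NN L) Sd}
    {T : Bool → Finset (Fin (NN L))} {j χ : ℕ} {z z' : ℕ → ℕ} (h : ∀ l, j < l → z l = z' l)
    (hV : Vv L lab ω T j χ z) : Vv L lab ω T j χ z' := by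
  obtain ⟨F, G, hF1, hF2, hG, hh⟩ := hV
  refine ⟨F, G, hF1, hF2, hG, fun x hx => ?_⟩
  obtain ⟨l, h1, h2, h3, g, hg, hadj⟩ := hh x hx
  refine ⟨l, h1, h2, h3, g, ?_, hadj⟩
  rw [← h l h1]
  exact hg

/-- numerical end: for large `L` the union bound is absorbed -/
theorem pf_num : ∃ L0 : ℕ, ∀ L : ℕ, L0 ≤ L →
    ((L : ℝ) + 1) * (1 + 9216 * ((L : ℝ) + 1)) *
      Real.exp (-(NN L : ℝ) / (2 ^ 64 * ((L : ℝ) + 3) ^ 8))
      ≤ Real.exp (-(NN L : ℝ) / ((L : ℝ) + 3) ^ 9) := by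
  have h1 : Filter.Tendsto (fun n : ℕ => (n : ℝ) ^ 10 / (4 : ℝ) ^ n) Filter.atTop (nhds 0) :=
    tendsto_pow_const_div_const_pow_of_one_lt 10 (by norm_num)
  have h2 : ∀ᶠ n : ℕ in Filter.atTop, (n : ℝ) ^ 10 / (4 : ℝ) ^ n < 1 / 2 ^ 40 :=
    (tendsto_order.1 h1).2 _ (by positivity)
  obtain ⟨n0, hn0⟩ := Filter.eventually_atTop.1 h2
  refine ⟨max n0 (2 ^ 65), fun L hL => ?_⟩
  have hL1 : n0 ≤ L := le_trans (le_max_left _ _) hL
  have hL2 : 2 ^ 65 ≤ L := le_trans (le_max_right _ _) hL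
  have hL2' : (2 : ℝ) ^ 65 ≤ (L : ℝ) := by exact_mod_cast hL2
  have h3 := hn0 (L + 3) (by omega)
  rw [div_lt_iff₀ (by positivity)] at h3
  push_cast at h3
  set x : ℝ := (L : ℝ) + 3 with hx
  have hx0 : 0 < x := by positivity
  have hx65 : (2 : ℝ) ^ 65 ≤ x := by linarith
  have hN : (NN L : ℝ) = 2 ^ 47 * ((L : ℝ) + 1) ^ 3 * 4 ^ L := by
    unfold NN; push_cast; ring
  -- 4 ^ L is larger than 2 ^ 34 x ^ 10
  have h4 : (2 : ℝ) ^ 34 * x ^ 10 ≤ 4 ^ L := by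
    have e : (4 : ℝ) ^ (L + 3) = 4 ^ L * 64 := by rw [pow_add]; norm_num
    rw [e] at h3
    nlinarith
  have hNpos : (0 : ℝ) < NN L := by rw [hN]; positivity
  have h5 : (2 : ℝ) ^ 81 * x ^ 10 ≤ NN L := by
    rw [hN]
    have e1 : (1 : ℝ) ≤ ((L : ℝ) + 1) ^ 3 := one_le_pow₀ (by linarith [Nat.cast_nonneg (α := ℝ) L])
    have e2 : (0 : ℝ) < 4 ^ L := by positivity
    calc (2 : ℝ) ^ 81 * x ^ 10 = 2 ^ 47 * (2 ^ 34 * x ^ 10) := by ring
      _ ≤ 2 ^ 47 * 4 ^ L := by nlinarith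
      _ ≤ 2 ^ 47 * ((L : ℝ) + 1) ^ 3 * 4 ^ L := by nlinarith
  -- the prefactor
  have h6 : ((L : ℝ) + 1) * (1 + 9216 * ((L : ℝ) + 1)) ≤ Real.exp (2 ^ 16 * x ^ 2) := by
    have e1 := Real.add_one_le_exp ((2 : ℝ) ^ 16 * x ^ 2)
    have e2 : (L : ℝ) + 1 ≤ x := by linarith
    have e3 : 0 ≤ (L : ℝ) + 1 := by positivity
    nlinarith
  calc ((L : ℝ) + 1) * (1 + 9216 * ((L : ℝ) + 1)) * Real.exp (-(NN L : ℝ) / (2 ^ 64 * x ^ 8))
      ≤ Real.exp (2 ^ 16 * x ^ 2) * Real.exp (-(NN L : ℝ) / (2 ^ 64 * x ^ 8)) :=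
        mul_le_mul_of_nonneg_right h6 (Real.exp_pos _).le
    _ = Real.exp (2 ^ 16 * x ^ 2 + -(NN L : ℝ) / (2 ^ 64 * x ^ 8)) := (Real.exp_add _ _).symm
    _ ≤ Real.exp (-(NN L : ℝ) / x ^ 9) := by
        apply Real.exp_le_exp.mpr
        have e1 : (NN L : ℝ) / x ^ 9 ≤ (NN L : ℝ) / (2 ^ 65 * x ^ 8) := by
          apply div_le_div_of_nonneg_left hNpos.le (by positivity)
          calc (2 : ℝ) ^ 65 * x ^ 8 ≤ x * x ^ 8 := by
                apply mul_le_mul_of_nonneg_right hx65 (by positivity)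
            _ = x ^ 9 := by ring
        have e2 : (NN L : ℝ) / (2 ^ 64 * x ^ 8) = 2 * ((NN L : ℝ) / (2 ^ 65 * x ^ 8)) := by
          have e0 : (2 : ℝ) ^ 65 * x ^ 8 = 2 * (2 ^ 64 * x ^ 8) := by ring
          rw [e0]
          have hy : (2 : ℝ) ^ 64 * x ^ 8 ≠ 0 := by positivity
          field_simp
        have e3 : 2 ^ 16 * x ^ 2 ≤ (NN L : ℝ) / (2 ^ 65 * x ^ 8) := by
          rw [le_div_iff₀ (by positivity)]
          have e0 : (2 : ℝ) ^ 16 * x ^ 2 * (2 ^ 65 * x ^ 8) = 2 ^ 81 * x ^ 10 := by ring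
          rw [e0]
          exact h5
        rw [neg_div, neg_div]
        linarith

theorem pf_main : DetMain → EPMain → VPMain → PFMain := by
  classical
  rintro hDet ⟨L1, hE⟩ ⟨L2, hV⟩
  obtain ⟨L3, hnum⟩ := pf_num
  refine ⟨max L1 (max L2 L3), fun L hL Sd iF iN lab hlab T hT => ?_⟩
  have hL1 : L1 ≤ L := le_trans (le_max_left _ _) hL
  have hL2 : L2 ≤ L := le_trans (le_trans (le_max_left _ _) (le_max_right _ _)) hL
  have hL3 : L3 ≤ L := le_trans (le_trans (le_max_right _ _) (le_max_right _ _)) hL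
  have hRpos : ∀ j, 0 < RR L j := fun j => lt_of_lt_of_le one_pos (le_max_left _ _)
  have hne : ∀ j : Fin (L + 1), Nonempty (Fin (RR L j)) := fun j => ⟨⟨0, hRpos j⟩⟩
  set ρ : ℝ := 1 / (9216 * ((L : ℝ) + 1)) with hρdef
  have hρ : 0 < ρ := by positivity
  set p : ℝ := Real.exp (-(NN L : ℝ) / (2 ^ 64 * ((L : ℝ) + 3) ^ 8)) with hpdef
  have hp : 0 < p := Real.exp_pos _
  -- conversion between counting and proportion
  have hconv : ∀ (j : ℕ) (P : ℕ → Prop) [DecidablePred P],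
      ρ ≤ pr (fun χ : Fin (RR L j) => P (χ : ℕ)) →
      (RR L j : ℝ) / (9216 * ((L : ℝ) + 1)) ≤ (((range (RR L j)).filter P).card : ℝ) := by
    intro j P _ h
    have hR : (0 : ℝ) < RR L j := by exact_mod_cast hRpos j
    rw [pf_pr_fin, le_div_iff₀ hR] at h
    calc (RR L j : ℝ) / (9216 * ((L : ℝ) + 1)) = ρ * RR L j := by rw [hρdef]; ring
      _ ≤ _ := h
  -- events
  let badE : ℕ → POm (NN L) Sd → ZZ L → Prop := fun l ω z => ¬ Ev L lab ω T l (zv z l)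
  let badV : ℕ → POm (NN L) Sd → ZZ L → Prop := fun j ω z =>
    (∀ l, j < l → l ≤ L → par l = !par j → Ev L lab ω T l (zv z l)) ∧
      Vv L lab ω T j (zv z j) (zv z)
  have hE' : ∀ l, 1 ≤ l → l ≤ L →
      pr (fun ω : POm (NN L) Sd => ρ ≤ pr (fun z : ZZ L => badE l ω z)) ≤ p := by
    intro l hl1 hl2
    refine le_trans (pr_mono ?_) (hE L hL1 Sd iF iN lab hlab T hT l hl1 hl2)
    intro ω hω
    apply hconv l
    have hl3 : l < L + 1 := by omega
    have e := pr_pi_one (Ω := fun j : Fin (L + 1) => Fin (RR L j)) ⟨l, hl3⟩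
      (fun χ : Fin (RR L l) => ¬ Ev L lab ω T l (χ : ℕ))
    rw [← e]
    refine hω.trans (pr_mono ?_)
    intro z hz
    have : zv z l = (z ⟨l, hl3⟩ : ℕ) := pf_zv_of_le z hl3
    simpa [badE, this] using hz
  have hV' : ∀ j, j ≤ L →
      pr (fun ω : POm (NN L) Sd => 2 * ρ ≤ pr (fun z : ZZ L => badV j ω z)) ≤ p / ρ := by
    intro j hj
    have hj3 : j < L + 1 := by omega
    apply avg_coord (Z := fun j : Fin (L + 1) => Fin (RR L j)) ⟨j, hj3⟩ (badV j) hρ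
    intro z
    refine le_trans (pr_mono ?_) (hV L hL2 Sd iF iN lab hlab T hT j hj (zv z))
    intro ω hω
    apply hconv j
    refine hω.trans (pr_mono ?_)
    intro χ hχ
    obtain ⟨hχ1, hχ2⟩ := hχ
    have e0 : zv (Function.update z ⟨j, hj3⟩ χ : ZZ L) j = (χ : ℕ) := pf_zv_update_self z hj3 χ
    have e1 : ∀ l, j < l → zv (Function.update z ⟨j, hj3⟩ χ : ZZ L) l = zv z l :=
      fun l hl => pf_zv_update_ne z hj3 χ (by omega)
    refine ⟨fun l h1 h2 h3 => ?_, ?_⟩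
    · have := hχ1 l h1 h2 h3
      rwa [e1 l h1] at this
    · rw [e0] at hχ2
      exact pf_Vv_congr e1 hχ2
  -- the exceptional event
  have hmain : ∀ ω : POm (NN L) Sd,
      1 / 3072 < pr (fun z : ZZ L => ¬ (PS (L := L) lab ω).PGood T z) →
      (∃ l ∈ Icc 1 L, ρ ≤ pr (fun z : ZZ L => badE l ω z)) ∨
      (∃ j ∈ range (L + 1), 2 * ρ ≤ pr (fun z : ZZ L => badV j ω z)) := by
    intro ω hω
    by_contra hcon
    push Not at hcon
    obtain ⟨hc1, hc2⟩ := hcon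
    have hsub : pr (fun z : ZZ L => ¬ (PS (L := L) lab ω).PGood T z) ≤
        pr (fun z : ZZ L => (∃ l ∈ Icc 1 L, badE l ω z) ∨ (∃ j ∈ range (L + 1), badV j ω z)) := by
      apply pr_mono
      intro z hz
      by_contra hcon2
      push Not at hcon2
      obtain ⟨h1, h2⟩ := hcon2
      apply hz
      apply hDet L Sd iF lab hlab ω T z hT
      intro j hj hVj
      refine h2 j (mem_range.2 (by omega)) ⟨fun l hl1 hl2 _ => ?_, hVj⟩
      have := h1 l (mem_Icc.2 ⟨by omega, hl2⟩)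
      by_contra hc
      exact this hc
    have hb1 : pr (fun z : ZZ L => ∃ l ∈ Icc 1 L, badE l ω z) ≤ (L : ℝ) * ρ := by
      have := pr_exists_le (Icc 1 L) (fun l z => badE l ω z) (b := ρ) (fun l hl => (hc1 l hl).le)
      simpa using this
    have hb2 : pr (fun z : ZZ L => ∃ j ∈ range (L + 1), badV j ω z) ≤ ((L : ℝ) + 1) * (2 * ρ) := by
      have := pr_exists_le (range (L + 1)) (fun j z => badV j ω z) (b := 2 * ρ)
        (fun j hj => (hc2 j hj).le)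
      simpa using this
    have hb3 := pr_or (fun z : ZZ L => ∃ l ∈ Icc 1 L, badE l ω z)
      (fun z : ZZ L => ∃ j ∈ range (L + 1), badV j ω z)
    have hb4 : (L : ℝ) * ρ + ((L : ℝ) + 1) * (2 * ρ) ≤ 1 / 3072 := by
      have e1 : ((L : ℝ) + 1) * ρ = 1 / 9216 := by
        rw [hρdef]; field_simp
      nlinarith
    linarith
  calc pr (fun ω : POm (NN L) Sd => 1 / 3072 < pr (fun z : ZZ L => ¬ (PS (L := L) lab ω).PGood T z))
      ≤ pr (fun ω : POm (NN L) Sd => (∃ l ∈ Icc 1 L, ρ ≤ pr (fun z : ZZ L => badE l ω z)) ∨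
          (∃ j ∈ range (L + 1), 2 * ρ ≤ pr (fun z : ZZ L => badV j ω z))) := pr_mono hmain
    _ ≤ (L : ℝ) * p + ((L : ℝ) + 1) * (p / ρ) := by
        refine (pr_or _ _).trans (add_le_add ?_ ?_)
        · have := pr_exists_le (Icc 1 L)
            (fun l (ω : POm (NN L) Sd) => ρ ≤ pr (fun z : ZZ L => badE l ω z)) (b := p)
            (fun l hl => hE' l (mem_Icc.1 hl).1 (mem_Icc.1 hl).2)
          simpa using this
        · have := pr_exists_le (range (L + 1))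
            (fun j (ω : POm (NN L) Sd) => 2 * ρ ≤ pr (fun z : ZZ L => badV j ω z)) (b := p / ρ)
            (fun j hj => hV' j (by have := mem_range.1 hj; omega))
          simpa using this
    _ ≤ ((L : ℝ) + 1) * (1 + 9216 * ((L : ℝ) + 1)) * p := by
        have e1 : p / ρ = 9216 * ((L : ℝ) + 1) * p := by
          rw [hρdef]; field_simp
        rw [e1]
        nlinarith
    _ ≤ Real.exp (-(NN L : ℝ) / ((L : ℝ) + 3) ^ 9) := hnum L hL3

end Pool.Agent.EGT
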