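import Mathlib
import Pool.Agent.EGT.PDefs

/-!
Project EGT (MP_0b8466_co), module PSM: the random pair system satisfies both requirements.
-/

open Finset

namespace Pool.Agent.EGT

theorem psm_NN_pos (L : ℕ) : 0 < NN L := by unfold NN; positivity

theorem psm_RR_pos (L j : ℕ) : 0 < RR L j := lt_of_lt_of_le one_pos (le_max_left _ _)

theorem psm_main : LabMain → C01Main → C2Main → C3Main → L2Main → PFMain → PSMain := by
  rintro hLab ⟨L1, h01⟩ ⟨L2, h2⟩ ⟨L3, h3⟩ hL2 ⟨L4, hPF⟩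
  refine ⟨max (max L1 L2) (max L3 L4), fun L hL => ?_⟩
  have hL1 : L1 ≤ L := le_trans (le_trans (le_max_left _ _) (le_max_left _ _)) hL
  have hL2' : L2 ≤ L := le_trans (le_trans (le_max_right _ _) (le_max_left _ _)) hL
  have hL3 : L3 ≤ L := le_trans (le_trans (le_max_left _ _) (le_max_right _ _)) hL
  have hL4 : L4 ≤ L := le_trans (le_trans (le_max_right _ _) (le_max_right _ _)) hL
  obtain ⟨Sd, iF, iN, lab, hlab⟩ := hLab L
  have hOm : Nonempty (POm (NN L) Sd) := ⟨(fun _ _ => Classical.arbitrary Sd, fun x _ => x)⟩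
  have hZ : Nonempty (ZZ L) := ⟨fun j => ⟨0, psm_RR_pos L j⟩⟩
  refine ⟨POm (NN L) Sd, ZZ L, inferInstance, hOm, inferInstance, hZ,
    fun ω => PS (L := L) lab ω, ?_, ?_⟩
  · have e1 := h01 L hL1 Sd iF iN lab hlab
    have e2 := h2 L hL2' Sd iF iN lab hlab
    have e3 := h3 L hL3 Sd iF iN lab hlab
    have hsub : pr (fun ω : POm (NN L) Sd => ¬ (PS (L := L) lab ω).CapGood) ≤
        pr (fun ω : POm (NN L) Sd => (¬ (C0 lab ω ∧ C1 L lab ω)) ∨
          ((C0 lab ω ∧ C1 L lab ω ∧ ¬ C2 L lab ω) ∨ (C1 L lab ω ∧ ¬ C3 L lab ω))) := by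
      apply pr_mono
      intro ω hω
      by_contra hcon
      push Not at hcon
      obtain ⟨⟨hc0, hc1⟩, hc2, hc3⟩ := hcon
      exact hω (hL2 L Sd iF lab hlab ω (hc2 hc0 hc1) (hc3 hc1))
    refine hsub.trans ((pr_or _ _).trans ?_)
    have e4 := pr_or (fun ω : POm (NN L) Sd => C0 lab ω ∧ C1 L lab ω ∧ ¬ C2 L lab ω)
      (fun ω : POm (NN L) Sd => C1 L lab ω ∧ ¬ C3 L lab ω)
    linarith
  · intro T hT
    exact hPF L hL4 Sd iF iN lab hlab T hT

end Pool.Agent.EGT
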