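import Pool.Agent.EGT.IDefs

/-! Project EGT: module ROW. -/

open Finset

namespace Pool.Agent.EGT

/-- the outcome seen from side `b`, as an equivalence -/
def rowEquiv (N : ℕ) (Sd : Type) (b : Bool) : POm N Sd ≃ RowSp N Sd where
  toFun := rowOf b
  invFun := fun r => (fun b' i => if b' = b then (r.1 i).1 else r.2 i,
    fun x y => if b then (r.1 y).2 x else (r.1 x).2 y)
  left_inv := by
    rintro ⟨l, u⟩
    refine Prod.ext ?_ ?_
    · funext b' i
      cases b <;> cases b' <;> simp [rowOf]
    · funext x y
      cases b <;> simp [rowOf]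
  right_inv := by
    rintro ⟨r, l⟩
    cases b <;> simp [rowOf]

theorem row_main : RowMain := by
  intro N Sd _ b Q
  exact pr_equiv (rowEquiv N Sd b) Q

end Pool.Agent.EGT
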