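import Mathlib
import Pool.Agent.EGT.Defs

/-!
Project EGT (MP_0b8466_co), module TY: the pairs of types at a coarse context.
-/

open Finset

namespace Pool.Agent.EGT

namespace TYm

/-- positions with the bit not fixed by `c` and different from `p0` -/
abbrev Pos {M : ℕ} (c : Ctx M) (p0 : Fin 28 × Fin M) : Type :=
  {p : Fin 28 × Fin M // p.2 ≠ c p.1 ∧ p ≠ p0}

theorem card_pos {M : ℕ} (c : Ctx M) (p0 : Fin 28 × Fin M) (hp0 : p0.2 ≠ c p0.1) :
    Fintype.card (Pos c p0) = rr M := by
  classical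
  rw [Fintype.card_subtype]
  have h1 : (univ.filter fun p : Fin 28 × Fin M => p.2 ≠ c p.1 ∧ p ≠ p0) =
      (univ \ (univ.image fun i : Fin 28 => (i, c i))).erase p0 := by
    ext p
    simp only [mem_filter, mem_univ, true_and, mem_erase, mem_sdiff, mem_image, not_exists]
    constructor
    · rintro ⟨h, h'⟩
      refine ⟨h', fun i hi => h ?_⟩
      rw [← hi]
    · rintro ⟨h', h⟩
      refine ⟨fun hh => h p.1 ?_, h'⟩
      rw [← hh]
  have h2 : p0 ∈ (univ \ (univ.image fun i : Fin 28 => (i, c i))) := by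
    simp only [mem_sdiff, mem_univ, true_and, mem_image, not_exists]
    intro i hi
    apply hp0
    rw [← hi]
  rw [h1, card_erase_of_mem h2, card_sdiff_of_subset (subset_univ _), card_univ,
    Fintype.card_prod, Fintype.card_fin, Fintype.card_fin,
    card_image_of_injective _ (fun i j hij => (Prod.mk.inj hij).1), card_univ, Fintype.card_fin]
  unfold rr
  omega

theorem ex_f {M : ℕ} (hM : 2 ≤ M) (c : Ctx M) :
    ∃ f : Fin (2 ^ rr M) → (Fin 28 → Fin M → Bool), ∃ p0 : Fin 28 × Fin M,
      Function.Injective f ∧ p0.2 ≠ c p0.1 ∧ (∀ x, f x p0.1 p0.2 = false) ∧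
      ∀ x i, f x i (c i) = false := by
  classical
  obtain ⟨y0, hy0⟩ : ∃ y0 : Fin M, y0 ≠ c 0 := by
    have : Nontrivial (Fin M) := Fin.nontrivial_iff_two_le.2 hM
    exact exists_ne (c 0)
  set p0 : Fin 28 × Fin M := (0, y0) with hp0
  have hp : p0.2 ≠ c p0.1 := hy0
  have hc : Fintype.card (Pos c p0 → Bool) = 2 ^ rr M := by
    rw [Fintype.card_fun, Fintype.card_bool, card_pos c p0 hp]
  let e : Fin (2 ^ rr M) ≃ (Pos c p0 → Bool) := (Fintype.equivFinOfCardEq hc).symm
  refine ⟨fun x i y => if h : (y ≠ c i ∧ (i, y) ≠ p0) then e x ⟨(i, y), h⟩ else false, p0, ?_, hp,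
    ?_, ?_⟩
  · intro x x' hxx
    apply e.injective
    funext p
    have h1 := congrFun (congrFun hxx p.1.1) p.1.2
    have hpp : (p.1.2 ≠ c p.1.1 ∧ (p.1.1, p.1.2) ≠ p0) := ⟨p.2.1, p.2.2⟩
    simp only [dif_pos hpp] at h1
    exact h1
  · intro x
    have : ¬ (p0.2 ≠ c p0.1 ∧ (p0.1, p0.2) ≠ p0) := fun h => h.2 rfl
    simp only [dif_neg this]
  · intro x i
    have : ¬ (c i ≠ c i ∧ (i, c i) ≠ p0) := fun h => h.1 rfl
    simp only [dif_neg this]

end TYm

open TYm in
theorem ty_main : TyMain := by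
  intro M hM
  classical
  choose f p0 hinj hp0 hf0 hfc using fun c : Ctx M => ex_f hM c
  refine ⟨fun c x b i y => if y = c i then true else xor b (f c x i y), ?_, ?_⟩
  · intro c x b x' b' h
    have hb : b = b' := by
      have h1 := congrFun (congrFun h (p0 c).1) (p0 c).2
      simp only [if_neg (hp0 c), hf0, Bool.xor_false] at h1
      exact h1
    refine ⟨?_, hb⟩
    subst hb
    apply hinj c
    funext i y
    by_cases hy : y = c i
    · subst hy
      rw [hfc, hfc]
    · have h1 := congrFun (congrFun h i) y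
      simp only [if_neg hy] at h1
      cases b <;> simpa using h1
  · intro c x c' y b y' b' h1 h2
    funext i
    by_contra hne
    have h3 := congrFun (congrFun h1 i) (c' i)
    have h4 := congrFun (congrFun h2 i) (c' i)
    have hne' : ¬ (c' i = c i) := fun h => hne h.symm
    simp only [if_neg hne', if_true] at h3 h4
    cases hfx : f c x i (c' i)
    · rw [hfx] at h3; simp at h3
    · rw [hfx] at h4; simp at h4

end Pool.Agent.EGT
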