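import Mathlib
import Pool.Agent.EGT.IDefs

/-!
Project EGT: composition of the modules (shape check).
-/

namespace Pool.Agent.EGT

theorem core_of
    (row : RowMain) (vp2 : VP2Main) (ep1 : EP1Main) (lab : LabMain) (c01 : C01Main) (c2 : C2Main)
    (c3 : C3Main) (l2 : L2Main) (det : DetMain)
    (ep : RowMain → EP1Main → EPMain) (vp : RowMain → VP2Main → VPMain)
    (pf : DetMain → EPMain → VPMain → PFMain)
    (psm : LabMain → C01Main → C2Main → C3Main → L2Main → PFMain → PSMain)
    (ws : WSMain) (wp : PSMain → WSMain → WPMain) (ty : TyMain) (wd : WPMain → TyMain → WMain)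
    (coa : COAMain) (cob : COBMain) (b : BMain)
    (coc : COAMain → COBMain → WMain → BMain → UMain) (zs : ZSMain)
    (as : ZSMain → UMain → CoreMain) : CoreMain :=
  as zs (coc coa cob (wd (wp (psm lab c01 c2 c3 l2 (pf det (ep row ep1) (vp row vp2))) ws) ty) b)

end Pool.Agent.EGT
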