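import Pool.Agent.EGT.IDefs
import Pool.Agent.EGT.Core
import Pool.Agent.EGT.Num

/-! Project EGT, module VP3 (helper66): `RowMain → VP2Main → VPMain`. -/

open Finset

namespace Pool.Agent.EGT

open Classical in
/-- union bound over colour sets and witnesses -/
theorem vp_union {Ω W : Type*} [Fintype Ω] [Nonempty W] (R : ℕ) (𝒲 : Finset W)
    (B : ℕ → W → Ω → Prop) (x : ℝ) (t : ℕ) (ht : t = ⌈x⌉₊) {q : ℝ}
    (h : ∀ Z ⊆ range R, Z.card = t → ∀ f : ℕ → W, (∀ χ ∈ Z, f χ ∈ 𝒲) →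
      pr (fun ω => ∀ χ ∈ Z, B χ (f χ) ω) ≤ q) :
    pr (fun ω => x ≤ (((range R).filter (fun χ => ∃ w ∈ 𝒲, B χ w ω)).card : ℝ))
      ≤ (R.choose t : ℝ) * ((𝒲.card : ℝ) ^ t * q) := by
  obtain ⟨w0⟩ := ‹Nonempty W›
  have step : ∀ ω, x ≤ (((range R).filter (fun χ => ∃ w ∈ 𝒲, B χ w ω)).card : ℝ) →
      ∃ Z ∈ powersetCard t (range R),
        ∃ f ∈ Z.pi (fun _ => 𝒲), ∀ χ (hχ : χ ∈ Z), B χ (f χ hχ) ω := by
    intro ω hω
    have hω' : t ≤ ((range R).filter (fun χ => ∃ w ∈ 𝒲, B χ w ω)).card := by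
      rw [ht, Nat.ceil_le]; exact hω
    obtain ⟨Z, hZ1, hZ2⟩ := exists_subset_card_eq hω'
    have hex : ∀ χ, ∃ w, χ ∈ Z → w ∈ 𝒲 ∧ B χ w ω := by
      intro χ
      by_cases hχ : χ ∈ Z
      · obtain ⟨w, hw1, hw2⟩ := (mem_filter.1 (hZ1 hχ)).2
        exact ⟨w, fun _ => ⟨hw1, hw2⟩⟩
      · exact ⟨w0, fun h => absurd h hχ⟩
    choose g hg using hex
    refine ⟨Z, mem_powersetCard.2 ⟨fun χ hχ => (mem_filter.1 (hZ1 hχ)).1, hZ2⟩,
      fun χ _ => g χ, ?_, ?_⟩
    · rw [mem_pi]; intro χ hχ; exact (hg χ hχ).1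
    · intro χ hχ; exact (hg χ hχ).2
  calc pr (fun ω => x ≤ (((range R).filter (fun χ => ∃ w ∈ 𝒲, B χ w ω)).card : ℝ))
      ≤ pr (fun ω => ∃ Z ∈ powersetCard t (range R),
        ∃ f ∈ Z.pi (fun _ => 𝒲), ∀ χ (hχ : χ ∈ Z), B χ (f χ hχ) ω) := pr_mono step
    _ ≤ ((powersetCard t (range R)).card : ℝ) * ((𝒲.card : ℝ) ^ t * q) := by
        apply pr_exists_le
        intro Z hZ
        have hZt : Z.card = t := (mem_powersetCard.1 hZ).2
        have h2 := pr_exists_le (Z.pi (fun _ => 𝒲))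
          (fun f (ω : Ω) => ∀ χ (hχ : χ ∈ Z), B χ (f χ hχ) ω) (b := q) (by
            intro f hf
            have hf' := mem_pi.1 hf
            have h3 := h Z (mem_powersetCard.1 hZ).1 hZt
              (fun χ => if hχ : χ ∈ Z then f χ hχ else w0) (by
              intro χ hχ; simp only [hχ, dif_pos]; exact hf' χ hχ)
            refine le_trans (pr_mono ?_) h3
            intro ω hω χ hχ
            simp only [hχ, dif_pos]
            exact hω χ hχ)
        refine h2.trans (le_of_eq ?_)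
        rw [card_pi, prod_const, hZt]
        push_cast
        ring
    _ = (R.choose t : ℝ) * ((𝒲.card : ℝ) ^ t * q) := by
        rw [card_powersetCard, card_range]

section

variable {L : ℕ} {Sd : Type} (lab : Sd → Option (ℕ × ℕ)) (T : Bool → Finset (Fin (NN L)))
  (b : Bool)

open Classical in
/-- potential picks on side `!b`, seen in the rows of side `b` -/
noncomputable def vpS (rows : Fin (NN L) → Sd × (Fin (NN L) → Fin (NN L)))
    (lo : Fin (NN L) → Sd) (l χ : ℕ) (G : Finset (Fin (NN L))) : Finset (Fin (NN L)) :=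
  univ.filter (fun g => g ∉ T (!b) ∧ lvl lab (!b) (lo g) = some (l, χ) ∧
    ∃ v ∈ G, (((rows v).2 g : Fin (NN L)) : ℕ) < DD l)

theorem vp_SG_eq (ω : POm (NN L) Sd) {l : ℕ} (hl : par l = !b) (χ : ℕ)
    (G : Finset (Fin (NN L))) :
    SG lab ω T l χ G = vpS lab T b (rowOf b ω).1 (rowOf b ω).2 l χ G := by
  classical
  unfold SG vpS
  ext g
  simp only [mem_filter, mem_univ, true_and, hl, lb, rowOf, uu]
  cases b <;> simp

/-- picks for `G ⊆ T b` depend only on the rows in `T b` -/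
theorem vp_S_congr {rows rows' : Fin (NN L) → Sd × (Fin (NN L) → Fin (NN L))}
    (lo : Fin (NN L) → Sd) (l χ : ℕ) {G : Finset (Fin (NN L))}
    (h : ∀ v ∈ G, rows v = rows' v) : vpS lab T b rows lo l χ G = vpS lab T b rows' lo l χ G := by
  classical
  unfold vpS
  apply filter_congr
  intro g _
  refine and_congr Iff.rfl (and_congr Iff.rfl ?_)
  constructor
  · rintro ⟨v, hv, hv'⟩; exact ⟨v, hv, by rw [← h v hv]; exact hv'⟩
  · rintro ⟨v, hv, hv'⟩; exact ⟨v, hv, by rw [h v hv]; exact hv'⟩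

/-- the event `V_j` in the rows of side `par j` -/
def vpV (rows : Fin (NN L) → Sd × (Fin (NN L) → Fin (NN L)))
    (lo : Fin (NN L) → Sd) (j χ : ℕ) (z : ℕ → ℕ) : Prop :=
  ∃ (F : Finset (Fin (NN L))) (G : ℕ → Finset (Fin (NN L))),
    F ⊆ T (!par j) ∧ F.card = KK L (j + 2) + 1 ∧
    (∀ l, G l ⊆ T (!par l) ∧ (G l).card ≤ KK L l) ∧
    ∀ h, h ∉ T (par j) → lvl lab (par j) (rows h).1 = some (j, χ) →
      (∃ v ∈ F, (((rows h).2 v : Fin (NN L)) : ℕ) < DD j) → ∃ l, j < l ∧ l ≤ L ∧ par l = !par j ∧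
      ∃ g ∈ vpS lab T (par j) rows lo l (z l) (G l),
        (((rows h).2 g : Fin (NN L)) : ℕ) < kap j * DD l

theorem vp_uu (ω : POm (NN L) Sd) (h v : Fin (NN L)) :
    ((((rowOf b ω).1 h).2 v : Fin (NN L)) : ℕ) = uu ω b h v := by
  cases b <;> rfl

theorem vp_lb (ω : POm (NN L) Sd) (h : Fin (NN L)) :
    lvl lab b ((rowOf b ω).1 h).1 = lb lab ω b h := rfl

theorem vp_Vv (ω : POm (NN L) Sd) (j χ : ℕ) (z : ℕ → ℕ) (hV : Vv L lab ω T j χ z) :
    vpV lab T (rowOf (par j) ω).1 (rowOf (par j) ω).2 j χ z := by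
  classical
  obtain ⟨F, G, hF1, hF2, hG, hh⟩ := hV
  refine ⟨F, G, hF1, hF2, hG, ?_⟩
  intro h hT hl hs
  have hmem : h ∈ SG lab ω T j χ F := by
    unfold SG
    simp only [mem_filter, mem_univ, true_and]
    refine ⟨hT, hl, ?_⟩
    obtain ⟨v, hv, hv'⟩ := hs
    exact ⟨v, hv, by rw [← vp_uu]; exact hv'⟩
  obtain ⟨l, hl1, hl2, hl3, g, hg, hadj⟩ := hh h hmem
  refine ⟨l, hl1, hl2, hl3, g, ?_, ?_⟩
  · rw [← vp_SG_eq lab T (par j) ω hl3]; exact hg
  · rw [vp_SG_eq lab T (par j) ω hl3] at hg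
    have hlg : lb lab ω (!par j) g = some (l, z l) := by
      have := (mem_filter.1 hg).2.2.1
      exact this
    have hlh : lb lab ω (par j) h = some (j, χ) := hl
    unfold adjb at hadj
    rw [hlg, hlh] at hadj
    rw [vp_uu]
    simpa [thr, Nat.min_eq_left hl1.le, Nat.max_eq_right hl1.le] using hadj

/-- the size events in the rows of side `par j` -/
def vpE (rows : Fin (NN L) → Sd × (Fin (NN L) → Fin (NN L)))
    (lo : Fin (NN L) → Sd) (j : ℕ) (z : ℕ → ℕ) : Prop :=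
  ∀ l, j < l → l ≤ L → par l = (!par j) → ∀ G ⊆ T (par j), G.card ≤ KK L l →
    (vpS lab T (par j) rows lo l (z l) G).card ≤ 4 * ss l * KK L l

theorem vp_Ev (ω : POm (NN L) Sd) (j : ℕ) (z : ℕ → ℕ)
    (hE : ∀ l, j < l → l ≤ L → par l = (!par j) → Ev L lab ω T l (z l)) :
    vpE lab T (rowOf (par j) ω).1 (rowOf (par j) ω).2 j z := by
  intro l h1 h2 h3 G hG hc
  have h4 := hE l h1 h2 h3 G (by rw [h3]; simpa using hG) hc
  rw [vp_SG_eq lab T (par j) ω h3] at h4
  exact h4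

/-- thresholds of the revealed columns -/
def vpc (lo : Fin (NN L) → Sd) (j : ℕ) (y : Fin (NN L)) : ℕ :=
  match lvl lab (!par j) (lo y) with
  | none => 0
  | some p => kap j * DD p.1

open Classical in
/-- all revealed potential picks of a witness -/
noncomputable def vpSg (rows0 : Fin (NN L) → Sd × (Fin (NN L) → Fin (NN L)))
    (lo : Fin (NN L) → Sd) (j : ℕ) (z : ℕ → ℕ)
    (G : ∀ l ∈ Ioc j L, Finset (Fin (NN L))) : Finset (Fin (NN L)) :=
  (Ioc j L).attach.biUnion (fun l => if par l.1 = !par j then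
    vpS lab T (par j) rows0 lo l.1 (z l.1) (G l.1 l.2) else ∅)

theorem vp_mem_Sg {rows0 : Fin (NN L) → Sd × (Fin (NN L) → Fin (NN L))}
    {lo : Fin (NN L) → Sd} {j : ℕ} {z : ℕ → ℕ}
    {G : ∀ l ∈ Ioc j L, Finset (Fin (NN L))} {y : Fin (NN L)} :
    y ∈ vpSg lab T rows0 lo j z G ↔ ∃ (l : ℕ) (hl : l ∈ Ioc j L), par l = (!par j) ∧
      y ∈ vpS lab T (par j) rows0 lo l (z l) (G l hl) := by
  classical
  unfold vpSg
  simp only [mem_biUnion, mem_attach, true_and, Subtype.exists]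
  constructor
  · rintro ⟨l, hl, hy⟩
    by_cases h : par l = !par j
    · rw [if_pos h] at hy; exact ⟨l, hl, h, hy⟩
    · rw [if_neg h] at hy; exact absurd hy (notMem_empty _)
  · rintro ⟨l, hl, h, hy⟩
    exact ⟨l, hl, by rw [if_pos h]; exact hy⟩

theorem vp_c_eq {rows0 : Fin (NN L) → Sd × (Fin (NN L) → Fin (NN L))}
    {lo : Fin (NN L) → Sd} {j l χ : ℕ} {G : Finset (Fin (NN L))} {y : Fin (NN L)}
    (hy : y ∈ vpS lab T (par j) rows0 lo l χ G) : vpc lab lo j y = kap j * DD l := by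
  classical
  have h1 : lvl lab (!par j) (lo y) = some (l, χ) := (mem_filter.1 hy).2.2.1
  unfold vpc
  rw [h1]

theorem vp_sum {rows0 : Fin (NN L) → Sd × (Fin (NN L) → Fin (NN L))}
    {lo : Fin (NN L) → Sd} {j : ℕ} (hj : j ≤ L) {z : ℕ → ℕ}
    {G : ∀ l ∈ Ioc j L, Finset (Fin (NN L))}
    (hE : vpE lab T rows0 lo j z)
    (hG : ∀ l hl, par l = (!par j) → G l hl ⊆ T (par j) ∧ (G l hl).card ≤ KK L l) :
    32 * ∑ y ∈ vpSg lab T rows0 lo j z G, vpc lab lo j y ≤ NN L := by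
  classical
  have hdisj : Set.PairwiseDisjoint (↑(Ioc j L).attach : Set {x // x ∈ Ioc j L})
      (fun l => if par l.1 = !par j then
        vpS lab T (par j) rows0 lo l.1 (z l.1) (G l.1 l.2) else ∅) := by
    intro l _ l' _ hne
    rw [Function.onFun, disjoint_left]
    intro y hy hy'
    by_cases h : par l.1 = !par j
    · by_cases h' : par l'.1 = !par j
      · simp only [h, h', if_true] at hy hy'
        have h1 : lvl lab (!par j) (lo y) = some (l.1, z l.1) := (mem_filter.1 hy).2.2.1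
        have h2 : lvl lab (!par j) (lo y) = some (l'.1, z l'.1) := (mem_filter.1 hy').2.2.1
        rw [h1] at h2
        simp only [Option.some.injEq, Prod.mk.injEq] at h2
        exact hne (Subtype.ext h2.1)
      · simp only [h', if_false] at hy'; exact absurd hy' (notMem_empty _)
    · simp only [h, if_false] at hy; exact absurd hy (notMem_empty _)
  have h1 : ∑ y ∈ vpSg lab T rows0 lo j z G, vpc lab lo j y
      ≤ ∑ l ∈ (Ioc j L).attach, 4 * ss l.1 * KK L l.1 * (kap j * DD l.1) := by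
    unfold vpSg
    rw [sum_biUnion hdisj]
    apply sum_le_sum
    intro l _
    by_cases h : par l.1 = !par j
    · simp only [h, if_true]
      rw [sum_congr rfl (fun y hy => vp_c_eq lab T hy), sum_const, smul_eq_mul]
      apply Nat.mul_le_mul_right
      have hl := mem_Ioc.1 l.2
      obtain ⟨h2, h3⟩ := hG l.1 l.2 h
      exact hE l.1 hl.1 hl.2 h _ h2 h3
    · simp only [h, if_false]; simp
  have h2 := num_hit hj
  have h3 : ((32 * ∑ l ∈ (Ioc j L).attach, 4 * ss l.1 * KK L l.1 * (kap j * DD l.1) : ℕ) : ℝ)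
      ≤ NN L := by
    rw [sum_attach (Ioc j L) (fun l => 4 * ss l * KK L l * (kap j * DD l))]
    push_cast
    linarith
  have h4 : 32 * ∑ l ∈ (Ioc j L).attach, 4 * ss l.1 * KK L l.1 * (kap j * DD l.1) ≤ NN L := by
    exact_mod_cast h3
  exact (Nat.mul_le_mul_left 32 h1).trans h4

open Classical in
/-- witnesses -/
noncomputable def vpW (L : ℕ) (T : Bool → Finset (Fin (NN L))) (j : ℕ) :
    Finset (Finset (Fin (NN L)) × (∀ l ∈ Ioc j L, Finset (Fin (NN L)))) :=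
  ((univ.filter (fun F : Finset (Fin (NN L)) => F.card = KK L (j + 2) + 1)) ×ˢ
    (Ioc j L).pi (fun l => univ.filter (fun G : Finset (Fin (NN L)) => G.card ≤ KK L l))).filter
    (fun w => w.1 ⊆ T (!par j) ∧ ∀ l hl, par l = (!par j) → w.2 l hl ⊆ T (par j))

theorem vpW_card (L : ℕ) (T : Bool → Finset (Fin (NN L))) {j : ℕ} (hj : j ≤ L) :
    ((vpW L T j).card : ℝ) ≤ Real.exp ((ss j : ℝ) * ((KK L (j + 2) : ℝ) + 1) / 4) := by
  classical
  refine le_trans ?_ (num_entropy hj)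
  have h1 : (vpW L T j).card ≤
      ((univ.filter (fun F : Finset (Fin (NN L)) => F.card = KK L (j + 2) + 1)).card) *
      ∏ l ∈ Ioc j L, (univ.filter (fun G : Finset (Fin (NN L)) => G.card ≤ KK L l)).card := by
    unfold vpW
    refine (card_filter_le _ _).trans (le_of_eq ?_)
    rw [card_product, card_pi]
  calc ((vpW L T j).card : ℝ) ≤
      ((((univ.filter (fun F : Finset (Fin (NN L)) => F.card = KK L (j + 2) + 1)).card) *
      ∏ l ∈ Ioc j L, (univ.filter (fun G : Finset (Fin (NN L)) => G.card ≤ KK L l)).card : ℕ) : ℝ) := by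
        exact_mod_cast h1
    _ = _ := by push_cast; rfl

/-- the event of a witness -/
def vpB (rows0 : Fin (NN L) → Sd × (Fin (NN L) → Fin (NN L)))
    (lo : Fin (NN L) → Sd) (j : ℕ) (z : ℕ → ℕ) (χ : ℕ)
    (w : Finset (Fin (NN L)) × (∀ l ∈ Ioc j L, Finset (Fin (NN L))))
    (rows' : Fin (NN L) → Sd × (Fin (NN L) → Fin (NN L))) : Prop :=
  ∀ h, h ∉ T (par j) → lvl lab (par j) (rows' h).1 = some (j, χ) →
      (∃ v ∈ w.1, (((rows' h).2 v : Fin (NN L)) : ℕ) < DD j) →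
      ∃ y ∈ vpSg lab T rows0 lo j z w.2, (((rows' h).2 y : Fin (NN L)) : ℕ) < vpc lab lo j y

open Classical in
theorem vp_step {j : ℕ} (z : ℕ → ℕ)
    (rows0 rows' : Fin (NN L) → Sd × (Fin (NN L) → Fin (NN L))) (lo : Fin (NN L) → Sd)
    (χ : ℕ)
    (hχ : vpV lab T (fun i => if i ∈ T (par j) then rows0 i else rows' i) lo j χ z) :
    ∃ w ∈ vpW L T j, vpB lab T rows0 lo j z χ w rows' := by
  obtain ⟨F, G, hF1, hF2, hG, hh⟩ := hχ
  refine ⟨(F, fun l _ => G l), ?_, ?_⟩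
  · unfold vpW
    rw [mem_filter, mem_product, mem_pi]
    refine ⟨⟨?_, ?_⟩, hF1, ?_⟩
    · rw [mem_filter]; exact ⟨mem_univ _, hF2⟩
    · intro l _; rw [mem_filter]; exact ⟨mem_univ _, (hG l).2⟩
    · intro l _ hl
      have := (hG l).1
      rw [hl, Bool.not_not] at this
      exact this
  · intro h0 hT0 hl0 hs0
    have h2 := hh h0 hT0 (by simp only [if_neg hT0]; exact hl0)
      (by simp only [if_neg hT0]; exact hs0)
    obtain ⟨l, hl1, hl2, hl3, g, hg, hg2⟩ := h2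
    have hGl : G l ⊆ T (par j) := by
      have := (hG l).1
      rw [hl3, Bool.not_not] at this
      exact this
    have h3 : vpS lab T (par j) (fun i => if i ∈ T (par j) then rows0 i else rows' i) lo l
        (z l) (G l) = vpS lab T (par j) rows0 lo l (z l) (G l) := by
      apply vp_S_congr
      intro v hv
      simp only [if_pos (hGl hv)]
    rw [h3] at hg
    refine ⟨g, (vp_mem_Sg lab T).2 ⟨l, mem_Ioc.2 ⟨hl1, hl2⟩, hl3, hg⟩, ?_⟩
    rw [vp_c_eq lab T hg]
    simp only [if_neg hT0] at hg2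
    exact hg2

open Classical in
/-- fixed colours and witnesses -/
theorem vp_fix [Fintype Sd] [Nonempty Sd] (hspec : LabSpec L lab) (hVP2 : VP2Main)
    (hT : ∀ b, (T b).card ≤ KK L 1) {j : ℕ} (hj : j ≤ L) (z : ℕ → ℕ)
    (rows0 : Fin (NN L) → Sd × (Fin (NN L) → Fin (NN L))) (lo : Fin (NN L) → Sd)
    (hE : vpE lab T rows0 lo j z) (Z : Finset ℕ) (hZ : Z ⊆ range (RR L j))
    (f : ℕ → (Finset (Fin (NN L)) × (∀ l ∈ Ioc j L, Finset (Fin (NN L)))))
    (hf : ∀ χ ∈ Z, f χ ∈ vpW L T j) :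
    pr (fun rows' : Fin (NN L) → Sd × (Fin (NN L) → Fin (NN L)) =>
      ∀ χ ∈ Z, vpB lab T rows0 lo j z χ (f χ) rows') ≤
      Real.exp (-(9 / 10 * (Z.card : ℝ) * ss j * ((KK L (j + 2) + 1 : ℕ) : ℝ))) := by
  have hTb : (T (par j)).card * 100 ≤ NN L := by
    have h1 := num_KK_one L
    have h2 := hT (par j)
    have h3 : (T (par j)).card * 100 ≤ KK L 1 * 2 ^ 72 := Nat.mul_le_mul h2 (by norm_num)
    exact h3.trans h1
  have hmem : ∀ χ ∈ Z, (f χ).1.card = KK L (j + 2) + 1 ∧ (f χ).1 ⊆ T (!par j) ∧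
      ∀ l hl, par l = (!par j) → (f χ).2 l hl ⊆ T (par j) ∧ ((f χ).2 l hl).card ≤ KK L l := by
    intro χ hχ
    have h2 := hf χ hχ
    unfold vpW at h2
    rw [mem_filter, mem_product, mem_pi] at h2
    refine ⟨(mem_filter.1 h2.1.1).2, h2.2.1, ?_⟩
    intro l hl hpar
    exact ⟨h2.2.2 l hl hpar, (mem_filter.1 (h2.1.2 l hl)).2⟩
  have hA : ∀ χ ∈ Z, ((f χ).1).card = KK L (j + 2) + 1 ∧
      Disjoint (f χ).1 (vpSg lab T rows0 lo j z (f χ).2) := by
    intro χ hχ
    obtain ⟨h1, h2, _⟩ := hmem χ hχ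
    refine ⟨h1, ?_⟩
    rw [disjoint_left]
    intro y hy hy'
    obtain ⟨l, hl, _, hyl⟩ := (vp_mem_Sg lab T).1 hy'
    exact (mem_filter.1 hyl).2.1 (h2 hy)
  have hB : ∀ χ ∈ Z, (∀ y ∈ vpSg lab T rows0 lo j z (f χ).2, vpc lab lo j y ≤ NN L) ∧
      32 * ∑ y ∈ vpSg lab T rows0 lo j z (f χ).2, vpc lab lo j y ≤ NN L := by
    intro χ hχ
    obtain ⟨_, _, h3⟩ := hmem χ hχ
    constructor
    · intro y hy
      obtain ⟨l, hl, _, hyl⟩ := (vp_mem_Sg lab T).1 hy
      rw [vp_c_eq lab T hyl]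
      exact num_kap_DD (mem_Ioc.1 hl).1 (mem_Ioc.1 hl).2
    · exact vp_sum lab T hj hE h3
  have hC := hVP2 L Sd ‹Fintype Sd› ‹Nonempty Sd› lab hspec j (KK L (j + 2) + 1) (T (par j)) Z
    (fun χ => (f χ).1) (fun χ => vpSg lab T rows0 lo j z (f χ).2) (fun _ => vpc lab lo j)
    hj hTb hZ hA (num_KK_DD hj) hB
  exact hC

theorem vp_num {L j : ℕ} (hj : j ≤ L) (T : Bool → Finset (Fin (NN L))) (t : ℕ)
    (htx : (RR L j : ℝ) / (9216 * ((L : ℝ) + 1)) ≤ t) :
    ((RR L j).choose t : ℝ) * (((vpW L T j).card : ℝ) ^ t *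
      Real.exp (-(9 / 10 * (t : ℝ) * ss j * ((KK L (j + 2) + 1 : ℕ) : ℝ))))
      ≤ Real.exp (-(NN L : ℝ) / (2 ^ 64 * ((L : ℝ) + 3) ^ 8)) := by
  have hgain := num_gain_V hj
  have hlog := num_log_RR L j
  have hWcard := vpW_card L T hj
  have hm' : (((KK L (j + 2) + 1 : ℕ)) : ℝ) = (KK L (j + 2) : ℝ) + 1 := by push_cast; rfl
  rw [hm']
  have hs0 : (0 : ℝ) < ss j := by exact_mod_cast ss_pos j
  have hR0 : (0 : ℝ) < RR L j := by exact_mod_cast RR_pos L j
  have hK0 : (0 : ℝ) ≤ (KK L (j + 2) : ℝ) := Nat.cast_nonneg _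
  have hE0 : (0 : ℝ) ≤ (NN L : ℝ) / (2 ^ 64 * ((L : ℝ) + 3) ^ 8) := by positivity
  have h5 : -(NN L : ℝ) / (2 ^ 64 * ((L : ℝ) + 3) ^ 8) =
      -((NN L : ℝ) / (2 ^ 64 * ((L : ℝ) + 3) ^ 8)) := by ring
  have h6 : 2 * (NN L : ℝ) / (2 ^ 64 * ((L : ℝ) + 3) ^ 8) =
      2 * ((NN L : ℝ) / (2 ^ 64 * ((L : ℝ) + 3) ^ 8)) := by ring
  rw [h6] at hgain
  rw [h5]
  generalize (NN L : ℝ) / (2 ^ 64 * ((L : ℝ) + 3) ^ 8) = e at hgain hE0
  generalize (RR L j : ℝ) / (9216 * ((L : ℝ) + 1)) = x at hgain htx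
  have hw0 : (0 : ℝ) ≤ ((vpW L T j).card : ℝ) := Nat.cast_nonneg _
  generalize ((vpW L T j).card : ℝ) = w at hWcard hw0
  have hm1 : (1 : ℝ) ≤ (KK L (j + 2) : ℝ) + 1 := by linarith
  generalize hmm : (KK L (j + 2) : ℝ) + 1 = m at hgain hWcard hm1
  have ht0 : (0 : ℝ) ≤ (t : ℝ) := Nat.cast_nonneg _
  have hch : ((RR L j).choose t : ℝ) ≤ Real.exp ((t : ℝ) * ((ss j : ℝ) / 1000)) := by
    have h1 : ((RR L j).choose t : ℝ) ≤ (RR L j : ℝ) ^ t := by
      exact_mod_cast Nat.choose_le_pow _ _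
    refine h1.trans ?_
    rw [Real.exp_nat_mul]
    apply pow_le_pow_left₀ hR0.le
    rw [← Real.log_le_iff_le_exp hR0]
    exact hlog
  have hwt : w ^ t ≤ Real.exp ((t : ℝ) * ((ss j : ℝ) * m / 4)) := by
    rw [Real.exp_nat_mul]
    exact pow_le_pow_left₀ hw0 hWcard t
  calc ((RR L j).choose t : ℝ) * (w ^ t * Real.exp (-(9 / 10 * (t : ℝ) * ss j * m)))
      ≤ Real.exp ((t : ℝ) * ((ss j : ℝ) / 1000)) *
        (Real.exp ((t : ℝ) * ((ss j : ℝ) * m / 4)) *
          Real.exp (-(9 / 10 * (t : ℝ) * ss j * m))) := by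
        gcongr
    _ = Real.exp ((t : ℝ) * ((ss j : ℝ) / 1000) + ((t : ℝ) * ((ss j : ℝ) * m / 4) +
          (-(9 / 10 * (t : ℝ) * ss j * m)))) := by
        rw [Real.exp_add, Real.exp_add]
    _ ≤ Real.exp (-e) := by
        apply Real.exp_le_exp.2
        have hts : 0 ≤ (t : ℝ) * ss j := mul_nonneg ht0 hs0.le
        have h7 : (t : ℝ) * ss j ≤ (t : ℝ) * ss j * m := by nlinarith
        have h8 : 2 * e ≤ (t : ℝ) * ss j * m := by
          refine hgain.trans ?_
          have : (ss j : ℝ) * m * x ≤ (ss j : ℝ) * m * t :=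
            mul_le_mul_of_nonneg_left htx (by positivity)
          nlinarith
        nlinarith

open Classical in
theorem vp_fixed [Fintype Sd] [Nonempty Sd] (hspec : LabSpec L lab) (hVP2 : VP2Main)
    (hT : ∀ b, (T b).card ≤ KK L 1) {j : ℕ} (hj : j ≤ L) (z : ℕ → ℕ)
    (rows0 : Fin (NN L) → Sd × (Fin (NN L) → Fin (NN L))) (lo : Fin (NN L) → Sd)
    (hE : vpE lab T rows0 lo j z) :
    pr (fun rows' : Fin (NN L) → Sd × (Fin (NN L) → Fin (NN L)) =>
      (RR L j : ℝ) / (9216 * ((L : ℝ) + 1)) ≤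
      (((range (RR L j)).filter (fun χ => vpV lab T
        (fun i => if i ∈ T (par j) then rows0 i else rows' i) lo j χ z)).card : ℝ))
    ≤ Real.exp (-(NN L : ℝ) / (2 ^ 64 * ((L : ℝ) + 3) ^ 8)) := by
  have hW0 : Nonempty (Finset (Fin (NN L)) × (∀ l ∈ Ioc j L, Finset (Fin (NN L)))) :=
    ⟨(∅, fun _ _ => ∅)⟩
  have hun := vp_union (RR L j) (vpW L T j) (vpB lab T rows0 lo j z)
    ((RR L j : ℝ) / (9216 * ((L : ℝ) + 1))) ⌈(RR L j : ℝ) / (9216 * ((L : ℝ) + 1))⌉₊ rfl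
    (q := Real.exp (-(9 / 10 * ((⌈(RR L j : ℝ) / (9216 * ((L : ℝ) + 1))⌉₊ : ℕ) : ℝ) * ss j *
      ((KK L (j + 2) + 1 : ℕ) : ℝ)))) (by
      intro Z hZ hZt f hf
      have h1 := vp_fix lab T hspec hVP2 hT hj z rows0 lo hE Z hZ f hf
      rw [hZt] at h1
      exact h1)
  refine le_trans (pr_mono ?_) (hun.trans (vp_num hj T _ (Nat.le_ceil _)))
  intro rows' h
  refine h.trans ?_
  have h1 : ((range (RR L j)).filter (fun χ => vpV lab T
      (fun i => if i ∈ T (par j) then rows0 i else rows' i) lo j χ z)).card ≤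
      ((range (RR L j)).filter (fun χ => ∃ w ∈ vpW L T j,
        vpB lab T rows0 lo j z χ w rows')).card := by
    apply card_le_card
    intro χ hχ
    rw [mem_filter] at hχ ⊢
    exact ⟨hχ.1, vp_step lab T z rows0 rows' lo χ hχ.2⟩
  exact_mod_cast h1

end

theorem vp_main : RowMain → VP2Main → VPMain := by
  intro hRow hVP2
  refine ⟨0, ?_⟩
  intro L _ Sd _ _ lab hspec T hT j hj z
  classical
  set x : ℝ := (RR L j : ℝ) / (9216 * ((L : ℝ) + 1)) with hx
  have hxpos : 0 < x := by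
    have hR0 : (0 : ℝ) < RR L j := by exact_mod_cast RR_pos L j
    positivity
  set Q : RowSp (NN L) Sd → Prop := fun R =>
    x ≤ (((range (RR L j)).filter (fun χ => vpE lab T R.1 R.2 j z ∧
      vpV lab T R.1 R.2 j χ z)).card : ℝ) with hQ
  have h1 : pr (fun ω : POm (NN L) Sd => x ≤
      (((range (RR L j)).filter (fun χ => (∀ l, j < l → l ≤ L → par l = !par j →
      Ev L lab ω T l (z l)) ∧ Vv L lab ω T j χ z)).card : ℝ)) ≤
      pr (fun ω : POm (NN L) Sd => Q (rowOf (par j) ω)) := by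
    apply pr_mono
    intro ω hω
    refine hω.trans ?_
    have h2 : ((range (RR L j)).filter (fun χ => (∀ l, j < l → l ≤ L → par l = !par j →
      Ev L lab ω T l (z l)) ∧ Vv L lab ω T j χ z)).card ≤
      ((range (RR L j)).filter (fun χ => vpE lab T (rowOf (par j) ω).1 (rowOf (par j) ω).2 j z ∧
      vpV lab T (rowOf (par j) ω).1 (rowOf (par j) ω).2 j χ z)).card := by
      apply card_le_card
      intro χ hχ
      rw [mem_filter] at hχ ⊢
      exact ⟨hχ.1, vp_Ev lab T ω j z hχ.2.1, vp_Vv lab T ω j χ z hχ.2.2⟩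
    exact_mod_cast h2
  refine h1.trans ?_
  rw [hRow (NN L) Sd inferInstance (par j) Q]
  -- fix the labels of the other side
  have h2 : pr Q = ex (fun lo : Fin (NN L) → Sd => pr (fun rows => Q (rows, lo))) := by
    rw [pr_prod]
    unfold pr
    exact ex_comm _
  rw [h2]
  apply ex_le_of_le (Real.exp_pos _).le
  intro lo
  rw [pr_merge (T (par j))]
  apply ex_le_of_le (Real.exp_pos _).le
  intro rows0
  by_cases hE : vpE lab T rows0 lo j z
  · refine le_trans (pr_mono ?_) (vp_fixed lab T hspec hVP2 hT hj z rows0 lo hE)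
    intro rows' h
    refine le_trans h ?_
    have h3 : ((range (RR L j)).filter (fun χ => vpE lab T
        (fun i => if i ∈ T (par j) then rows0 i else rows' i) lo j z ∧
        vpV lab T (fun i => if i ∈ T (par j) then rows0 i else rows' i) lo j χ z)).card ≤
        ((range (RR L j)).filter (fun χ =>
        vpV lab T (fun i => if i ∈ T (par j) then rows0 i else rows' i) lo j χ z)).card := by
      apply card_le_card
      intro χ hχ
      rw [mem_filter] at hχ ⊢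
      exact ⟨hχ.1, hχ.2.2⟩
    exact_mod_cast h3
  · -- the size events fail for all `rows'`
    refine ex_le_of_le (Real.exp_pos _).le ?_
    intro rows'
    rw [ind_neg]
    · exact (Real.exp_pos _).le
    · intro h
      have h3 : ((range (RR L j)).filter (fun χ => vpE lab T
        (fun i => if i ∈ T (par j) then rows0 i else rows' i) lo j z ∧
        vpV lab T (fun i => if i ∈ T (par j) then rows0 i else rows' i) lo j χ z)) = ∅ := by
        rw [filter_eq_empty_iff]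
        rintro χ _ ⟨hE', _⟩
        apply hE
        intro l hl1 hl2 hl3 G hG hc
        have h4 := hE' l hl1 hl2 hl3 G hG hc
        rwa [vp_S_congr lab T (par j) (rows' := rows0) lo l (z l) (G := G) (by
          intro v hv; simp only [hG hv, if_true])] at h4
      have h5 : x ≤ 0 := by
        have h6 : x ≤ (((range (RR L j)).filter (fun χ => vpE lab T
          (fun i => if i ∈ T (par j) then rows0 i else rows' i) lo j z ∧
          vpV lab T (fun i => if i ∈ T (par j) then rows0 i else rows' i) lo j χ z)).card : ℝ) := h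
        rw [h3] at h6
        simpa using h6
      linarith

end Pool.Agent.EGT
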