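import Pool.Agent.EGT.IDefs
import Pool.Agent.EGT.Core

/-! Project EGT, module VP2 (helper66). -/

open Finset

namespace Pool.Agent.EGT

theorem vp2_pr_and_prod {α β : Type*} [Fintype α] [Fintype β] (P : α → Prop) (Q : β → Prop) :
    pr (fun p : α × β => P p.1 ∧ Q p.2) = pr P * pr Q := by
  unfold pr
  rw [ex_prod]
  have : (fun a : α => ex (fun b : β => ind (P a ∧ Q b))) = fun a => ex (fun b => ind (Q b)) * ind (P a) := by
    funext a
    have h1 : (fun b : β => ind (P a ∧ Q b)) = fun b => ind (P a) * ind (Q b) := by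
      funext b; exact ind_and _ _
    rw [h1, ex_const_mul, mul_comm]
  show ex (fun a : α => ex (fun b : β => ind (P a ∧ Q b))) = _
  rw [this, ex_const_mul, mul_comm]

/-- disjoint events -/
theorem vp2_pr_exists_disj {Ω ι : Type*} [Fintype Ω] (s : Finset ι) (P : ι → Ω → Prop)
    (hd : ∀ i ∈ s, ∀ j ∈ s, i ≠ j → ∀ ω, ¬ (P i ω ∧ P j ω)) :
    ∑ i ∈ s, pr (P i) ≤ pr (fun ω => ∃ i ∈ s, P i ω) := by
  classical
  unfold pr
  rw [← ex_sum]
  apply ex_mono
  intro ω
  by_cases h : ∃ i ∈ s, P i ω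
  · obtain ⟨i, hi, hPi⟩ := h
    rw [ind_pos ⟨i, hi, hPi⟩, sum_eq_single i]
    · exact ind_le_one _
    · intro j hj hji
      exact ind_neg (fun hPj => hd i hi j hj (Ne.symm hji) ω ⟨hPi, hPj⟩)
    · intro hi'; exact absurd hi hi'
  · rw [ind_neg h]
    refine le_of_eq (sum_eq_zero ?_)
    intro i hi
    exact ind_neg (fun hPi => h ⟨i, hi, hPi⟩)

/-- independent events of probability at least `p`, coordinates in `s`: none of them happens -/
theorem vp2_pr_none_mem {ι : Type*} [Fintype ι] [DecidableEq ι] {Ω : ι → Type*} [∀ i, Fintype (Ω i)]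
    [∀ i, Nonempty (Ω i)] (s : Finset ι) (P : ∀ i, Ω i → Prop) {p : ℝ}
    (h : ∀ i ∈ s, p ≤ pr (P i)) :
    pr (fun ω : ∀ i, Ω i => ∀ i ∈ s, ¬ P i (ω i)) ≤ Real.exp (-(p * s.card)) := by
  rw [pr_pi_all_mem s (fun i (a : Ω i) => ¬ P i a)]
  have h1 : ∀ i ∈ s, pr (fun a : Ω i => ¬ P i a) ≤ Real.exp (-p) := by
    intro i hi
    rw [pr_not]
    have := Real.add_one_le_exp (-p)
    linarith [h i hi]
  calc ∏ i ∈ s, pr (fun a : Ω i => ¬ P i a) ≤ ∏ _i ∈ s, Real.exp (-p) :=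
        prod_le_prod (fun i _ => pr_nonneg _) h1
    _ = Real.exp (-(p * s.card)) := by
        rw [prod_const, ← Real.exp_nat_mul]; ring_nf

theorem vp2_lvl_par_iff {Sd : Type} (lab : Sd → Option (ℕ × ℕ)) (j χ : ℕ) (r : Sd) :
    lvl lab (par j) r = some (j, χ) ↔ lab r = some (j, χ) := by
  unfold lvl
  rw [Option.filter_eq_some_iff]
  simp

theorem vp2_main : VP2Main := by
  intro L Sd _ _ lab hspec j m Tb Zs F Sg c hj hT hZ hF hm hc
  classical
  have hNpos : 0 < NN L := by unfold NN; positivity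
  have hDpos : 0 < DD j := by unfold DD; positivity
  have hN : (0 : ℝ) < NN L := by exact_mod_cast hNpos
  have hD : (0 : ℝ) < DD j := by exact_mod_cast hDpos
  have : Nonempty (Fin (NN L)) := ⟨⟨0, hNpos⟩⟩
  -- one row
  set P : ℕ → Sd × (Fin (NN L) → Fin (NN L)) → Prop := fun χ row =>
    lvl lab (par j) row.1 = some (j, χ) ∧ ((∃ v ∈ F χ, ((row.2 v : Fin (NN L)) : ℕ) < DD j) ∧
      ∀ y ∈ Sg χ, ¬ ((row.2 y : Fin (NN L)) : ℕ) < c χ y) with hP
  have hm' : (1000 : ℝ) * m * DD j ≤ NN L := by exact_mod_cast hm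
  have hmD : (m : ℝ) * ((DD j : ℝ) / NN L) ≤ 1 / 1000 := by
    rw [← mul_div_assoc, div_le_iff₀ hN]; linarith
  have hone : ∀ χ ∈ Zs, (ss j : ℝ) / DD j * (m * ((DD j : ℝ) / NN L) * (9995 / 10000) * (31 / 32))
      ≤ pr (P χ) := by
    intro χ hχ
    have hFc := (hF χ hχ).1
    have hd := (hF χ hχ).2
    obtain ⟨hc1, hc2⟩ := hc χ hχ
    have h1 := vp2_pr_and_prod (fun r : Sd => lvl lab (par j) r = some (j, χ))
      (fun u : Fin (NN L) → Fin (NN L) => (∃ v ∈ F χ, ((u v : Fin (NN L)) : ℕ) < DD j) ∧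
      ∀ y ∈ Sg χ, ¬ ((u y : Fin (NN L)) : ℕ) < c χ y)
    have h2 : pr (fun r : Sd => lvl lab (par j) r = some (j, χ)) = (ss j : ℝ) / DD j := by
      rw [← hspec.prob j χ hj (mem_range.1 (hZ hχ))]
      congr 1
      funext r
      exact propext (vp2_lvl_par_iff lab j χ r)
    have h3 := pr_row (F χ) (Sg χ) hd (fun a : Fin (NN L) => (a : ℕ) < DD j)
      (fun y (a : Fin (NN L)) => (a : ℕ) < c χ y)
    have hDN : DD j ≤ NN L := by
      unfold DD NN
      calc 2 ^ 24 * 4 ^ j ≤ 2 ^ 24 * 4 ^ L :=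
            Nat.mul_le_mul_left _ (Nat.pow_le_pow_right (by norm_num) hj)
        _ ≤ 2 ^ 47 * (L + 1) ^ 3 * 4 ^ L := by
            apply Nat.mul_le_mul_right
            have h1 : 1 ≤ (L + 1) ^ 3 := Nat.one_le_pow _ _ (by omega)
            calc 2 ^ 24 = 2 ^ 24 * 1 := (Nat.mul_one _).symm
              _ ≤ 2 ^ 47 * (L + 1) ^ 3 :=
                  Nat.mul_le_mul (Nat.pow_le_pow_right (by norm_num) (by norm_num)) h1
    have h4 : pr (fun a : Fin (NN L) => (a : ℕ) < DD j) = (DD j : ℝ) / NN L := pr_fin_lt hDN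
    have h5 : ∏ y ∈ Sg χ, (1 - pr (fun a : Fin (NN L) => (a : ℕ) < c χ y)) ≥ 31 / 32 := by
      have h6 := one_sub_sum_le_prod (Sg χ) (fun y => pr (fun a : Fin (NN L) => (a : ℕ) < c χ y))
        (fun _ _ => pr_nonneg _) (fun _ _ => pr_le_one _)
      have h7 : ∑ y ∈ Sg χ, pr (fun a : Fin (NN L) => (a : ℕ) < c χ y) ≤ 1 / 32 := by
        have h8 : ∑ y ∈ Sg χ, pr (fun a : Fin (NN L) => (a : ℕ) < c χ y)
            = (∑ y ∈ Sg χ, (c χ y : ℝ)) / NN L := by
          rw [sum_div]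
          exact sum_congr rfl (fun y hy => pr_fin_lt (hc1 y hy))
        rw [h8, div_le_iff₀ hN]
        have : (32 : ℝ) * ∑ y ∈ Sg χ, (c χ y : ℝ) ≤ NN L := by exact_mod_cast hc2
        linarith
      linarith
    have hx0 : 0 ≤ (DD j : ℝ) / NN L := by positivity
    have hx1 : (DD j : ℝ) / NN L ≤ 1 := by
      rw [div_le_one hN]; exact_mod_cast hDN
    have h9 := one_sub_pow_le m hx0 hx1
    have hy0 : 0 ≤ (m : ℝ) * ((DD j : ℝ) / NN L) := by positivity
    have h10 : (m : ℝ) * ((DD j : ℝ) / NN L) * (9995 / 10000) ≤ 1 - (1 - (DD j : ℝ) / NN L) ^ m := by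
      nlinarith
    have h11 : pr (P χ) = (ss j : ℝ) / DD j * ((1 - (1 - (DD j : ℝ) / NN L) ^ m) *
        ∏ y ∈ Sg χ, (1 - pr (fun a : Fin (NN L) => (a : ℕ) < c χ y))) := by
      rw [hFc, h4] at h3
      rw [hP]
      simp only
      rw [h1, h2, h3]
    rw [h11]
    apply mul_le_mul_of_nonneg_left _ (by positivity)
    apply mul_le_mul h10 h5 (by norm_num)
    linarith [mul_nonneg hy0 (by norm_num : (0:ℝ) ≤ 9995 / 10000)]
  -- all labels
  have hall : (Zs.card : ℝ) * ((ss j : ℝ) / DD j * (m * ((DD j : ℝ) / NN L) * (9995 / 10000) *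
      (31 / 32))) ≤ pr (fun row => ∃ χ ∈ Zs, P χ row) := by
    refine le_trans ?_ (vp2_pr_exists_disj Zs P ?_)
    · rw [← nsmul_eq_mul, ← sum_const]
      exact sum_le_sum hone
    · intro χ _ χ' _ hne row hrow
      have h1 := hrow.1.1
      rw [hrow.2.1] at h1
      simp only [Option.some.injEq, Prod.mk.injEq, true_and] at h1
      exact hne h1.symm
  have hnone := vp2_pr_none_mem (Ω := fun _ : Fin (NN L) => Sd × (Fin (NN L) → Fin (NN L)))
    (univ \ Tb) (fun _ row => ∃ χ ∈ Zs, P χ row) (fun _ _ => hall)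
  refine le_trans (pr_mono ?_) (hnone.trans (Real.exp_le_exp.2 ?_))
  · rintro rows hrows h hh ⟨χ, hχ, hl, hs, he⟩
    have hhT : h ∉ Tb := (mem_sdiff.1 hh).2
    obtain ⟨y, hy, hy'⟩ := hrows χ hχ h hhT hl hs
    exact he y hy hy'
  · have hcard : (99 / 100 : ℝ) * NN L ≤ ((univ \ Tb).card : ℝ) := by
      have h1 : (univ \ Tb).card = NN L - Tb.card := by
        rw [card_sdiff_of_subset (subset_univ _), card_univ, Fintype.card_fin]
      have h2 : Tb.card ≤ NN L := by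
        have := card_le_univ Tb; rwa [Fintype.card_fin] at this
      rw [h1, Nat.cast_sub h2]
      have h3 : (Tb.card : ℝ) * 100 ≤ NN L := by exact_mod_cast hT
      linarith
    have hkey : (Zs.card : ℝ) * ((ss j : ℝ) / DD j * (m * ((DD j : ℝ) / NN L) * (9995 / 10000) *
      (31 / 32))) * (99 / 100 * NN L) = (Zs.card : ℝ) * ss j * m * (9995 / 10000 * (31 / 32) *
        (99 / 100)) := by
      field_simp
    have h0 : 0 ≤ (Zs.card : ℝ) * ((ss j : ℝ) / DD j * (m * ((DD j : ℝ) / NN L) * (9995 / 10000) *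
      (31 / 32))) := by positivity
    have h1 := mul_le_mul_of_nonneg_left hcard h0
    have h2 : 0 ≤ (Zs.card : ℝ) * ss j * m := by positivity
    rw [hkey] at h1
    nlinarith

end Pool.Agent.EGT
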