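import Mathlib
import Pool.Agent.EGT.IDefs

/-!
Project EGT (MP_0b8466_co): module WD (deterministic part of block W).
-/

open Finset

namespace Pool.Agent.EGT

namespace WD

theorem mem_cls {A : Type} {N : ℕ} {T : Finset (A × Fin N)} {a : A} {i : Fin N} :
    i ∈ cls T a ↔ (a, i) ∈ T := by
  unfold cls
  simp

section

variable {M N : ℕ} {Z : Type}
variable (mem : Ctx M → Fin (2 ^ rr M) → Bool → Ty M) (P : Ctx M → Fin (2 ^ rr M) → PSys N Z)

/-- injectivity at one context -/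
def Inj : Prop := ∀ c x b x' b', mem c x b = mem c x' b' → x = x' ∧ b = b'

/-- a pair is alive at one context only -/
def Uniq : Prop := ∀ c x c' y b y' b', mem c x false = mem c' y b → mem c x true = mem c' y' b' →
  c = c'

variable {mem} in
/-- the graph on `W` -/
def wG (hI : Inj mem) : SimpleGraph (Ty M × Fin N) where
  Adj v v' := ∃ c x, (mem c x false = v.1 ∧ mem c x true = v'.1 ∧ (P c x).adj v.2 v'.2) ∨
    (mem c x false = v'.1 ∧ mem c x true = v.1 ∧ (P c x).adj v'.2 v.2)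
  symm := ⟨by
    rintro v v' ⟨c, x, h⟩
    exact ⟨c, x, h.symm⟩⟩
  loopless := ⟨by
    rintro v ⟨c, x, ⟨h1, h2, -⟩ | ⟨h1, h2, -⟩⟩
    · exact absurd (hI c x false x true (h1.trans h2.symm)).2 (by decide)
    · exact absurd (hI c x false x true (h1.trans h2.symm)).2 (by decide)⟩

open Classical in
/-- the pair of a type at a context -/
noncomputable def wpair (c : Ctx M) (a : Ty M) : Option (Fin (2 ^ rr M)) :=
  if h : ∃ x, ∃ b, mem c x b = a then some h.choose else none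

variable {mem}

theorem wpair_iff (hI : Inj mem) {c : Ctx M} {a : Ty M} {x : Fin (2 ^ rr M)} :
    wpair mem c a = some x ↔ ∃ b, mem c x b = a := by
  unfold wpair
  constructor
  · intro h
    split_ifs at h with h1
    simp only [Option.some.injEq] at h
    rw [← h]
    exact h1.choose_spec
  · rintro ⟨b, hb⟩
    have h1 : ∃ x, ∃ b, mem c x b = a := ⟨x, b, hb⟩
    rw [dif_pos h1]
    obtain ⟨b', hb'⟩ := h1.choose_spec
    rw [(hI c _ b' x b (hb'.trans hb.symm)).1]

/-- alive vertices -/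
def walive (c : Ctx M) (z : Z) (v : Ty M × Fin N) : Prop :=
  ∃ x b, mem c x b = v.1 ∧ (P c x).alive z b v.2

theorem walive_iff (hI : Inj mem) {c : Ctx M} {z : Z} {x : Fin (2 ^ rr M)} {b : Bool} {i : Fin N} :
    walive (mem := mem) P c z (mem c x b, i) ↔ (P c x).alive z b i := by
  constructor
  · rintro ⟨x', b', h1, h2⟩
    obtain ⟨rfl, rfl⟩ := hI c x' b' x b h1
    exact h2
  · intro h
    exact ⟨x, b, rfl, h⟩

/-- edges between classes of one context -/
theorem adj_cases (hI : Inj mem) (hU : Uniq mem) {c : Ctx M} {x x' : Fin (2 ^ rr M)}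
    {b b' : Bool} {i j : Fin N} (h : (wG P hI).Adj (mem c x b, i) (mem c x' b', j)) :
    x = x' ∧ ((b = false ∧ b' = true ∧ (P c x).adj i j) ∨
      (b = true ∧ b' = false ∧ (P c x).adj j i)) := by
  obtain ⟨c', y, ⟨h1, h2, h3⟩ | ⟨h1, h2, h3⟩⟩ := h
  · have hc : c' = c := hU c' y c x b x' b' h1 h2
    subst hc
    obtain ⟨e1, e2⟩ := hI _ _ _ _ _ h1
    obtain ⟨e3, e4⟩ := hI _ _ _ _ _ h2
    subst e1
    subst e3
    exact ⟨rfl, Or.inl ⟨e2.symm, e4.symm, h3⟩⟩
  · have hc : c' = c := hU c' y c x' b' x b h1 h2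
    subst hc
    obtain ⟨e1, e2⟩ := hI _ _ _ _ _ h1
    obtain ⟨e3, e4⟩ := hI _ _ _ _ _ h2
    subst e1
    subst e3
    exact ⟨rfl, Or.inr ⟨e4.symm, e2.symm, h3⟩⟩

theorem adj_of (hI : Inj mem) {c : Ctx M} {x : Fin (2 ^ rr M)} {i j : Fin N}
    (h : (P c x).adj i j) : (wG P hI).Adj (mem c x false, i) (mem c x true, j) :=
  ⟨c, x, Or.inl ⟨rfl, rfl, h⟩⟩

/-- property 2 of `WMain` -/
theorem same_pair (hI : Inj mem) (hU : Uniq mem) (c : Ctx M) (v v' : Ty M × Fin N)
    (x x' : Fin (2 ^ rr M)) (h : wpair mem c v.1 = some x) (h' : wpair mem c v'.1 = some x')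
    (ha : (wG P hI).Adj v v') : x = x' := by
  obtain ⟨b, hb⟩ := (wpair_iff hI).mp h
  obtain ⟨b', hb'⟩ := (wpair_iff hI).mp h'
  obtain ⟨a, i⟩ := v
  obtain ⟨a', i'⟩ := v'
  simp only at hb hb'
  subst hb
  subst hb'
  exact (adj_cases P hI hU ha).1

open Classical in
/-- part of `K` in the class `(x, b)` -/
noncomputable def kp (mem : Ctx M → Fin (2 ^ rr M) → Bool → Ty M) (c : Ctx M)
    (x : Fin (2 ^ rr M)) (K : Finset (Ty M × Fin N)) (b : Bool) : Finset (Fin N) :=
  univ.filter (fun i => (mem c x b, i) ∈ K)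

theorem mem_kp {c : Ctx M} {x : Fin (2 ^ rr M)} {K : Finset (Ty M × Fin N)} {b : Bool}
    {i : Fin N} : i ∈ kp mem c x K b ↔ (mem c x b, i) ∈ K := by
  unfold kp
  rw [Finset.mem_filter]
  exact ⟨fun h => h.2, fun h => ⟨Finset.mem_univ _, h⟩⟩

theorem card_kp (hI : Inj mem) (c : Ctx M) (x : Fin (2 ^ rr M)) (K : Finset (Ty M × Fin N)) :
    (kp mem c x K false).card + (kp mem c x K true).card ≤ K.card := by
  classical
  have h1 : ((kp mem c x K false).image (fun i => (mem c x false, i))).card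
      = (kp mem c x K false).card :=
    Finset.card_image_of_injective _ fun i j h => (Prod.mk.inj h).2
  have h2 : ((kp mem c x K true).image (fun i => (mem c x true, i))).card
      = (kp mem c x K true).card :=
    Finset.card_image_of_injective _ fun i j h => (Prod.mk.inj h).2
  have h3 : Disjoint ((kp mem c x K false).image (fun i => (mem c x false, i)))
      ((kp mem c x K true).image (fun i => (mem c x true, i))) := by
    rw [Finset.disjoint_left]
    intro v hv hv'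
    rw [Finset.mem_image] at hv hv'
    obtain ⟨i, -, rfl⟩ := hv
    obtain ⟨j, -, hj⟩ := hv'
    exact absurd (hI c x true x false (Prod.mk.inj hj).1).2 (by decide)
  rw [← h1, ← h2, ← Finset.card_union_of_disjoint h3]
  refine Finset.card_le_card ?_
  intro v hv
  rw [Finset.mem_union, Finset.mem_image, Finset.mem_image] at hv
  rcases hv with ⟨i, hi, rfl⟩ | ⟨i, hi, rfl⟩
  · exact mem_kp.mp hi
  · exact mem_kp.mp hi

/-- property 3 of `WMain` -/
theorem cap (hI : Inj mem) (hU : Uniq mem) (hcap : ∀ c x, (P c x).CapGood) (c : Ctx M)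
    (x : Fin (2 ^ rr M)) (z : Z) (K : Finset (Ty M × Fin N))
    (hK : MISin (wG P hI) (fun v => wpair mem c v.1 = some x ∧ walive (mem := mem) P c z v) K) :
    N ≤ 20 * K.card := by
  obtain ⟨h1, h2, h3⟩ := hK
  have key := hcap c x z (kp mem c x K) ?_ ?_ ?_ ?_
  · exact key.trans (Nat.mul_le_mul_left _ (card_kp hI c x K))
  · intro b i hi
    exact (walive_iff P hI).mp (h1 _ (mem_kp.mp hi)).2
  · intro i hi j hj hadj
    exact h2 _ (mem_kp.mp hi) _ (mem_kp.mp hj) (adj_of P hI hadj)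
  · intro i hi hiK
    obtain ⟨u, hu, hadj⟩ := h3 (mem c x false, i)
      ⟨(wpair_iff hI).mpr ⟨false, rfl⟩, (walive_iff P hI).mpr hi⟩ (fun h => hiK (mem_kp.mpr h))
    obtain ⟨b', hb'⟩ := (wpair_iff hI).mp (h1 u hu).1
    obtain ⟨a, j⟩ := u
    simp only at hb'
    subst hb'
    rcases (adj_cases P hI hU hadj).2 with ⟨-, e, h⟩ | ⟨e, -, -⟩
    · subst e
      exact ⟨j, mem_kp.mpr hu, h⟩
    · exact absurd e (by decide)
  · intro j hj hjK
    obtain ⟨u, hu, hadj⟩ := h3 (mem c x true, j)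
      ⟨(wpair_iff hI).mpr ⟨true, rfl⟩, (walive_iff P hI).mpr hj⟩ (fun h => hjK (mem_kp.mpr h))
    obtain ⟨b', hb'⟩ := (wpair_iff hI).mp (h1 u hu).1
    obtain ⟨a, i⟩ := u
    simp only at hb'
    subst hb'
    rcases (adj_cases P hI hU hadj).2 with ⟨e, -, -⟩ | ⟨-, e, h⟩
    · exact absurd e (by decide)
    · subst e
      exact ⟨i, mem_kp.mpr hu, h⟩

/-- domination -/
theorem good (hI : Inj mem) (hU : Uniq mem) (c : Ctx M) (x : Fin (2 ^ rr M)) (z : Z)
    (T : Finset (Ty M × Fin N)) (hg : (P c x).PGood (fun b => cls T (mem c x b)) z) :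
    Good (wG P hI) (fun v => wpair mem c v.1 = some x ∧ walive (mem := mem) P c z v) T := by
  classical
  obtain ⟨J, h1, h2, h3, h4⟩ := hg
  have hT : ∀ b i, i ∈ cls T (mem c x b) ↔ (mem c x b, i) ∈ T := fun b i => mem_cls
  set JJ : Finset (Ty M × Fin N) := univ.biUnion (fun b : Bool =>
    (J b).image (fun i => (mem c x b, i))) with hJJ
  have hmem : ∀ v, v ∈ JJ ↔ ∃ b, ∃ i ∈ J b, (mem c x b, i) = v := by
    intro v
    rw [hJJ, Finset.mem_biUnion]
    constructor
    · rintro ⟨b, -, hv⟩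
      rw [Finset.mem_image] at hv
      exact ⟨b, hv⟩
    · rintro ⟨b, hv⟩
      exact ⟨b, Finset.mem_univ _, Finset.mem_image.mpr hv⟩
  refine ⟨JJ, ?_, ?_, ?_⟩
  · intro v hv
    obtain ⟨b, i, hi, rfl⟩ := (hmem v).mp hv
    refine ⟨⟨(wpair_iff hI).mpr ⟨b, rfl⟩, (walive_iff P hI).mpr (h1 b i hi).1⟩, ?_⟩
    intro hT'
    exact (h1 b i hi).2 ((hT b i).mpr hT')
  · intro u hu v hv hadj
    obtain ⟨b, i, hi, rfl⟩ := (hmem u).mp hu
    obtain ⟨b', j, hj, rfl⟩ := (hmem v).mp hv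
    rcases (adj_cases P hI hU hadj).2 with ⟨e, e', h⟩ | ⟨e, e', h⟩
    · subst e
      subst e'
      exact h2 i hi j hj h
    · subst e
      subst e'
      exact h2 j hj i hi h
  · rintro ⟨a, i⟩ hv ⟨hp, ha⟩
    obtain ⟨b, hb⟩ := (wpair_iff hI).mp hp
    simp only at hb
    subst hb
    have ha' := (walive_iff P hI).mp ha
    cases b
    · obtain ⟨j, hj, hadj⟩ := h3 i ((hT false i).mpr hv) ha'
      exact ⟨(mem c x true, j), (hmem _).mpr ⟨true, j, hj, rfl⟩, adj_of P hI hadj⟩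
    · obtain ⟨j, hj, hadj⟩ := h4 i ((hT true i).mpr hv) ha'
      exact ⟨(mem c x false, j), (hmem _).mpr ⟨false, j, hj, rfl⟩, (adj_of P hI hadj).symm⟩

end

end WD

/-- module WD -/
theorem wd_main (hW : WPMain) (hT : TyMain) : WMain := by
  obtain ⟨M0, hM0⟩ := hW
  refine ⟨max M0 2, fun M hM => ?_⟩
  obtain ⟨mem, hI, hU⟩ := hT M (le_trans (le_max_right _ _) hM)
  obtain ⟨N, Z, fZ, nZ, P, hN, hcap, hpr⟩ := hM0 M (le_trans (le_max_left _ _) hM) mem hI
  refine ⟨N, Z, fZ, nZ, WD.wG P hI, WD.wpair mem, WD.walive (mem := mem) P, hN,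
    WD.same_pair P hI hU, WD.cap P hI hU hcap, ?_⟩
  intro T hTc
  refine le_trans (pr_mono ?_) (hpr T hTc)
  rintro ⟨c, z, x⟩ h hg
  exact h (WD.good P hI hU c x z T hg)

end Pool.Agent.EGT
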