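import Pool.Agent.EGT.IDefs

/-!
Project EGT (MP_0b8466_co), module WP: selection of the pair systems of the block W.
-/

open Finset

namespace Pool.Agent.EGT

/-! ### numbers -/

private theorem wp_num1 {M : ℕ} (hM : 784 ≤ M) : 2 ^ (2 * (28 * M) ^ 2) ≤ NN (M ^ 3) := by
  have h1 : 2 * (28 * M) ^ 2 ≤ 2 * M ^ 3 := by
    have h : 784 * M ^ 2 ≤ M * M ^ 2 := Nat.mul_le_mul_right _ hM
    calc 2 * (28 * M) ^ 2 = 2 * (784 * M ^ 2) := by ring
      _ ≤ 2 * (M * M ^ 2) := Nat.mul_le_mul_left _ h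
      _ = 2 * M ^ 3 := by ring
  have h2 : (2 : ℕ) ^ (2 * M ^ 3) = 4 ^ (M ^ 3) := by
    rw [pow_mul]
    norm_num
  calc 2 ^ (2 * (28 * M) ^ 2) ≤ 2 ^ (2 * M ^ 3) := Nat.pow_le_pow_right (by norm_num) h1
    _ = 4 ^ (M ^ 3) := h2
    _ ≤ NN (M ^ 3) := by
        unfold NN
        exact Nat.le_mul_of_pos_left _ (by positivity)

private theorem wp_rr {M : ℕ} (hM : 2 ≤ M) : (2 : ℝ) ^ rr M * 2 ^ 29 = 2 ^ (28 * M) := by
  rw [← pow_add]
  congr 1
  unfold rr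
  omega

private theorem wp_cardI (M : ℕ) :
    Fintype.card (Ctx M × Fin (2 ^ rr M)) = M ^ 28 * 2 ^ rr M := by
  simp [Ctx]

private theorem wp_cardTy (M : ℕ) : Fintype.card (Ty M) = 2 ^ (28 * M) := by
  unfold Ty
  simp only [Fintype.card_fun, Fintype.card_fin, Fintype.card_bool]
  rw [← pow_mul, mul_comm]

private theorem wp_two_le_exp (n : ℕ) : (2 : ℝ) ^ n ≤ Real.exp n := by
  have h1 : (2 : ℝ) ≤ Real.exp 1 := by
    have := Real.add_one_le_exp (1 : ℝ)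
    linarith
  calc (2 : ℝ) ^ n ≤ (Real.exp 1) ^ n := pow_le_pow_left₀ (by norm_num) h1 n
    _ = Real.exp n := by rw [← Real.exp_nat_mul, mul_one]

private theorem wp_exp_neg_one : Real.exp (-1) < 1 / 2 := by
  have h1 : (2 : ℝ) < Real.exp 1 := by
    have := Real.exp_one_gt_d9
    linarith
  rw [Real.exp_neg, one_div]
  exact inv_strictAnti₀ (by norm_num) h1

private theorem wp_M_le_exp (M : ℕ) : (M : ℝ) ^ 28 ≤ Real.exp (28 * M) := by
  have h1 : (M : ℝ) ≤ Real.exp M := by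
    have := Real.add_one_le_exp (M : ℝ)
    linarith
  calc (M : ℝ) ^ 28 ≤ (Real.exp M) ^ 28 := pow_le_pow_left₀ (Nat.cast_nonneg _) h1 28
    _ = Real.exp (28 * M) := by rw [← Real.exp_nat_mul]; norm_num

/-- the number of pair systems times `exp (-L³)` is small -/
private theorem wp_num2 {M : ℕ} (hM : 784 ≤ M) :
    ((M ^ 28 * 2 ^ rr M : ℕ) : ℝ) * Real.exp (-((M ^ 3 : ℕ) : ℝ) ^ 3) < 1 / 2 := by
  have hMr : (784 : ℝ) ≤ M := by exact_mod_cast hM
  have h1 := wp_M_le_exp M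
  have h2 : (2 : ℝ) ^ rr M ≤ Real.exp (28 * M) := by
    refine (wp_two_le_exp _).trans (Real.exp_le_exp.mpr ?_)
    have : rr M ≤ 28 * M := by unfold rr; omega
    exact_mod_cast this
  have h3 : ((M ^ 28 * 2 ^ rr M : ℕ) : ℝ) ≤ Real.exp (56 * M) := by
    push_cast
    calc (M : ℝ) ^ 28 * 2 ^ rr M ≤ Real.exp (28 * M) * Real.exp (28 * M) :=
          mul_le_mul h1 h2 (by positivity) (Real.exp_pos _).le
      _ = Real.exp (56 * M) := by rw [← Real.exp_add]; congr 1; ring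
  have h4 : 56 * (M : ℝ) + -((M ^ 3 : ℕ) : ℝ) ^ 3 ≤ -1 := by
    push_cast
    have h5 : (57 : ℝ) ≤ (M : ℝ) ^ 8 := by
      calc (57 : ℝ) ≤ 784 ^ 8 := by norm_num
        _ ≤ (M : ℝ) ^ 8 := pow_le_pow_left₀ (by norm_num) hMr 8
    have h6 : ((M : ℝ) ^ 3) ^ 3 = M * (M : ℝ) ^ 8 := by ring
    rw [h6]
    have h7 : (M : ℝ) * 57 ≤ M * (M : ℝ) ^ 8 := mul_le_mul_of_nonneg_left h5 (by linarith)
    linarith
  calc ((M ^ 28 * 2 ^ rr M : ℕ) : ℝ) * Real.exp (-((M ^ 3 : ℕ) : ℝ) ^ 3)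
      ≤ Real.exp (56 * M) * Real.exp (-((M ^ 3 : ℕ) : ℝ) ^ 3) :=
        mul_le_mul_of_nonneg_right h3 (Real.exp_pos _).le
    _ = Real.exp (56 * M + -((M ^ 3 : ℕ) : ℝ) ^ 3) := by rw [← Real.exp_add]
    _ ≤ Real.exp (-1) := Real.exp_le_exp.mpr h4
    _ < 1 / 2 := wp_exp_neg_one

/-- the number of `T` times the probability of many bad pair systems is small -/
private theorem wp_num3 {M : ℕ} (hM : 2 ^ 52 ≤ M) :
    ((2 ^ (2 ^ (28 * M) * NN (M ^ 3)) : ℕ) : ℝ) * 2 ^ (M ^ 28 * 2 ^ rr M) *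
      Real.exp (-((NN (M ^ 3) : ℝ) / (((M ^ 3 : ℕ) : ℝ) + 3) ^ 9 *
        ((M ^ 28 * 2 ^ rr M : ℕ) : ℝ) / 3072)) < 1 / 2 := by
  have hM784 : 784 ≤ M := le_trans (by norm_num) hM
  have hMr : (2 : ℝ) ^ 52 ≤ M := by exact_mod_cast hM
  have hM0 : (0 : ℝ) < M := lt_of_lt_of_le (by norm_num) hMr
  set N : ℕ := NN (M ^ 3) with hN
  have hN1 : 2 ^ (2 * (28 * M) ^ 2) ≤ N := wp_num1 hM784
  -- M ^ 28 ≤ N
  have hMN : M ^ 28 ≤ N := by
    have h1 : M ^ 28 ≤ (2 ^ M) ^ 28 := Nat.pow_le_pow_left (Nat.lt_two_pow_self).le 28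
    have h2 : ((2 : ℕ) ^ M) ^ 28 ≤ 2 ^ (2 * (28 * M) ^ 2) := by
      rw [← pow_mul]
      refine Nat.pow_le_pow_right (by norm_num) ?_
      nlinarith
    exact (h1.trans h2).trans hN1
  have hNpos : 0 < N := lt_of_lt_of_le (by positivity) hN1
  set X : ℝ := (2 : ℝ) ^ (28 * M) * (N : ℝ) with hX
  have hX1 : 1 ≤ X := by
    have h1 : (1 : ℝ) ≤ 2 ^ (28 * M) := one_le_pow₀ (by norm_num)
    have h2 : (1 : ℝ) ≤ N := by exact_mod_cast hNpos
    calc (1 : ℝ) = 1 * 1 := by ring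
      _ ≤ 2 ^ (28 * M) * (N : ℝ) := mul_le_mul h1 h2 (by norm_num) (by positivity)
  set c : ℕ := M ^ 28 * 2 ^ rr M with hc
  have hcr : (c : ℝ) = (M : ℝ) ^ 28 * 2 ^ rr M := by rw [hc]; push_cast; ring
  have hcX : (c : ℝ) ≤ X := by
    have h1 : c ≤ 2 ^ (28 * M) * N := by
      rw [hc, mul_comm]
      refine Nat.mul_le_mul (Nat.pow_le_pow_right (by norm_num) ?_) hMN
      unfold rr; omega
    have h2 : (c : ℝ) ≤ ((2 ^ (28 * M) * N : ℕ) : ℝ) := by exact_mod_cast h1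
    rw [hX]
    push_cast at h2
    exact h2
  have hL : (((M ^ 3 : ℕ) : ℝ) + 3) ^ 9 ≤ 2 ^ 9 * (M : ℝ) ^ 27 := by
    push_cast
    have h1 : (3 : ℝ) ≤ (M : ℝ) ^ 3 := by
      calc (3 : ℝ) ≤ (2 ^ 52) ^ 3 := by norm_num
        _ ≤ (M : ℝ) ^ 3 := pow_le_pow_left₀ (by norm_num) hMr 3
    calc ((M : ℝ) ^ 3 + 3) ^ 9 ≤ (2 * (M : ℝ) ^ 3) ^ 9 :=
          pow_le_pow_left₀ (by positivity) (by linarith) 9
      _ = 2 ^ 9 * (M : ℝ) ^ 27 := by ring
  have hLpos : (0 : ℝ) < (((M ^ 3 : ℕ) : ℝ) + 3) ^ 9 := by positivity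
  have hrr := wp_rr (M := M) (by omega)
  have hE : 4 * X ≤ (N : ℝ) / (((M ^ 3 : ℕ) : ℝ) + 3) ^ 9 * (c : ℝ) / 3072 := by
    rw [hcr, div_mul_eq_mul_div, div_div, le_div_iff₀ (by positivity)]
    have h1 : X = 2 ^ 29 * 2 ^ rr M * (N : ℝ) := by
      rw [hX, ← hrr]; ring
    calc 4 * X * ((((M ^ 3 : ℕ) : ℝ) + 3) ^ 9 * 3072)
        ≤ 4 * X * ((2 ^ 9 * (M : ℝ) ^ 27) * 3072) := by
          refine mul_le_mul_of_nonneg_left ?_ (by linarith)
          exact mul_le_mul_of_nonneg_right hL (by norm_num)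
      _ = (4 * 2 ^ 29 * 2 ^ 9 * 3072) * ((N : ℝ) * (M : ℝ) ^ 27 * 2 ^ rr M) := by
          rw [h1]; ring
      _ ≤ (M : ℝ) * ((N : ℝ) * (M : ℝ) ^ 27 * 2 ^ rr M) := by
          refine mul_le_mul_of_nonneg_right ?_ (by positivity)
          refine le_trans ?_ hMr
          norm_num
      _ = (N : ℝ) * ((M : ℝ) ^ 28 * 2 ^ rr M) := by ring
  have hA : ((2 ^ (2 ^ (28 * M) * N) : ℕ) : ℝ) ≤ Real.exp X := by
    have h1 := wp_two_le_exp (2 ^ (28 * M) * N)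
    push_cast at h1 ⊢
    exact h1
  have hB : (2 : ℝ) ^ c ≤ Real.exp X :=
    (wp_two_le_exp c).trans (Real.exp_le_exp.mpr hcX)
  calc ((2 ^ (2 ^ (28 * M) * N) : ℕ) : ℝ) * 2 ^ c *
      Real.exp (-((N : ℝ) / (((M ^ 3 : ℕ) : ℝ) + 3) ^ 9 * (c : ℝ) / 3072))
      ≤ Real.exp X * Real.exp X * Real.exp (-(4 * X)) := by
        refine mul_le_mul (mul_le_mul hA hB (by positivity) (Real.exp_pos _).le)
          (Real.exp_le_exp.mpr (neg_le_neg hE)) (Real.exp_pos _).le (by positivity)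
    _ = Real.exp (X + X + -(4 * X)) := by rw [← Real.exp_add, ← Real.exp_add]
    _ ≤ Real.exp (-1) := Real.exp_le_exp.mpr (by linarith)
    _ < 1 / 2 := wp_exp_neg_one

/-! ### dense pairs -/

open Classical in
private theorem wp_sum_cls {A B : Type} [Fintype A] [Fintype B] {N : ℕ}
    (T : Finset (A × Fin N)) (f : B → A) (hf : Function.Injective f) :
    ∑ p : B, (cls T (f p)).card ≤ T.card := by
  have h1 : ∀ a : A, (cls T a).card = (T.filter (fun t => t.1 = a)).card := by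
    intro a
    have : T.filter (fun t => t.1 = a) = (cls T a).map
        ⟨fun i => (a, i), fun i j h => (Prod.mk.inj h).2⟩ := by
      ext ⟨a', i⟩
      rw [mem_filter, mem_map]
      constructor
      · rintro ⟨h, h'⟩
        have h'' : a' = a := h'
        subst h''
        exact ⟨i, by simpa [cls] using h, rfl⟩
      · rintro ⟨j, h, h'⟩
        have h'' : (a, j) = (a', i) := h'
        have h3 := Prod.mk.inj h''
        obtain ⟨rfl, rfl⟩ := h3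
        exact ⟨by simpa [cls] using h, rfl⟩
    rw [this, card_map]
  have h2 : ∑ p : B, (cls T (f p)).card = ∑ a ∈ univ.image f, (cls T a).card := by
    rw [sum_image fun x _ y _ h => hf h]
  have h3 : T.card = ∑ a : A, (T.filter (fun t => t.1 = a)).card :=
    card_eq_sum_card_fiberwise (fun t _ => mem_univ _)
  rw [h2, h3]
  refine le_trans (sum_le_sum_of_subset (subset_univ _)) (le_of_eq ?_)
  exact sum_congr rfl fun a _ => h1 a

open Classical in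
private theorem wp_dense {M N K : ℕ} (hNK : N ≤ (K + 1) * 2 ^ 72) (hNpos : 0 < N)
    (mem : Ctx M → Fin (2 ^ rr M) → Bool → Ty M)
    (hmem : ∀ c x b x' b', mem c x b = mem c x' b' → x = x' ∧ b = b') (hM : 2 ≤ M)
    (T : Finset (Ty M × Fin N))
    (hT : (T.card : ℝ) * 2 ^ 120 ≤ 2 ^ (28 * M) * (N : ℝ)) (c : Ctx M) :
    pr (fun x : Fin (2 ^ rr M) => ∃ b, K < (cls T (mem c x b)).card) ≤ 1 / 3072 := by
  set Dn : Finset (Fin (2 ^ rr M)) :=
    univ.filter (fun x => ∃ b, K < (cls T (mem c x b)).card) with hDn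
  have h1 : Dn.card * (K + 1) ≤ T.card := by
    calc Dn.card * (K + 1) = ∑ _x ∈ Dn, (K + 1) := by rw [sum_const, smul_eq_mul]
      _ ≤ ∑ x ∈ Dn, ∑ b : Bool, (cls T (mem c x b)).card := by
          refine sum_le_sum fun x hx => ?_
          obtain ⟨b, hb⟩ := (mem_filter.mp hx).2
          exact le_trans hb (single_le_sum (f := fun b => (cls T (mem c x b)).card)
            (fun _ _ => Nat.zero_le _) (mem_univ b))
      _ ≤ ∑ x : Fin (2 ^ rr M), ∑ b : Bool, (cls T (mem c x b)).card :=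
          sum_le_sum_of_subset (subset_univ _)
      _ = ∑ p : Fin (2 ^ rr M) × Bool, (cls T (mem c p.1 p.2)).card := by
          rw [Fintype.sum_prod_type]
      _ ≤ T.card := wp_sum_cls T (fun p : Fin (2 ^ rr M) × Bool => mem c p.1 p.2)
          (fun p q h => Prod.ext (hmem c _ _ _ _ h).1 (hmem c _ _ _ _ h).2)
  have h2 : (Dn.card : ℝ) * (N : ℝ) ≤ (T.card : ℝ) * 2 ^ 72 := by
    have h3 : Dn.card * N ≤ T.card * 2 ^ 72 := by
      calc Dn.card * N ≤ Dn.card * ((K + 1) * 2 ^ 72) := Nat.mul_le_mul_left _ hNK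
        _ = Dn.card * (K + 1) * 2 ^ 72 := by ring
        _ ≤ T.card * 2 ^ 72 := Nat.mul_le_mul_right _ h1
    exact_mod_cast h3
  have hNr : (0 : ℝ) < N := by exact_mod_cast hNpos
  have h4 : (Dn.card : ℝ) * 2 ^ 48 ≤ 2 ^ (28 * M) := by
    have h5 : (Dn.card : ℝ) * 2 ^ 48 * (N : ℝ) ≤ 2 ^ (28 * M) * (N : ℝ) := by
      calc (Dn.card : ℝ) * 2 ^ 48 * (N : ℝ) = ((Dn.card : ℝ) * (N : ℝ)) * 2 ^ 48 := by ring
        _ ≤ ((T.card : ℝ) * 2 ^ 72) * 2 ^ 48 := mul_le_mul_of_nonneg_right h2 (by positivity)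
        _ = (T.card : ℝ) * 2 ^ 120 := by ring
        _ ≤ 2 ^ (28 * M) * (N : ℝ) := hT
    exact le_of_mul_le_mul_right h5 hNr
  rw [pr_eq_card, Fintype.card_fin]
  rw [div_le_iff₀ (by positivity)]
  rw [← wp_rr hM] at h4
  have h6 : (Dn.card : ℝ) ≤ 1 / 3072 * ((2 ^ rr M : ℕ) : ℝ) := by
    push_cast
    have h7 : (0 : ℝ) < 2 ^ rr M := by positivity
    linarith
  exact h6

private theorem wp_NK (L : ℕ) : NN L ≤ (KK L 1 + 1) * 2 ^ 72 := by
  have h1 : KK L 1 = NN L / 2 ^ 72 := by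
    unfold KK DD
    norm_num
  have h2 := Nat.lt_div_mul_add (a := NN L) (b := 2 ^ 72) (by positivity)
  rw [← h1] at h2
  linarith

private theorem wp_NN_pos (L : ℕ) : 0 < NN L := by
  unfold NN; positivity

/-- module WP -/
theorem wp_main : PSMain → WSMain → WPMain := by
  classical
  rintro ⟨L0, hPS⟩ hWS
  refine ⟨max (2 ^ 52) L0, fun M hM mem hmem => ?_⟩
  have hM1 : 2 ^ 52 ≤ M := le_trans (le_max_left _ _) hM
  have hM784 : 784 ≤ M := le_trans (by norm_num) hM1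
  have hM2 : 2 ≤ M := le_trans (by norm_num) hM784
  have hML : L0 ≤ M ^ 3 :=
    (le_trans (le_max_right _ _) hM).trans (Nat.le_self_pow (by norm_num) M)
  obtain ⟨Om, Z, iOm, nOm, iZ, nZ, P, hcap, hT⟩ := hPS (M ^ 3) hML
  have hcI : Fintype.card (Ctx M × Fin (2 ^ rr M)) = M ^ 28 * 2 ^ rr M := wp_cardI M
  have hcT : Fintype.card (Finset (Ty M × Fin (NN (M ^ 3))))
      = 2 ^ (2 ^ (28 * M) * NN (M ^ 3)) := by
    rw [Fintype.card_finset, Fintype.card_prod, wp_cardTy, Fintype.card_fin]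
  obtain ⟨ω, hω1, hω2⟩ := hWS (Ctx M × Fin (2 ^ rr M)) Om
    (Finset (Ty M × Fin (NN (M ^ 3)))) inferInstance iOm nOm inferInstance
    (fun _ w => ¬ (P w).CapGood)
    (fun T i w => (∀ b, (cls T (mem i.1 i.2 b)).card ≤ KK (M ^ 3) 1) ∧
      1 / 3072 < pr (fun z : Z => ¬ (P w).PGood (fun b => cls T (mem i.1 i.2 b)) z))
    (Real.exp (-((M ^ 3 : ℕ) : ℝ) ^ 3))
    ((NN (M ^ 3) : ℝ) / (((M ^ 3 : ℕ) : ℝ) + 3) ^ 9)
    (by positivity) (fun _ => hcap)
    (by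
      intro T i
      by_cases h : ∀ b, (cls T (mem i.1 i.2 b)).card ≤ KK (M ^ 3) 1
      · refine le_trans (pr_mono fun w hw => hw.2) ?_
        have := hT (fun b => cls T (mem i.1 i.2 b)) h
        rw [neg_div] at this
        exact this
      · refine le_trans ?_ (Real.exp_pos _).le
        exact ex_le_of_le le_rfl fun w => (ind_neg fun hw => h hw.1).le)
    (by rw [hcI]; exact wp_num2 hM784)
    (by rw [hcI, hcT]; exact wp_num3 hM1)
  refine ⟨NN (M ^ 3), Z, iZ, nZ, fun c x => P (ω (c, x)), wp_num1 hM784,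
    fun c x => not_not.1 (hω1 (c, x)), fun T hTc => ?_⟩
  -- rearrange the coordinates
  let e : Ctx M × Z × Fin (2 ^ rr M) ≃ (Ctx M × Fin (2 ^ rr M)) × Z :=
    { toFun := fun p => ((p.1, p.2.2), p.2.1)
      invFun := fun p => (p.1.1, p.2, p.1.2)
      left_inv := fun _ => rfl
      right_inv := fun _ => rfl }
  have h1 := pr_equiv e (fun q : (Ctx M × Fin (2 ^ rr M)) × Z =>
    ¬ (P (ω q.1)).PGood (fun b => cls T (mem q.1.1 q.1.2 b)) q.2)
  have h2 : pr (fun p : Ctx M × Z × Fin (2 ^ rr M) =>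
      ¬ (P (ω (p.1, p.2.2))).PGood (fun b => cls T (mem p.1 p.2.2 b)) p.2.1)
      = ex (fun i : Ctx M × Fin (2 ^ rr M) =>
        pr (fun z : Z => ¬ (P (ω i)).PGood (fun b => cls T (mem i.1 i.2 b)) z)) :=
    h1.trans (pr_prod _)
  rw [h2]
  have hI : 0 < Fintype.card (Ctx M × Fin (2 ^ rr M)) := by
    rw [hcI]; positivity
  have hne : Nonempty (Ctx M × Fin (2 ^ rr M)) := Fintype.card_pos_iff.mp hI
  have h3 : ex (fun i : Ctx M × Fin (2 ^ rr M) =>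
        pr (fun z : Z => ¬ (P (ω i)).PGood (fun b => cls T (mem i.1 i.2 b)) z))
      ≤ ex (fun i : Ctx M × Fin (2 ^ rr M) =>
        (ind (∃ b, KK (M ^ 3) 1 < (cls T (mem i.1 i.2 b)).card) +
        ind ((∀ b, (cls T (mem i.1 i.2 b)).card ≤ KK (M ^ 3) 1) ∧
          1 / 3072 < pr (fun z : Z => ¬ (P (ω i)).PGood (fun b => cls T (mem i.1 i.2 b)) z)))
        + 1 / 3072) := by
    refine ex_mono fun i => ?_
    have hle := pr_le_one (fun z : Z => ¬ (P (ω i)).PGood (fun b => cls T (mem i.1 i.2 b)) z)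
    by_cases hd : ∃ b, KK (M ^ 3) 1 < (cls T (mem i.1 i.2 b)).card
    · rw [ind_pos hd]
      have := ind_nonneg ((∀ b, (cls T (mem i.1 i.2 b)).card ≤ KK (M ^ 3) 1) ∧
          1 / 3072 < pr (fun z : Z => ¬ (P (ω i)).PGood (fun b => cls T (mem i.1 i.2 b)) z))
      linarith
    · have hd' : ∀ b, (cls T (mem i.1 i.2 b)).card ≤ KK (M ^ 3) 1 := by
        intro b
        by_contra hb
        exact hd ⟨b, not_le.mp hb⟩
      by_cases hb : 1 / 3072 < pr (fun z : Z => ¬ (P (ω i)).PGood (fun b => cls T (mem i.1 i.2 b)) z)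
      · rw [ind_pos (⟨hd', hb⟩ : _ ∧ _), ind_neg hd]
        linarith
      · rw [ind_neg hd, ind_neg (fun h : _ ∧ _ => hb h.2)]
        linarith [not_lt.mp hb]
  refine h3.trans ?_
  rw [ex_add, ex_add, ex_const]
  have h4 : ex (fun i : Ctx M × Fin (2 ^ rr M) =>
      ind (∃ b, KK (M ^ 3) 1 < (cls T (mem i.1 i.2 b)).card)) ≤ 1 / 3072 :=
    pr_prod_le (fun i : Ctx M × Fin (2 ^ rr M) =>
      ∃ b, KK (M ^ 3) 1 < (cls T (mem i.1 i.2 b)).card) (by norm_num)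
      (fun c => wp_dense (wp_NK _) (wp_NN_pos _) mem hmem hM2 T hTc c)
  have h5 : ex (fun i : Ctx M × Fin (2 ^ rr M) =>
      ind ((∀ b, (cls T (mem i.1 i.2 b)).card ≤ KK (M ^ 3) 1) ∧
          1 / 3072 < pr (fun z : Z => ¬ (P (ω i)).PGood (fun b => cls T (mem i.1 i.2 b)) z)))
      ≤ 1 / 3072 := by
    have h6 := pr_eq_card (fun i : Ctx M × Fin (2 ^ rr M) =>
      (∀ b, (cls T (mem i.1 i.2 b)).card ≤ KK (M ^ 3) 1) ∧
          1 / 3072 < pr (fun z : Z => ¬ (P (ω i)).PGood (fun b => cls T (mem i.1 i.2 b)) z))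
    refine le_of_eq_of_le h6 ?_
    have hIr : (0 : ℝ) < (Fintype.card (Ctx M × Fin (2 ^ rr M)) : ℝ) := by exact_mod_cast hI
    rw [div_le_iff₀ hIr]
    have h7 := hω2 T
    refine le_trans (le_of_eq ?_) (h7.trans (le_of_eq (by ring)))
    congr
  linarith

end Pool.Agent.EGT
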