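import Mathlib
import Pool.Agent.EGT.IDefs

/-!
Project EGT (MP_0b8466_co), module WS: selection of the pair systems.
-/

open Finset

namespace Pool.Agent.EGT

theorem wsMain : WSMain := by
  classical
  intro I Om Tt _ _ _ _ capbad bad δ E hE hcap hbad h1 h2
  -- cap part
  have hA : pr (fun ω : I → Om => ∃ i ∈ (univ : Finset I), capbad i (ω i)) < 1 / 2 := by
    refine lt_of_le_of_lt (pr_exists_le (univ : Finset I) (fun i (ω : I → Om) => capbad i (ω i))
      (b := δ) (fun i _ => ?_)) ?_
    · rw [pr_pi_one (Ω := fun _ : I => Om) i (capbad i)]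
      exact hcap i
    · rw [Finset.card_univ]
      exact h1
  -- bad part
  have hB1 : ∀ T : Tt, pr (fun ω : I → Om =>
      ¬ ((univ.filter (fun i => bad T i (ω i))).card : ℝ) ≤ (Fintype.card I : ℝ) / 3072)
      ≤ 2 ^ (Fintype.card I) * Real.exp (-(E * (Fintype.card I : ℝ) / 3072)) := by
    intro T
    set SS : Finset (Finset I) := (univ : Finset (Finset I)).filter
      (fun S => (Fintype.card I : ℝ) / 3072 < (S.card : ℝ)) with hSS
    have h3 : pr (fun ω : I → Om =>
        ¬ ((univ.filter (fun i => bad T i (ω i))).card : ℝ) ≤ (Fintype.card I : ℝ) / 3072)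
        ≤ pr (fun ω : I → Om => ∃ S ∈ SS, ∀ i ∈ S, bad T i (ω i)) := by
      refine pr_mono fun ω h => ?_
      refine ⟨univ.filter (fun i => bad T i (ω i)), ?_, ?_⟩
      · rw [hSS, Finset.mem_filter]
        exact ⟨Finset.mem_univ _, not_le.mp h⟩
      · intro i hi
        exact (Finset.mem_filter.mp hi).2
    refine h3.trans ?_
    have h4 := pr_exists_le SS (fun S (ω : I → Om) => ∀ i ∈ S, bad T i (ω i))
      (b := Real.exp (-(E * (Fintype.card I : ℝ) / 3072))) (fun S hS => ?_)
    · refine h4.trans ?_
      apply mul_le_mul_of_nonneg_right _ (Real.exp_pos _).le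
      have h5 : SS.card ≤ 2 ^ (Fintype.card I) := by
        calc SS.card ≤ (univ : Finset (Finset I)).card := Finset.card_le_card (Finset.filter_subset _ _)
          _ = 2 ^ (Fintype.card I) := by
            rw [Finset.card_univ, Fintype.card_finset]
      exact_mod_cast h5
    · rw [pr_pi_all_mem (Ω := fun _ : I => Om) S (fun i o => bad T i o)]
      have hSc : (Fintype.card I : ℝ) / 3072 < (S.card : ℝ) := (Finset.mem_filter.mp hS).2
      calc ∏ i ∈ S, pr (fun o => bad T i o) ≤ ∏ _i ∈ S, Real.exp (-E) :=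
            Finset.prod_le_prod (fun i _ => pr_nonneg _) (fun i _ => hbad T i)
        _ = Real.exp (-(E * S.card)) := by
            rw [Finset.prod_const, ← Real.exp_nat_mul]
            congr 1
            ring
        _ ≤ Real.exp (-(E * (Fintype.card I : ℝ) / 3072)) := by
            apply Real.exp_le_exp.mpr
            have := mul_le_mul_of_nonneg_left hSc.le hE
            have h6 : E * ((Fintype.card I : ℝ) / 3072) = E * (Fintype.card I : ℝ) / 3072 := by ring
            linarith
  have hB : pr (fun ω : I → Om => ∃ T ∈ (univ : Finset Tt),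
      ¬ ((univ.filter (fun i => bad T i (ω i))).card : ℝ) ≤ (Fintype.card I : ℝ) / 3072) < 1 / 2 := by
    refine lt_of_le_of_lt (pr_exists_le (univ : Finset Tt) _ (fun T _ => hB1 T)) ?_
    rw [Finset.card_univ, ← mul_assoc]
    exact h2
  have hAB := pr_or (fun ω : I → Om => ∃ i ∈ (univ : Finset I), capbad i (ω i))
    (fun ω : I → Om => ∃ T ∈ (univ : Finset Tt),
      ¬ ((univ.filter (fun i => bad T i (ω i))).card : ℝ) ≤ (Fintype.card I : ℝ) / 3072)
  obtain ⟨ω, hω⟩ := exists_not_of_pr_lt (lt_of_le_of_lt hAB (by linarith))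
  push Not at hω
  exact ⟨ω, fun i => hω.1 i (Finset.mem_univ i), fun T => hω.2 T (Finset.mem_univ T)⟩

theorem ws_main : WSMain := wsMain

end Pool.Agent.EGT
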