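import Mathlib
import Pool.Agent.EGT.Prob
import Pool.Agent.EGT.IDefs

/-!
Project EGT (MP_0b8466_co), module ZS: random selection of the contexts.
-/

open Finset

namespace Pool.Agent.EGT

/-- sum of indicators is the number of indices -/
theorem zs_sum_ind {ι : Type*} [Fintype ι] (P : ι → Prop) [DecidablePred P] :
    ∑ i, ind (P i) = ((univ.filter P).card : ℝ) := by
  rw [Finset.card_filter, Nat.cast_sum]
  refine Finset.sum_congr rfl fun i _ => ?_
  by_cases h : P i
  · rw [ind_pos h, if_pos h, Nat.cast_one]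
  · rw [ind_neg h, if_neg h, Nat.cast_zero]

theorem zs_main : ZSMain := by
  classical
  intro m t U Om _ _ _ Gd hm hU ht hgood
  have hm0 : (1000 : ℝ) ≤ m := by exact_mod_cast hm
  have hU' : (Fintype.card U : ℝ) ≤ 2 * m := by exact_mod_cast hU
  have ht' : 64 * (t : ℝ) ≤ m := by exact_mod_cast ht
  -- union bound over the sets of size at most t
  have key : pr (fun zf : Fin m → Om => ∃ T ∈ univ.filter (fun T : Finset U => T.card ≤ t),
      ∑ i, ind (Gd T (zf i)) ≤ (t : ℝ)) < 1 := by
    have h1 : ∀ T ∈ univ.filter (fun T : Finset U => T.card ≤ t),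
        pr (fun zf : Fin m → Om => ∑ i, ind (Gd T (zf i)) ≤ (t : ℝ))
          ≤ Real.exp (1 * (t : ℝ) - (1 - Real.exp (-1)) * (3 / 8 * m)) := by
      intro T hT
      have hTt : T.card ≤ t := (Finset.mem_filter.mp hT).2
      refine chernoff_lower (Ω := fun _ : Fin m => Om) (fun (_ : Fin m) (o : Om) => Gd T o)
        (lam := 1) (a := (t : ℝ)) (mu := 3 / 8 * m) zero_le_one ?_
      rw [Finset.sum_const, Finset.card_univ, Fintype.card_fin, nsmul_eq_mul]
      have := hgood T hTt
      have hm1 : (0 : ℝ) ≤ m := by linarith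
      calc (3 / 8 * (m : ℝ)) = m * (3 / 8) := by ring
        _ ≤ m * pr (Gd T) := mul_le_mul_of_nonneg_left this hm1
    refine (pr_exists_le _ _ h1).trans_lt ?_
    have h2 := card_small_subsets (α := U) (t := t) (x := 1 / 32) (by norm_num) (by norm_num)
    have h3 : Real.log (1 / (1 / 32 : ℝ)) = 5 * Real.log 2 := by
      rw [show (1 / (1 / 32 : ℝ)) = 2 ^ 5 by norm_num, Real.log_pow]; norm_num
    rw [h3] at h2
    have h4 := Real.log_two_lt_d9
    have h5 := Real.exp_neg_one_lt_d9
    calc ((univ.filter (fun T : Finset U => T.card ≤ t)).card : ℝ)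
          * Real.exp (1 * (t : ℝ) - (1 - Real.exp (-1)) * (3 / 8 * m))
        ≤ Real.exp (1 / 32 * (Fintype.card U : ℝ) + t * (5 * Real.log 2))
          * Real.exp (1 * (t : ℝ) - (1 - Real.exp (-1)) * (3 / 8 * m)) :=
          mul_le_mul_of_nonneg_right h2 (Real.exp_pos _).le
      _ = Real.exp (1 / 32 * (Fintype.card U : ℝ) + t * (5 * Real.log 2)
          + (1 * (t : ℝ) - (1 - Real.exp (-1)) * (3 / 8 * m))) := (Real.exp_add _ _).symm
      _ < 1 := by
          rw [Real.exp_lt_one_iff]
          have ht0 : (0 : ℝ) ≤ t := Nat.cast_nonneg t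
          have h6 : (t : ℝ) * (5 * Real.log 2) ≤ t * 3.5 :=
            mul_le_mul_of_nonneg_left (by linarith) ht0
          have h7 : (0.63 : ℝ) * (3 / 8 * m) ≤ (1 - Real.exp (-1)) * (3 / 8 * m) :=
            mul_le_mul_of_nonneg_right (by linarith) (by linarith)
          nlinarith
  obtain ⟨zf, hzf⟩ := exists_not_of_pr_lt key
  refine ⟨zf, fun T hT => ?_⟩
  by_contra hcon
  refine hzf ⟨T, Finset.mem_filter.mpr ⟨Finset.mem_univ _, hT⟩, ?_⟩
  rw [zs_sum_ind]
  exact_mod_cast not_lt.mp hcon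

end Pool.Agent.EGT
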